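import Pool.Agent.PP5LA.Sht

/-!
# LB5, section A, module Sed (size 2): every seed has its data

PROOF.  `s = (n, c) ∈ Sd w D N`: `n > 0` (`n > N / 2`), `n` is odd (`w`-rough, `w ≥ 2`), `n ∣ c² - D`, `c < n`.  `n = 2 m + 1`: `r := (c + B) (m + 1)`
satisfies `2 r = (c + B)(n + 1)`, so `n ∣ 2 r - B - c`; `4 (r² - B r + A C) = (2r - B)² - D = c² - D = 0 mod n`, `n` odd, so
`n ∣ r² - B r + A C`.  Apply `short`; `k = g k0`; `qf v = 0` by `qf_Ps` (module Wed; `(n1 k0)² qf v = qf (Ps b) = 0`).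
-/

set_option autoImplicit false

namespace Pool.Agent.PP5LA

open Matrix Finset Pool.Agent.PP5B Pool.Agent.LB

private theorem Sed_qf_Ps (A B C : ℤ) (b : Fin 4 → ℤ) : qf A B C (Ps A B C b) = 0 := by
  simp only [qf, Ps, Nn, Tt, Matrix.cons_val]
  ring

private theorem Sed_qf_smul (A B C l : ℤ) (v : Fin 4 → ℤ) :
    qf A B C (fun i => l * v i) = l ^ 2 * qf A B C v := by
  simp only [qf]
  ring

theorem sed {A B C : ℤ} (hA : 0 < A) (hD : B ^ 2 - 4 * A * C < 0) {w N : ℕ} (hw : 2 ≤ w)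
    (hAn : ∀ n : ℕ, 0 < n → n ≤ N → IsCoprime A (n : ℤ)) {τ : Fin 4 → ℝ} (h1 : τ 1 ≠ 0)
    (hq : qf (A : ℝ) B C τ < 0) (s : ℕ × ℕ) (hs : s ∈ Sd w (B ^ 2 - 4 * A * C) N) :
    ∃ (k : ℕ) (v : Fin 4 → ℤ), 0 < k ∧ Dt A B C s k v ∧ qf A B C v = 0 ∧ Pr4 v ∧
      |bf (A : ℝ) B C τ (rv v)| * (k : ℝ) ≤ 8 * √(-qf (A : ℝ) B C τ) * √(((4 * A * C - B ^ 2 : ℤ) : ℝ)) := by
  classical
  unfold Sd at hs
  rw [Finset.mem_filter, Finset.mem_product, Finset.mem_Ioc, Finset.mem_range] at hs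
  obtain ⟨⟨⟨hn1, hn2⟩, _⟩, _, _, hrough, hdvd⟩ := hs
  set n : ℕ := s.1 with hnn
  set c : ℕ := s.2 with hcc
  have hn0 : 0 < n := lt_of_le_of_lt (Nat.zero_le _) hn1
  have hodd : ¬ 2 ∣ n := fun h => by
    have := hrough 2 Nat.prime_two h
    omega
  obtain ⟨m, hm⟩ : ∃ m, n = 2 * m + 1 := ⟨n / 2, by omega⟩
  have hmZ : (n : ℤ) = 2 * m + 1 := by exact_mod_cast hm
  have h2r : 2 * (((c : ℤ) + B) * (m + 1)) - B - c = (n : ℤ) * (c + B) := by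
    rw [hmZ]; ring
  have hr : (n : ℤ) ∣ (((c : ℤ) + B) * (m + 1)) ^ 2 - B * (((c : ℤ) + B) * (m + 1)) + A * C := by
    have hcop : IsCoprime (n : ℤ) (4 : ℤ) := by
      have h2 : IsCoprime (n : ℤ) (2 : ℤ) := ⟨1, -m, by rw [hmZ]; ring⟩
      have := h2.pow_right (n := 2)
      norm_num at this
      exact this
    apply hcop.dvd_of_dvd_mul_left
    obtain ⟨t, ht⟩ := hdvd
    refine ⟨t + (c + B) * (2 * c + n * (c + B)), ?_⟩
    have e : 2 * (((c : ℤ) + B) * (m + 1)) = B + c + (n : ℤ) * (c + B) := by linarith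
    have e2 : 4 * ((((c : ℤ) + B) * (m + 1)) ^ 2 - B * (((c : ℤ) + B) * (m + 1)) + A * C)
        = (2 * (((c : ℤ) + B) * (m + 1)) - B) ^ 2 - (B ^ 2 - 4 * A * C) := by ring
    rw [e2, e]
    linear_combination ht
  obtain ⟨g, n1, k0, b, v, hSh, hle⟩ := short hA hD hn0 hr (hAn n hn0 hn2) τ h1 hq
  refine ⟨g * k0, v, Nat.mul_pos hSh.g0 hSh.k00, ⟨_, g, n1, k0, b, hSh, rfl, ?_⟩, ?_, hSh.pv, ?_⟩
  · rw [h2r]; exact Dvd.intro _ rfl
  · have h3 := Sed_qf_Ps A B C b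
    have h4 : Ps A B C b = fun i => ((n1 : ℤ) * k0) * v i := by
      funext i; exact hSh.ps i
    rw [h4, Sed_qf_smul] at h3
    have h5 : ((n1 : ℤ) * k0) ^ 2 ≠ 0 := by
      have a1 : (n1 : ℤ) ≠ 0 := by exact_mod_cast hSh.n0.ne'
      have a2 : (k0 : ℤ) ≠ 0 := by exact_mod_cast hSh.k00.ne'
      positivity
    exact (mul_eq_zero.mp h3).resolve_left h5
  · rw [Nat.cast_mul]
    exact hle

end Pool.Agent.PP5LA
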