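import Pool.Agent.PP5LA.Defs
import Pool.Agent.PP5.DI
import Pool.Agent.PP5.LId2

/-!
# LB5, section A, module Cor (size 3): coordinates of `L_x`

PROOF.  `PP5L.Lx_summary hF hp hD` (`PP5/LMain.lean`): `finrank ℤ (Lx x) = 4`, so there is a basis `b : Basis (Fin 4) ℤ (Lx x)`
(`Module.finBasisOfFinrankEq`), and its second part gives a Gram matrix `G` with `Bd (b i) (b k) j = G i k * x j`.  `Spl x` with `b, G` and `N`:
`U` with `det U = 1`, `Uᵀ G U = Hyp A B C`, `B² - 4 A C = DD x`, `IsCoprime A N`.  `e i := fun a => (Σ_k U k i • b k) (ix a)` (`PP5.ix`,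
`PP5.emb_surj`: `emb (e i) = Σ_k U k i b_k`).  `inE`: `PP5.emb_mem`.  `sur`: coordinates in the basis `b`, times `U⁻¹ = adjugate`.
`inj`: `U` invertible, `b` linearly independent.  `bil`: `Bd` is bilinear, `(U u)ᵀ G (U v) = uᵀ Hyp v = bf A B C u v`.
`crd_pr`: if `p ∣ (lc e v)_a` for all `a`, then `lc e v = p P'`, `InE P' x`, `P' = lc e v'`, `v = p v'`; the converse is trivial.
`crd_qd`: `Bd s s j = 2 Qd s j` (`PP5L.Bd_self`), `bf A B C v v = 2 qf A B C v`, some `x j ≠ 0`; `PP5.Qd_iff`.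
-/

set_option autoImplicit false

namespace Pool.Agent.PP5LA

open Matrix Finset Pool.Agent.PP5B Pool.Agent.LB

private theorem Cor_Bd_add (s s' t : Fin 16 → ℤ) (j : Fin 10) :
    PP5L.Bd (s + s') t j = PP5L.Bd s t j + PP5L.Bd s' t j := by
  fin_cases j <;>
    (simp only [Fin.zero_eta, Fin.mk_one, Fin.reduceFinMk, PP5L.Bd, Matrix.cons_val, Pi.add_apply]
     ring)

private theorem Cor_Bd_smul (c : ℤ) (s t : Fin 16 → ℤ) (j : Fin 10) :
    PP5L.Bd (c • s) t j = c * PP5L.Bd s t j := by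
  fin_cases j <;>
    (simp only [Fin.zero_eta, Fin.mk_one, Fin.reduceFinMk, PP5L.Bd, Matrix.cons_val, Pi.smul_apply, smul_eq_mul]
     ring)

private def Cor_Bl (t : Fin 16 → ℤ) (j : Fin 10) : (Fin 16 → ℤ) →ₗ[ℤ] ℤ where
  toFun s := PP5L.Bd s t j
  map_add' s s' := Cor_Bd_add s s' t j
  map_smul' c s := Cor_Bd_smul c s t j

private theorem Cor_Bd_sum (c : Fin 4 → ℤ) (s : Fin 4 → Fin 16 → ℤ) (t : Fin 16 → ℤ) (j : Fin 10) :
    PP5L.Bd (∑ i, c i • s i) t j = ∑ i, c i * PP5L.Bd (s i) t j := by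
  have h := map_sum (Cor_Bl t j) (fun i => c i • s i) Finset.univ
  have h1 : ∀ s', Cor_Bl t j s' = PP5L.Bd s' t j := fun _ => rfl
  rw [h1] at h
  rw [h]
  exact Finset.sum_congr rfl (fun i _ => by rw [h1, Cor_Bd_smul])

private theorem Cor_bf (A B C : ℤ) (u v : Fin 4 → ℤ) : u ⬝ᵥ (Hyp A B C *ᵥ v) = bf A B C u v := by
  simp [Hyp, bf, Matrix.mulVec, dotProduct, Fin.sum_univ_succ]
  ring

private theorem Cor_emb_lc (e : Fin 4 → PP5.Sp) (v : Fin 4 → ℤ) :
    PP5.emb (lc e v) = ∑ i, v i • PP5.emb (e i) := by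
  funext a
  simp [lc, PP5.emb, Finset.sum_apply]

private theorem Cor_sum (U : Matrix (Fin 4) (Fin 4) ℤ) (v : Fin 4 → ℤ) (w : Fin 4 → Fin 16 → ℤ) :
    ∑ i, v i • ∑ k, U k i • w k = ∑ k, (U *ᵥ v) k • w k := by
  simp only [Finset.smul_sum, Matrix.mulVec, dotProduct, Finset.sum_smul]
  rw [Finset.sum_comm]
  refine Finset.sum_congr rfl fun k _ => Finset.sum_congr rfl fun i _ => ?_
  rw [smul_smul, mul_comm]

theorem crd {x : V10} (hF : PP5L.FF x = 0) (hp : ∀ p : ℕ, p.Prime → ∃ j, ¬ (p : ℤ) ∣ x j)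
    (hD : PP5LB.DD x ≠ 0) (hS : Spl x) {N : ℤ} (hN : N ≠ 0) :
    ∃ (A B C : ℤ) (e : Fin 4 → PP5.Sp), Crd x A B C e ∧ IsCoprime A N := by
  obtain ⟨⟨b⟩, hb⟩ := PP5L.Lx_summary hF hp hD
  obtain ⟨G, -, -, hG, -, -⟩ := hb b
  obtain ⟨hdet, hU⟩ := hS b G hG
  obtain ⟨U, A, B, C, hU1, hU2, hU3, hU4⟩ := hU N hN
  set w : Fin 4 → Fin 16 → ℤ := fun k => (b k : Fin 16 → ℤ) with hw
  have hwL : ∀ k, w k ∈ PP5L.Lx x := fun k => (b k).2
  set e : Fin 4 → PP5.Sp := fun i a => (∑ k, U k i • w k) (PP5.ix a) with he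
  have heL : ∀ i, (∑ k, U k i • w k) ∈ PP5L.Lx x := fun i =>
    Submodule.sum_mem _ (fun k _ => Submodule.smul_mem _ _ (hwL k))
  have hee : ∀ i, PP5.emb (e i) = ∑ k, U k i • w k := fun i =>
    PP5.emb_surj (PP5L.mem_Lx.1 (heL i)).2
  have hlc : ∀ v, PP5.emb (lc e v) = ∑ k, (U *ᵥ v) k • w k := by
    intro v
    rw [Cor_emb_lc]
    simp only [hee]
    exact Cor_sum U v w
  refine ⟨A, B, C, e, ⟨fun v => ?_, fun P hP => ?_, fun v hv => ?_, fun u v j => ?_, hU3⟩, hU4⟩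
  · rw [← PP5.emb_mem, hlc]
    exact Submodule.sum_mem _ (fun k _ => Submodule.smul_mem _ _ (hwL k))
  · have hm := PP5.emb_mem.2 hP
    set s : PP5L.Lx x := ⟨PP5.emb P, hm⟩ with hs
    have h1 := b.sum_repr s
    have h2 : ∑ k, (b.repr s k) • w k = PP5.emb P := by
      have h3 : ((∑ k, (b.repr s k) • b k : PP5L.Lx x) : Fin 16 → ℤ) = ∑ k, (b.repr s k) • w k := by
        rw [AddSubmonoidClass.coe_finsetSum]
        exact Finset.sum_congr rfl fun k _ => rfl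
      rw [← h3, h1]
    refine ⟨U.adjugate *ᵥ (fun k => b.repr s k), PP5.emb_inj ?_⟩
    rw [hlc, Matrix.mulVec_mulVec, Matrix.mul_adjugate, hU1, one_smul, Matrix.one_mulVec, h2]
  · have h1 : ∑ k, (U *ᵥ v) k • w k = 0 := by
      rw [← hlc, hv]; rfl
    have h2 : ∑ k, (U *ᵥ v) k • b k = 0 := by
      apply Subtype.ext
      have : ((∑ k, (U *ᵥ v) k • b k : PP5L.Lx x) : Fin 16 → ℤ) = ∑ k, (U *ᵥ v) k • w k := by
        simp [hw]
      rw [this, h1]; rfl
    have h3 := Fintype.linearIndependent_iff.1 b.linearIndependent (U *ᵥ v) h2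
    have h4 : U *ᵥ v = 0 := funext h3
    have h5 : U.adjugate *ᵥ (U *ᵥ v) = v := by
      rw [Matrix.mulVec_mulVec, Matrix.adjugate_mul, hU1, one_smul, Matrix.one_mulVec]
    rw [← h5, h4, Matrix.mulVec_zero]
  · rw [hlc, hlc, Cor_Bd_sum]
    have h1 : ∀ k, PP5L.Bd (w k) (∑ l, (U *ᵥ v) l • w l) j = (G *ᵥ (U *ᵥ v)) k * x j := by
      intro k
      rw [PP5L.Bd_symm, Cor_Bd_sum]
      generalize U *ᵥ v = z
      simp only [Matrix.mulVec, dotProduct, Finset.sum_mul]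
      refine Finset.sum_congr rfl fun l _ => ?_
      rw [PP5L.Bd_symm, hG k l j]
      ring
    simp only [h1]
    have h2 : (U *ᵥ u) ⬝ᵥ (G *ᵥ (U *ᵥ v)) = bf A B C u v := by
      rw [← Cor_bf, ← hU2, ← Matrix.mulVec_mulVec, ← Matrix.mulVec_mulVec, Matrix.dotProduct_mulVec u,
        Matrix.vecMul_transpose]
    rw [← h2, dotProduct, Finset.sum_mul]
    exact Finset.sum_congr rfl fun k _ => by ring

private theorem Cor_lc_smul (e : Fin 4 → PP5.Sp) (c : ℤ) (v : Fin 4 → ℤ) : lc e (fun i => c * v i) = c • lc e v := by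
  funext a
  simp only [lc, Pi.smul_apply, smul_eq_mul, Finset.mul_sum]
  exact Finset.sum_congr rfl fun i _ => by ring

private theorem Cor_lc_sub (e : Fin 4 → PP5.Sp) (u v : Fin 4 → ℤ) : lc e (u - v) = lc e u - lc e v := by
  funext a
  simp only [lc, Pi.sub_apply, ← Finset.sum_sub_distrib]
  exact Finset.sum_congr rfl fun i _ => by ring

theorem crd_pr {x : V10} {A B C : ℤ} {e : Fin 4 → PP5.Sp} (h : Crd x A B C e) (v : Fin 4 → ℤ) :
    Pr4 v ↔ Prs (lc e v) := by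
  constructor
  · intro hv p hp hd
    apply hv p hp
    choose q hq using hd
    have h1 : lc e v = (p : ℤ) • (q : PP5.Sp) := by
      funext a
      rw [Pi.smul_apply, smul_eq_mul]
      exact hq a
    have hp0 : (p : ℤ) ≠ 0 := by exact_mod_cast hp.ne_zero
    have h2 : PP5.InE q x := by
      rw [← PP5.emb_mem]
      apply PP5L.saturated_Lx hp0
      rw [← PP5.emb_smul, ← h1]
      exact PP5.emb_mem.2 (h.inE v)
    obtain ⟨v', hv'⟩ := h.sur q h2
    have h3 : lc e (v - fun i => (p : ℤ) * v' i) = 0 := by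
      rw [Cor_lc_sub, Cor_lc_smul, h1, hv', sub_self]
    have h4 := h.inj _ h3
    intro i
    have h5 := congrFun h4 i
    simp only [Pi.sub_apply, Pi.zero_apply] at h5
    exact ⟨v' i, by linarith⟩
  · intro hv p hp hd
    apply hv p hp
    intro a
    exact Finset.dvd_sum fun i _ => Dvd.dvd.mul_right (hd i) _

theorem crd_qd {x : V10} {A B C : ℤ} {e : Fin 4 → PP5.Sp} (h : Crd x A B C e) (hx : x ≠ 0) (v : Fin 4 → ℤ) :
    qf A B C v = 0 ↔ PP5.Qd (lc e v) := by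
  have h1 : ∀ j, PP5L.Qd (PP5.emb (lc e v)) j = qf A B C v * x j := by
    intro j
    have h2 := h.bil v v j
    rw [PP5L.Bd_self] at h2
    have h3 : bf A B C v v = 2 * qf A B C v := by unfold bf qf; ring
    rw [h3] at h2
    linarith
  rw [PP5.Qd_iff]
  constructor
  · intro h0 j
    rw [h1 j, h0, zero_mul]
  · intro h0
    obtain ⟨j, hj⟩ := Function.ne_iff.1 hx
    have h4 := h1 j
    rw [h0 j] at h4
    exact (mul_eq_zero.1 h4.symm).resolve_right hj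

end Pool.Agent.PP5LA
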