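import Pool.Agent.PP5LA.Rpz
import Pool.Agent.PP5LA.Cor

/-!
# LB5, section A, module Tau0: tools for the vector `τ` in the coordinates of `L_x` (`Tau.lean`)

PROOF.  Let `R = h r`, `xh = x / R` (`FF xh = 0`, `|xh j - xs j| ≤ 100 / h ≤ δ` for `h ≥ h0 = ⌈100/δ⌉`).  `PZ x p16`, `PZ x t16` are integral
vectors of `L_x` (`pz_HH`, `pz_dot`), so `PZ x p16 = emb (lc e zp)`, `PZ x t16 = emb (lc e zt)` (`PP5.emb_surj`, `PP5.emb_mem`, `sur`).
`τ i := (zp i + ε zt i) / R^5`.  `PZ x s = R^5 PZ xh s` (`pz_smul`, `pz_cast`).  By `bil` (real linear combinations):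
`bf τ (rv v) * x 0 = Bd (τh) (emb (lc e v)) 0`, `τh := PZ xh p16 + ε PZ xh t16`, so `bf τ (rv v) = bR xh τh (emb P) / R` (`x 0 = R xh 0`), and
`qf τ = qR xh τh / R` (`2 qf = bf τ τ`, `Bd s s 0 = 2 Qd s 0`).  So `0 < -qf τ ≤ C ε / R`, `4AC - B² = -D(x) ≤ 100000 R⁴` (`DD xh` is bounded on the
cell: `|xh j| ≤ 3`, crude bound of a `4 × 4` determinant with entries `≤ 6`: `24 · 6⁴`), so the product of the roots is `≤ C' √ε R^(3/2)`.
`|bf τ v| ≤ M √ε R^(3/2)` gives `|bR xh τh (emb P)| ≤ (M R^(5/2)) √ε`; apply `rdr` with `M R^(5/2)`; `P a` is a coordinate of `emb P` (`PP5.emb_ix`),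
`P 0 = (emb P) 8`, `DfR (emb P) = Df P`.
`0 < A`: `A C > 0` as `D < 0`.  Suppose `A < 0`.  For every real `u : Fin 4 → ℝ` with `bf ζ u = 0` (`ζ = zt / R^5`) one has `0 ≤ qf u` (`rdr` (3) for
`Σ u_i emb (e_i)`).  If `ζ 0 ≠ 0`: take `u = (0, u1, 1, 0)` with `bf ζ u = 0`: `qf u = A < 0`, contradiction.  If `ζ 1 ≠ 0`: `u = (u0, 0, 1, 0)`.  If
`ζ 0 = ζ 1 = 0`: `u = (1, -1, 0, 0)`, `qf u = -1`.  So `A > 0`.  `τ 1 ≠ 0`: otherwise `qf τ = A τ2² + B τ2 τ3 + C τ3² ≥ 0`.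
-/

set_option autoImplicit false

namespace Pool.Agent.PP5LA

open Matrix Finset Pool.Agent.PP5B Pool.Agent.LB

/-- the real span of the four points -/
noncomputable def Tau_L (e : Fin 4 → PP5.Sp) (u : Fin 4 → ℝ) : Fin 16 → ℝ :=
  fun i => ∑ k, u k * (PP5.emb (e k) i : ℝ)

theorem Tau_lc (e : Fin 4 → PP5.Sp) (v : Fin 4 → ℤ) :
    Tau_L e (rv v) = rv (PP5.emb (lc e v)) := by
  funext i
  simp [Tau_L, rv, PP5.emb, lc]

theorem Tau_single (e : Fin 4 → PP5.Sp) (k : Fin 4) : lc e (Pi.single k 1) = e k := by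
  funext a
  simp [lc, Pi.single_apply]

theorem Tau_Bdc (a b : Fin 16 → ℤ) :
    PP5L.Bd (rv a) (rv b) 0 = ((PP5L.Bd a b 0 : ℤ) : ℝ) := by
  simp only [PP5L.Bd, Matrix.cons_val_zero, rv]
  push_cast
  rfl

theorem Tau_HHc (x : Fin 10 → ℤ) (b : Fin 16 → ℤ) (j : Fin 16) :
    PP5L.HH (rv x) (rv b) j = ((PP5L.HH x b j : ℤ) : ℝ) := pz_HHm (Int.castRingHom ℝ) x b j

theorem Tau_HHx (R : ℝ) (x : Fin 10 → ℝ) (s : Fin 16 → ℝ) (j : Fin 16) :
    PP5L.HH (fun i => R * x i) s j = R * PP5L.HH x s j := by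
  have h : PP5L.xhat (fun i => R * x i) = fun i => R * PP5L.xhat x i := by
    funext i
    fin_cases i <;> simp [PP5L.xhat]
  rw [← PP5L.HH_xhat, h, pz_HPs, PP5L.HH_xhat]
  rfl

theorem Tau_HHs (x : Fin 10 → ℝ) (s : Fin 4 → Fin 16 → ℝ) (u : Fin 4 → ℝ) (j : Fin 16) :
    PP5L.HH x (fun i => ∑ k, u k * s k i) j = ∑ k, u k * PP5L.HH x (s k) j := by
  have h1 : (fun i => ∑ k, u k * s k i) = u 0 • s 0 + u 1 • s 1 + u 2 • s 2 + u 3 • s 3 := by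
    funext i
    simp [Fin.sum_univ_four]
  rw [h1]
  simp only [PP5L.HH_add, PP5L.HH_smul, Pi.add_apply, Pi.smul_apply, smul_eq_mul,
    Fin.sum_univ_four]

theorem Tau_Bds (s : Fin 4 → Fin 16 → ℝ) (u w : Fin 4 → ℝ) :
    PP5L.Bd (fun i => ∑ k, u k * s k i) (fun i => ∑ k, w k * s k i) 0
      = ∑ k, ∑ l, u k * w l * PP5L.Bd (s k) (s l) 0 := by
  simp only [PP5L.Bd, Fin.sum_univ_four, Matrix.cons_val_zero]
  ring

theorem Tau_dot (e : Fin 4 → PP5.Sp) (u : Fin 4 → ℝ) (j : Fin 4) :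
    PP5L.dot (Tau_L e u) (PP5L.rho j) = 0 := by
  fin_cases j <;>
    simp [PP5L.dot, PP5L.rho, Tau_L, PP5.emb, PP5.ex, Fin.sum_univ_succ]

theorem Tau_bil {x : V10} {A B C : ℤ} {e : Fin 4 → PP5.Sp} (h : Crd x A B C e)
    (u w : Fin 4 → ℝ) :
    PP5L.Bd (Tau_L e u) (Tau_L e w) 0 = bf (A : ℝ) B C u w * x 0 := by
  have h1 : ∀ k l : Fin 4, PP5L.Bd (rv (PP5.emb (e k))) (rv (PP5.emb (e l))) 0
      = ((bf A B C (Pi.single k 1) (Pi.single l 1) * x 0 : ℤ) : ℝ) := by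
    intro k l
    have h2 := h.bil (Pi.single k 1) (Pi.single l 1) 0
    rw [Tau_single, Tau_single] at h2
    rw [Tau_Bdc, h2]
  have h3 := Tau_Bds (fun k => rv (PP5.emb (e k))) u w
  have h4 : (fun i => ∑ k, u k * (fun k => rv (PP5.emb (e k))) k i) = Tau_L e u := rfl
  have h5 : (fun i => ∑ k, w k * (fun k => rv (PP5.emb (e k))) k i) = Tau_L e w := rfl
  rw [h4, h5] at h3
  rw [h3]
  simp only [h1]
  simp only [bf, Fin.sum_univ_four, Pi.single_apply]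
  simp
  ring

theorem Tau_LR {x : V10} {A B C : ℤ} {e : Fin 4 → PP5.Sp} (h : Crd x A B C e)
    {R : ℝ} (hR : R ≠ 0) {xh : Fin 10 → ℝ} (hx : rv x = fun j => R * xh j) (u : Fin 4 → ℝ) :
    LR xh (Tau_L e u) := by
  refine ⟨?_, Tau_dot e u⟩
  funext j
  have h1 : ∀ k : Fin 4, PP5L.HH xh (rv (PP5.emb (e k))) j = 0 := by
    intro k
    have h2 := h.inE (Pi.single k 1)
    rw [Tau_single, PP5.InE_iff] at h2
    have h3 := Tau_HHx R xh (rv (PP5.emb (e k))) j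
    rw [← hx, Tau_HHc, h2] at h3
    simp only [Pi.zero_apply, Int.cast_zero] at h3
    exact (mul_eq_zero.mp h3.symm).resolve_left hR
  have h4 := Tau_HHs xh (fun k => rv (PP5.emb (e k))) u j
  have h5 : (fun i => ∑ k, u k * (fun k => rv (PP5.emb (e k))) k i) = Tau_L e u := rfl
  rw [h5] at h4
  rw [h4]
  simp only [h1, mul_zero, Finset.sum_const_zero, Pi.zero_apply]

theorem Tau_bfqf (A B C : ℝ) (u : Fin 4 → ℝ) : bf A B C u u = 2 * qf A B C u := by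
  unfold bf qf; ring

theorem Tau_pos {A B C : ℤ} (hD : B ^ 2 - 4 * A * C < 0) {ζ : Fin 4 → ℝ}
    (h : ∀ u : Fin 4 → ℝ, bf (A : ℝ) B C ζ u = 0 → 0 ≤ qf (A : ℝ) B C u) : 0 < A := by
  by_contra hA
  push Not at hA
  have hA0 : A ≠ 0 := by
    rintro rfl
    nlinarith [sq_nonneg B]
  have hA1 : (A : ℝ) < 0 := by exact_mod_cast lt_of_le_of_ne hA hA0
  by_cases h0 : ζ 0 = 0
  · by_cases h1 : ζ 1 = 0
    · have h2 := h ![1, -1, 0, 0] (by simp [bf, h0, h1])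
      simp [qf] at h2
      linarith
    · have h2 := h ![-(2 * A * ζ 2 + B * ζ 3) / ζ 1, 0, 1, 0] (by
        simp [bf]
        field_simp
        ring)
      simp [qf] at h2
      omega
  · have h2 := h ![0, -(2 * A * ζ 2 + B * ζ 3) / ζ 0, 1, 0] (by
      simp [bf]
      field_simp
      ring)
    simp [qf] at h2
    omega

theorem Tau_DfR (P : PP5.Sp) : DfR (rv (PP5.emb P)) = ((PP5.Df P : ℤ) : ℝ) := by
  simp [DfR, rv, PP5.emb, PP5.ex, PP5.Df]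

theorem Tau_det {x : V10} {R : ℝ} (hb : ∀ j, |(x j : ℝ)| ≤ 3 * R) :
    |((PP5LB.DD x : ℤ) : ℝ)| ≤ 31104 * R ^ 4 := by
  have h0 : ((PP5LB.DD x : ℤ) : ℝ) = ((PP5L.SS x).map (Int.castRingHom ℝ)).det := by
    unfold PP5LB.DD
    rw [← RingHom.mapMatrix_apply, ← RingHom.map_det]
    simp
  have h1 : ∀ i j, |((PP5L.SS x).map (Int.castRingHom ℝ)) i j| ≤ 6 * R := by
    have e : ∀ j, -(3 * R) ≤ (x j : ℝ) ∧ (x j : ℝ) ≤ 3 * R := fun j => abs_le.mp (hb j)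
    have e0 := e 0
    have e1 := e 1
    have e2 := e 2
    have e3 := e 3
    have e4 := e 4
    have e5 := e 5
    have e6 := e 6
    have e7 := e 7
    have e8 := e 8
    have e9 := e 9
    intro i j
    rw [abs_le]
    fin_cases i <;> fin_cases j <;> simp [PP5L.SS] <;> constructor <;> linarith [e0.1, e0.2, e1.1, e1.2, e2.1, e2.2, e3.1, e3.2, e4.1, e4.2, e5.1, e5.2, e6.1, e6.2, e7.1, e7.2, e8.1, e8.2, e9.1, e9.2]
  have h2 := Matrix.det_le (A := (PP5L.SS x).map (Int.castRingHom ℝ)) (abv := AbsoluteValue.abs)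
    (x := 6 * R) (fun i j => h1 i j)
  rw [h0]
  have h3 : (Nat.factorial (Fintype.card (Fin 4)) • (6 * R) ^ Fintype.card (Fin 4)) = 31104 * R ^ 4 := by
    simp [Nat.factorial]
    ring
  rw [h3] at h2
  exact h2

theorem Tau_prod {K ε R q D : ℝ} (hK : 1 ≤ K) (hε : 0 < ε) (hR : 0 < R) (hq : q < 0)
    (h2 : -q ≤ K * ε / R) (h9 : 0 ≤ D) (h3 : D ≤ 31104 * R ^ 4) :
    √(-q) * √D ≤ 1000 * K * √ε * R ^ (3 / 2 : ℝ) := by
  rw [← Real.sqrt_mul (by linarith)]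
  rw [Real.sqrt_le_left (by positivity)]
  have h6 : (1000 * K * √ε * R ^ (3 / 2 : ℝ)) ^ 2 = 1000000 * K ^ 2 * ε * R ^ 3 := by
    have h7 : (R ^ (3 / 2 : ℝ)) ^ 2 = R ^ 3 := by
      rw [← Real.rpow_natCast, ← Real.rpow_mul hR.le, ← Real.rpow_natCast]
      norm_num
    have h8 : √ε ^ 2 = ε := Real.sq_sqrt hε.le
    rw [mul_pow, mul_pow, mul_pow, h7, h8]
    ring
  rw [h6]
  calc -q * D ≤ (K * ε / R) * (31104 * R ^ 4) := mul_le_mul h2 h3 h9 (by positivity)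
    _ = 31104 * K * ε * R ^ 3 := by field_simp
    _ ≤ 1000000 * K ^ 2 * ε * R ^ 3 := by
        have h10 : K ≤ K ^ 2 := by rw [sq]; exact le_mul_of_one_le_left (by linarith) hK
        have h11 : 31104 * K ≤ 1000000 * K ^ 2 := by linarith
        have h12 : 0 ≤ ε * R ^ 3 := by positivity
        have h13 := mul_le_mul_of_nonneg_right h11 h12
        calc 31104 * K * ε * R ^ 3 = 31104 * K * (ε * R ^ 3) := by ring
          _ ≤ 1000000 * K ^ 2 * (ε * R ^ 3) := h13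
          _ = 1000000 * K ^ 2 * ε * R ^ 3 := by ring

theorem Tau_t1 {A B C : ℤ} (hA : 0 < A) (hD : B ^ 2 - 4 * A * C < 0) {τ : Fin 4 → ℝ}
    (hqτ : qf (A : ℝ) B C τ < 0) : τ 1 ≠ 0 := by
  intro h1
  have hA1 : (0 : ℝ) < A := by exact_mod_cast hA
  have hDr : (B : ℝ) ^ 2 - 4 * A * C < 0 := by exact_mod_cast hD
  have h2 : qf (A : ℝ) B C τ = A * τ 2 ^ 2 + B * τ 2 * τ 3 + C * τ 3 ^ 2 := by
    unfold qf
    rw [h1]
    ring
  rw [h2] at hqτ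
  have h3 : 4 * A * ((A : ℝ) * τ 2 ^ 2 + B * τ 2 * τ 3 + C * τ 3 ^ 2)
      = (2 * A * τ 2 + B * τ 3) ^ 2 + (4 * A * C - B ^ 2) * τ 3 ^ 2 := by ring
  have h4 : 0 ≤ (4 * A * C - (B : ℝ) ^ 2) * τ 3 ^ 2 :=
    mul_nonneg (by linarith) (sq_nonneg _)
  nlinarith [sq_nonneg (2 * A * τ 2 + B * τ 3)]

theorem Tau_fin {K ε M Y : ℝ} (hK : 1 ≤ K) (hε : 0 < ε) (hM : 0 ≤ M) (hY : 0 ≤ Y)
    (P : PP5.Sp) (g1 : ∀ i, |rv (PP5.emb P) i| ≤ K * (M * Y) / √ε)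
    (g2 : (∀ i, |rv (PP5.emb P) i| ≤ K * (M * Y) * √ε) ∨
      (∀ i, |rv (PP5.emb P) i| ≤ K * |rv (PP5.emb P) 8| ∧
        |rv (PP5.emb P) i| ^ 4 ≤ K * -DfR (rv (PP5.emb P)))) :
    (∀ a, |(P a : ℝ)| ≤ 1000 * K * M / √ε * Y) ∧
      ((∀ a, |(P a : ℝ)| ≤ 1000 * K * M * √ε * Y) ∨
        (∀ a, |(P a : ℝ)| ≤ 1000 * K * |(P 0 : ℝ)| ∧
          |(P a : ℝ)| ^ 4 ≤ 1000 * K * -(PP5.Df P : ℝ))) := by
  have hsa : ∀ a, (P a : ℝ) = rv (PP5.emb P) (PP5.ix a) := by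
    intro a
    simp only [rv]
    rw [PP5.emb_ix]
  have hse : 0 < √ε := Real.sqrt_pos.mpr hε
  have hK0 : 0 < K := by linarith
  refine ⟨?_, ?_⟩
  · intro a
    rw [hsa a]
    refine (g1 _).trans ?_
    have h1 : K * (M * Y) / √ε = K * M * Y / √ε := by ring
    have h2 : 1000 * K * M / √ε * Y = 1000 * (K * M * Y / √ε) := by ring
    have h3 : 0 ≤ K * M * Y / √ε := by positivity
    rw [h1, h2]
    linarith
  · rcases g2 with g2 | g2
    · left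
      intro a
      rw [hsa a]
      refine (g2 _).trans ?_
      have h2 : 0 ≤ K * M * √ε * Y := by positivity
      linarith
    · right
      intro a
      have h8 : rv (PP5.emb P) 8 = (P 0 : ℝ) := (hsa 0).symm
      obtain ⟨g3, g4⟩ := g2 (PP5.ix a)
      rw [Tau_DfR] at g4
      rw [h8] at g3
      rw [hsa a]
      refine ⟨g3.trans ?_, g4.trans ?_⟩
      · have h3 := mul_nonneg hK0.le (abs_nonneg (P 0 : ℝ))
        linarith
      · have h1 : 0 ≤ |rv (PP5.emb P) (PP5.ix a)| ^ 4 := by positivity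
        have h2 : 0 ≤ K * -((PP5.Df P : ℤ) : ℝ) := h1.trans g4
        linarith

/-- the vectors with integral coordinates -/
theorem Tau_vec {x : V10} (hF : PP5L.FF x = 0) {A B C : ℤ} {e : Fin 4 → PP5.Sp}
    (hc : Crd x A B C e) {R : ℝ} {xh : Fin 10 → ℝ} (hxR : rv x = fun j => R * xh j)
    (s : Fin 16 → ℤ) : ∃ z : Fin 4 → ℤ, ∀ i, Tau_L e (rv z) i = R ^ 5 * PZ xh (rv s) i := by
  have h1 := PP5.emb_surj (s := PZ x s) (pz_dot x s)
  have h2 : PP5.InE (fun i => PZ x s (PP5.ix i)) x := by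
    rw [PP5.InE_iff, h1]
    exact pz_HH hF s
  obtain ⟨z, hz⟩ := hc.sur _ h2
  refine ⟨z, fun i => ?_⟩
  rw [Tau_lc, ← hz, h1, ← pz_cast, hxR]
  exact pz_smul R xh (rv s) i

/-- the real vectors -/
theorem Tau_real {x : V10} (hF : PP5L.FF x = 0) {A B C : ℤ} {e : Fin 4 → PP5.Sp}
    (hc : Crd x A B C e) {R : ℝ} (hR : 0 < R) {xh : Fin 10 → ℝ}
    (hxR : rv x = fun j => R * xh j) (ε : ℝ) : ∃ ζ τ : Fin 4 → ℝ,
      Tau_L e ζ = PZ xh (rv t16) ∧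
      Tau_L e τ = fun i => PZ xh (rv p16) i + ε * PZ xh (rv t16) i := by
  obtain ⟨zp, Lp⟩ := Tau_vec hF hc hxR p16
  obtain ⟨zt, Lt⟩ := Tau_vec hF hc hxR t16
  have hR5 : R ^ 5 ≠ 0 := by positivity
  refine ⟨fun i => (zt i : ℝ) / R ^ 5, fun i => ((zp i : ℝ) + ε * zt i) / R ^ 5, ?_, ?_⟩
  · funext i
    have h1 := Lt i
    have h2 : Tau_L e (fun i => (zt i : ℝ) / R ^ 5) i = Tau_L e (rv zt) i / R ^ 5 := by
      simp only [Tau_L, rv, Finset.sum_div]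
      refine Finset.sum_congr rfl fun k _ => ?_
      ring
    rw [h2, h1, mul_comm, mul_div_assoc, div_self hR5, mul_one]
  · funext i
    have h1 := Lt i
    have h3 := Lp i
    have h2 : Tau_L e (fun i => ((zp i : ℝ) + ε * zt i) / R ^ 5) i
        = (Tau_L e (rv zp) i + ε * Tau_L e (rv zt) i) / R ^ 5 := by
      simp only [Tau_L, rv, Finset.mul_sum, ← Finset.sum_add_distrib, Finset.sum_div]
      refine Finset.sum_congr rfl fun k _ => ?_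
      ring
    rw [h2, h1, h3]
    field_simp

theorem Tau_b {x : V10} {A B C : ℤ} {e : Fin 4 → PP5.Sp} (hc : Crd x A B C e) {R : ℝ}
    {xh : Fin 10 → ℝ} (hxR : rv x = fun j => R * xh j) (hx0 : 0 < xh 0) (u w : Fin 4 → ℝ) :
    bR xh (Tau_L e u) (Tau_L e w) = R * bf (A : ℝ) B C u w := by
  have hX0 : (x 0 : ℝ) = R * xh 0 := congrFun hxR 0
  unfold bR
  rw [Tau_bil hc, hX0]
  field_simp

theorem Tau_q {x : V10} {A B C : ℤ} {e : Fin 4 → PP5.Sp} (hc : Crd x A B C e) {R : ℝ}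
    {xh : Fin 10 → ℝ} (hxR : rv x = fun j => R * xh j) (hx0 : 0 < xh 0) (u : Fin 4 → ℝ) :
    qR xh (Tau_L e u) = R * qf (A : ℝ) B C u := by
  have h1 := Tau_b hc hxR hx0 u u
  unfold bR at h1
  unfold qR
  rw [PP5L.Bd_self, Tau_bfqf] at h1
  linear_combination h1 / 2

/-- the scaled vector `x / R` -/
theorem Tau_xh {δ : ℝ} (hδ0 : 0 < δ) (hδ2 : δ ≤ 1 / 2) {h r : ℕ} {x : V10}
    (hh : max ⌈100 / δ⌉₊ 100 ≤ h) (hr : 1 ≤ r) (hF : PP5L.FF x = 0)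
    (hx : ∀ j, |(x j : ℝ) - (h * r : ℝ) * xs j| ≤ 100 * r) :
    0 < (h * r : ℝ) ∧ (∀ j, |(x j : ℝ)| ≤ 3 * (h * r : ℝ)) ∧ ∃ xh : Fin 10 → ℝ,
      rv x = (fun j => (h * r : ℝ) * xh j) ∧ PP5L.FF xh = 0 ∧
      (∀ j, |xh j - (xs j : ℝ)| ≤ δ) ∧ 0 < xh 0 := by
  have hh1 : (100 / δ : ℝ) ≤ h := (Nat.le_ceil _).trans (by exact_mod_cast (le_max_left _ _).trans hh)
  have hh2 : (100 : ℝ) ≤ h := by exact_mod_cast (le_max_right _ _).trans hh
  have hr1 : (1 : ℝ) ≤ r := by exact_mod_cast hr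
  have hr0 : (0 : ℝ) < r := by linarith
  have hh0 : (0 : ℝ) < h := by linarith
  obtain ⟨R, hRdef⟩ : ∃ R : ℝ, R = (h : ℝ) * r := ⟨_, rfl⟩
  rw [← hRdef] at hx ⊢
  have hR : 0 < R := by rw [hRdef]; exact mul_pos hh0 hr0
  have hR100 : 100 * (r : ℝ) ≤ R := by rw [hRdef]; nlinarith
  refine ⟨hR, ?_, fun j => (x j : ℝ) / R, ?_, ?_, ?_, ?_⟩
  · intro j
    have h1 := abs_le.mp (hx j)
    have h2 : |((xs j : ℤ) : ℝ)| ≤ 2 := by fin_cases j <;> norm_num [xs]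
    have h3 := abs_le.mp h2
    rw [abs_le]
    constructor <;> nlinarith [h1.1, h1.2, h3.1, h3.2]
  · funext j
    simp only [rv]
    field_simp
  · have h1 : ((PP5L.FF x : ℤ) : ℝ) = R ^ 2 * PP5L.FF (fun j => (x j : ℝ) / R) := by
      simp only [PP5L.FF]
      push_cast
      field_simp
    rw [hF, Int.cast_zero] at h1
    exact (mul_eq_zero.mp h1.symm).resolve_left (by positivity)
  all_goals
    have hxd : ∀ j, |(x j : ℝ) / R - (xs j : ℝ)| ≤ δ := by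
      intro j
      have h1 : (x j : ℝ) / R - (xs j : ℝ) = ((x j : ℝ) - R * xs j) / R := by
        field_simp
      rw [h1, abs_div, abs_of_pos hR, div_le_iff₀ hR]
      refine (hx j).trans ?_
      rw [hRdef]
      rw [div_le_iff₀ hδ0] at hh1
      nlinarith
  · exact hxd
  · have h1 := abs_le.mp (hxd 0)
    have h2 : ((xs 0 : ℤ) : ℝ) = 1 := by simp [xs]
    rw [h2] at h1
    show 0 < (x 0 : ℝ) / R
    linarith [h1.1]

end Pool.Agent.PP5LA
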