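import Pool.Agent.PP5LA.Rdr
import Pool.Agent.PP5LA.Tau0

/-!
# LB5, section A, module Tau (size 5): the vector `τ` in the coordinates of `L_x`, and `A > 0`

PROOF.  Let `R = h r`, `xh = x / R` (`FF xh = 0`, `|xh j - xs j| ≤ 100 / h ≤ δ` for `h ≥ h0 = ⌈100/δ⌉`).  `PZ x p16`, `PZ x t16` are integral
vectors of `L_x` (`pz_HH`, `pz_dot`), so `PZ x p16 = emb (lc e zp)`, `PZ x t16 = emb (lc e zt)` (`PP5.emb_surj`, `PP5.emb_mem`, `sur`).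
`τ i := (zp i + ε zt i) / R^5`.  `PZ x s = R^5 PZ xh s` (`pz_smul`, `pz_cast`).  By `bil` (real linear combinations):
`bf τ (rv v) * x 0 = Bd (τh) (emb (lc e v)) 0`, `τh := PZ xh p16 + ε PZ xh t16`, so `bf τ (rv v) = bR xh τh (emb P) / R` (`x 0 = R xh 0`), and
`qf τ = qR xh τh / R` (`2 qf = bf τ τ`, `Bd s s 0 = 2 Qd s 0`).  So `0 < -qf τ ≤ C ε / R`, `4AC - B² = -D(x) ≤ 100000 R⁴` (`DD xh` is bounded on the
cell: `|xh j| ≤ 3`, crude bound of a `4 × 4` determinant with entries `≤ 6`: `24 · 6⁴`), so the product of the roots is `≤ C' √ε R^(3/2)`.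
`|bf τ v| ≤ M √ε R^(3/2)` gives `|bR xh τh (emb P)| ≤ (M R^(5/2)) √ε`; apply `rdr` with `M R^(5/2)`; `P a` is a coordinate of `emb P` (`PP5.emb_ix`),
`P 0 = (emb P) 8`, `DfR (emb P) = Df P`.
`0 < A`: `A C > 0` as `D < 0`.  Suppose `A < 0`.  For every real `u : Fin 4 → ℝ` with `bf ζ u = 0` (`ζ = zt / R^5`) one has `0 ≤ qf u` (`rdr` (3) for
`Σ u_i emb (e_i)`).  If `ζ 0 ≠ 0`: take `u = (0, u1, 1, 0)` with `bf ζ u = 0`: `qf u = A < 0`, contradiction.  If `ζ 1 ≠ 0`: `u = (u0, 0, 1, 0)`.  If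
`ζ 0 = ζ 1 = 0`: `u = (1, -1, 0, 0)`, `qf u = -1`.  So `A > 0`.  `τ 1 ≠ 0`: otherwise `qf τ = A τ2² + B τ2 τ3 + C τ3² ≥ 0`.
-/

set_option autoImplicit false

namespace Pool.Agent.PP5LA

open Matrix Finset Pool.Agent.PP5B Pool.Agent.LB

theorem tau : ∃ C0 ε0 : ℝ, 1 ≤ C0 ∧ 0 < ε0 ∧ ε0 ≤ 1 ∧ ∀ ε : ℝ, 0 < ε → ε ≤ ε0 → ∃ h0 : ℕ, ∀ (h r : ℕ) (x : V10),
    h0 ≤ h → 1 ≤ r → PP5L.FF x = 0 → (∀ j, |(x j : ℝ) - (h * r : ℝ) * xs j| ≤ 100 * r) → PP5LB.DD x < 0 →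
    ∀ (A B C : ℤ) (e : Fin 4 → PP5.Sp), Crd x A B C e → 0 < A ∧ ∃ τ : Fin 4 → ℝ, τ 1 ≠ 0 ∧ qf (A : ℝ) B C τ < 0 ∧
    √(-qf (A : ℝ) B C τ) * √(((4 * A * C - B ^ 2 : ℤ) : ℝ)) ≤ C0 * √ε * (h * r : ℝ) ^ (3 / 2 : ℝ) ∧
    ∀ v : Fin 4 → ℤ, qf A B C v = 0 → ∀ M : ℝ, 0 ≤ M →
      |bf (A : ℝ) B C τ (rv v)| ≤ M * √ε * (h * r : ℝ) ^ (3 / 2 : ℝ) →
      (∀ a, |(lc e v a : ℝ)| ≤ C0 * M / √ε * (h * r : ℝ) ^ (5 / 2 : ℝ)) ∧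
      ((∀ a, |(lc e v a : ℝ)| ≤ C0 * M * √ε * (h * r : ℝ) ^ (5 / 2 : ℝ)) ∨
        (∀ a, |(lc e v a : ℝ)| ≤ C0 * |(lc e v 0 : ℝ)| ∧ |(lc e v a : ℝ)| ^ 4 ≤ C0 * -(PP5.Df (lc e v) : ℝ))) := by
  obtain ⟨K, ε0, hK1, hε0, hε01, H⟩ := rdr
  refine ⟨1000 * K, ε0, by linarith, hε0, hε01, ?_⟩
  intro ε hε hεle
  obtain ⟨δ, hδ0, hδ2, H1⟩ := H ε hε hεle
  refine ⟨max ⌈100 / δ⌉₊ 100, ?_⟩
  intro h r x hh hr hF hx hD A B C e hc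
  obtain ⟨hR, hb, xh, hxR, hFh, hxd, hx0⟩ := Tau_xh hδ0 hδ2 hh hr hF hx
  clear hx hh hδ0 hδ2
  generalize (h * r : ℝ) = R at hR hb hxR ⊢
  obtain ⟨q1, q2, q3, q4⟩ := H1 xh hFh hxd
  clear H H1
  obtain ⟨ζ, τ, Lζ, Lτ⟩ := Tau_real hF hc hR hxR ε
  have hLR : ∀ u : Fin 4 → ℝ, LR xh (Tau_L e u) := fun u => Tau_LR hc hR.ne' hxR u
  have hDC : (B ^ 2 - 4 * A * C : ℤ) < 0 := by rw [hc.dsc]; exact hD
  have hApos : 0 < A := by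
    refine Tau_pos hDC (ζ := ζ) ?_
    intro u hu
    have h1 := q3 (Tau_L e u) (hLR u) (by rw [← Lζ, Tau_b hc hxR hx0, hu, mul_zero])
    rw [Tau_q hc hxR hx0] at h1
    exact nonneg_of_mul_nonneg_right h1 hR
  have hqτ : qf (A : ℝ) B C τ < 0 := by
    have h1 := q1
    rw [← Lτ, Tau_q hc hxR hx0] at h1
    by_contra hcon
    push Not at hcon
    exact absurd h1 (not_lt.mpr (mul_nonneg hR.le hcon))
  refine ⟨hApos, τ, Tau_t1 hApos hDC hqτ, hqτ, ?_, ?_⟩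
  · have h1 := q2
    rw [← Lτ, Tau_q hc hxR hx0] at h1
    refine Tau_prod hK1 hε hR hqτ ?_ ?_ ?_
    · rw [le_div_iff₀ hR]
      linarith
    · have : (0 : ℤ) ≤ 4 * A * C - B ^ 2 := by linarith
      exact_mod_cast this
    · have h4 := Tau_det hb
      rw [← hc.dsc] at h4
      have h5 := (abs_le.mp h4).1
      push_cast at h5 ⊢
      linarith
  · intro v hv M hM hbv
    have hsL : rv (PP5.emb (lc e v)) = Tau_L e (rv v) := (Tau_lc e v).symm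
    have hQ : PP5L.Qd (rv (PP5.emb (lc e v))) 0 = 0 := by
      have h1 := Tau_bil hc (rv v) (rv v)
      rw [PP5L.Bd_self, Tau_bfqf] at h1
      have h2 : qf (A : ℝ) B C (rv v) = ((qf A B C v : ℤ) : ℝ) := by
        simp [qf, rv]
      rw [h2, hv] at h1
      rw [hsL]
      simp only [Int.cast_zero, mul_zero, zero_mul, mul_eq_zero, OfNat.ofNat_ne_zero, false_or] at h1
      exact h1
    have hbs : |bR xh (fun i => PZ xh (rv p16) i + ε * PZ xh (rv t16) i) (rv (PP5.emb (lc e v)))|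
        ≤ (M * R ^ (5 / 2 : ℝ)) * √ε := by
      rw [hsL, ← Lτ, Tau_b hc hxR hx0, abs_mul, abs_of_pos hR]
      have h1 : R ^ (5 / 2 : ℝ) = R * R ^ (3 / 2 : ℝ) := by
        rw [show (5 / 2 : ℝ) = 1 + 3 / 2 by norm_num, Real.rpow_add hR, Real.rpow_one]
      rw [h1]
      calc R * |bf (A : ℝ) B C τ (rv v)| ≤ R * (M * √ε * R ^ (3 / 2 : ℝ)) :=
            mul_le_mul_of_nonneg_left hbv hR.le
        _ = M * (R * R ^ (3 / 2 : ℝ)) * √ε := by ring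
    have hY : 0 ≤ R ^ (5 / 2 : ℝ) := Real.rpow_nonneg hR.le _
    obtain ⟨g1, g2⟩ := q4 (rv (PP5.emb (lc e v))) (by rw [hsL]; exact hLR _) hQ
      (M * R ^ (5 / 2 : ℝ)) (mul_nonneg hM hY) hbs
    exact Tau_fin hK1 hε hM hY (lc e v) g1 g2

end Pool.Agent.PP5LA
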