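import Pool.Agent.PP5LA.Asl
import Pool.Agent.PP5LA.Sed
import Pool.Agent.PP5LA.Tau

/-!
# LB5, section A, module Fin (size 4): `StA`

PROOF.  `C0, ε0` from `tau`; `a := 1/3`; `C := 8 C0²` (at least); given `ε`: `h0` = max of `tau`'s and `StCel`'s; `cD := min(...)` below.  Let `R = h r`.
`x ∈ Fm`: `FF x = 0`, `x` primitive (`PP5LB.Uni`), `x ≠ 0`, `DD x ≤ -R⁴` (`StCel`).  `N := ⌊a R²⌋₊`: `4 N² ≤ (4/9) R⁴ < |D|`.  `K := ⌊R^(κ/2)⌋₊`.  `crd` with the
integer `(N + K + w)! ` gives `A, B, C, e`, `A` prime to all `n ≤ N, K, w`.  `tau`: `0 < A`, `τ`.  `Hy A B C w N K`: `D % 8 = 5` and the Jacobi symbols from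
`Res w c` and `x = c mod Wf w` (`PP5LC.DD_mod` of helper20: `Wf w ∣ DD x - DD c`; `8 ∣ Wf w`, `p ∣ Wf w`); `sD` from `Gx` (`K ≤ r^(1/100)` since
`R^(κ/2) ≤ (h r)^(1/400) ≤ r^(1/100)` for `r` large).  `sed`: choose `ks s`, `vs s`; `|bf τ v| ks ≤ 8 C0 √ε R^(3/2)`, so `tau` with `M = 8 C0 / ks s` gives
`|P a| ≤ (8 C0² / ks) ε^(-1/2) R^(5/2)` and the alternative.  `Sd = S1 ∪ S2 ∪ S3`: `ks = 1`; `w < ks ≤ K`; `ks > R^(κ/2)` (`inr`: `ks = 1` or `ks > w`).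
S1: `asa`, `Z1 = Zg R (C ε^(-1/2)) cD x`, `Z2 = {P | Zr R (C ε^(1/2)) x P}`: if `P ∉ Z2` then some `|P a| > C √ε R^(5/2)`, so the second alternative holds and
`|P 0| ≥ |P a| / C0`, `-Df P ≥ |P a|⁴ / C0`: `cD := min (C √ε / C0) ((C √ε)^4 / C0)`.  S2: `asb` for each `k ∈ Ioc w K` with
`Z = {P | Zr R (C ε^(-1/2) / k) x P}`.  S3: `asl` with `Y0 = 8 C0² / √ε`.  Finiteness of the sets: bounded integral vectors.
-/

set_option autoImplicit false

namespace Pool.Agent.PP5LA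

open Matrix Finset Pool.Agent.PP5B Pool.Agent.LB

/-- finiteness -/
private theorem fin_bd (B : ℝ) (Z : Set PP5.Sp) (h : ∀ P ∈ Z, ∀ a, |(P a : ℝ)| ≤ B) : Z.Finite := by
  have hsub : Z ⊆ ((Fintype.piFinset (fun _ : Fin 12 => Finset.Icc (-⌊B⌋) ⌊B⌋) :
      Finset (Fin 12 → ℤ)) : Set (Fin 12 → ℤ)) := by
    intro P hP
    simp only [Finset.mem_coe, Fintype.mem_piFinset, Finset.mem_Icc]
    intro a
    have h1 := h P hP a
    rw [abs_le] at h1
    constructor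
    · have h2 : -(P a) ≤ ⌊B⌋ := Int.le_floor.2 (by push_cast; linarith)
      linarith
    · exact Int.le_floor.2 h1.2
  exact (Finset.finite_toSet _).subset hsub

private theorem fin_zr (R t : ℝ) (x : V10) : {P : PP5.Sp | Zr R t x P}.Finite :=
  fin_bd (t * R ^ (5 / 2 : ℝ)) _ (fun _ hP => hP.le)

private theorem fin_zg (R t cD : ℝ) (x : V10) : (Zg R t cD x).Finite :=
  fin_bd (t * R ^ (5 / 2 : ℝ)) _ (fun _ hP => hP.1.le)

private theorem fin_cast (M : ℕ) (x : V10) :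
    ((PP5LB.DD x : ℤ) : ZMod M) = PP5LB.DD (PP5LB.red M x) := by
  unfold PP5LB.DD
  have h := RingHom.map_det (Int.castRingHom (ZMod M)) (PP5L.SS x)
  rw [eq_intCast] at h
  rw [h]
  congr 1
  ext i j
  fin_cases i <;> fin_cases j <;> simp only [Fin.zero_eta, Fin.mk_one, Fin.reduceFinMk, PP5L.SS, PP5LB.red, Matrix.of_apply, Matrix.cons_val,
    RingHom.mapMatrix_apply, Matrix.map_apply, map_add, map_sub, map_mul, map_neg, map_ofNat, eq_intCast]

private theorem fin_dvd {M : ℕ} {x c : V10} (h : PP5LB.red M x = PP5LB.red M c) :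
    (M : ℤ) ∣ PP5LB.DD x - PP5LB.DD c := by
  have h1 : ((PP5LB.DD x - PP5LB.DD c : ℤ) : ZMod M) = 0 := by
    push_cast
    rw [fin_cast, fin_cast, h, sub_self]
  exact (ZMod.intCast_zmod_eq_zero_iff_dvd _ _).1 h1

private theorem fin_mod8 {w : ℕ} (hw : 2 ≤ w) {x c : V10}
    (h : PP5LB.red (PP5LB.Wf w) x = PP5LB.red (PP5LB.Wf w) c) (hc : PP5LB.DD c % 8 = 5) :
    PP5LB.DD x % 8 = 5 := by
  have h1 := fin_dvd h
  have h2 : (2 : ℕ) ∣ primorial w := by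
    unfold primorial
    exact Finset.dvd_prod_of_mem _ (by
      simp only [Finset.mem_filter, Finset.mem_range]
      exact ⟨by omega, Nat.prime_two⟩)
  have h3 : (8 : ℕ) ∣ PP5LB.Wf w := by
    unfold PP5LB.Wf
    exact Nat.mul_dvd_mul_left 4 h2
  have h4 : (8 : ℤ) ∣ PP5LB.DD x - PP5LB.DD c := dvd_trans (by exact_mod_cast h3) h1
  omega

private theorem fin_jac {w p : ℕ} (hp : p.Prime) (hpw : p ≤ w) {x c : V10}
    (h : PP5LB.red (PP5LB.Wf w) x = PP5LB.red (PP5LB.Wf w) c) :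
    jacobiSym (PP5LB.DD x) p = jacobiSym (PP5LB.DD c) p := by
  have h1 := fin_dvd h
  have h2 : p ∣ primorial w := by
    unfold primorial
    exact Finset.dvd_prod_of_mem (fun i => i) (by
      simp only [Finset.mem_filter, Finset.mem_range]
      exact ⟨by omega, hp⟩)
  have h3 : p ∣ PP5LB.Wf w := by
    unfold PP5LB.Wf
    exact Dvd.dvd.mul_left h2 4
  have h4 : (p : ℤ) ∣ PP5LB.DD x - PP5LB.DD c := dvd_trans (by exact_mod_cast h3) h1
  rw [jacobiSym.mod_left (PP5LB.DD x), jacobiSym.mod_left (PP5LB.DD c)]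
  congr 1
  exact (Int.modEq_iff_dvd.2 h4).symm

private theorem fin_rp {ε : ℝ} (hε : 0 < ε) : ε ^ (-(1 / 2) : ℝ) = 1 / √ε := by
  rw [Real.rpow_neg hε.le, Real.sqrt_eq_rpow, one_div (ε ^ (1 / 2 : ℝ))]

private theorem fin_R10 {R : ℝ} (hR : 0 < R) : (R ^ (5 / 2 : ℝ)) ^ 4 = R ^ 10 := by
  rw [← Real.rpow_natCast, ← Real.rpow_mul hR.le, ← Real.rpow_natCast R 10]
  norm_num

theorem stA (hCel : StCel) : StA := by
  classical
  obtain ⟨C0, ε1, hC0, hε1, hε1', hτ⟩ := tau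
  obtain ⟨hc0, hcel⟩ := hCel
  refine ⟨1 / 3, 8 * C0 ^ 2, ε1, by norm_num, by norm_num,
    by have := one_le_pow₀ hC0 (n := 2); linarith, hε1, ?_⟩
  intro ε hε hεε
  obtain ⟨ht, hτ'⟩ := hτ ε hε hεε
  have hsε : 0 < √ε := Real.sqrt_pos.2 hε
  have hsε1 : √ε ≤ 1 := by
    rw [Real.sqrt_le_left (by norm_num)]; linarith
  have hC00 : 0 < C0 := by linarith
  have hC02 : 1 ≤ C0 ^ 2 := one_le_pow₀ hC0
  refine ⟨max (max ht hc0) 1, min (8 * C0 ^ 2 * √ε / C0) ((8 * C0 ^ 2 * √ε) ^ 4 / C0), by positivity, ?_⟩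
  intro h hh κ δ w hκ hκ1 hδ hδ1 hw
  have hh1 : ht ≤ h := le_trans (le_trans (le_max_left _ _) (le_max_left _ _)) hh
  have hh2 : hc0 ≤ h := le_trans (le_trans (le_max_right _ _) (le_max_left _ _)) hh
  have hh3 : 1 ≤ h := le_trans (le_max_right _ _) hh
  have hY0 : 1 ≤ 8 * C0 ^ 2 / √ε := by
    rw [le_div_iff₀ hsε]; linarith
  obtain ⟨R0, hR0, hasl⟩ := asl hκ hκ1 hY0
  refine ⟨max ⌈R0⌉₊ h, ?_⟩
  intro r c x hr hres hx hgx hlm hspl hNx
  have hrh : h ≤ r := le_trans (le_max_right _ _) hr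
  have hr1 : 1 ≤ r := by omega
  have hrR0 : R0 ≤ (r : ℝ) := le_trans (Nat.le_ceil _) (by exact_mod_cast le_trans (le_max_left _ _) hr)
  have hrr : (1 : ℝ) ≤ (r : ℝ) := by exact_mod_cast hr1
  have hhr : (1 : ℝ) ≤ (h : ℝ) := by exact_mod_cast hh3
  obtain ⟨hbox, hDDu, -, -⟩ := hcel h w r c x hh2 hr1 hx
  -- the family
  have hx' := hx
  unfold Fm PP5LB.XC at hx'
  rw [Finset.mem_filter] at hx'
  obtain ⟨hxA, hred⟩ := hx'
  unfold PP5LB.XA at hxA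
  rw [Finset.mem_filter] at hxA
  obtain ⟨-, hFF, hUni⟩ := hxA
  obtain ⟨u1, u2, u3, huni⟩ := hUni
  have hx0 : x ≠ 0 := by
    rintro rfl
    simp at huni
  have hxp : ∀ p : ℕ, p.Prime → ∃ j, ¬ (p : ℤ) ∣ x j := by
    intro p hp
    by_contra hcon
    push Not at hcon
    have h1 : (p : ℤ) ∣ 1 := by
      rw [← huni]
      exact dvd_add (dvd_add (Dvd.dvd.mul_left (hcon 1) _) (Dvd.dvd.mul_left (hcon 6) _))
        (Dvd.dvd.mul_left (hcon 7) _)
    have h2 : p ∣ 1 := by exact_mod_cast h1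
    exact hp.one_lt.ne' (Nat.dvd_one.1 h2)
  -- `R`
  obtain ⟨R, hRdef⟩ : ∃ R : ℝ, R = (h : ℝ) * (r : ℝ) := ⟨_, rfl⟩
  rw [← hRdef] at hbox hDDu hlm hNx ⊢
  have hRr : (r : ℝ) ≤ R := by rw [hRdef]; exact le_mul_of_one_le_left (by linarith) hhr
  have hR1 : 1 ≤ R := by linarith
  have hRpos : 0 < R := by linarith
  have hRR0 : R0 ≤ R := by linarith
  have hDneg : PP5LB.DD x < 0 := by
    have h1 : ((PP5LB.DD x : ℤ) : ℝ) < 0 := lt_of_le_of_lt hDDu (by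
      have : 0 < R ^ 4 := by positivity
      linarith)
    exact_mod_cast h1
  obtain ⟨N, hN⟩ : ∃ N : ℕ, N = ⌊(1 / 3 : ℝ) * R ^ 2⌋₊ := ⟨_, rfl⟩
  obtain ⟨K, hK⟩ : ∃ K : ℕ, K = ⌊R ^ (κ / 2)⌋₊ := ⟨_, rfl⟩
  rw [← hN, ← hK]
  have hNle : (N : ℝ) ≤ (1 / 3 : ℝ) * R ^ 2 := by rw [hN]; exact Nat.floor_le (by positivity)
  have hKle : (K : ℝ) ≤ R ^ (κ / 2) := by rw [hK]; exact Nat.floor_le (by positivity)
  have hfac : (((N + K + w).factorial : ℕ) : ℤ) ≠ 0 := by exact_mod_cast (Nat.factorial_ne_zero _)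
  obtain ⟨A, B, C, e, hcrd, hcop⟩ := crd hFF hxp hDneg.ne hspl hfac
  have hcopn : ∀ n : ℕ, 0 < n → n ≤ N + K + w → IsCoprime A (n : ℤ) := by
    intro n h1 h2
    exact IsCoprime.of_isCoprime_of_dvd_right hcop (by exact_mod_cast Nat.dvd_factorial h1 h2)
  have hbox' : ∀ j, |(x j : ℝ) - (h * r : ℝ) * xs j| ≤ 100 * r := by rw [← hRdef]; exact hbox
  obtain ⟨hA, τ, hτ1, hqτ, hprod, hτv⟩ := hτ' h r x hh1 hr1 hFF hbox' hDneg A B C e hcrd
  rw [← hRdef] at hprod hτv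
  have hD' : B ^ 2 - 4 * A * C < 0 := by rw [hcrd.dsc]; exact hDneg
  have hKr : (K : ℝ) ≤ (r : ℝ) ^ (1 / 100 : ℝ) := by
    refine hKle.trans ?_
    calc R ^ (κ / 2) ≤ R ^ (1 / 400 : ℝ) := Real.rpow_le_rpow_of_exponent_le hR1 (by linarith)
      _ ≤ ((r : ℝ) ^ 4) ^ (1 / 400 : ℝ) := by
          apply Real.rpow_le_rpow hRpos.le _ (by norm_num)
          rw [hRdef]
          have h1 : (h : ℝ) ≤ (r : ℝ) := by exact_mod_cast hrh
          calc (h : ℝ) * r ≤ r * r := mul_le_mul_of_nonneg_right h1 (by linarith)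
            _ = (r : ℝ) ^ 2 := by ring
            _ ≤ (r : ℝ) ^ 4 := pow_le_pow_right₀ hrr (by norm_num)
      _ = (r : ℝ) ^ (1 / 100 : ℝ) := by
          rw [← Real.rpow_natCast, ← Real.rpow_mul (by linarith)]
          norm_num
  have hHy : Hy A B C w N K := by
    refine ⟨hD', hw, ?_, fun n h1 h2 => hcopn n h1 (by omega), fun n h1 h2 => hcopn n h1 (by omega),
      fun n h1 h2 => hcopn n h1 (by omega), ?_, ?_, ?_⟩
    · have h1 : (4 * (N : ℝ) ^ 2) < R ^ 4 := by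
        have h2 : (N : ℝ) ^ 2 ≤ ((1 / 3 : ℝ) * R ^ 2) ^ 2 :=
          pow_le_pow_left₀ (Nat.cast_nonneg _) hNle 2
        have h3 : 0 < R ^ 4 := by positivity
        have h9 : ((1 / 3 : ℝ) * R ^ 2) ^ 2 = (1 / 9) * R ^ 4 := by ring
        rw [h9] at h2
        linarith
      have h2 : ((PP5LB.DD x : ℤ) : ℝ) ≤ -R ^ 4 := hDDu
      have h3 : (4 * (N : ℝ) ^ 2) < ((-(PP5LB.DD x) : ℤ) : ℝ) := by
        push_cast; linarith
      have h4 : 4 * (N : ℤ) ^ 2 < -(PP5LB.DD x) := by exact_mod_cast h3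
      rw [← hcrd.dsc] at h4
      linarith
    · rw [hcrd.dsc]
      exact fin_mod8 hw hred hres.d8
    · intro p hp hp2 hpw
      rw [hcrd.dsc, fin_jac hp hpw hred]
      exact hres.dp p hp hp2 hpw
    · intro p hp hpK
      rw [hcrd.dsc]
      exact hgx.sD p hp (le_trans (by exact_mod_cast hpK) hKr)
  rw [← hcrd.dsc]
  -- the data of the seeds
  have hsed := fun s hs => sed (τ := τ) hA hD' hw hHy.An hτ1 hqτ s hs
  choose! ks vs hks using hsed
  obtain ⟨S, hS⟩ : ∃ S : Finset (ℕ × ℕ), S = Sd w (B ^ 2 - 4 * A * C) N := ⟨_, rfl⟩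
  rw [← hS] at hks ⊢
  have hbf : ∀ s ∈ S, |bf (A : ℝ) B C τ (rv (vs s))| ≤ 8 * C0 / (ks s : ℝ) * √ε * R ^ (3 / 2 : ℝ) := by
    intro s hs
    obtain ⟨h1, -, -, -, h5⟩ := hks s hs
    have h6 : (0 : ℝ) < (ks s : ℝ) := by exact_mod_cast h1
    have h7 : |bf (A : ℝ) B C τ (rv (vs s))| * (ks s : ℝ) ≤ 8 * (C0 * √ε * R ^ (3 / 2 : ℝ)) :=
      h5.trans (by rw [mul_assoc]; exact mul_le_mul_of_nonneg_left hprod (by norm_num))
    have h8 : 8 * C0 / (ks s : ℝ) * √ε * R ^ (3 / 2 : ℝ) = 8 * (C0 * √ε * R ^ (3 / 2 : ℝ)) / (ks s : ℝ) := by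
      field_simp
    rw [h8, le_div_iff₀ h6]
    exact h7
  have hP : ∀ s ∈ S, (∀ a, |(lc e (vs s) a : ℝ)| ≤ 8 * C0 ^ 2 / √ε / (ks s : ℝ) * R ^ (5 / 2 : ℝ)) ∧
      ((∀ a, |(lc e (vs s) a : ℝ)| ≤ 8 * C0 ^ 2 * √ε / (ks s : ℝ) * R ^ (5 / 2 : ℝ)) ∨
        (∀ a, |(lc e (vs s) a : ℝ)| ≤ C0 * |(lc e (vs s) 0 : ℝ)| ∧
          |(lc e (vs s) a : ℝ)| ^ 4 ≤ C0 * -(PP5.Df (lc e (vs s)) : ℝ))) := by
    intro s hs
    obtain ⟨h1, -, h3, -, -⟩ := hks s hs
    have h6 : (0 : ℝ) < (ks s : ℝ) := by exact_mod_cast h1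
    have h7 := hτv (vs s) h3 (8 * C0 / (ks s : ℝ)) (by positivity) (hbf s hs)
    have e1 : C0 * (8 * C0 / (ks s : ℝ)) / √ε = 8 * C0 ^ 2 / √ε / (ks s : ℝ) := by
      field_simp
    have e2 : C0 * (8 * C0 / (ks s : ℝ)) * √ε = 8 * C0 ^ 2 * √ε / (ks s : ℝ) := by
      field_simp
    rw [e1, e2] at h7
    exact h7
  have hzr : ∀ s ∈ S, ∀ t : ℝ, (∀ a, |(lc e (vs s) a : ℝ)| ≤ t * R ^ (5 / 2 : ℝ)) → Zr R t x (lc e (vs s)) := by
    intro s hs t ht
    obtain ⟨-, -, h3, h4, -⟩ := hks s hs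
    exact ⟨hcrd.inE _, (crd_qd hcrd hx0 _).1 h3, (crd_pr hcrd _).1 h4, ht⟩
  -- the alternative for `k`
  have hinr : ∀ s ∈ S, ks s = 1 ∨ w < ks s := by
    intro s hs
    obtain ⟨-, ⟨r', g, n1, k0, b, hsh, hgk, -⟩, -, -, -⟩ := hks s hs
    have hs' := hs
    rw [hS] at hs'
    unfold Sd at hs'
    rw [Finset.mem_filter] at hs'
    have h9 := inr hw hHy.d8 hHy.dp (fun p hp hpw => hHy.Aw p hp.pos hpw) hsh hs'.2.2.2.1
    rw [hgk] at h9
    exact h9.2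
  have hsplit : S ⊆ S.filter (fun s => ks s = 1) ∪ (S.filter (fun s => w < ks s ∧ ks s ≤ K) ∪
      S.filter (fun s => R ^ (κ / 2) < (ks s : ℝ))) := by
    intro s hs
    rw [Finset.mem_union, Finset.mem_union, Finset.mem_filter, Finset.mem_filter, Finset.mem_filter]
    rcases hinr s hs with h1 | h1
    · exact Or.inl ⟨hs, h1⟩
    · rcases le_or_gt (ks s) K with h2 | h2
      · exact Or.inr (Or.inl ⟨hs, h1, h2⟩)
      · refine Or.inr (Or.inr ⟨hs, ?_⟩)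
        rw [hK] at h2
        exact (Nat.floor_lt (by positivity)).1 h2
  -- S1
  have hS1 : ((S.filter (fun s => ks s = 1)).card : ℝ) ≤
      Set.ncard (Zg R (8 * C0 ^ 2 * ε ^ (-(1 / 2) : ℝ))
        (min (8 * C0 ^ 2 * √ε / C0) ((8 * C0 ^ 2 * √ε) ^ 4 / C0)) x) +
      Nx R (8 * C0 ^ 2 * ε ^ (1 / 2 : ℝ)) x := by
    have h1 := asa hHy hcrd (S.filter (fun s => ks s = 1))
      (by rw [← hS]; exact Finset.filter_subset _ _) vs
      (by
        intro s hs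
        rw [Finset.mem_filter] at hs
        have h2 := (hks s hs.1).2.1
        rw [hs.2] at h2
        exact h2)
      (Zg R (8 * C0 ^ 2 * ε ^ (-(1 / 2) : ℝ))
        (min (8 * C0 ^ 2 * √ε / C0) ((8 * C0 ^ 2 * √ε) ^ 4 / C0)) x)
      {P | Zr R (8 * C0 ^ 2 * ε ^ (1 / 2 : ℝ)) x P} (fin_zg _ _ _ _) (fin_zr _ _ _)
      (by
        intro s hs
        rw [Finset.mem_filter] at hs
        obtain ⟨hs, hk1⟩ := hs
        obtain ⟨hb1, hb2⟩ := hP s hs
        rw [hk1] at hb1 hb2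
        simp only [Nat.cast_one, div_one] at hb1 hb2
        by_cases hZ2 : Zr R (8 * C0 ^ 2 * ε ^ (1 / 2 : ℝ)) x (lc e (vs s))
        · exact Or.inr hZ2
        left
        have hne : ¬ ∀ a, |(lc e (vs s) a : ℝ)| ≤ 8 * C0 ^ 2 * √ε * R ^ (5 / 2 : ℝ) := by
          intro hcon
          apply hZ2
          apply hzr s hs
          rw [← Real.sqrt_eq_rpow]
          exact hcon
        have hb3 := hb2.resolve_left hne
        push Not at hne
        obtain ⟨a, ha⟩ := hne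
        obtain ⟨hb4, hb5⟩ := hb3 a
        have hRp : 0 < R ^ (5 / 2 : ℝ) := by positivity
        refine ⟨hzr s hs _ ?_, ?_, ?_⟩
        · intro a'
          have := hb1 a'
          rw [fin_rp hε]
          rw [show 8 * C0 ^ 2 * (1 / √ε) = 8 * C0 ^ 2 / √ε by ring]
          exact this
        · calc min (8 * C0 ^ 2 * √ε / C0) ((8 * C0 ^ 2 * √ε) ^ 4 / C0) * R ^ (5 / 2 : ℝ)
              ≤ (8 * C0 ^ 2 * √ε / C0) * R ^ (5 / 2 : ℝ) :=
                mul_le_mul_of_nonneg_right (min_le_left _ _) hRp.le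
            _ = 8 * C0 ^ 2 * √ε * R ^ (5 / 2 : ℝ) / C0 := by ring
            _ ≤ |(lc e (vs s) 0 : ℝ)| := by
                rw [div_le_iff₀ hC00]
                linarith
        · have h10 : (8 * C0 ^ 2 * √ε) ^ 4 * R ^ 10 ≤ C0 * -(PP5.Df (lc e (vs s)) : ℝ) := by
            refine le_trans ?_ hb5
            rw [← fin_R10 hRpos, ← mul_pow]
            exact pow_le_pow_left₀ (by positivity) ha.le 4
          calc min (8 * C0 ^ 2 * √ε / C0) ((8 * C0 ^ 2 * √ε) ^ 4 / C0) * R ^ 10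
              ≤ ((8 * C0 ^ 2 * √ε) ^ 4 / C0) * R ^ 10 :=
                mul_le_mul_of_nonneg_right (min_le_right _ _) (by positivity)
            _ = (8 * C0 ^ 2 * √ε) ^ 4 * R ^ 10 / C0 := by ring
            _ ≤ -(PP5.Df (lc e (vs s)) : ℝ) := by
                rw [div_le_iff₀ hC00]
                linarith)
    exact_mod_cast h1
  -- S2
  have hS2 : ((S.filter (fun s => w < ks s ∧ ks s ≤ K)).card : ℝ) ≤
      ∑ k ∈ Ioc w K, (k.divisors.card : ℝ) ^ 3 * Nx R (8 * C0 ^ 2 * ε ^ (-(1 / 2) : ℝ) / k) x := by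
    rw [Finset.card_eq_sum_card_fiberwise (f := ks) (t := Ioc w K) (by
      intro s hs
      rw [Finset.mem_coe, Finset.mem_filter] at hs
      rw [Finset.mem_coe, Finset.mem_Ioc]
      exact hs.2)]
    push_cast
    apply Finset.sum_le_sum
    intro k hk
    rw [Finset.mem_Ioc] at hk
    have h1 := asb hHy hcrd (k := k) (by omega) hk.2
      ((S.filter (fun s => w < ks s ∧ ks s ≤ K)).filter (fun s => ks s = k))
      (by rw [← hS]; exact (Finset.filter_subset _ _).trans (Finset.filter_subset _ _)) vs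
      (by
        intro s hs
        rw [Finset.mem_filter, Finset.mem_filter] at hs
        have h2 := (hks s hs.1.1).2.1
        rw [hs.2] at h2
        exact h2)
      {P | Zr R (8 * C0 ^ 2 * ε ^ (-(1 / 2) : ℝ) / k) x P} (fin_zr _ _ _)
      (by
        intro s hs
        rw [Finset.mem_filter, Finset.mem_filter] at hs
        apply hzr s hs.1.1
        intro a
        have := (hP s hs.1.1).1 a
        rw [hs.2] at this
        rw [fin_rp hε]
        rw [show 8 * C0 ^ 2 * (1 / √ε) = 8 * C0 ^ 2 / √ε by ring]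
        exact this)
    have h2 : (((S.filter (fun s => w < ks s ∧ ks s ≤ K)).filter (fun s => ks s = k)).card : ℝ) ≤
        ((k.divisors.card ^ 3 * Set.ncard {P | Zr R (8 * C0 ^ 2 * ε ^ (-(1 / 2) : ℝ) / k) x P} : ℕ) : ℝ) := by
      exact_mod_cast h1
    refine h2.trans ?_
    push_cast
    exact le_rfl
  -- S3
  have hS3 : ((S.filter (fun s => R ^ (κ / 2) < (ks s : ℝ))).card : ℝ) ≤ R ^ (2 - κ / 20) := by
    refine hasl R δ A B C w N K x e hRR0 hδ hδ1 hHy hcrd hx0 (by have := sq_nonneg R; linarith) hlm hNx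
      (S.filter (fun s => R ^ (κ / 2) < (ks s : ℝ))) vs ks
      (by rw [← hS]; exact Finset.filter_subset _ _) ?_
    intro s hs
    rw [Finset.mem_filter] at hs
    obtain ⟨h1, h2, h3, h4, h5⟩ := hks s hs.1
    exact ⟨hs.2, h2, h4, h3, (hP s hs.1).1⟩
  have hcard : (S.card : ℝ) ≤ (S.filter (fun s => ks s = 1)).card +
      ((S.filter (fun s => w < ks s ∧ ks s ≤ K)).card +
        (S.filter (fun s => R ^ (κ / 2) < (ks s : ℝ))).card) := by
    have h1 := (Finset.card_le_card hsplit).trans (Finset.card_union_le _ _)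
    have h2 := Finset.card_union_le (S.filter (fun s => w < ks s ∧ ks s ≤ K))
      (S.filter (fun s => R ^ (κ / 2) < (ks s : ℝ)))
    exact_mod_cast h1.trans (Nat.add_le_add_left h2 _)
  linarith

end Pool.Agent.PP5LA
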