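import Pool.Agent.PP5LA.Defs

/-!
# LB5, section A, module Sqr (size 3): square roots of `D` modulo `k`

PROOF.  Let `u² = u'² = D mod k`, `e := gcd(u - u', k)`.  CLAIM: `gcd(e, k/e) = 1` and `k/e ∣ u + u'`.  `p ∣ k` (odd).  `p ∤ D`: `p` does not divide
both `u - u'` and `u + u'` (else `p ∣ 2u`, `p ∣ D`), and `k ∣ (u - u')(u + u')`, so the full power of `p` in `k` divides one of them and `p`
does not divide the other.  `p ∣ D`: `p ∣ u, u'`; `p² ∣ k` would give `p² ∣ D`, so `p ∥ k` and `p ∣ u - u'`.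
(Clean way: `gcd(e, k/e) = 1`: a prime `p ∣ e, k/e` has `p² ∣ k`, so `p ∤ D` (else `p ∣ u`, `p² ∣ D`), `p ∣ u - u'`, so `p ∤ u + u'`, so the full
power of `p` in `k` divides `u - u'`, so divides `e`, so `p ∤ k/e`.  `k/e ∣ u + u'`: `k ∣ (u-u')(u+u')`, divide by `e`:
`k/e ∣ ((u-u')/e)(u+u')`, `gcd((u-u')/e, k/e) = 1` by the definition of the gcd: a common prime `p` of `(u-u')/e` and `k/e` gives
`e p ∣ gcd(u-u', k)`, contradiction.)
`sqr`: fix `u0 ∈ S`; `u ↦ e(u) = gcd(u - u0, k) ∈ divisors k` is injective: `u = u0 mod e`, `u = -u0 mod k/e`, coprime moduli.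
`sqr_lift`: here `gcd(D, n) = 1`; `n1 ∣ e(u)`, so `n/e(u) ∣ n/n1 = g`; map `u ↦ n / e(u) ∈ divisors g`, injective.
`sqr_rot`: `u = 2R - B`, `k` odd: `4 (R² - B R + A C) = u² - (B² - 4AC)`; `k ∣ u - u' ↔ k ∣ R - R'`.
-/

set_option autoImplicit false

namespace Pool.Agent.PP5LA

open Matrix Finset Pool.Agent.PP5B Pool.Agent.LB

/-- the claim: `e = gcd(u - u', k)` and `k / e` are coprime, `k / e` divides `u + u'` -/
private theorem Sqr_cl {D : ℤ} {k : ℕ} (hk : Odd k) (hkD : ∀ p : ℕ, p.Prime → p ∣ k → ¬ (p : ℤ) ^ 2 ∣ D)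
    {u u' : ℤ} (hu : (k : ℤ) ∣ u ^ 2 - D) (hu' : (k : ℤ) ∣ u' ^ 2 - D) :
    ∃ f : ℕ, k = Int.gcd (u - u') k * f ∧ Nat.Coprime (Int.gcd (u - u') k) f ∧ (f : ℤ) ∣ u + u' := by
  have hkpos : 0 < k := hk.pos
  have hg0 : 0 < Int.gcd (u - u') k := by
    rcases Nat.eq_zero_or_pos (Int.gcd (u - u') k) with h0 | h0
    · have := (Int.gcd_eq_zero_iff.mp h0).2
      omega
    · exact h0
  obtain ⟨w, f', hco, hw, hf⟩ := Int.exists_gcd_one hg0
  set e : ℕ := Int.gcd (u - u') k with he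
  have hez : (0 : ℤ) < e := by exact_mod_cast hg0
  have hf'pos : 0 < f' := by
    rcases lt_trichotomy f' 0 with h1 | h1 | h1
    · have : (0 : ℤ) < k := by exact_mod_cast hkpos
      nlinarith
    · rw [h1] at hf; simp at hf; omega
    · exact h1
  obtain ⟨f, hff⟩ := Int.eq_ofNat_of_zero_le hf'pos.le
  subst hff
  have hkef : k = e * f := by
    have : (k : ℤ) = (e : ℤ) * f := by rw [hf]; ring
    exact_mod_cast this
  have hwf : IsCoprime (f : ℤ) w := by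
    have := (Int.isCoprime_iff_gcd_eq_one.mpr hco).symm
    simpa using this
  have hdiv : (f : ℤ) ∣ u + u' := by
    have h1 : (k : ℤ) ∣ (u ^ 2 - D) - (u' ^ 2 - D) := dvd_sub hu hu'
    have h2 : (u ^ 2 - D) - (u' ^ 2 - D) = (e : ℤ) * (w * (u + u')) := by
      have : (u ^ 2 - D) - (u' ^ 2 - D) = (u - u') * (u + u') := by ring
      rw [this, hw]; ring
    rw [h2, hkef] at h1
    push_cast at h1
    have h3 : (f : ℤ) ∣ w * (u + u') := (mul_dvd_mul_iff_left hez.ne').mp h1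
    exact hwf.dvd_of_dvd_mul_left h3
  refine ⟨f, hkef, ?_, hdiv⟩
  by_contra hcon
  rw [Nat.Prime.not_coprime_iff_dvd] at hcon
  obtain ⟨p, hp, hpe, hpf⟩ := hcon
  have hpk : p ∣ k := by rw [hkef]; exact Dvd.dvd.mul_right hpe f
  have hpodd : p ≠ 2 := by
    rintro rfl
    rcases hk with ⟨m, hm⟩
    omega
  have hp2k : (p : ℤ) ^ 2 ∣ (k : ℤ) := by
    rw [hkef, sq]
    push_cast
    exact mul_dvd_mul (by exact_mod_cast hpe) (by exact_mod_cast hpf)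
  have h1 : (p : ℤ) ∣ u - u' := by
    rw [hw]
    exact Dvd.dvd.mul_left (by exact_mod_cast hpe) _
  have h2 : (p : ℤ) ∣ u + u' := dvd_trans (by exact_mod_cast hpf) hdiv
  have h3 : (p : ℤ) ∣ 2 * u := by
    have := dvd_add h1 h2
    have e1 : u - u' + (u + u') = 2 * u := by ring
    rwa [e1] at this
  have hpp : Prime (p : ℤ) := Nat.prime_iff_prime_int.mp hp
  have h4 : (p : ℤ) ∣ u := by
    rcases hpp.dvd_or_dvd h3 with h5 | h5
    · exfalso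
      have h6 : p ∣ 2 := by exact_mod_cast h5
      exact hpodd ((Nat.prime_dvd_prime_iff_eq hp Nat.prime_two).mp h6)
    · exact h5
  have h5 : (p : ℤ) ^ 2 ∣ u ^ 2 - D := dvd_trans hp2k hu
  have h6 : (p : ℤ) ^ 2 ∣ u ^ 2 := pow_dvd_pow_of_dvd h4 2
  have h7 : (p : ℤ) ^ 2 ∣ D := by
    have := dvd_sub h6 h5
    have e1 : u ^ 2 - (u ^ 2 - D) = D := by ring
    rwa [e1] at this
  exact hkD p hp hpk h7

/-- equal gcd implies congruent modulo `k` -/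
private theorem Sqr_inj {D : ℤ} {k : ℕ} (hk : Odd k) (hkD : ∀ p : ℕ, p.Prime → p ∣ k → ¬ (p : ℤ) ^ 2 ∣ D)
    {u u' u0 : ℤ} (hu : (k : ℤ) ∣ u ^ 2 - D) (hu' : (k : ℤ) ∣ u' ^ 2 - D) (hu0 : (k : ℤ) ∣ u0 ^ 2 - D)
    (he : Int.gcd (u - u0) k = Int.gcd (u' - u0) k) : (k : ℤ) ∣ u - u' := by
  obtain ⟨f, h1, h2, h3⟩ := Sqr_cl hk hkD hu hu0
  obtain ⟨f', h1', h2', h3'⟩ := Sqr_cl hk hkD hu' hu0
  have hkpos : 0 < k := hk.pos
  have hepos : 0 < Int.gcd (u - u0) k := by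
    rcases Nat.eq_zero_or_pos (Int.gcd (u - u0) k) with h0 | h0
    · rw [h0, zero_mul] at h1; omega
    · exact h0
  have hff : f = f' := by
    rw [← he] at h1'
    exact Nat.eq_of_mul_eq_mul_left hepos (h1.symm.trans h1')
  subst hff
  have ha : ((Int.gcd (u - u0) k : ℕ) : ℤ) ∣ u - u' := by
    have a1 : ((Int.gcd (u - u0) k : ℕ) : ℤ) ∣ u - u0 := Int.gcd_dvd_left _ _
    have a2 : ((Int.gcd (u - u0) k : ℕ) : ℤ) ∣ u' - u0 := by rw [he]; exact Int.gcd_dvd_left _ _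
    have := dvd_sub a1 a2
    have e1 : u - u0 - (u' - u0) = u - u' := by ring
    rwa [e1] at this
  have hb : (f : ℤ) ∣ u - u' := by
    have := dvd_sub h3 h3'
    have e1 : u + u0 - (u' + u0) = u - u' := by ring
    rwa [e1] at this
  have hco : IsCoprime ((Int.gcd (u - u0) k : ℕ) : ℤ) (f : ℤ) := Nat.isCoprime_iff_coprime.mpr h2
  have h5 := hco.mul_dvd ha hb
  have e2 : (k : ℤ) = ((Int.gcd (u - u0) k : ℕ) : ℤ) * f := by exact_mod_cast h1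
  rw [e2]
  exact h5

theorem sqr {D : ℤ} {k : ℕ} (hk : Odd k) (hkD : ∀ p : ℕ, p.Prime → p ∣ k → ¬ (p : ℤ) ^ 2 ∣ D) (S : Finset ℤ)
    (hS : ∀ u ∈ S, (k : ℤ) ∣ u ^ 2 - D) (hi : ∀ u ∈ S, ∀ u' ∈ S, (k : ℤ) ∣ u - u' → u = u') :
    S.card ≤ k.divisors.card := by
  rcases S.eq_empty_or_nonempty with h0 | ⟨u0, hu0⟩
  · rw [h0]; simp
  apply card_le_card_of_injOn (fun u => Int.gcd (u - u0) k)
  · intro u _
    rw [mem_coe, Nat.mem_divisors]
    refine ⟨?_, hk.pos.ne'⟩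
    have : ((Int.gcd (u - u0) k : ℕ) : ℤ) ∣ (k : ℤ) := Int.gcd_dvd_right _ _
    exact_mod_cast this
  · intro u hu u' hu' he
    exact hi u hu u' hu' (Sqr_inj hk hkD (hS u hu) (hS u' hu') (hS u0 hu0) he)

theorem sqr_lift {D : ℤ} {g n1 : ℕ} (hk : Odd (g * n1)) (hD : Int.gcd D (g * n1 : ℕ) = 1) (S : Finset ℤ)
    (hS : ∀ u ∈ S, ((g * n1 : ℕ) : ℤ) ∣ u ^ 2 - D) (h1 : ∀ u ∈ S, ∀ u' ∈ S, (n1 : ℤ) ∣ u - u')
    (hi : ∀ u ∈ S, ∀ u' ∈ S, ((g * n1 : ℕ) : ℤ) ∣ u - u' → u = u') : S.card ≤ g.divisors.card := by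
  rcases S.eq_empty_or_nonempty with h0 | ⟨u0, hu0⟩
  · rw [h0]; simp
  have hnpos : 0 < g * n1 := hk.pos
  have hn1 : 0 < n1 := Nat.pos_of_mul_pos_left hnpos
  have hg : 0 < g := Nat.pos_of_mul_pos_right hnpos
  have hkD : ∀ p : ℕ, p.Prime → p ∣ g * n1 → ¬ (p : ℤ) ^ 2 ∣ D := by
    intro p hp hpn hpD
    have h2 : (p : ℤ) ∣ D := dvd_trans (dvd_pow_self _ (by norm_num)) hpD
    have h3 : (p : ℤ) ∣ ((g * n1 : ℕ) : ℤ) := by exact_mod_cast hpn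
    have h4 : p ∣ Int.gcd D (g * n1 : ℕ) := Int.dvd_gcd h2 h3
    rw [hD] at h4
    exact hp.one_lt.ne' (Nat.dvd_one.mp h4)
  have hediv : ∀ u, Int.gcd (u - u0) (g * n1 : ℕ) ∣ g * n1 := by
    intro u
    have : ((Int.gcd (u - u0) (g * n1 : ℕ) : ℕ) : ℤ) ∣ ((g * n1 : ℕ) : ℤ) := Int.gcd_dvd_right _ _
    exact_mod_cast this
  apply card_le_card_of_injOn (fun u => g * n1 / Int.gcd (u - u0) (g * n1 : ℕ))
  · intro u hu
    rw [mem_coe, Nat.mem_divisors]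
    refine ⟨?_, hg.ne'⟩
    have h2 : n1 ∣ Int.gcd (u - u0) (g * n1 : ℕ) := by
      apply Int.dvd_gcd (h1 u hu u0 hu0)
      exact_mod_cast Dvd.intro_left g rfl
    have h3 : g * n1 / Int.gcd (u - u0) (g * n1 : ℕ) ∣ g * n1 / n1 := by
      obtain ⟨c, hc⟩ := h2
      obtain ⟨d, hd⟩ := hediv u
      have hepos : 0 < Int.gcd (u - u0) (g * n1 : ℕ) := Nat.pos_of_dvd_of_pos (hediv u) hnpos
      have e1 : g * n1 / Int.gcd (u - u0) (g * n1 : ℕ) = d := by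
        exact Nat.div_eq_of_eq_mul_left hepos (hd.trans (mul_comm _ _))
      have e2 : g * n1 / n1 = c * d := by
        apply Nat.div_eq_of_eq_mul_left hn1
        calc g * n1 = Int.gcd (u - u0) (g * n1 : ℕ) * d := hd
          _ = (n1 * c) * d := by rw [← hc]
          _ = c * d * n1 := by ring
      rw [e1, e2]
      exact Dvd.intro_left c rfl
    rwa [Nat.mul_div_cancel _ hn1] at h3
  · intro u hu u' hu' he
    simp only at he
    have hepos : 0 < Int.gcd (u - u0) (g * n1 : ℕ) := Nat.pos_of_dvd_of_pos (hediv u) hnpos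
    have hepos' : 0 < Int.gcd (u' - u0) (g * n1 : ℕ) := Nat.pos_of_dvd_of_pos (hediv u') hnpos
    have a1 : g * n1 / Int.gcd (u - u0) (g * n1 : ℕ) * Int.gcd (u - u0) (g * n1 : ℕ) = g * n1 :=
      Nat.div_mul_cancel (hediv u)
    have a2 : g * n1 / Int.gcd (u' - u0) (g * n1 : ℕ) * Int.gcd (u' - u0) (g * n1 : ℕ) = g * n1 :=
      Nat.div_mul_cancel (hediv u')
    rw [he] at a1
    have hqpos : 0 < g * n1 / Int.gcd (u' - u0) (g * n1 : ℕ) :=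
      Nat.div_pos (Nat.le_of_dvd hnpos (hediv u')) hepos'
    have hee : Int.gcd (u - u0) (g * n1 : ℕ) = Int.gcd (u' - u0) (g * n1 : ℕ) :=
      Nat.eq_of_mul_eq_mul_left hqpos (a1.trans a2.symm)
    exact hi u hu u' hu' (Sqr_inj hk hkD (hS u hu) (hS u' hu') (hS u0 hu0) hee)

theorem sqr_rot {A B C : ℤ} {k : ℕ} (hk : Odd k)
    (hkD : ∀ p : ℕ, p.Prime → p ∣ k → ¬ (p : ℤ) ^ 2 ∣ B ^ 2 - 4 * A * C) (S : Finset ℤ)
    (hS : ∀ R ∈ S, (k : ℤ) ∣ R ^ 2 - B * R + A * C) (hi : ∀ u ∈ S, ∀ u' ∈ S, (k : ℤ) ∣ u - u' → u = u') :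
    S.card ≤ k.divisors.card := by
  have hinj : Set.InjOn (fun R : ℤ => 2 * R - B) (S : Set ℤ) := by
    intro R _ R' _ h
    simp only at h
    omega
  have h2k : IsCoprime (k : ℤ) 2 := by
    have : Nat.Coprime k 2 := hk.coprime_two_right
    exact_mod_cast Nat.isCoprime_iff_coprime.mpr this
  have h := sqr hk hkD (S.image (fun R : ℤ => 2 * R - B)) ?_ ?_
  · rwa [card_image_of_injOn hinj] at h
  · intro u hu
    rw [mem_image] at hu
    obtain ⟨R, hR, rfl⟩ := hu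
    have h1 : (2 * R - B) ^ 2 - (B ^ 2 - 4 * A * C) = 4 * (R ^ 2 - B * R + A * C) := by ring
    rw [h1]
    exact Dvd.dvd.mul_left (hS R hR) 4
  · intro u hu u' hu' hd
    rw [mem_image] at hu hu'
    obtain ⟨R, hR, rfl⟩ := hu
    obtain ⟨R', hR', rfl⟩ := hu'
    have h1 : 2 * R - B - (2 * R' - B) = 2 * (R - R') := by ring
    rw [h1] at hd
    have h2 := hi R hR R' hR' (h2k.dvd_of_dvd_mul_left hd)
    rw [h2]

end Pool.Agent.PP5LA
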