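import Pool.Agent.PP5LA.Cnt
import Pool.Agent.PP5LA.Sqr

/-!
# LB5, section A, module Big: all seeds over one `v`, cheap bound (helper99)

Map the seed `(n, c)` to `(g, b, n1, c)`.  `1 ≤ g ≤ Y`.  For fixed `g` the vector `b` is primitive with `Ps b = F v`,
`F = n1 k0 ≤ N Y / g²`: `cnt'`.  For fixed `g, b`: `n1` is a divisor of `F b ≤ N Y`.  For fixed `n`: the `c` are square
roots of `D` modulo `n`.
-/

set_option autoImplicit false

namespace Pool.Agent.PP5LA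

open Matrix Finset Pool.Agent.PP5B Pool.Agent.LB

private theorem big_sum (L : ℕ) : ∑ g ∈ Icc 1 L, (1 : ℝ) / (g : ℝ) ^ 2 ≤ 2 := by
  have key : ∀ L : ℕ, 1 ≤ L → ∑ g ∈ Icc 1 L, (1 : ℝ) / (g : ℝ) ^ 2 ≤ 2 - 1 / L := by
    intro L hL
    induction L, hL using Nat.le_induction with
    | base => norm_num
    | succ n hn ih =>
      rw [← Finset.insert_Icc_right_eq_Icc_add_one (by omega), sum_insert (by simp)]
      have hn0 : (0 : ℝ) < n := by exact_mod_cast hn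
      have : (1 : ℝ) / ((n + 1 : ℕ) : ℝ) ^ 2 ≤ 1 / n - 1 / ((n + 1 : ℕ) : ℝ) := by
        push_cast
        rw [div_sub_div _ _ hn0.ne' (by positivity), div_le_div_iff₀ (by positivity) (by positivity)]
        nlinarith
      linarith
  rcases Nat.eq_zero_or_pos L with rfl | hL
  · norm_num
  · have := key L hL
    have h2 : (0 : ℝ) ≤ 1 / L := by positivity
    linarith

/-- the seeds with the same `n` -/
private theorem big_root {D : ℤ} {w N T : ℕ} (hw : 2 ≤ w) {Y : ℝ} (hY : 1 ≤ Y)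
    (hT : ∀ m : ℕ, 0 < m → (m : ℝ) ≤ N * Y → m.divisors.card ≤ T) (S : Finset (ℕ × ℕ)) (hS : S ⊆ Sd w D N) (n : ℕ) :
    (S.filter (fun s => s.1 = n)).card ≤ T := by
  classical
  rcases (S.filter (fun s => s.1 = n)).eq_empty_or_nonempty with hE | ⟨s0, hs0⟩
  · rw [hE]; simp
  have hsd : ∀ s ∈ S.filter (fun s => s.1 = n), s.1 = n ∧ s.2 < n ∧ n ≤ N ∧ 0 < n ∧ Int.gcd D n = 1 ∧ Odd n ∧
      (n : ℤ) ∣ (s.2 : ℤ) ^ 2 - D := by
    intro s hs
    rw [mem_filter] at hs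
    obtain ⟨hs, rfl⟩ := hs
    have h := hS hs
    unfold Sd at h
    rw [mem_filter, mem_product, mem_Ioc] at h
    obtain ⟨⟨⟨h1, h2⟩, _⟩, h4, h5, h6, h7⟩ := h
    refine ⟨rfl, h4, h2, by omega, h5, ?_, h7⟩
    rw [← Nat.not_even_iff_odd]
    intro he
    have := h6 2 Nat.prime_two he.two_dvd
    omega
  obtain ⟨_, _, hnN, hn0, hg, ho, _⟩ := hsd s0 hs0
  have hle : (n : ℝ) ≤ N * Y := by
    have h1 : (n : ℝ) ≤ N := by exact_mod_cast hnN
    have h2 : (0 : ℝ) ≤ N := Nat.cast_nonneg _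
    nlinarith
  refine le_trans ?_ (hT n hn0 hle)
  have hcard : (S.filter (fun s => s.1 = n)).card =
      ((S.filter (fun s => s.1 = n)).image (fun s => (s.2 : ℤ))).card := by
    refine (card_image_of_injOn ?_).symm
    intro s hs s' hs' he
    have e1 := (hsd s hs).1
    have e2 := (hsd s' hs').1
    simp only [Nat.cast_inj] at he
    exact Prod.ext (by rw [e1, e2]) he
  rw [hcard]
  refine sqr_lift (D := D) (g := n) (n1 := 1) (by simpa using ho) (by simpa using hg) _ ?_ ?_ ?_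
  · intro u hu
    rw [mem_image] at hu
    obtain ⟨s, hs, rfl⟩ := hu
    simpa using (hsd s hs).2.2.2.2.2.2
  · intro u _ u' _
    simp
  · intro u hu u' hu' hdd
    rw [mem_image] at hu hu'
    obtain ⟨s, hs, rfl⟩ := hu
    obtain ⟨s', hs', rfl⟩ := hu'
    have e1 := (hsd s hs).2.1
    have e2 := (hsd s' hs').2.1
    rw [mul_one] at hdd
    have h3 := Int.eq_zero_of_abs_lt_dvd hdd (by rw [abs_lt]; constructor <;> omega)
    omega

theorem big {A B C : ℤ} (hD : B ^ 2 - 4 * A * C < 0) {w N : ℕ} (hw : 2 ≤ w)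
    (hN : 4 * (N : ℤ) ^ 2 < 4 * A * C - B ^ 2) {v : Fin 4 → ℤ} (hv : Pr4 v) {Y : ℝ} (hY : 1 ≤ Y) {T : ℕ}
    (hT : ∀ m : ℕ, 0 < m → (m : ℝ) ≤ N * Y → m.divisors.card ≤ T) (S : Finset (ℕ × ℕ))
    (hS : S ⊆ Sd w (B ^ 2 - 4 * A * C) N) (hd : ∀ s ∈ S, ∃ k : ℕ, (k : ℝ) ≤ Y ∧ Dt A B C s k v) :
    (S.card : ℝ) ≤ 68 * (T : ℝ) ^ 2 * Y := by
  classical
  have hroot := big_root hw hY hT S hS
  unfold Dt at hd
  choose! kk hk rr gg n1 k0 bb hsh hgk hrr using hd
  set Q : ℝ := √(4 * (A : ℝ) * C - (B : ℝ) ^ 2) with hQ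
  have hQN : 2 * (N : ℝ) ≤ Q := by
    rw [hQ]
    apply Real.le_sqrt_of_sq_le
    have : ((4 * (N : ℤ) ^ 2 : ℤ) : ℝ) < ((4 * A * C - B ^ 2 : ℤ) : ℝ) := by exact_mod_cast hN
    push_cast at this
    nlinarith
  have hSN : ∀ s ∈ S, s.1 ≤ N := by
    intro s hs
    have h := hS hs
    unfold Sd at h
    rw [mem_filter, mem_product, mem_Ioc] at h
    exact h.1.1.2
  set L : ℕ := ⌊Y⌋₊ with hL
  have hLY : (L : ℝ) ≤ Y := Nat.floor_le (by linarith)
  have hgL : ∀ s ∈ S, gg s * k0 s ≤ L := by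
    intro s hs
    rw [hgk s hs, hL]
    exact Nat.le_floor (hk s hs)
  have hF : ∀ s ∈ S, (n1 s * k0 s) * gg s ^ 2 ≤ N * L := by
    intro s hs
    have e1 := hSN s hs
    rw [(hsh s hs).hn] at e1
    calc (n1 s * k0 s) * gg s ^ 2 = (gg s * n1 s) * (gg s * k0 s) := by ring
      _ ≤ N * L := Nat.mul_le_mul e1 (hgL s hs)
  let Bs : ℕ → Finset (Fin 4 → ℤ) := fun g => (S.filter (fun s => gg s = g)).image bb
  -- `F` as a function of `b`
  have hBs : ∀ g ∈ Icc 1 L, ((Bs g).card : ℝ) ≤ 2 + 6 * Y * (1 / (g : ℝ) ^ 2) := by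
    intro g hg
    have hg1 : 1 ≤ g := (mem_Icc.mp hg).1
    have hg0 : (0 : ℝ) < g := by exact_mod_cast hg1
    have hex : ∀ b ∈ Bs g, ∃ f : ℤ, 0 < f ∧ (f : ℝ) ≤ (N * L) / (g : ℝ) ^ 2 ∧ Pr4 b ∧
        ∀ i, Ps A B C b i = f * v i := by
      intro b hb
      rw [mem_image] at hb
      obtain ⟨s, hs, rfl⟩ := hb
      rw [mem_filter] at hs
      obtain ⟨hs, rfl⟩ := hs
      have hz := hsh s hs
      refine ⟨(n1 s : ℤ) * k0 s, ?_, ?_, hz.pb, hz.ps⟩
      · have := hz.n0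
        have := hz.k00
        positivity
      · rw [le_div_iff₀ (by positivity)]
        have := hF s hs
        exact_mod_cast this
    choose! F hF1 hF2 hF3 hF4 using hex
    have h := cnt' hD hv (Bs g) F ((N * L) / (g : ℝ) ^ 2) (by positivity)
      fun b hb => ⟨hF3 b hb, hF1 b hb, hF2 b hb, hF4 b hb⟩
    rw [← hQ] at h
    refine h.trans ?_
    have h2 : 12 * ((N * L) / (g : ℝ) ^ 2) / Q ≤ 6 * Y * (1 / (g : ℝ) ^ 2) := by
      rcases eq_or_lt_of_le (show (0 : ℝ) ≤ Q from Real.sqrt_nonneg _) with h0 | h0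
      · rw [← h0, div_zero]; positivity
      · rw [div_le_iff₀ h0]
        have h3 : 12 * ((N * L) / (g : ℝ) ^ 2) = (6 * (2 * N) * L) * (1 / (g : ℝ) ^ 2) := by ring
        have h4 : 6 * Y * (1 / (g : ℝ) ^ 2) * Q = (6 * Q * Y) * (1 / (g : ℝ) ^ 2) := by ring
        rw [h3, h4]
        refine mul_le_mul_of_nonneg_right ?_ (by positivity)
        have hL0 : (0 : ℝ) ≤ L := Nat.cast_nonneg _
        nlinarith [mul_le_mul hQN hLY hL0 h0.le]
    linarith
  let TT : Finset (ℕ × (Fin 4 → ℤ) × ℕ) := S.image (fun s => (gg s, bb s, n1 s))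
  have hcT : (S.image (fun s => s.1)).card ≤ TT.card := by
    have : S.image (fun s => s.1) ⊆ TT.image (fun q => q.1 * q.2.2) := by
      intro n hn
      rw [mem_image] at hn
      obtain ⟨s, hs, rfl⟩ := hn
      rw [mem_image]
      exact ⟨_, mem_image_of_mem _ hs, (hsh s hs).hn.symm⟩
    exact (card_le_card this).trans card_image_le
  have hST : S.card ≤ T * (S.image (fun s => s.1)).card :=
    card_le_mul_card_image _ _ fun n _ => hroot n
  have hT2 : TT.card ≤ ∑ g ∈ Icc 1 L, (Bs g).card * T := by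
    have hsub : TT ⊆ (Icc 1 L).biUnion (fun g => TT.filter (fun q => q.1 = g)) := by
      intro q hq
      have hq' := hq
      rw [mem_image] at hq'
      obtain ⟨s, hs, rfl⟩ := hq'
      rw [mem_biUnion]
      refine ⟨gg s, mem_Icc.mpr ⟨(hsh s hs).g0, ?_⟩, mem_filter.mpr ⟨hq, rfl⟩⟩
      exact (Nat.le_mul_of_pos_right _ (hsh s hs).k00).trans (hgL s hs)
    refine (card_le_card hsub).trans (card_biUnion_le.trans (sum_le_sum fun g hg => ?_))
    rw [mul_comm]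
    have himg : (TT.filter (fun q => q.1 = g)).image (fun q => q.2.1) ⊆ Bs g := by
      intro b hb
      rw [mem_image] at hb
      obtain ⟨q, hq, rfl⟩ := hb
      rw [mem_filter] at hq
      obtain ⟨hq, e1⟩ := hq
      rw [mem_image] at hq
      obtain ⟨s, hs, rfl⟩ := hq
      exact mem_image.mpr ⟨s, mem_filter.mpr ⟨hs, e1⟩, rfl⟩
    refine le_trans ?_ (Nat.mul_le_mul_left T (card_le_card himg))
    refine card_le_mul_card_image _ _ fun b hb => ?_
    rw [mem_image] at hb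
    obtain ⟨q0, hq0, rfl⟩ := hb
    rw [mem_filter] at hq0
    obtain ⟨hq0, e01⟩ := hq0
    rw [mem_image] at hq0
    obtain ⟨s0, hs0, rfl⟩ := hq0
    simp only at e01 ⊢
    have hf0 : 0 < n1 s0 * k0 s0 := Nat.mul_pos (hsh s0 hs0).n0 (hsh s0 hs0).k00
    have hfle : ((n1 s0 * k0 s0 : ℕ) : ℝ) ≤ N * Y := by
      have h8 := hF s0 hs0
      have h9 : 1 ≤ gg s0 ^ 2 := Nat.one_le_pow _ _ (hsh s0 hs0).g0
      have h10 : n1 s0 * k0 s0 ≤ N * L := by nlinarith
      have h11 : ((n1 s0 * k0 s0 : ℕ) : ℝ) ≤ N * L := by exact_mod_cast h10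
      refine h11.trans (mul_le_mul_of_nonneg_left hLY (Nat.cast_nonneg _))
    refine le_trans ?_ (hT _ hf0 hfle)
    refine card_le_card_of_injOn (fun q => q.2.2) ?_ ?_
    · intro q hq
      simp only [coe_filter, mem_filter, Set.mem_ofPred_eq] at hq
      obtain ⟨⟨hq, e1⟩, e3⟩ := hq
      rw [mem_image] at hq
      obtain ⟨s, hs, rfl⟩ := hq
      simp only at e1 e3 ⊢
      have hval : (n1 s : ℤ) * k0 s = (n1 s0 : ℤ) * k0 s0 := by
        obtain ⟨w, hw⟩ := cnt_bz hv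
        have c : ∀ i, (n1 s : ℤ) * k0 s * v i = (n1 s0 : ℤ) * k0 s0 * v i := by
          intro i
          rw [← (hsh s hs).ps i, ← (hsh s0 hs0).ps i, e3]
        linear_combination w 0 * c 0 + w 1 * c 1 + w 2 * c 2 + w 3 * c 3 - ((n1 s : ℤ) * k0 s) * hw +
          ((n1 s0 : ℤ) * k0 s0) * hw
      have hval' : n1 s * k0 s = n1 s0 * k0 s0 := by exact_mod_cast hval
      rw [mem_coe, Nat.mem_divisors]
      exact ⟨⟨k0 s, hval'.symm⟩, hf0.ne'⟩
    · intro q hq q' hq' he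
      simp only [coe_filter, mem_filter, Set.mem_ofPred_eq] at hq hq'
      obtain ⟨⟨_, e1⟩, e3⟩ := hq
      obtain ⟨⟨_, e1'⟩, e3'⟩ := hq'
      simp only at he
      exact Prod.ext (by rw [e1, e1']) (Prod.ext (by rw [e3, e3']) he)
  have hfin : ∑ g ∈ Icc 1 L, ((Bs g).card : ℝ) * T ≤ (14 * Y) * T := by
    rw [← sum_mul]
    refine mul_le_mul_of_nonneg_right ?_ (Nat.cast_nonneg _)
    calc ∑ g ∈ Icc 1 L, ((Bs g).card : ℝ) ≤ ∑ g ∈ Icc 1 L, (2 + 6 * Y * (1 / (g : ℝ) ^ 2)) :=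
          sum_le_sum fun g hg => hBs g hg
      _ = 2 * L + (6 * Y) * ∑ g ∈ Icc 1 L, (1 : ℝ) / (g : ℝ) ^ 2 := by
          rw [sum_add_distrib, mul_sum]
          congr 1
          simp [mul_comm]
      _ ≤ 2 * Y + (6 * Y) * 2 := by
          have := big_sum L
          have h0 : (0 : ℝ) ≤ 6 * Y := by linarith
          nlinarith [mul_le_mul_of_nonneg_left this h0]
      _ = 14 * Y := by ring
  have hST' : (S.card : ℝ) ≤ T * TT.card := by
    have : S.card ≤ T * TT.card := hST.trans (Nat.mul_le_mul_left _ hcT)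
    exact_mod_cast this
  have hT2' : (TT.card : ℝ) ≤ ∑ g ∈ Icc 1 L, ((Bs g).card : ℝ) * T := by
    exact_mod_cast hT2
  calc (S.card : ℝ) ≤ T * TT.card := hST'
    _ ≤ T * ((14 * Y) * T) := mul_le_mul_of_nonneg_left (hT2'.trans hfin) (Nat.cast_nonneg _)
    _ = 14 * (T : ℝ) ^ 2 * Y := by ring
    _ ≤ 68 * (T : ℝ) ^ 2 * Y := by
      have : (0 : ℝ) ≤ (T : ℝ) ^ 2 * Y := by positivity
      nlinarith

end Pool.Agent.PP5LA
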