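import Pool.Agent.PP5LA.Rot

/-!
# LB5, section A, module Inr (size 2): the small primes are inert, so `k = 1` or `k > w`

PROOF.  Let `p ≤ w` be a prime with `p ∣ k0`.  `p ∣ Ps b`, `A` prime to `p`: `rot` gives `R` with `p ∣ R² - B R + A C`.  `p = 2`: `D = 5 mod 8`
means `B` odd and `A C` odd, `R² - B R + A C` is odd.  `p` odd: `(2R - B)² = D mod p` contradicts `jacobiSym D p = -1`.  So all prime factors
of `k0` are `> w`, in particular `k0` is odd (`2 ≤ w`).  `g ∣ n` and all prime factors of `n` are `> w`.  So a number `g k0 ≠ 1` has a prime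
factor `> w`, so `g k0 > w`.
-/

set_option autoImplicit false

namespace Pool.Agent.PP5LA

open Matrix Finset Pool.Agent.PP5B Pool.Agent.LB

private theorem Inr_prime {A B C : ℤ} {w : ℕ} (h8 : (B ^ 2 - 4 * A * C) % 8 = 5)
    (hp : ∀ p : ℕ, p.Prime → p ≠ 2 → p ≤ w → jacobiSym (B ^ 2 - 4 * A * C) p = -1)
    {p : ℕ} (pp : p.Prime) (hpw : p ≤ w) {R : ℤ} (hd : (p : ℤ) ∣ R ^ 2 - B * R + A * C) : False := by
  by_cases h2 : p = 2
  · subst h2
    have hd' : (2 : ℤ) ∣ R ^ 2 - B * R + A * C := by exact_mod_cast hd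
    obtain ⟨t, ht⟩ := hd'
    -- `D = (2R - B)^2 - 8 t`
    have e : B ^ 2 - 4 * A * C = (2 * R - B) ^ 2 - 8 * t := by linear_combination (-4) * ht
    rw [e] at h8
    have h3 : (2 * R - B) ^ 2 % 8 = 5 := by omega
    have h4 : (2 * R - B) % 8 = 0 ∨ (2 * R - B) % 8 = 1 ∨ (2 * R - B) % 8 = 2 ∨ (2 * R - B) % 8 = 3 ∨
      (2 * R - B) % 8 = 4 ∨ (2 * R - B) % 8 = 5 ∨ (2 * R - B) % 8 = 6 ∨ (2 * R - B) % 8 = 7 := by omega
    rcases h4 with h | h | h | h | h | h | h | h <;> simp [pow_two, Int.mul_emod, h] at h3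
  · have h := hp p pp h2 hpw
    have e : (B ^ 2 - 4 * A * C) % (p : ℤ) = ((2 * R - B) ^ 2) % (p : ℤ) := by
      apply Int.emod_emod_of_dvd _ (dvd_refl _) |>.symm.trans
      rw [Int.emod_emod_of_dvd _ (dvd_refl _)]
      apply Int.ModEq.symm
      apply (Int.modEq_iff_dvd).mpr
      have : B ^ 2 - 4 * A * C - (2 * R - B) ^ 2 = -4 * (R ^ 2 - B * R + A * C) := by ring
      rw [this]
      exact Dvd.dvd.mul_left hd _
    rw [jacobiSym.mod_left' e, jacobiSym.pow_left] at h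
    nlinarith [sq_nonneg (jacobiSym (2 * R - B) p)]

theorem inr {A B C : ℤ} {w : ℕ} (hw : 2 ≤ w) (h8 : (B ^ 2 - 4 * A * C) % 8 = 5)
    (hp : ∀ p : ℕ, p.Prime → p ≠ 2 → p ≤ w → jacobiSym (B ^ 2 - 4 * A * C) p = -1)
    (hA : ∀ p : ℕ, p.Prime → p ≤ w → IsCoprime A (p : ℤ)) {n : ℕ} {r : ℤ} {g n1 k0 : ℕ} {b v : Fin 4 → ℤ}
    (h : Sh A B C n r g n1 k0 b v) (hn : ∀ q : ℕ, q.Prime → q ∣ n → w < q) :
    Odd k0 ∧ (g * k0 = 1 ∨ w < g * k0) := by
  have key : ∀ p : ℕ, p.Prime → p ∣ k0 → w < p := by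
    intro p pp hpk
    by_contra hcon
    push Not at hcon
    have hps : ∀ i, (p : ℤ) ∣ Ps A B C b i := by
      intro i
      rw [h.ps i]
      have : (p : ℤ) ∣ (k0 : ℤ) := Int.natCast_dvd_natCast.mpr hpk
      exact Dvd.dvd.mul_right (Dvd.dvd.mul_left this _) _
    obtain ⟨R, -, hR⟩ := rot (hA p pp hcon) h.pb hps
    exact Inr_prime h8 hp pp hcon hR
  refine ⟨?_, ?_⟩
  · by_contra hodd
    rw [Nat.not_odd_iff_even, even_iff_two_dvd] at hodd
    have := key 2 Nat.prime_two hodd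
    omega
  · by_cases h1 : g * k0 = 1
    · exact Or.inl h1
    · right
      obtain ⟨q, hq, hqd⟩ := Nat.exists_prime_and_dvd h1
      have hpos : 0 < g * k0 := Nat.mul_pos h.g0 h.k00
      have hle := Nat.le_of_dvd hpos hqd
      rcases (hq.dvd_mul).mp hqd with hg | hk
      · have := hn q hq (by rw [h.hn]; exact Dvd.dvd.mul_right hg _)
        omega
      · have := key q hq hk
        omega

end Pool.Agent.PP5LA
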