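import Pool.Agent.PP5LA.Mlt
import Pool.Agent.PP5LA.Big
import Pool.Agent.PP5LA.Cor
import Pool.Agent.PP5LA.Inr

/-!
# LB5, section A, module Asa (size 3): from seeds to zeros, three cases

`asa` (`k = 1`): `s ↦ lc e (vs s)` is injective on `S` (`lc e` injective by `Crd.inj`, fibres of `vs` have at most one element by `mlt_one`).
`asb` (fixed `k`): fibres of `vs` have at most `τ(k)³` elements (`mlt`); the numbers `k0` are odd by `inr`.
`asc` (all `k ≤ Y0 / t (lc e (vs s))`): fibres by `big` with `Y = Y0 / t P`: `Σ_P 68 T² Y0 / t P`.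
-/

set_option autoImplicit false

namespace Pool.Agent.PP5LA

open Matrix Finset Pool.Agent.PP5B Pool.Agent.LB

/-- the standing hypotheses -/
structure Hy (A B C : ℤ) (w N K : ℕ) : Prop where
  D : B ^ 2 - 4 * A * C < 0
  w2 : 2 ≤ w
  N4 : 4 * (N : ℤ) ^ 2 < 4 * A * C - B ^ 2
  An : ∀ n : ℕ, 0 < n → n ≤ N → IsCoprime A (n : ℤ)
  Ak : ∀ n : ℕ, 0 < n → n ≤ K → IsCoprime A (n : ℤ)
  Aw : ∀ n : ℕ, 0 < n → n ≤ w → IsCoprime A (n : ℤ)
  d8 : (B ^ 2 - 4 * A * C) % 8 = 5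
  dp : ∀ p : ℕ, p.Prime → p ≠ 2 → p ≤ w → jacobiSym (B ^ 2 - 4 * A * C) p = -1
  sD : ∀ p : ℕ, p.Prime → p ≤ K → ¬ (p : ℤ) ^ 2 ∣ B ^ 2 - 4 * A * C

private theorem asa_lc {x : V10} {A B C : ℤ} {e : Fin 4 → PP5.Sp} (hc : Crd x A B C e)
    {v v' : Fin 4 → ℤ} (h : lc e v = lc e v') : v = v' := by
  have h1 : lc e (v - v') = 0 := by
    funext a
    have h2 := congrFun h a
    simp only [lc, Pi.sub_apply, sub_mul, Finset.sum_sub_distrib, Pi.zero_apply] at h2 ⊢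
    linarith
  exact sub_eq_zero.1 (hc.inj _ h1)

theorem asa {A B C : ℤ} {w N K : ℕ} (H : Hy A B C w N K) {x : V10} {e : Fin 4 → PP5.Sp} (hc : Crd x A B C e)
    (S : Finset (ℕ × ℕ)) (hS : S ⊆ Sd w (B ^ 2 - 4 * A * C) N) (vs : ℕ × ℕ → Fin 4 → ℤ)
    (hd : ∀ s ∈ S, Dt A B C s 1 (vs s)) (Z1 Z2 : Set PP5.Sp) (f1 : Z1.Finite) (f2 : Z2.Finite)
    (hz : ∀ s ∈ S, lc e (vs s) ∈ Z1 ∪ Z2) : S.card ≤ Z1.ncard + Z2.ncard := by
  classical
  have hinj : Set.InjOn (fun s => lc e (vs s)) (S : Set (ℕ × ℕ)) := by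
    intro s hs s' hs' hss
    have hs1 : s ∈ S := hs
    have hs1' : s' ∈ S := hs'
    have hv : vs s = vs s' := asa_lc hc hss
    have h1 := mlt_one H.D H.w2 H.N4 H.An (v := vs s) ({s, s'} : Finset (ℕ × ℕ))
      (by
        intro z hz'
        rw [Finset.mem_insert, Finset.mem_singleton] at hz'
        rcases hz' with rfl | rfl
        · exact hS hs1
        · exact hS hs1')
      (by
        intro z hz'
        rw [Finset.mem_insert, Finset.mem_singleton] at hz'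
        rcases hz' with rfl | rfl
        · exact hd _ hs1
        · rw [hv]
          exact hd _ hs1')
    exact Finset.card_le_one.1 h1 s (by simp) s' (by simp)
  have h2 : S.card = (S.image (fun s => lc e (vs s))).card :=
    (Finset.card_image_of_injOn hinj).symm
  have h3 : ((S.image (fun s => lc e (vs s)) : Finset PP5.Sp) : Set PP5.Sp) ⊆ Z1 ∪ Z2 := by
    intro P hP
    rw [Finset.mem_coe, Finset.mem_image] at hP
    obtain ⟨s, hs, rfl⟩ := hP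
    exact hz s hs
  have h4 := Set.ncard_le_ncard h3 (f1.union f2)
  rw [Set.ncard_coe_finset] at h4
  rw [h2]
  exact h4.trans (Set.ncard_union_le Z1 Z2)

theorem asb {A B C : ℤ} {w N K : ℕ} (H : Hy A B C w N K) {x : V10} {e : Fin 4 → PP5.Sp} (hc : Crd x A B C e)
    {k : ℕ} (hk : 0 < k) (hkK : k ≤ K) (S : Finset (ℕ × ℕ)) (hS : S ⊆ Sd w (B ^ 2 - 4 * A * C) N)
    (vs : ℕ × ℕ → Fin 4 → ℤ) (hd : ∀ s ∈ S, Dt A B C s k (vs s)) (Z : Set PP5.Sp) (f : Z.Finite)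
    (hz : ∀ s ∈ S, lc e (vs s) ∈ Z) : S.card ≤ k.divisors.card ^ 3 * Z.ncard := by
  classical
  have h1 : S.card ≤ k.divisors.card ^ 3 * (S.image (fun s => lc e (vs s))).card := by
    apply Finset.card_le_mul_card_image
    intro P hP
    obtain ⟨s0, hs0, rfl⟩ := Finset.mem_image.1 hP
    refine mlt H.D H.w2 hk H.N4 H.An (fun n hn hnk => H.Ak n hn (hnk.trans hkK))
      (fun p hp hpk => H.sD p hp ((Nat.le_of_dvd hk hpk).trans hkK)) (v := vs s0) _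
      ((Finset.filter_subset _ _).trans hS) ?_
    intro s hs
    obtain ⟨hs1, hs2⟩ := Finset.mem_filter.1 hs
    have hv : vs s = vs s0 := asa_lc hc hs2
    obtain ⟨r, g, n1, k0, b, hSh, hgk, hr⟩ := hd s hs1
    refine ⟨r, g, n1, k0, b, hv ▸ hSh, hgk, hr, ?_⟩
    have hsd := hS hs1
    rw [Sd, Finset.mem_filter] at hsd
    exact (inr H.w2 H.d8 H.dp (fun p hp hpw => H.Aw p hp.pos hpw) hSh hsd.2.2.2.1).1
  have h3 : ((S.image (fun s => lc e (vs s)) : Finset PP5.Sp) : Set PP5.Sp) ⊆ Z := by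
    intro P hP
    rw [Finset.mem_coe, Finset.mem_image] at hP
    obtain ⟨s, hs, rfl⟩ := hP
    exact hz s hs
  have h4 := Set.ncard_le_ncard h3 f
  rw [Set.ncard_coe_finset] at h4
  exact h1.trans (Nat.mul_le_mul_left _ h4)

theorem asc {A B C : ℤ} {w N K : ℕ} (H : Hy A B C w N K) {x : V10} {e : Fin 4 → PP5.Sp} (hc : Crd x A B C e)
    (S : Finset (ℕ × ℕ)) (hS : S ⊆ Sd w (B ^ 2 - 4 * A * C) N) (vs : ℕ × ℕ → Fin 4 → ℤ) (ks : ℕ × ℕ → ℕ)
    (hd : ∀ s ∈ S, 0 < ks s ∧ Dt A B C s (ks s) (vs s)) (t : PP5.Sp → ℝ) {Y0 Y1 : ℝ} {T : ℕ} (hY0 : 0 ≤ Y0)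
    (ht : ∀ s ∈ S, 0 < t (lc e (vs s)) ∧ (ks s : ℝ) * t (lc e (vs s)) ≤ Y0 ∧ Y0 ≤ Y1 * t (lc e (vs s)))
    (hT : ∀ m : ℕ, 0 < m → (m : ℝ) ≤ N * Y1 → m.divisors.card ≤ T) (Q : Finset PP5.Sp)
    (hQ : ∀ s ∈ S, lc e (vs s) ∈ Q) (hQ0 : ∀ P ∈ Q, 0 < t P) :
    (S.card : ℝ) ≤ 68 * (T : ℝ) ^ 2 * Y0 * ∑ P ∈ Q, 1 / t P := by
  classical
  have h1 : S.card = ∑ P ∈ Q, (S.filter (fun s => lc e (vs s) = P)).card :=
    Finset.card_eq_sum_card_fiberwise hQ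
  rw [h1, Finset.mul_sum]
  push_cast
  refine Finset.sum_le_sum fun P hP => ?_
  have htP := hQ0 P hP
  rcases (S.filter (fun s => lc e (vs s) = P)).eq_empty_or_nonempty with h0 | ⟨s0, hs0⟩
  · rw [h0, Finset.card_empty]
    push_cast
    positivity
  · obtain ⟨hs1, hs2⟩ := Finset.mem_filter.1 hs0
    obtain ⟨hk0, r, g, n1, k0, b, hSh, hgk, hr⟩ := hd s0 hs1
    obtain ⟨t1, t2, t3⟩ := ht s0 hs1
    rw [hs2] at t1 t2 t3
    have hk1 : (1 : ℝ) ≤ (ks s0 : ℝ) := by exact_mod_cast hk0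
    have hY : 1 ≤ Y0 / t P := by
      rw [le_div_iff₀ htP, one_mul]
      nlinarith
    have hY1 : Y0 / t P ≤ Y1 := by
      rw [div_le_iff₀ htP]
      exact t3
    have h2 := big H.D H.w2 H.N4 (v := vs s0) hSh.pv hY (T := T) (by
        intro m hm hmN
        refine hT m hm (hmN.trans ?_)
        exact mul_le_mul_of_nonneg_left hY1 (Nat.cast_nonneg N))
      (S.filter (fun s => lc e (vs s) = P)) ((Finset.filter_subset _ _).trans hS) (by
        intro s hs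
        obtain ⟨hs3, hs4⟩ := Finset.mem_filter.1 hs
        obtain ⟨hk, hD⟩ := hd s hs3
        obtain ⟨t4, t5, t6⟩ := ht s hs3
        rw [hs4] at t5
        have hv : vs s = vs s0 := asa_lc hc (hs4.trans hs2.symm)
        refine ⟨ks s, ?_, hv ▸ hD⟩
        rw [le_div_iff₀ htP]
        exact t5)
    refine h2.trans (le_of_eq ?_)
    ring

end Pool.Agent.PP5LA
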