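import Mathlib

/-!
# LB5, section A, module Dya (size 3, only Mathlib): a dyadic sum

PROOF.  `s_j := t1 / 2^j`.  Every `P ∈ Q` lies in a unique shell `s_(j+1) < t P ≤ s_j`, `j ≥ 0`, and `s_j ≥ t0`.  The sum over the shell is
`≤ (2 / s_j) M (s_j^(4/3) R2 + 1)`.  `Σ_j 2 M R2 s_j^(1/3) = 2 M R2 t1^(1/3) / (1 - 2^(-1/3)) ≤ 10 M R2 t1^(1/3)`, and
`Σ_{s_j ≥ t0} 2 M / s_j ≤ 4 M / t0`.  (Clean: induction on the number of shells, or: `1 / t = 1/t1 + ∫`; or induction on `Q` is not needed: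
use `j P := ⌊Real.logb 2 (t1 / t P)⌋₊` and `Finset.sum_fiberwise`.)
-/

set_option autoImplicit false

namespace Pool.Agent.PP5LA

open Finset

private theorem Dya_aux {ι : Type*} [DecidableEq ι] (t : ι → ℝ) {M R2 t0 : ℝ} (hM : 0 ≤ M) (hR : 0 ≤ R2)
    (h0 : 0 < t0) (n : ℕ) : ∀ (Q : Finset ι) (t1 : ℝ), t0 / 2 ≤ t1 → t1 < 2 ^ n * t0 →
    (∀ P ∈ Q, t0 ≤ t P ∧ t P ≤ t1) →
    (∀ s : ℝ, 0 < s → s ≤ t1 → ((Q.filter (fun P => t P ≤ s)).card : ℝ) ≤ M * (s ^ (4 / 3 : ℝ) * R2 + 1)) →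
    ∑ P ∈ Q, 1 / t P ≤ M * (20 * t1 ^ (1 / 3 : ℝ) * R2 + (4 / t0 - 2 / t1)) := by
  have base : ∀ (Q : Finset ι) (t1 : ℝ), t0 / 2 ≤ t1 → t1 < t0 → (∀ P ∈ Q, t0 ≤ t P ∧ t P ≤ t1) →
      ∑ P ∈ Q, 1 / t P ≤ M * (20 * t1 ^ (1 / 3 : ℝ) * R2 + (4 / t0 - 2 / t1)) := by
    intro Q t1 h1 h2 h3
    have hQ : Q = ∅ := by
      rw [Finset.eq_empty_iff_forall_notMem]
      intro P hP
      have := h3 P hP
      linarith [this.1, this.2]
    rw [hQ, sum_empty]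
    have ht1 : 0 < t1 := by linarith
    have h4 : 2 / t1 ≤ 4 / t0 := by
      rw [div_le_div_iff₀ ht1 h0]
      linarith
    have h5 : 0 ≤ t1 ^ (1 / 3 : ℝ) := Real.rpow_nonneg ht1.le _
    have h6 : 0 ≤ 20 * t1 ^ (1 / 3 : ℝ) * R2 := by positivity
    exact mul_nonneg hM (by linarith)
  induction n with
  | zero =>
    intro Q t1 h1 h2 h3 _
    exact base Q t1 h1 (by simpa using h2) h3
  | succ n ih =>
    intro Q t1 h1 h2 h3 hN
    rcases lt_or_ge t1 t0 with h4 | h4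
    · exact base Q t1 h1 h4 h3
    have ht1 : 0 < t1 := by linarith
    have hIH := ih (Q.filter (fun P => t P ≤ t1 / 2)) (t1 / 2) (by linarith)
      (by rw [pow_succ] at h2; linarith) (by
        intro P hP
        rw [mem_filter] at hP
        exact ⟨(h3 P hP.1).1, hP.2⟩) (by
        intro s hs hs1
        have h5 := hN s hs (by linarith)
        have h6 : ((Q.filter (fun P => t P ≤ t1 / 2)).filter (fun P => t P ≤ s)).card ≤
            (Q.filter (fun P => t P ≤ s)).card := by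
          apply card_le_card
          intro P hP
          rw [mem_filter, mem_filter] at hP
          rw [mem_filter]
          exact ⟨hP.1.1, hP.2⟩
        have h7 : (((Q.filter (fun P => t P ≤ t1 / 2)).filter (fun P => t P ≤ s)).card : ℝ) ≤
            ((Q.filter (fun P => t P ≤ s)).card : ℝ) := by exact_mod_cast h6
        exact h7.trans h5)
    have hshell : ∑ P ∈ Q.filter (fun P => ¬ t P ≤ t1 / 2), 1 / t P ≤
        M * (2 * t1 ^ (1 / 3 : ℝ) * R2 + 2 / t1) := by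
      have h5 : ∀ P ∈ Q.filter (fun P => ¬ t P ≤ t1 / 2), 1 / t P ≤ 2 / t1 := by
        intro P hP
        rw [mem_filter, not_le] at hP
        have h6 : 0 < t P := by linarith [hP.2]
        rw [div_le_div_iff₀ h6 ht1]
        linarith [hP.2]
      have h6 : ((Q.filter (fun P => ¬ t P ≤ t1 / 2)).card : ℝ) ≤ M * (t1 ^ (4 / 3 : ℝ) * R2 + 1) := by
        have h7 : (Q.filter (fun P => ¬ t P ≤ t1 / 2)).card ≤ (Q.filter (fun P => t P ≤ t1)).card := by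
          apply card_le_card
          intro P hP
          rw [mem_filter] at hP
          rw [mem_filter]
          exact ⟨hP.1, (h3 P hP.1).2⟩
        have h8 : ((Q.filter (fun P => ¬ t P ≤ t1 / 2)).card : ℝ) ≤
            ((Q.filter (fun P => t P ≤ t1)).card : ℝ) := by exact_mod_cast h7
        exact h8.trans (hN t1 ht1 le_rfl)
      have h9 : t1 ^ (4 / 3 : ℝ) = t1 ^ (1 / 3 : ℝ) * t1 := by
        have e : (4 / 3 : ℝ) = 1 / 3 + 1 := by norm_num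
        rw [e, Real.rpow_add ht1, Real.rpow_one]
      calc ∑ P ∈ Q.filter (fun P => ¬ t P ≤ t1 / 2), 1 / t P
          ≤ ∑ _P ∈ Q.filter (fun P => ¬ t P ≤ t1 / 2), 2 / t1 := sum_le_sum h5
        _ = (Q.filter (fun P => ¬ t P ≤ t1 / 2)).card * (2 / t1) := by rw [sum_const, nsmul_eq_mul]
        _ ≤ (M * (t1 ^ (4 / 3 : ℝ) * R2 + 1)) * (2 / t1) :=
            mul_le_mul_of_nonneg_right h6 (by positivity)
        _ = M * (2 * t1 ^ (1 / 3 : ℝ) * R2 + 2 / t1) := by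
            rw [h9]
            field_simp
    have hhalf : (t1 / 2) ^ (1 / 3 : ℝ) ≤ 9 / 10 * t1 ^ (1 / 3 : ℝ) := by
      rw [div_eq_mul_inv, mul_comm t1, Real.mul_rpow (by norm_num) ht1.le]
      apply mul_le_mul_of_nonneg_right _ (Real.rpow_nonneg ht1.le _)
      have e1 : (9 / 10 : ℝ) = ((9 / 10 : ℝ) ^ (3 : ℕ)) ^ (1 / 3 : ℝ) := by
        rw [← Real.rpow_natCast, ← Real.rpow_mul (by norm_num)]
        norm_num
      rw [e1]
      exact Real.rpow_le_rpow (by norm_num) (by norm_num) (by norm_num)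
    have hsplit : ∑ P ∈ Q, 1 / t P = ∑ P ∈ Q.filter (fun P => t P ≤ t1 / 2), 1 / t P +
        ∑ P ∈ Q.filter (fun P => ¬ t P ≤ t1 / 2), 1 / t P :=
      (sum_filter_add_sum_filter_not Q (fun P => t P ≤ t1 / 2) (fun P => 1 / t P)).symm
    have hx : 0 ≤ t1 ^ (1 / 3 : ℝ) := Real.rpow_nonneg ht1.le _
    have e2 : 2 / (t1 / 2) = 4 / t1 := by field_simp; norm_num
    rw [e2] at hIH
    have hkey : 20 * (t1 / 2) ^ (1 / 3 : ℝ) * R2 + (4 / t0 - 4 / t1) + (2 * t1 ^ (1 / 3 : ℝ) * R2 + 2 / t1) ≤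
        20 * t1 ^ (1 / 3 : ℝ) * R2 + (4 / t0 - 2 / t1) := by
      have e3 : 4 / t1 = 2 * (2 / t1) := by ring
      rw [e3]
      nlinarith [mul_le_mul_of_nonneg_right hhalf hR]
    calc ∑ P ∈ Q, 1 / t P ≤ M * (20 * (t1 / 2) ^ (1 / 3 : ℝ) * R2 + (4 / t0 - 4 / t1)) +
          M * (2 * t1 ^ (1 / 3 : ℝ) * R2 + 2 / t1) := by rw [hsplit]; exact add_le_add hIH hshell
      _ = M * (20 * (t1 / 2) ^ (1 / 3 : ℝ) * R2 + (4 / t0 - 4 / t1) +
          (2 * t1 ^ (1 / 3 : ℝ) * R2 + 2 / t1)) := by ring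
      _ ≤ _ := mul_le_mul_of_nonneg_left hkey hM

theorem dya {ι : Type*} [DecidableEq ι] (Q : Finset ι) (t : ι → ℝ) {M R2 t0 t1 : ℝ} (hM : 0 ≤ M) (hR : 0 ≤ R2)
    (h0 : 0 < t0) (ht : ∀ P ∈ Q, t0 ≤ t P ∧ t P ≤ t1)
    (hN : ∀ s : ℝ, 0 < s → s ≤ t1 → ((Q.filter (fun P => t P ≤ s)).card : ℝ) ≤ M * (s ^ (4 / 3 : ℝ) * R2 + 1)) :
    ∑ P ∈ Q, 1 / t P ≤ M * (20 * t1 ^ (1 / 3 : ℝ) * R2 + 4 / t0) := by
  rcases lt_or_ge t1 (t0 / 2) with h1 | h1
  · have hQ : Q = ∅ := by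
      rw [Finset.eq_empty_iff_forall_notMem]
      intro P hP
      have := ht P hP
      linarith [this.1, this.2]
    rw [hQ, sum_empty]
    have h5 : 0 ≤ t1 ^ (1 / 3 : ℝ) := by
      rcases lt_or_ge t1 0 with h2 | h2
      · rw [Real.rpow_def_of_neg h2]
        have e : (1 / 3 : ℝ) * Real.pi = Real.pi / 3 := by ring
        rw [e, Real.cos_pi_div_three]
        positivity
      · exact Real.rpow_nonneg h2 _
    have h6 : 0 ≤ 20 * t1 ^ (1 / 3 : ℝ) * R2 := by positivity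
    have h7 : 0 < 4 / t0 := by positivity
    exact mul_nonneg hM (by linarith)
  · have ht1 : 0 < t1 := by linarith
    obtain ⟨n, hn⟩ := pow_unbounded_of_one_lt (t1 / t0) (one_lt_two)
    have hn' : t1 < 2 ^ n * t0 := by rwa [div_lt_iff₀ h0] at hn
    have h2 := Dya_aux t hM hR h0 n Q t1 h1 hn' ht hN
    refine h2.trans (mul_le_mul_of_nonneg_left ?_ hM)
    have h3 : 0 < 2 / t1 := by positivity
    linarith

end Pool.Agent.PP5LA
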