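import Pool.Agent.PP5LA.Asa
import Pool.Agent.PP5LA.Dya
import Pool.Agent.FTA.DivB

/-!
# LB5, section A, module Asl (size 4): the seeds with large `k`

PROOF.  `t P := (max_a |P a|) / R^(5/2)` (`Finset.univ.sup'`), `Q :=` the image of `S` under `s ↦ lc e (vs s)`.  `P ∈ Q`: `P` is in `L_x`, null
(`crd_qd`), primitive (`crd_pr`), so `Zr R s x P` as soon as `t P ≤ s`.  By `hk`: `t P ≤ Y0 / ks s ≤ Y0 R^(-κ/2) =: t1 ≤ 1` for `R` large; by `Lm`: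
`t P ≥ R^(1-δ-5/2) =: t0`.  `asc` with `Y1 = Y0 / t0`; `N Y1 ≤ R² Y0 R^(3/2+δ) ≤ R^4` for `R` large; `T := ⌊R^(κ/500)⌋₊`: `FTA.divisor_bound` with exponent
`κ/4000` (`τ(m) ≤ c m^(κ/4000) ≤ c R^(κ/1000) ≤ ⌊R^(κ/500)⌋` for large `R`).  `dya` with `M = 2 R^(κ/50)`, `R2 = R²` (`t^(2/3) ≤ 1`; the number of `P ∈ Q`
with `t P ≤ s` is `≤ Nx R s x`).  Result: `68 R^(κ/250) Y0 · 2 R^(κ/50) (20 (Y0 R^(-κ/2))^(1/3) R² + 4 R^(3/2+δ)) ≤ R^(2-κ/20)` for `R ≥ R0(κ, Y0)`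
(`δ ≤ κ/100 ≤ 1/100`; exponents `κ/250 + κ/50 - κ/6 < -κ/20`).
-/

set_option autoImplicit false

namespace Pool.Agent.PP5LA

open Matrix Finset Pool.Agent.PP5B Pool.Agent.LB

/-- the size of `P` in the scale `R ^ (5/2)` -/
private noncomputable def Asl_t (R : ℝ) (P : PP5.Sp) : ℝ :=
  (Finset.univ.sup' ⟨0, Finset.mem_univ _⟩ (fun a : Fin 12 => |(P a : ℝ)|)) / R ^ (5 / 2 : ℝ)

private theorem Asl_le {R s : ℝ} {P : PP5.Sp} (hR : 0 < R) :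
    Asl_t R P ≤ s ↔ ∀ a, |(P a : ℝ)| ≤ s * R ^ (5 / 2 : ℝ) := by
  unfold Asl_t
  rw [div_le_iff₀ (Real.rpow_pos_of_pos hR _), Finset.sup'_le_iff]
  exact ⟨fun h a => h a (Finset.mem_univ a), fun h a _ => h a⟩

private theorem Asl_ge {R s : ℝ} {P : PP5.Sp} (hR : 0 < R) {a : Fin 12}
    (h : s * R ^ (5 / 2 : ℝ) ≤ |(P a : ℝ)|) : s ≤ Asl_t R P := by
  unfold Asl_t
  rw [le_div_iff₀ (Real.rpow_pos_of_pos hR _)]
  exact h.trans (Finset.le_sup' (fun a : Fin 12 => |(P a : ℝ)|) (Finset.mem_univ a))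

private theorem Asl_fin (R t : ℝ) (x : V10) : {P : PP5.Sp | Zr R t x P}.Finite := by
  refine Set.Finite.subset
    (Set.finite_Icc (fun _ : Fin 12 => -⌊t * R ^ (5 / 2 : ℝ)⌋) (fun _ => ⌊t * R ^ (5 / 2 : ℝ)⌋)) ?_
  intro P hP
  rw [Set.mem_Icc]
  constructor
  · intro a
    have h1 := (abs_le.1 (hP.le a)).1
    have h2 : -P a ≤ ⌊t * R ^ (5 / 2 : ℝ)⌋ := by
      apply Int.le_floor.2
      push_cast
      linarith
    show -⌊t * R ^ (5 / 2 : ℝ)⌋ ≤ P a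
    linarith
  · intro a
    exact Int.le_floor.2 ((abs_le.1 (hP.le a)).2)

theorem asl {κ Y0 : ℝ} (hκ : 0 < κ) (hκ1 : κ ≤ 1 / 200) (hY : 1 ≤ Y0) : ∃ R0 : ℝ, 1 ≤ R0 ∧ ∀ (R δ : ℝ) (A B C : ℤ)
    (w N K : ℕ) (x : V10) (e : Fin 4 → PP5.Sp), R0 ≤ R → 0 < δ → δ ≤ κ / 100 → Hy A B C w N K → Crd x A B C e → x ≠ 0 →
    (N : ℝ) ≤ R ^ 2 → Lm R δ x →
    (∀ t : ℝ, 0 < t → t ≤ R ^ κ → (Nx R t x : ℝ) ≤ R ^ (κ / 50) * (t ^ (4 / 3 : ℝ) * (1 + t ^ (2 / 3 : ℝ)) * R ^ 2 + 1)) →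
    ∀ (S : Finset (ℕ × ℕ)) (vs : ℕ × ℕ → Fin 4 → ℤ) (ks : ℕ × ℕ → ℕ), S ⊆ Sd w (B ^ 2 - 4 * A * C) N →
    (∀ s ∈ S, R ^ (κ / 2) < (ks s : ℝ) ∧ Dt A B C s (ks s) (vs s) ∧ Pr4 (vs s) ∧ qf A B C (vs s) = 0 ∧
      ∀ a, |(lc e (vs s) a : ℝ)| ≤ Y0 / ks s * R ^ (5 / 2 : ℝ)) →
    (S.card : ℝ) ≤ R ^ (2 - κ / 20) := by
  classical
  obtain ⟨c, hc, hdiv⟩ := Pool.Agent.FTA.divisor_bound (ε := κ / 4000) (by positivity)
  set L : ℝ := c + 1 + 5440 * Y0 ^ 2 + 1088 * Y0 with hLdef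
  have hY0 : 0 < Y0 := by linarith
  obtain ⟨R1, hR1⟩ := Filter.eventually_atTop.1
    ((tendsto_rpow_atTop (by positivity : 0 < κ / 1000)).eventually_ge_atTop L)
  refine ⟨max 1 R1, le_max_left _ _, ?_⟩
  intro R δ A B C w N K x e hR hδ hδ1 H hcrd hx hN hLm hNx S vs ks hS hk
  have hRone : 1 ≤ R := (le_max_left _ _).trans hR
  have hR0 : 0 < R := by linarith
  have hL : L ≤ R ^ (κ / 1000) := hR1 R ((le_max_right _ _).trans hR)
  have hLp : ∀ p : ℝ, κ / 1000 ≤ p → L ≤ R ^ p := fun p hp =>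
    hL.trans (Real.rpow_le_rpow_of_exponent_le hRone hp)
  have hLc : c ≤ L := by
    have : 0 ≤ Y0 ^ 2 := by positivity
    linarith
  have hLY : 5440 * Y0 ^ 2 ≤ L := by linarith
  have hLY1 : 1088 * Y0 ≤ L := by
    have : 0 ≤ Y0 ^ 2 := by positivity
    linarith
  have hLY2 : Y0 ≤ L := by linarith
  set t0 : ℝ := R ^ (-(3 / 2) - δ) with ht0
  set t1 : ℝ := Y0 * R ^ (-(κ / 2)) with ht1
  have ht0p : 0 < t0 := Real.rpow_pos_of_pos hR0 _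
  have ht1le : t1 ≤ 1 := by
    rw [ht1, Real.rpow_neg hR0.le, ← div_eq_mul_inv, div_le_one (Real.rpow_pos_of_pos hR0 _)]
    exact hLY2.trans (hLp _ (by linarith))
  have hRk : 0 < R ^ (κ / 2) := Real.rpow_pos_of_pos hR0 _
  -- the facts for one seed
  have hA : ∀ s ∈ S, (0 : ℝ) < ks s ∧ Asl_t R (lc e (vs s)) ≤ Y0 / ks s ∧
      t0 ≤ Asl_t R (lc e (vs s)) := by
    intro s hs
    obtain ⟨h1, -, h3, -, h5⟩ := hk s hs
    have hks : (0 : ℝ) < ks s := hRk.trans h1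
    refine ⟨hks, (Asl_le hR0).2 h5, ?_⟩
    have hne : lc e (vs s) ≠ 0 := by
      intro h0
      have h6 := hcrd.inj _ h0
      refine h3 2 Nat.prime_two fun i => ?_
      rw [h6]
      exact dvd_zero _
    obtain ⟨a, ha⟩ := hLm (lc e (vs s)) (hcrd.inE _) hne
    refine Asl_ge hR0 (a := a) (le_trans (le_of_eq ?_) ha)
    rw [ht0, ← Real.rpow_add hR0]
    congr 1
    ring
  set Q : Finset PP5.Sp := S.image (fun s => lc e (vs s)) with hQ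
  have hQm : ∀ P ∈ Q, ∃ s ∈ S, lc e (vs s) = P := by
    intro P hP
    rw [hQ, Finset.mem_image] at hP
    exact hP
  have hinv : 1 / t0 = R ^ (3 / 2 + δ) := by
    rw [ht0, one_div, ← Real.rpow_neg hR0.le]
    congr 1
    ring
  have h1 := asc H hcrd S hS vs ks
    (fun s hs => ⟨by exact_mod_cast (hA s hs).1, (hk s hs).2.1⟩) (Asl_t R) (Y0 := Y0)
    (Y1 := Y0 / t0) (T := ⌊R ^ (κ / 500)⌋₊) hY0.le
    (fun s hs => by
      obtain ⟨h2, h3, h4⟩ := hA s hs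
      refine ⟨ht0p.trans_le h4, ?_, ?_⟩
      · rw [le_div_iff₀ h2] at h3
        linarith
      · rw [div_mul_eq_mul_div, le_div_iff₀ ht0p]
        exact mul_le_mul_of_nonneg_left h4 hY0.le)
    (fun m hm hmN => by
      apply Nat.le_floor
      have h2 : (m : ℝ) ≤ R ^ (4 : ℝ) := by
        refine hmN.trans ?_
        have h3 : (N : ℝ) * (Y0 / t0) ≤ R ^ 2 * (R ^ (1 / 2 - δ) * R ^ (3 / 2 + δ)) := by
          rw [← hinv]
          have h4 : Y0 / t0 = Y0 * (1 / t0) := by ring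
          rw [h4]
          have h5 : Y0 ≤ R ^ (1 / 2 - δ) := hLY2.trans (hLp _ (by linarith))
          have h6 : 0 ≤ 1 / t0 := by positivity
          exact mul_le_mul hN (mul_le_mul_of_nonneg_right h5 h6) (by positivity) (by positivity)
        refine h3.trans (le_of_eq ?_)
        rw [← Real.rpow_add hR0, ← Real.rpow_natCast, ← Real.rpow_add hR0]
        congr 1
        norm_num
      have h3 := hdiv m (by omega)
      have h4 : (m : ℝ) ^ (κ / 4000) ≤ R ^ (κ / 1000) := by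
        have h5 := Real.rpow_le_rpow (Nat.cast_nonneg _) h2 (by positivity : 0 ≤ κ / 4000)
        rw [← Real.rpow_mul hR0.le] at h5
        refine h5.trans (le_of_eq ?_)
        congr 1
        ring
      have h5 : R ^ (κ / 500) = R ^ (κ / 1000) * R ^ (κ / 1000) := by
        rw [← Real.rpow_add hR0]
        congr 1
        ring
      rw [h5]
      exact h3.trans (mul_le_mul (hLc.trans hL) h4 (Real.rpow_nonneg (Nat.cast_nonneg _) _)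
        (Real.rpow_nonneg hR0.le _)))
    Q (fun s hs => Finset.mem_image.2 ⟨s, hs, rfl⟩)
    (fun P hP => by
      obtain ⟨s, hs, rfl⟩ := hQm P hP
      exact ht0p.trans_le (hA s hs).2.2)
  have h2 := dya Q (Asl_t R) (M := 2 * R ^ (κ / 50)) (R2 := R ^ 2) (t0 := t0) (t1 := t1)
    (by positivity) (by positivity) ht0p
    (fun P hP => by
      obtain ⟨s, hs, rfl⟩ := hQm P hP
      obtain ⟨h2, h3, h4⟩ := hA s hs
      refine ⟨h4, h3.trans ?_⟩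
      rw [ht1, Real.rpow_neg hR0.le, ← div_eq_mul_inv]
      exact div_le_div_of_nonneg_left hY0.le hRk (hk s hs).1.le)
    (fun s hs hst => by
      have hs1 : s ≤ 1 := hst.trans ht1le
      have hRκ : 1 ≤ R ^ κ := Real.one_le_rpow hRone hκ.le
      have h3 := hNx s hs (hs1.trans hRκ)
      have h4 : ((Q.filter (fun P => Asl_t R P ≤ s)).card : ℝ) ≤ Nx R s x := by
        have h5 : (Q.filter (fun P => Asl_t R P ≤ s)).card ≤ Nx R s x := by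
          unfold Nx
          rw [← Set.ncard_coe_finset]
          refine Set.ncard_le_ncard ?_ (Asl_fin R s x)
          intro P hP
          rw [Finset.mem_coe, Finset.mem_filter] at hP
          obtain ⟨s', hs', rfl⟩ := hQm P hP.1
          obtain ⟨-, -, k3, k4, -⟩ := hk s' hs'
          exact ⟨hcrd.inE _, (crd_qd hcrd hx _).1 k4, (crd_pr hcrd _).1 k3, (Asl_le hR0).1 hP.2⟩
        exact_mod_cast h5
      refine h4.trans (h3.trans ?_)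
      have h6 : s ^ (2 / 3 : ℝ) ≤ 1 := Real.rpow_le_one hs.le hs1 (by norm_num)
      have h7 : 0 ≤ s ^ (4 / 3 : ℝ) := Real.rpow_nonneg hs.le _
      have h8 : 0 ≤ s ^ (4 / 3 : ℝ) * R ^ 2 := by positivity
      have h9 : s ^ (4 / 3 : ℝ) * (1 + s ^ (2 / 3 : ℝ)) * R ^ 2 + 1 ≤
          2 * (s ^ (4 / 3 : ℝ) * R ^ 2 + 1) := by
        have h11 := mul_le_mul_of_nonneg_left h6 h8
        linarith
      have h10 : 0 ≤ R ^ (κ / 50) := Real.rpow_nonneg hR0.le _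
      calc R ^ (κ / 50) * (s ^ (4 / 3 : ℝ) * (1 + s ^ (2 / 3 : ℝ)) * R ^ 2 + 1) ≤
          R ^ (κ / 50) * (2 * (s ^ (4 / 3 : ℝ) * R ^ 2 + 1)) := mul_le_mul_of_nonneg_left h9 h10
        _ = 2 * R ^ (κ / 50) * (s ^ (4 / 3 : ℝ) * R ^ 2 + 1) := by ring)
  have hT2 : ((⌊R ^ (κ / 500)⌋₊ : ℕ) : ℝ) ^ 2 ≤ R ^ (κ / 250) := by
    have h3 : ((⌊R ^ (κ / 500)⌋₊ : ℕ) : ℝ) ≤ R ^ (κ / 500) :=
      Nat.floor_le (Real.rpow_nonneg hR0.le _)
    have h4 := pow_le_pow_left₀ (Nat.cast_nonneg _) h3 2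
    refine h4.trans (le_of_eq ?_)
    rw [← Real.rpow_natCast, ← Real.rpow_mul hR0.le]
    congr 1
    norm_num
    ring
  have ht13 : t1 ^ (1 / 3 : ℝ) ≤ Y0 * R ^ (-(κ / 6)) := by
    rw [ht1, Real.mul_rpow hY0.le (Real.rpow_nonneg hR0.le _), ← Real.rpow_mul hR0.le]
    have h3 : Y0 ^ (1 / 3 : ℝ) ≤ Y0 := by
      have := Real.rpow_le_rpow_of_exponent_le hY (by norm_num : (1 / 3 : ℝ) ≤ 1)
      rwa [Real.rpow_one] at this
    have h4 : -(κ / 2) * (1 / 3) = -(κ / 6) := by ring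
    rw [h4]
    exact mul_le_mul_of_nonneg_right h3 (Real.rpow_nonneg hR0.le _)
  have h4t : 4 / t0 = 4 * R ^ (3 / 2 + δ) := by
    rw [← hinv]; ring
  have h3 : ∑ P ∈ Q, 1 / Asl_t R P ≤
      2 * R ^ (κ / 50) * (20 * (Y0 * R ^ (-(κ / 6))) * R ^ 2 + 4 * R ^ (3 / 2 + δ)) := by
    refine h2.trans ?_
    rw [h4t]
    refine mul_le_mul_of_nonneg_left ?_ (by positivity)
    have : 20 * t1 ^ (1 / 3 : ℝ) * R ^ 2 ≤ 20 * (Y0 * R ^ (-(κ / 6))) * R ^ 2 :=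
      mul_le_mul_of_nonneg_right (mul_le_mul_of_nonneg_left ht13 (by norm_num)) (by positivity)
    linarith
  have hsum0 : 0 ≤ ∑ P ∈ Q, 1 / Asl_t R P := by
    refine Finset.sum_nonneg fun P hP => ?_
    obtain ⟨s, hs, rfl⟩ := hQm P hP
    exact one_div_nonneg.2 (ht0p.trans_le (hA s hs).2.2).le
  have h4 : (S.card : ℝ) ≤ 68 * R ^ (κ / 250) * Y0 *
      (2 * R ^ (κ / 50) * (20 * (Y0 * R ^ (-(κ / 6))) * R ^ 2 + 4 * R ^ (3 / 2 + δ))) := by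
    refine h1.trans (mul_le_mul ?_ h3 hsum0 (by positivity))
    exact mul_le_mul_of_nonneg_right (mul_le_mul_of_nonneg_left hT2 (by norm_num)) hY0.le
  refine h4.trans ?_
  have e1 : 5440 * Y0 ^ 2 * R ^ (κ / 250 + κ / 50 + -(κ / 6) + 2) ≤ R ^ (2 - κ / 20) := by
    have : R ^ (2 - κ / 20) = R ^ (κ / 6 - κ / 20 - κ / 250 - κ / 50) *
        R ^ (κ / 250 + κ / 50 + -(κ / 6) + 2) := by
      rw [← Real.rpow_add hR0]
      congr 1
      ring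
    rw [this]
    exact mul_le_mul_of_nonneg_right (hLY.trans (hLp _ (by linarith))) (Real.rpow_nonneg hR0.le _)
  have e2 : 1088 * Y0 * R ^ (κ / 250 + κ / 50 + (3 / 2 + δ)) ≤ R ^ (2 - κ / 20) := by
    have : R ^ (2 - κ / 20) = R ^ (1 / 2 - δ - κ / 20 - κ / 250 - κ / 50) *
        R ^ (κ / 250 + κ / 50 + (3 / 2 + δ)) := by
      rw [← Real.rpow_add hR0]
      congr 1
      ring
    rw [this]
    exact mul_le_mul_of_nonneg_right (hLY1.trans (hLp _ (by linarith))) (Real.rpow_nonneg hR0.le _)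
  have e3 : R ^ (κ / 250 + κ / 50 + -(κ / 6) + 2) =
      R ^ (κ / 250) * R ^ (κ / 50) * R ^ (-(κ / 6)) * R ^ 2 := by
    rw [Real.rpow_add hR0, Real.rpow_add hR0, Real.rpow_add hR0]
    norm_num
  have e4 : R ^ (κ / 250 + κ / 50 + (3 / 2 + δ)) =
      R ^ (κ / 250) * R ^ (κ / 50) * R ^ (3 / 2 + δ) := by
    rw [Real.rpow_add hR0, Real.rpow_add hR0]
  rw [e3] at e1
  rw [e4] at e2
  have e5 : 68 * R ^ (κ / 250) * Y0 *
      (2 * R ^ (κ / 50) * (20 * (Y0 * R ^ (-(κ / 6))) * R ^ 2 + 4 * R ^ (3 / 2 + δ))) =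
      1 / 2 * (5440 * Y0 ^ 2 * (R ^ (κ / 250) * R ^ (κ / 50) * R ^ (-(κ / 6)) * R ^ 2)) +
      1 / 2 * (1088 * Y0 * (R ^ (κ / 250) * R ^ (κ / 50) * R ^ (3 / 2 + δ))) := by ring
  rw [e5]
  linarith

end Pool.Agent.PP5LA
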