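import Mathlib

/-!
# Counting the primitive `b` with `Psi b = F v` (helper99)

`v` a primitive null vector of `v0 v1 + A v2 ^ 2 + B v2 v3 + C v3 ^ 2`, `B ^ 2 - 4 A C < 0`.  The `b` with
`Psi b ∈ ℤ v` satisfy four linear relations; for two of them `Psi` polarises to `β v`, the minors of `(b, b')` are
`d (v0, -v1, ...)` and `4 F F' - β ^ 2 = |D| d ^ 2`.
-/

set_option autoImplicit false

namespace Pool.Agent.PP5LA.Cn

open Finset

/-- the four linear relations -/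
structure Lmr (A B C : ℤ) (v b : Fin 4 → ℤ) : Prop where
  h1 : v 0 * b 2 = b 0 * v 2 - C * b 1 * v 3
  h2 : v 0 * b 3 = b 0 * v 3 + b 1 * (A * v 2 + B * v 3)
  h3 : -(v 1 * b 0) = A * b 2 * v 2 + (B * b 2 + C * b 3) * v 3
  h4 : -(v 1 * b 1) = b 3 * v 2 - b 2 * v 3

theorem Lmr.sub {A B C : ℤ} {v b c : Fin 4 → ℤ} (hb : Lmr A B C v b) (hc : Lmr A B C v c) :
    Lmr A B C v (b - c) := by
  refine ⟨?_, ?_, ?_, ?_⟩ <;> simp only [Pi.sub_apply]
  · linear_combination hb.h1 - hc.h1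
  · linear_combination hb.h2 - hc.h2
  · linear_combination hb.h3 - hc.h3
  · linear_combination hb.h4 - hc.h4

/-- `Psi b = f v` -/
structure Psv (A B C : ℤ) (v b : Fin 4 → ℤ) (f : ℤ) : Prop where
  p0 : b 0 ^ 2 + B * b 0 * b 1 + A * C * b 1 ^ 2 = f * v 0
  p1 : -(A * b 2 ^ 2 + B * b 2 * b 3 + C * b 3 ^ 2) = f * v 1
  p2 : b 0 * b 2 + B * b 1 * b 2 + C * b 1 * b 3 = f * v 2
  p3 : b 0 * b 3 - A * b 1 * b 2 = f * v 3

theorem Psv.lmr {A B C : ℤ} {v b : Fin 4 → ℤ} {f : ℤ} (h : Psv A B C v b f) (hf : f ≠ 0) : Lmr A B C v b := by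
  obtain ⟨h0, h1, h2, h3⟩ := h
  refine ⟨?_, ?_, ?_, ?_⟩
  · refine mul_left_cancel₀ hf ?_
    linear_combination (-b 2) * h0 + b 0 * h2 - C * b 1 * h3
  · refine mul_left_cancel₀ hf ?_
    linear_combination (-b 3) * h0 + b 0 * h3 + b 1 * A * h2 + b 1 * B * h3
  · refine mul_left_cancel₀ hf ?_
    linear_combination (b 0) * h1 + A * b 2 * h2 + (B * b 2 + C * b 3) * h3
  · refine mul_left_cancel₀ hf ?_
    linear_combination (b 1) * h1 + b 3 * h2 - b 2 * h3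

/-- polar form, coordinate `0..3` -/
def P0 (A B C : ℤ) (b c : Fin 4 → ℤ) : ℤ := 2 * b 0 * c 0 + B * (b 0 * c 1 + b 1 * c 0) + 2 * A * C * b 1 * c 1
def P1 (A B C : ℤ) (b c : Fin 4 → ℤ) : ℤ :=
  -(2 * A * b 2 * c 2 + B * (b 2 * c 3 + b 3 * c 2) + 2 * C * b 3 * c 3)
def P2 (_A B C : ℤ) (b c : Fin 4 → ℤ) : ℤ :=
  b 0 * c 2 + B * b 1 * c 2 + C * b 1 * c 3 + (c 0 * b 2 + B * c 1 * b 2 + C * c 1 * b 3)
def P3 (A _B _C : ℤ) (b c : Fin 4 → ℤ) : ℤ := b 0 * c 3 - A * b 1 * c 2 + (c 0 * b 3 - A * c 1 * b 2)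

/-- minors -/
def Wm (b c : Fin 4 → ℤ) (i j : Fin 4) : ℤ := b i * c j - b j * c i

/-- `β` -/
def bet (A B C : ℤ) (u b c : Fin 4 → ℤ) : ℤ :=
  u 0 * P0 A B C b c + u 1 * P1 A B C b c + u 2 * P2 A B C b c + u 3 * P3 A B C b c

/-- `d` -/
def det2 (u b c : Fin 4 → ℤ) : ℤ := u 0 * Wm b c 0 1 - u 1 * Wm b c 2 3 - u 2 * Wm b c 1 2 - u 3 * Wm b c 1 3

section two
variable {A B C : ℤ} {v b c u : Fin 4 → ℤ} (hb : Lmr A B C v b) (hc : Lmr A B C v c)
  (hu : u 0 * v 0 + u 1 * v 1 + u 2 * v 2 + u 3 * v 3 = 1)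
include hb hc

theorem p02 : v 0 * P2 A B C b c = v 2 * P0 A B C b c := by
  unfold P2 P0
  linear_combination (b 0 + B * b 1) * hc.h1 + C * b 1 * hc.h2 + (c 0 + B * c 1) * hb.h1 + C * c 1 * hb.h2

theorem p03 : v 0 * P3 A B C b c = v 3 * P0 A B C b c := by
  unfold P3 P0
  linear_combination b 0 * hc.h2 - A * b 1 * hc.h1 + c 0 * hb.h2 - A * c 1 * hb.h1

theorem p12 : v 1 * P2 A B C b c = v 2 * P1 A B C b c := by
  unfold P2 P1
  linear_combination -(c 2) * hb.h3 - (B * c 2 + C * c 3) * hb.h4 - (b 2) * hc.h3 - (B * b 2 + C * b 3) * hc.h4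

theorem p13 : v 1 * P3 A B C b c = v 3 * P1 A B C b c := by
  unfold P3 P1
  linear_combination -(c 3) * hb.h3 + (A * c 2) * hb.h4 - (b 3) * hc.h3 + (A * b 2) * hc.h4

theorem p01 : v 0 * P1 A B C b c = v 1 * P0 A B C b c := by
  unfold P1 P0
  linear_combination -(2 * A * c 2 + B * c 3) * hb.h1 - (B * c 2 + 2 * C * c 3) * hb.h2
    + (2 * b 0 + B * b 1) * hc.h3 + (B * b 0 + 2 * A * C * b 1) * hc.h4

theorem p23 : v 2 * P3 A B C b c = v 3 * P2 A B C b c := by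
  unfold P3 P2
  linear_combination (-b 0) * hc.h4 + b 1 * hc.h3 - c 0 * hb.h4 + c 1 * hb.h3

theorem w01 : v 0 * Wm b c 2 3 = -(v 1 * Wm b c 0 1) := by
  unfold Wm
  linear_combination c 3 * hb.h1 - c 2 * hb.h2 + b 1 * hc.h3 - b 0 * hc.h4

theorem w02 : v 0 * Wm b c 1 2 = -(v 2 * Wm b c 0 1) := by
  unfold Wm
  linear_combination b 1 * hc.h1 - c 1 * hb.h1

theorem w03 : v 0 * Wm b c 1 3 = -(v 3 * Wm b c 0 1) := by
  unfold Wm
  linear_combination b 1 * hc.h2 - c 1 * hb.h2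

theorem w12 : v 1 * Wm b c 1 2 = v 2 * Wm b c 2 3 := by
  unfold Wm
  linear_combination -(c 2) * hb.h4 + b 2 * hc.h4

theorem w13 : v 1 * Wm b c 1 3 = v 3 * Wm b c 2 3 := by
  unfold Wm
  linear_combination -(c 3) * hb.h4 + b 3 * hc.h4

theorem w23 : v 2 * Wm b c 1 3 = v 3 * Wm b c 1 2 := by
  unfold Wm
  linear_combination -(b 1) * hc.h4 + c 1 * hb.h4

theorem x0 : v 0 * Wm b c 0 2 = -(C * v 3 * Wm b c 0 1) := by
  unfold Wm
  linear_combination b 0 * hc.h1 - c 0 * hb.h1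

theorem x1 : v 1 * Wm b c 0 2 = C * v 3 * Wm b c 2 3 := by
  unfold Wm
  linear_combination -(c 2) * hb.h3 + b 2 * hc.h3

theorem x2 : v 2 * Wm b c 0 2 = C * v 3 * Wm b c 1 2 := by
  unfold Wm
  linear_combination -(c 2) * hb.h1 + b 2 * hc.h1

theorem y0 : v 0 * Wm b c 0 3 = (A * v 2 + B * v 3) * Wm b c 0 1 := by
  unfold Wm
  linear_combination b 0 * hc.h2 - c 0 * hb.h2

theorem y1 : v 1 * Wm b c 0 3 = -((A * v 2 + B * v 3) * Wm b c 2 3) := by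
  unfold Wm
  linear_combination -(c 3) * hb.h3 + b 3 * hc.h3

theorem y3 : v 3 * Wm b c 0 3 = -((A * v 2 + B * v 3) * Wm b c 1 3) := by
  unfold Wm
  linear_combination -(c 3) * hb.h2 + b 3 * hc.h2

include hu

theorem bet0 : P0 A B C b c = bet A B C u b c * v 0 := by
  unfold bet
  linear_combination -(P0 A B C b c) * hu - u 1 * p01 hb hc - u 2 * p02 hb hc - u 3 * p03 hb hc

theorem bet1 : P1 A B C b c = bet A B C u b c * v 1 := by
  unfold bet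
  linear_combination -(P1 A B C b c) * hu + u 0 * p01 hb hc - u 2 * p12 hb hc - u 3 * p13 hb hc

theorem det0 : Wm b c 0 1 = det2 u b c * v 0 := by
  unfold det2
  linear_combination -(Wm b c 0 1) * hu + u 1 * w01 hb hc + u 2 * w02 hb hc + u 3 * w03 hb hc

theorem det1 : -Wm b c 2 3 = det2 u b c * v 1 := by
  unfold det2
  linear_combination (Wm b c 2 3) * hu - u 0 * w01 hb hc + u 2 * w12 hb hc + u 3 * w13 hb hc

theorem det2' : -Wm b c 1 2 = det2 u b c * v 2 := by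
  unfold det2
  linear_combination (Wm b c 1 2) * hu - u 0 * w02 hb hc - u 1 * w12 hb hc + u 3 * w23 hb hc

theorem det3 : -Wm b c 1 3 = det2 u b c * v 3 := by
  unfold det2
  linear_combination (Wm b c 1 3) * hu - u 0 * w03 hb hc - u 1 * w13 hb hc - u 2 * w23 hb hc

end two

end Pool.Agent.PP5LA.Cn
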