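import Pool.Agent.PP5LA.Cn0

/-!
# Counting the primitive `b` with `Psi b = F v`, II (helper99)
-/

set_option autoImplicit false

namespace Pool.Agent.PP5LA.Cn

open Finset

theorem A_ne {A B C : ℤ} (hD : B ^ 2 - 4 * A * C < 0) : A ≠ 0 := by
  rintro rfl
  nlinarith [sq_nonneg B]

theorem C_ne {A B C : ℤ} (hD : B ^ 2 - 4 * A * C < 0) : C ≠ 0 := by
  rintro rfl
  nlinarith [sq_nonneg B]

/-- `d = 0` implies parallel -/
theorem par {A B C : ℤ} {v b c u : Fin 4 → ℤ} (hD : B ^ 2 - 4 * A * C < 0)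
    (hq : v 0 * v 1 + (A * v 2 ^ 2 + B * v 2 * v 3 + C * v 3 ^ 2) = 0)
    (hb : Lmr A B C v b) (hc : Lmr A B C v c)
    (hu : u 0 * v 0 + u 1 * v 1 + u 2 * v 2 + u 3 * v 3 = 1) (h : det2 u b c = 0) :
    ∀ i j, b i * c j = b j * c i := by
  have hA := A_ne hD
  have hC := C_ne hD
  have e01 : Wm b c 0 1 = 0 := by rw [det0 hb hc hu, h, zero_mul]
  have e23 : Wm b c 2 3 = 0 := by have := det1 hb hc hu; rw [h, zero_mul] at this; linarith
  have e12 : Wm b c 1 2 = 0 := by have := det2' hb hc hu; rw [h, zero_mul] at this; linarith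
  have e13 : Wm b c 1 3 = 0 := by have := det3 hb hc hu; rw [h, zero_mul] at this; linarith
  have e02 : Wm b c 0 2 = 0 := by
    by_contra hne
    have h0 := x0 hb hc
    have h1 := x1 hb hc
    have h2 := x2 hb hc
    rw [e01, mul_zero, neg_zero] at h0
    rw [e23, mul_zero] at h1
    rw [e12, mul_zero] at h2
    have v0 := (mul_eq_zero.mp h0).resolve_right hne
    have v1 := (mul_eq_zero.mp h1).resolve_right hne
    have v2 := (mul_eq_zero.mp h2).resolve_right hne
    rw [v0, v2] at hq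
    have h3 : C * v 3 ^ 2 = 0 := by linear_combination hq
    have v3 : v 3 = 0 := by
      rcases mul_eq_zero.mp h3 with h4 | h4
      · exact absurd h4 hC
      · exact pow_eq_zero_iff (two_ne_zero) |>.mp h4
    rw [v0, v1, v2, v3] at hu
    simp at hu
  have e03 : Wm b c 0 3 = 0 := by
    by_contra hne
    have h0 := y0 hb hc
    have h1 := y1 hb hc
    have h2 := y3 hb hc
    rw [e01, mul_zero] at h0
    rw [e23, mul_zero, neg_zero] at h1
    rw [e13, mul_zero, neg_zero] at h2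
    have v0 := (mul_eq_zero.mp h0).resolve_right hne
    have v1 := (mul_eq_zero.mp h1).resolve_right hne
    have v3 := (mul_eq_zero.mp h2).resolve_right hne
    rw [v0, v3] at hq
    have h3 : A * v 2 ^ 2 = 0 := by linear_combination hq
    have v2 : v 2 = 0 := by
      rcases mul_eq_zero.mp h3 with h4 | h4
      · exact absurd h4 hA
      · exact pow_eq_zero_iff (two_ne_zero) |>.mp h4
    rw [v0, v1, v2, v3] at hu
    simp at hu
  simp only [Wm] at e01 e02 e03 e12 e13 e23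
  intro i j
  fin_cases i <;> fin_cases j <;> simp <;> linarith

/-- parallel to a primitive vector -/
theorem mult_of_par {b c w : Fin 4 → ℤ} (hw : w 0 * b 0 + w 1 * b 1 + w 2 * b 2 + w 3 * b 3 = 1)
    (h : ∀ i j, b i * c j = b j * c i) : ∃ j : ℤ, c = j • b := by
  refine ⟨w 0 * c 0 + w 1 * c 1 + w 2 * c 2 + w 3 * c 3, ?_⟩
  funext i
  simp only [Pi.smul_apply, smul_eq_mul]
  linear_combination -(c i) * hw + w 0 * h 0 i + w 1 * h 1 i + w 2 * h 2 i + w 3 * h 3 i

/-- the discriminant identity -/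
theorem disc {A B C : ℤ} {v b c u : Fin 4 → ℤ} {f g : ℤ} (hD : B ^ 2 - 4 * A * C < 0)
    (hq : v 0 * v 1 + (A * v 2 ^ 2 + B * v 2 * v 3 + C * v 3 ^ 2) = 0)
    (hb : Psv A B C v b f) (hc : Psv A B C v c g) (hf : f ≠ 0) (hg : g ≠ 0)
    (hu : u 0 * v 0 + u 1 * v 1 + u 2 * v 2 + u 3 * v 3 = 1) :
    4 * f * g - bet A B C u b c ^ 2 = (4 * A * C - B ^ 2) * det2 u b c ^ 2 := by
  have hA := A_ne hD
  have hC := C_ne hD
  have lb := hb.lmr hf
  have lc := hc.lmr hg
  have b0 := bet0 lb lc hu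
  have b1 := bet1 lb lc hu
  have d0 := det0 lb lc hu
  have d1 := det1 lb lc hu
  by_cases v0 : v 0 = 0
  · by_cases v1 : v 1 = 0
    · exfalso
      rw [v0] at hq
      have h4 : (2 * A * v 2 + B * v 3) ^ 2 + (4 * A * C - B ^ 2) * v 3 ^ 2 = 0 := by
        linear_combination 4 * A * hq
      have v3 : v 3 = 0 := by
        have h5 : (4 * A * C - B ^ 2) * v 3 ^ 2 = 0 := by
          nlinarith [sq_nonneg (2 * A * v 2 + B * v 3), mul_nonneg (show (0:ℤ) ≤ 4 * A * C - B ^ 2 by linarith) (sq_nonneg (v 3))]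
        rcases mul_eq_zero.mp h5 with h6 | h6
        · exact absurd h6 (by linarith)
        · exact pow_eq_zero_iff (two_ne_zero) |>.mp h6
      rw [v3] at hq
      have h3 : A * v 2 ^ 2 = 0 := by linear_combination hq
      have v2 : v 2 = 0 := by
        rcases mul_eq_zero.mp h3 with h4 | h4
        · exact absurd h4 hA
        · exact pow_eq_zero_iff (two_ne_zero) |>.mp h4
      rw [v0, v1, v2, v3] at hu
      simp at hu
    · refine mul_left_cancel₀ (pow_ne_zero 2 v1) ?_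
      have e1 := hb.p1
      have e2 := hc.p1
      have key : (P1 A B C b c) ^ 2 - 4 * (A * b 2 ^ 2 + B * b 2 * b 3 + C * b 3 ^ 2) *
          (A * c 2 ^ 2 + B * c 2 * c 3 + C * c 3 ^ 2) = (B ^ 2 - 4 * A * C) * (Wm b c 2 3) ^ 2 := by
        unfold P1 Wm; ring
      have e1' : (A * b 2 ^ 2 + B * b 2 * b 3 + C * b 3 ^ 2) = -(f * v 1) := by linarith
      have e2' : (A * c 2 ^ 2 + B * c 2 * c 3 + C * c 3 ^ 2) = -(g * v 1) := by linarith
      have d1' : Wm b c 2 3 = -(det2 u b c * v 1) := by linarith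
      rw [e1', e2', d1', b1] at key
      linear_combination -key
  · refine mul_left_cancel₀ (pow_ne_zero 2 v0) ?_
    have key : (P0 A B C b c) ^ 2 - 4 * (b 0 ^ 2 + B * b 0 * b 1 + A * C * b 1 ^ 2) *
        (c 0 ^ 2 + B * c 0 * c 1 + A * C * c 1 ^ 2) = (B ^ 2 - 4 * A * C) * (Wm b c 0 1) ^ 2 := by
      unfold P0 Wm; ring
    rw [hb.p0, hc.p0, d0, b0] at key
    linear_combination -key

theorem det2_sub (u b c c' : Fin 4 → ℤ) : det2 u b (c - c') = det2 u b c - det2 u b c' := by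
  simp only [det2, Wm, Pi.sub_apply]; ring

/-- `β (a, b + j a) = β (a, b) + 2 f j` -/
theorem bet_add {A B C : ℤ} {v a b u : Fin 4 → ℤ} {f : ℤ} (ha : Psv A B C v a f)
    (hu : u 0 * v 0 + u 1 * v 1 + u 2 * v 2 + u 3 * v 3 = 1) (j : ℤ) :
    bet A B C u a (b + j • a) = bet A B C u a b + 2 * f * j := by
  simp only [bet, P0, P1, P2, P3, Pi.add_apply, Pi.smul_apply, smul_eq_mul]
  linear_combination 2 * j * u 0 * ha.p0 + 2 * j * u 1 * ha.p1 + 2 * j * u 2 * ha.p2 + 2 * j * u 3 * ha.p3 +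
    2 * j * f * hu

end Pool.Agent.PP5LA.Cn
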