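import Pool.Agent.PP5LA.Cn1

/-!
# Counting the primitive `b` with `Psi b = F v`, III (helper99)

`cnt0`: the number of the primitive `b` with `Psi b = F v`, `0 < F ≤ Z`, is at most `2 + 12 Z / √|D|`.
-/

set_option autoImplicit false

namespace Pool.Agent.PP5LA.Cn

open Finset

/-- integral vector with `w · b = 1` -/
def Bz (b : Fin 4 → ℤ) : Prop := ∃ w : Fin 4 → ℤ, w 0 * b 0 + w 1 * b 1 + w 2 * b 2 + w 3 * b 3 = 1

theorem unit_of_mult {b a : Fin 4 → ℤ} {j : ℤ} (hb : Bz b) (h : b = j • a) : j = 1 ∨ j = -1 := by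
  obtain ⟨w, hw⟩ := hb
  have hd : j ∣ 1 := by
    rw [← hw, h]
    simp only [Pi.smul_apply, smul_eq_mul]
    exact ⟨w 0 * a 0 + w 1 * a 1 + w 2 * a 2 + w 3 * a 3, by ring⟩
  exact Int.isUnit_iff.mp (isUnit_of_dvd_one hd)

theorem cnt0 {A B C : ℤ} (hD : B ^ 2 - 4 * A * C < 0) {v : Fin 4 → ℤ} (hv : Bz v)
    (hq : v 0 * v 1 + (A * v 2 ^ 2 + B * v 2 * v 3 + C * v 3 ^ 2) = 0) {Z : ℝ} (hZ : 0 ≤ Z)
    (F : (Fin 4 → ℤ) → ℤ)
    (S : Finset (Fin 4 → ℤ)) (hS : ∀ b ∈ S, Bz b ∧ 0 < F b ∧ (F b : ℝ) ≤ Z ∧ Psv A B C v b (F b)) :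
    (S.card : ℝ) ≤ 2 + 12 * Z / √(4 * (A : ℝ) * C - (B : ℝ) ^ 2) := by
  classical
  obtain ⟨u, hu0⟩ := hv
  have hu : u 0 * v 0 + u 1 * v 1 + u 2 * v 2 + u 3 * v 3 = 1 := hu0
  set Dl : ℝ := 4 * (A : ℝ) * C - (B : ℝ) ^ 2 with hDl
  have hDl0 : 0 < Dl := by
    have : ((B ^ 2 - 4 * A * C : ℤ) : ℝ) < 0 := by exact_mod_cast hD
    push_cast at this
    rw [hDl]; linarith
  rcases S.eq_empty_or_nonempty with rfl | ⟨a, ha⟩
  · simp only [card_empty, Nat.cast_zero]
    positivity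
  obtain ⟨⟨wa, hwa⟩, hma, hmZ, hpa⟩ := hS a ha
  set m : ℤ := F a with hm
  have hm0 : (0 : ℝ) < m := by exact_mod_cast hma
  have hZ0 : 0 < Z := lt_of_lt_of_le hm0 hmZ
  -- the two bounds
  have hdisc : ∀ b ∈ S, 4 * (m : ℝ) * F b - (bet A B C u a b : ℝ) ^ 2 = Dl * (det2 u a b : ℝ) ^ 2 := by
    intro b hb
    obtain ⟨_, hb0, _, hpb⟩ := hS b hb
    have h := disc hD hq hpa hpb hma.ne' hb0.ne' hu
    have h2 : (((4 * m * F b - bet A B C u a b ^ 2 : ℤ)) : ℝ) =
      (((4 * A * C - B ^ 2) * det2 u a b ^ 2 : ℤ) : ℝ) := by rw [h]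
    push_cast at h2
    rw [hDl]; linarith
  have hbd : ∀ b ∈ S, (det2 u a b : ℝ) ^ 2 ≤ 4 * (m * Z / Dl) := by
    intro b hb
    have h := hdisc b hb
    have h1 := (hS b hb).2.2.1
    have h2 : (m : ℝ) * F b ≤ m * Z := mul_le_mul_of_nonneg_left h1 hm0.le
    have h3 : (4 : ℝ) * (m * Z / Dl) = (4 * (m * Z)) / Dl := by ring
    rw [h3, le_div_iff₀ hDl0]
    nlinarith [sq_nonneg (bet A B C u a b : ℝ)]
  have hbe : ∀ b ∈ S, (bet A B C u a b : ℝ) ^ 2 ≤ 4 * (m * Z) := by
    intro b hb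
    have h := hdisc b hb
    have h1 := (hS b hb).2.2.1
    have h2 : (m : ℝ) * F b ≤ m * Z := mul_le_mul_of_nonneg_left h1 hm0.le
    nlinarith [mul_nonneg hDl0.le (sq_nonneg (det2 u a b : ℝ))]
  -- differences in a fibre
  have hfib : ∀ b ∈ S, ∀ b' ∈ S, det2 u a b' = det2 u a b →
      ∃ j : ℤ, b' = b + j • a ∧ bet A B C u a b' = bet A B C u a b + 2 * m * j := by
    intro b hb b' hb' hdd
    have lb := (hS b hb).2.2.2.lmr (hS b hb).2.1.ne'
    have lb' := (hS b' hb').2.2.2.lmr (hS b' hb').2.1.ne'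
    have la := hpa.lmr hma.ne'
    have h0 : det2 u a (b' - b) = 0 := by rw [det2_sub, hdd, sub_self]
    obtain ⟨j, hj⟩ := mult_of_par hwa (par hD hq la (lb'.sub lb) hu h0)
    have e : b' = b + j • a := by rw [← hj]; abel
    exact ⟨j, e, by rw [e]; exact bet_add hpa hu j⟩
  set s : ℝ := √(Z / m) with hs
  set t : ℝ := √(m * Z / Dl) with ht
  have hs1 : 1 ≤ s := by
    rw [hs, Real.one_le_sqrt, le_div_iff₀ hm0]; linarith
  have ht0 : 0 ≤ t := Real.sqrt_nonneg _
  have hst : s * t = Z / √Dl := by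
    rw [hs, ht, ← Real.sqrt_mul (by positivity)]
    have : Z / (m : ℝ) * (m * Z / Dl) = Z ^ 2 / Dl := by field_simp
    rw [this, Real.sqrt_div (by positivity), Real.sqrt_sq hZ]
  set Lf : ℕ := ⌊2 * s⌋₊ with hLf
  set Yf : ℕ := ⌊2 * t⌋₊ with hYf
  have hLf2 : (Lf : ℝ) ≤ 2 * s := Nat.floor_le (by positivity)
  have hYf2 : (Yf : ℝ) ≤ 2 * t := Nat.floor_le (by positivity)
  -- the fibres
  have hfc : ∀ d ∈ (S.filter (fun b => det2 u a b ≠ 0)).image (fun b => det2 u a b),
      ((S.filter (fun b => det2 u a b ≠ 0)).filter (fun b => det2 u a b = d)).card ≤ Lf + 1 := by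
    intro d _
    set T := (S.filter (fun b => det2 u a b ≠ 0)).filter (fun b => det2 u a b = d) with hT
    have hTS : ∀ b ∈ T, b ∈ S ∧ det2 u a b = d := by
      intro b hb
      rw [hT, mem_filter, mem_filter] at hb
      exact ⟨hb.1.1, hb.2⟩
    rcases T.eq_empty_or_nonempty with hE | hne
    · rw [hE]; simp
    obtain ⟨b0, hb0, hmin⟩ := T.exists_min_image (fun b => bet A B C u a b) hne
    have hsub : T ⊆ (Icc (0 : ℤ) Lf).image (fun j => b0 + j • a) := by
      intro b hb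
      obtain ⟨j, hj1, hj2⟩ := hfib b0 (hTS b0 hb0).1 b (hTS b hb).1
        (by rw [(hTS b hb).2, (hTS b0 hb0).2])
      have hj0 : 0 ≤ j := by
        have := hmin b hb
        have h3 : 0 ≤ 2 * m * j := by linarith
        by_contra hneg
        push Not at hneg
        nlinarith
      have hjL : j ≤ Lf := by
        have h1 := hbe b (hTS b hb).1
        have h2 := hbe b0 (hTS b0 hb0).1
        have h3 : ((bet A B C u a b : ℤ) : ℝ) = bet A B C u a b0 + 2 * m * j := by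
          rw [hj2]; push_cast; ring
        have hjr : (j : ℝ) ≤ 2 * s := by
          have h4 : ((m : ℝ) * j) ^ 2 ≤ 4 * (m * Z) := by
            have h31 : (2 * ((m : ℝ) * j)) ^ 2 = ((bet A B C u a b : ℝ) - bet A B C u a b0) ^ 2 := by
              rw [h3]; ring
            nlinarith [sq_nonneg ((bet A B C u a b : ℝ) + bet A B C u a b0)]
          have h5 : (j : ℝ) ^ 2 ≤ 4 * (Z / m) := by
            have h6 : (4 : ℝ) * (Z / m) = (4 * (m * Z)) / m ^ 2 := by field_simp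
            rw [h6, le_div_iff₀ (by positivity)]
            calc (j : ℝ) ^ 2 * m ^ 2 = ((m : ℝ) * j) ^ 2 := by ring
              _ ≤ _ := h4
          have h7 : (2 * s) ^ 2 = 4 * (Z / m) := by
            rw [mul_pow, hs, Real.sq_sqrt (by positivity)]; norm_num
          exact abs_le_of_sq_le_sq' (by rw [h7]; exact h5) (by positivity) |>.2
        have h8 : j.toNat ≤ Lf := by
          rw [hLf]
          apply Nat.le_floor
          have : ((j.toNat : ℕ) : ℝ) = (j : ℝ) := by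
            have := Int.toNat_of_nonneg hj0
            exact_mod_cast this
          rw [this]; exact hjr
        omega
      rw [mem_image]
      exact ⟨j, mem_Icc.mpr ⟨hj0, hjL⟩, hj1.symm⟩
    calc T.card ≤ ((Icc (0 : ℤ) Lf).image (fun j => b0 + j • a)).card := card_le_card hsub
      _ ≤ (Icc (0 : ℤ) Lf).card := card_image_le
      _ = Lf + 1 := by simp
  have himg : ((S.filter (fun b => det2 u a b ≠ 0)).image (fun b => det2 u a b)).card ≤ 2 * Yf := by
    have hsub : (S.filter (fun b => det2 u a b ≠ 0)).image (fun b => det2 u a b) ⊆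
        (Icc (-(Yf : ℤ)) Yf).erase 0 := by
      intro d hd
      rw [mem_image] at hd
      obtain ⟨b, hb, rfl⟩ := hd
      rw [mem_filter] at hb
      rw [mem_erase, mem_Icc]
      refine ⟨hb.2, ?_⟩
      have h1 := hbd b hb.1
      have h2 : (2 * t) ^ 2 = 4 * (m * Z / Dl) := by
        rw [mul_pow, ht, Real.sq_sqrt (by positivity)]; norm_num
      have h3 : |(det2 u a b : ℝ)| ≤ 2 * t := abs_le_of_sq_le_sq (by rw [h2]; exact h1) (by positivity)
      have h4 : (det2 u a b).natAbs ≤ Yf := by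
        rw [hYf]
        apply Nat.le_floor
        rw [Nat.cast_natAbs, Int.cast_abs]; exact h3
      omega
    calc _ ≤ ((Icc (-(Yf : ℤ)) Yf).erase 0).card := card_le_card hsub
      _ = 2 * Yf := by
        rw [card_erase_of_mem (by simp), Int.card_Icc]
        omega
  have h1 : (S.filter (fun b => det2 u a b ≠ 0)).card ≤ (Lf + 1) * (2 * Yf) :=
    (card_le_mul_card_image _ _ hfc).trans (Nat.mul_le_mul_left _ himg)
  have h0 : (S.filter (fun b => ¬ det2 u a b ≠ 0)).card ≤ 2 := by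
    have hsub : S.filter (fun b => ¬ det2 u a b ≠ 0) ⊆ {a, -a} := by
      intro b hb
      rw [mem_filter, not_not] at hb
      have lb := (hS b hb.1).2.2.2.lmr (hS b hb.1).2.1.ne'
      have la := hpa.lmr hma.ne'
      obtain ⟨j, hj⟩ := mult_of_par hwa (par hD hq la lb hu hb.2)
      rcases unit_of_mult (hS b hb.1).1 hj with h | h
      · rw [h, one_smul] at hj; simp [hj]
      · rw [h, neg_one_smul] at hj; simp [hj]
    exact (card_le_card hsub).trans card_le_two
  have hcard : S.card = (S.filter (fun b => det2 u a b ≠ 0)).card +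
      (S.filter (fun b => ¬ det2 u a b ≠ 0)).card := (card_filter_add_card_filter_not _).symm
  have h1r : ((S.filter (fun b => det2 u a b ≠ 0)).card : ℝ) ≤ (Lf + 1) * (2 * Yf) := by exact_mod_cast h1
  have h0r : ((S.filter (fun b => ¬ det2 u a b ≠ 0)).card : ℝ) ≤ 2 := by exact_mod_cast h0
  rw [hcard]
  push_cast
  have h2 : ((Lf : ℝ) + 1) * (2 * Yf) ≤ (3 * s) * (4 * t) := by
    apply mul_le_mul
    · linarith
    · linarith
    · positivity
    · positivity
  have h3 : (3 * s) * (4 * t) = 12 * Z / √Dl := by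
    calc (3 * s) * (4 * t) = 12 * (s * t) := by ring
      _ = _ := by rw [hst]; ring
  linarith

end Pool.Agent.PP5LA.Cn
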