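import Pool.Agent.PP5LA.Wed
import Pool.Agent.PP5LA.Cn2
import Pool.Agent.PP5LC.TrG

/-!
# LB5, section A, module Cnt: few primitive vectors over `v` (helper99)

The proof is in `Cn0`, `Cn1`, `Cn2` (pure Mathlib).
-/

set_option autoImplicit false

namespace Pool.Agent.PP5LA

open Matrix Finset Pool.Agent.PP5B Pool.Agent.LB

theorem cnt_bz {b : Fin 4 → ℤ} (hb : Pr4 b) : Cn.Bz b := by
  have hp : PP5LC.Prim b := by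
    intro p hp
    by_contra hcon
    push Not at hcon
    exact hb p hp hcon
  obtain ⟨w, hw⟩ := PP5LC.bezout4 hp
  refine ⟨w, ?_⟩
  rw [dotProduct, Fin.sum_univ_four] at hw
  linarith

theorem cnt_psv {A B C : ℤ} {v b : Fin 4 → ℤ} {f : ℤ} (h : ∀ i, Ps A B C b i = f * v i) : Cn.Psv A B C v b f := by
  have h0 := h 0
  have h1 := h 1
  have h2 := h 2
  have h3 := h 3
  simp only [Ps, Nn, Tt, Matrix.cons_val_zero, Matrix.cons_val_one, Matrix.cons_val] at h0 h1 h2 h3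
  exact ⟨h0, h1, h2, h3⟩

theorem cnt_qf {A B C : ℤ} {v b : Fin 4 → ℤ} {f : ℤ} (hf : f ≠ 0) (h : ∀ i, Ps A B C b i = f * v i) :
    v 0 * v 1 + (A * v 2 ^ 2 + B * v 2 * v 3 + C * v 3 ^ 2) = 0 := by
  obtain ⟨h0, h1, h2, h3⟩ := cnt_psv h
  refine mul_left_cancel₀ (pow_ne_zero 2 hf) ?_
  have e : f ^ 2 * (v 0 * v 1 + (A * v 2 ^ 2 + B * v 2 * v 3 + C * v 3 ^ 2)) =
      (f * v 0) * (f * v 1) + (A * (f * v 2) ^ 2 + B * (f * v 2) * (f * v 3) + C * (f * v 3) ^ 2) := by ring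
  rw [e, ← h0, ← h1, ← h2, ← h3]
  ring

/-- sharp form -/
theorem cnt' {A B C : ℤ} (hD : B ^ 2 - 4 * A * C < 0) {v : Fin 4 → ℤ} (hv : Pr4 v) (S : Finset (Fin 4 → ℤ))
    (F : (Fin 4 → ℤ) → ℤ) (Z : ℝ) (hZ : 0 ≤ Z)
    (hS : ∀ b ∈ S, Pr4 b ∧ 0 < F b ∧ (F b : ℝ) ≤ Z ∧ ∀ i, Ps A B C b i = F b * v i) :
    (S.card : ℝ) ≤ 2 + 12 * Z / √(4 * (A : ℝ) * C - (B : ℝ) ^ 2) := by
  rcases S.eq_empty_or_nonempty with rfl | ⟨a, ha⟩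
  · simp only [card_empty, Nat.cast_zero]
    positivity
  · refine Cn.cnt0 hD (cnt_bz hv) (cnt_qf (hS a ha).2.1.ne' (hS a ha).2.2.2) hZ F S fun b hb => ?_
    obtain ⟨h1, h2, h3, h4⟩ := hS b hb
    exact ⟨cnt_bz h1, h2, h3, cnt_psv h4⟩

theorem cnt {A B C : ℤ} (hD : B ^ 2 - 4 * A * C < 0) {v : Fin 4 → ℤ} (hv : Pr4 v) (S : Finset (Fin 4 → ℤ))
    (F : (Fin 4 → ℤ) → ℤ) (Z : ℝ) (hZ : 0 ≤ Z)
    (hS : ∀ b ∈ S, Pr4 b ∧ 0 < F b ∧ (F b : ℝ) ≤ Z ∧ ∀ i, Ps A B C b i = F b * v i) :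
    (S.card : ℝ) ≤ 4 + 64 * Z / √(((4 * A * C - B ^ 2 : ℤ) : ℝ)) := by
  have h := cnt' hD hv S F Z hZ hS
  have e : (((4 * A * C - B ^ 2 : ℤ)) : ℝ) = 4 * (A : ℝ) * C - (B : ℝ) ^ 2 := by push_cast; ring
  rw [e]
  have h2 : 12 * Z / √(4 * (A : ℝ) * C - (B : ℝ) ^ 2) ≤ 64 * Z / √(4 * (A : ℝ) * C - (B : ℝ) ^ 2) := by
    gcongr
    norm_num
  linarith

end Pool.Agent.PP5LA
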