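import Pool.Agent.LB.Defs
import Pool.Agent.PP5.LFin
import Pool.Agent.PP5.DG

/-!
# LB5, section A (the seeds of one `x`): definitions

Coordinates `b = (s1, s2, t1, t2)`, `v = (v0, v1, v2, v3)`; `qf` = the form `v0 v1 + A v2² + B v2 v3 + C v3²` (half of the
Gram matrix `LB.Hyp A B C`), `bf` its polar form, `Ps` the quadratic map from `Z^4` to the null vectors, `D = B² - 4 A C < 0`.
-/

set_option autoImplicit false

namespace Pool.Agent.PP5LA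

open Matrix Finset Pool.Agent.PP5B Pool.Agent.LB

section
variable {R : Type*} [CommRing R]

/-- the quadratic form -/
def qf (A B C : R) (v : Fin 4 → R) : R := v 0 * v 1 + A * v 2 ^ 2 + B * v 2 * v 3 + C * v 3 ^ 2

/-- the polar form -/
def bf (A B C : R) (u v : Fin 4 → R) : R :=
  u 0 * v 1 + u 1 * v 0 + 2 * A * u 2 * v 2 + B * (u 2 * v 3 + u 3 * v 2) + 2 * C * u 3 * v 3

/-- `N(s)` -/
def Nn (A B C : R) (b : Fin 4 → R) : R := b 0 ^ 2 + B * b 0 * b 1 + A * C * b 1 ^ 2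

/-- `T(t)` -/
def Tt (A B C : R) (b : Fin 4 → R) : R := A * b 2 ^ 2 + B * b 2 * b 3 + C * b 3 ^ 2

/-- the map to the null vectors -/
def Ps (A B C : R) (b : Fin 4 → R) : Fin 4 → R :=
  ![Nn A B C b, -Tt A B C b, b 0 * b 2 + B * b 1 * b 2 + C * b 1 * b 3, b 0 * b 3 - A * b 1 * b 2]

/-- the wedge coordinates -/
def wd (b b' : Fin 4 → R) (i j : Fin 4) : R := b i * b' j - b j * b' i

/-- the lattice point `PZ x s` of `L_x` (degree five in `x`), `PZ x s = D(x) x0 s` for `s` in `L_x` -/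
def PZ (x : Fin 10 → R) (s : Fin 16 → R) : Fin 16 → R := fun k =>
  (PP5L.SS x).det * PP5L.HP x (PP5L.HH (Pi.single 2 1) s) k -
    ∑ i : Fin 4, ((PP5L.SS x).adjugate *ᵥ
      (fun j => PP5L.dot (PP5L.HP x (PP5L.HH (Pi.single 2 1) s)) (PP5L.rho j))) i * PP5L.HP x (PP5L.rho i) k

end

/-- the lattice `M(n, r)` -/
def Mn (A : ℤ) (n : ℕ) (r : ℤ) (b : Fin 4 → ℤ) : Prop := (n : ℤ) ∣ b 0 + r * b 1 ∧ (n : ℤ) ∣ A * b 2 + r * b 3

/-- the data of a seed `(n, r)`: `n = g n1`, `b` a primitive vector of `M(n1, r)`, `Ps b = n1 k0 v` -/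
structure Sh (A B C : ℤ) (n : ℕ) (r : ℤ) (g n1 k0 : ℕ) (b v : Fin 4 → ℤ) : Prop where
  g0 : 0 < g
  n0 : 0 < n1
  k00 : 0 < k0
  hn : n = g * n1
  pb : Pr4 b
  pv : Pr4 v
  mn : Mn A n1 r b
  ps : ∀ i, Ps A B C b i = (n1 : ℤ) * k0 * v i

/-- the integers as real vectors -/
def rv {n : ℕ} (v : Fin n → ℤ) : Fin n → ℝ := fun i => (v i : ℝ)

/-- linear combination of four points -/
def lc (e : Fin 4 → PP5.Sp) (v : Fin 4 → ℤ) : PP5.Sp := fun a => ∑ i, v i * e i a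

/-- coordinates of `L_x` with a hyperbolic plane -/
structure Crd (x : V10) (A B C : ℤ) (e : Fin 4 → PP5.Sp) : Prop where
  inE : ∀ v, PP5.InE (lc e v) x
  sur : ∀ P, PP5.InE P x → ∃ v, P = lc e v
  inj : ∀ v, lc e v = 0 → v = 0
  bil : ∀ (u v : Fin 4 → ℤ) (j : Fin 10),
    PP5L.Bd (PP5.emb (lc e u)) (PP5.emb (lc e v)) j = bf A B C u v * x j
  dsc : B ^ 2 - 4 * A * C = PP5LB.DD x

/-- the real space `L_x` -/
def LR (x : Fin 10 → ℝ) (s : Fin 16 → ℝ) : Prop :=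
  PP5L.HH x s = 0 ∧ ∀ i : Fin 4, PP5L.dot s (PP5L.rho i) = 0

/-- the polar form of `q_x` on the real space -/
noncomputable def bR (x : Fin 10 → ℝ) (s t : Fin 16 → ℝ) : ℝ := PP5L.Bd s t 0 / x 0

/-- the quadratic form `q_x` -/
noncomputable def qR (x : Fin 10 → ℝ) (s : Fin 16 → ℝ) : ℝ := PP5L.Qd s 0 / x 0

/-- `ψ*` in the sixteen coordinates (`= emb LB.ps`) -/
def p16 : Fin 16 → ℤ := ![1, 10, 7, -4, -4, -5, 6, -3, 5, -1, 7, 1, -4, -5, 6, -3]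

/-- the time-like vector of `L_xs`: `q = -1`, `b(p16, t16) = -14` -/
def t16 : Fin 16 → ℤ := ![0, 1, 1, 0, -1, 0, 0, 0, 2, 0, 0, 1, -1, 0, 0, 0]

/-- the discriminant in the sixteen coordinates -/
def DfR (s : Fin 16 → ℝ) : ℝ := (s 0 * s 1 + s 10 * s 11 - 2 * s 4 * s 5) ^ 2 -
  4 * (s 0 * s 10 - s 4 ^ 2) * (s 11 * s 1 - s 5 ^ 2)

/-- the seed `s = (n, c)` leads to the zero `v` with the multiplicity `k` -/
def Dt (A B C : ℤ) (s : ℕ × ℕ) (k : ℕ) (v : Fin 4 → ℤ) : Prop := ∃ (r : ℤ) (g n1 k0 : ℕ) (b : Fin 4 → ℤ),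
  Sh A B C s.1 r g n1 k0 b v ∧ g * k0 = k ∧ (s.1 : ℤ) ∣ 2 * r - B - s.2

end Pool.Agent.PP5LA
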