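import Mathlib

/-!
# PP5LA, (M1): Minkowski for linear forms and for a positive definite quaternary quadratic form
-/

namespace Pool.Agent.PP5LA

open MeasureTheory Matrix
open scoped MatrixOrder

/-- Minkowski's theorem on linear forms in four variables -/
theorem mink_lin (B : Matrix (Fin 4) (Fin 4) ℝ) (hB : B.det ≠ 0) {s : ℝ} (hs : 0 < s)
    (h : |B.det| ≤ s ^ 4) :
    ∃ z : Fin 4 → ℤ, z ≠ 0 ∧ ∀ i, |(B *ᵥ (fun j => (z j : ℝ))) i| ≤ s := by
  classical
  set b := Pi.basisFun ℝ (Fin 4) with hb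
  set L : AddSubgroup (Fin 4 → ℝ) := (Submodule.span ℤ (Set.range b)).toAddSubgroup with hL
  set f : (Fin 4 → ℝ) →ₗ[ℝ] (Fin 4 → ℝ) := Matrix.toLin' B with hf
  have hdet : LinearMap.det f = B.det := LinearMap.det_toLin' B
  set K : Set (Fin 4 → ℝ) := Metric.closedBall 0 s with hK
  set S : Set (Fin 4 → ℝ) := f ⁻¹' K with hS
  have hfund : IsAddFundamentalDomain L (ZSpan.fundamentalDomain b) (volume : Measure (Fin 4 → ℝ)) :=
    ZSpan.isAddFundamentalDomain b volume
  have hcount : Countable L := by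
    change Countable (Submodule.span ℤ (Set.range b))
    infer_instance
  have hvolF : volume (ZSpan.fundamentalDomain b) = 1 := by
    rw [hb, ZSpan.fundamentalDomain_pi_basisFun, Real.volume_pi_Ico]
    simp
  have hvolS : volume S = ENNReal.ofReal |B.det⁻¹| * ENNReal.ofReal ((2 * s) ^ 4) := by
    rw [hS, Measure.addHaar_preimage_linearMap _ (by rw [hdet]; exact hB), hdet, hK,
      Real.volume_pi_closedBall _ hs.le]
    simp
  have hsymm : ∀ x ∈ S, -x ∈ S := by
    intro x hx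
    simp only [hS, hK, Set.mem_preimage, mem_closedBall_zero_iff, map_neg, norm_neg] at hx ⊢
    exact hx
  have hconv : Convex ℝ S := by
    rw [hS]
    exact (convex_closedBall 0 s).linear_preimage f
  have hcpt : IsCompact S := by
    have hequiv : ∃ g : (Fin 4 → ℝ) ≃ₗ[ℝ] (Fin 4 → ℝ), ∀ x, g x = f x :=
      ⟨LinearEquiv.ofIsUnitDet (f := f) (v := b) (v' := b)
        (by rw [LinearMap.det_toMatrix, hdet]; exact isUnit_iff_ne_zero.2 hB), fun x => rfl⟩
    obtain ⟨g, hg⟩ := hequiv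
    have e : S = g.symm '' K := by
      ext x
      rw [hS, Set.mem_preimage, ← hg]
      constructor
      · intro hx; exact ⟨g x, hx, g.symm_apply_apply x⟩
      · rintro ⟨y, hy, rfl⟩; rwa [g.apply_symm_apply]
    rw [e]
    exact (isCompact_closedBall 0 s).image (LinearMap.continuous_of_finiteDimensional g.symm.toLinearMap)
  have hineq : volume (ZSpan.fundamentalDomain b) * 2 ^ Module.finrank ℝ (Fin 4 → ℝ) ≤ volume S := by
    rw [hvolF, one_mul, hvolS, ← ENNReal.ofReal_mul (abs_nonneg _)]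
    have h16 : (2 : ENNReal) ^ Module.finrank ℝ (Fin 4 → ℝ) = ENNReal.ofReal 16 := by
      rw [Module.finrank_fin_fun]
      norm_num
    rw [h16]
    apply ENNReal.ofReal_le_ofReal
    have hBpos : 0 < |B.det| := abs_pos.2 hB
    rw [abs_inv]
    have : |B.det|⁻¹ * (2 * s) ^ 4 = 16 * (s ^ 4 / |B.det|) := by
      field_simp; ring
    rw [this]
    have h1 : 1 ≤ s ^ 4 / |B.det| := by rw [le_div_iff₀ hBpos]; linarith
    linarith
  obtain ⟨x, hx0, hxS⟩ := exists_ne_zero_mem_lattice_of_measure_mul_two_pow_le_measure hfund hsymm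
    hconv hcpt hineq
  have hxL : (x : Fin 4 → ℝ) ∈ Submodule.span ℤ (Set.range b) := x.2
  rw [b.mem_span_iff_repr_mem ℤ] at hxL
  choose z hz using hxL
  have hzx : (fun j => ((z j : ℤ) : ℝ)) = (x : Fin 4 → ℝ) := by
    funext j
    have := hz j
    simpa [hb] using this
  refine ⟨z, ?_, ?_⟩
  · rintro h0
    apply hx0
    apply Subtype.ext
    rw [← hzx, h0]
    funext j
    simp
  · intro i
    rw [hzx]
    simp only [hS, hK, Set.mem_preimage, mem_closedBall_zero_iff] at hxS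
    have h2 := (pi_norm_le_iff_of_nonneg hs.le).1 hxS i
    rwa [hf, Matrix.toLin'_apply, Real.norm_eq_abs] at h2

/-- the quadratic form version -/
theorem mink4 (H : Matrix (Fin 4) (Fin 4) ℝ) (hH : H.PosDef) :
    ∃ z : Fin 4 → ℤ, z ≠ 0 ∧
      (fun j => (z j : ℝ)) ⬝ᵥ (H *ᵥ (fun j => (z j : ℝ))) ≤ 4 * H.det ^ (1 / 4 : ℝ) := by
  obtain ⟨B, hB⟩ := CStarAlgebra.nonneg_iff_eq_star_mul_self.mp hH.posSemidef.nonneg
  rw [Matrix.star_eq_conjTranspose, Matrix.conjTranspose_eq_transpose_of_trivial] at hB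
  have hdet : H.det = B.det ^ 2 := by
    rw [hB, Matrix.det_mul, Matrix.det_transpose]; ring
  have hdpos : 0 < H.det := hH.det_pos
  have hBdet : B.det ≠ 0 := by
    intro h
    rw [hdet, h] at hdpos
    norm_num at hdpos
  have hBpos : 0 < |B.det| := abs_pos.2 hBdet
  set s : ℝ := |B.det| ^ (1 / 4 : ℝ) with hs
  have hspos : 0 < s := Real.rpow_pos_of_pos hBpos _
  have hs4 : s ^ 4 = |B.det| := by
    rw [hs, ← Real.rpow_natCast, ← Real.rpow_mul hBpos.le]
    norm_num
  have hs2 : s ^ 2 = H.det ^ (1 / 4 : ℝ) := by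
    have e : H.det = |B.det| ^ (2 : ℝ) := by
      rw [hdet, ← sq_abs]; norm_cast
    rw [e, ← Real.rpow_mul hBpos.le, hs, ← Real.rpow_natCast, ← Real.rpow_mul hBpos.le]
    norm_num
  obtain ⟨z, hz0, hz⟩ := mink_lin B hBdet hspos hs4.ge
  refine ⟨z, hz0, ?_⟩
  set v : Fin 4 → ℝ := fun j => (z j : ℝ) with hv
  have e : v ⬝ᵥ (H *ᵥ v) = ∑ i, (B *ᵥ v) i ^ 2 := by
    rw [hB, ← Matrix.mulVec_mulVec, Matrix.dotProduct_mulVec, Matrix.vecMul_transpose]
    simp only [dotProduct, sq]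
  rw [e, ← hs2]
  calc ∑ i, (B *ᵥ v) i ^ 2 ≤ ∑ _i : Fin 4, s ^ 2 := by
        refine Finset.sum_le_sum fun i _ => ?_
        rw [← sq_abs]
        exact pow_le_pow_left₀ (abs_nonneg _) (hz i) 2
    _ = 4 * s ^ 2 := by simp

end Pool.Agent.PP5LA
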