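import Mathlib

/-!
# PP5LA, (M2), (M3): the map `Psi`, its Hessian, and the lattice `M(n,r)`
-/

namespace Pool.Agent.PP5LA

open Matrix

section ring
variable {R : Type*} [CommRing R]

/-- `N(s) = s1^2 + B s1 s2 + A C s2^2` -/
def Nq (A B C s1 s2 : R) : R := s1 ^ 2 + B * s1 * s2 + A * C * s2 ^ 2

/-- `T(t) = A t1^2 + B t1 t2 + C t2^2` -/
def Tq (A B C t1 t2 : R) : R := A * t1 ^ 2 + B * t1 * t2 + C * t2 ^ 2

/-- the quadratic form of `H + T` (half of `v ⬝ᵥ HT *ᵥ v`) -/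
def qH (A B C : R) (v : Fin 4 → R) : R := v 0 * v 1 + Tq A B C (v 2) (v 3)

/-- its polar form -/
def bH (A B C : R) (u v : Fin 4 → R) : R :=
  u 0 * v 1 + u 1 * v 0 + (2 * A * u 2 * v 2 + B * (u 2 * v 3 + u 3 * v 2) + 2 * C * u 3 * v 3)

/-- the parametrisation of the zeros -/
def Psi (A B C : R) (z : Fin 4 → R) : Fin 4 → R :=
  ![Nq A B C (z 0) (z 1), -Tq A B C (z 2) (z 3),
    z 0 * z 2 + B * z 1 * z 2 + C * z 1 * z 3, z 0 * z 3 - A * z 1 * z 2]

theorem qH_Psi (A B C : R) (z : Fin 4 → R) : qH A B C (Psi A B C z) = 0 := by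
  simp [qH, Psi, Nq, Tq]; ring

/-- `T(w) = N(s) T(t)` -/
theorem Tq_w (A B C : R) (z : Fin 4 → R) :
    Tq A B C (Psi A B C z 2) (Psi A B C z 3) = Nq A B C (z 0) (z 1) * Tq A B C (z 2) (z 3) := by
  simp [Psi, Nq, Tq]; ring

theorem bH_self (A B C : R) (v : Fin 4 → R) : bH A B C v v = 2 * qH A B C v := by
  simp [bH, qH, Tq]; ring

theorem bH_smul (A B C c : R) (u v : Fin 4 → R) : bH A B C u (c • v) = c * bH A B C u v := by
  simp [bH]; ring

theorem qH_smul (A B C c : R) (v : Fin 4 → R) : qH A B C (c • v) = c ^ 2 * qH A B C v := by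
  simp [qH, Tq]; ring

/-- the Hessian of `z ↦ b(τ, Psi z)` -/
def Hes (A B C : R) (u : Fin 4 → R) : Matrix (Fin 4) (Fin 4) R :=
  !![2 * u 1, u 1 * B, 2 * A * u 2 + B * u 3, B * u 2 + 2 * C * u 3;
     u 1 * B, 2 * u 1 * A * C, (2 * A * u 2 + B * u 3) * B - A * (B * u 2 + 2 * C * u 3),
       (2 * A * u 2 + B * u 3) * C;
     2 * A * u 2 + B * u 3, (2 * A * u 2 + B * u 3) * B - A * (B * u 2 + 2 * C * u 3),
       -(2 * u 0 * A), -(u 0 * B);
     B * u 2 + 2 * C * u 3, (2 * A * u 2 + B * u 3) * C, -(u 0 * B), -(2 * u 0 * C)]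

theorem Hes_quad (A B C : R) (u z : Fin 4 → R) :
    z ⬝ᵥ (Hes A B C u *ᵥ z) = 2 * bH A B C u (Psi A B C z) := by
  simp [Hes, bH, Psi, Nq, Tq, dotProduct, mulVec, Fin.sum_univ_four]
  ring

theorem Hes_symm (A B C : R) (u : Fin 4 → R) : (Hes A B C u)ᵀ = Hes A B C u := by
  ext i j
  fin_cases i <;> fin_cases j <;> simp [Hes]

theorem Hes_det (A B C : R) (u : Fin 4 → R) :
    (Hes A B C u).det = (B ^ 2 - 4 * A * C) ^ 2 * (qH A B C u) ^ 2 := by
  simp [Hes, qH, Tq, Matrix.det_succ_row_zero, Fin.sum_univ_succ, Fin.succAbove]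
  ring

/-- basis matrix of `M(n,r)` (`a * A = 1` modulo `n`) -/
def Mb (n r a : R) : Matrix (Fin 4) (Fin 4) R :=
  !![-r, n, 0, 0; 1, 0, 0, 0; 0, 0, -(a * r), n; 0, 0, 1, 0]

theorem Mb_det (n r a : R) : (Mb n r a).det = n ^ 2 := by
  simp [Mb, Matrix.det_succ_row_zero, Fin.sum_univ_succ, Fin.succAbove]
  ring

end ring

/-- membership in `M(n,r)` -/
def InM (A n r : ℤ) (z : Fin 4 → ℤ) : Prop := n ∣ z 0 + r * z 1 ∧ n ∣ A * z 2 + r * z 3

theorem InM_Mb {A n r a : ℤ} (ha : n ∣ a * A - 1) (y : Fin 4 → ℤ) :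
    InM A n r (Mb n r a *ᵥ y) := by
  obtain ⟨c, hc⟩ := ha
  constructor
  · refine ⟨y 1, ?_⟩
    simp [Mb, mulVec, dotProduct, Fin.sum_univ_four]
  · refine ⟨A * y 3 - r * c * y 2, ?_⟩
    simp [Mb, mulVec, dotProduct, Fin.sum_univ_four]
    linear_combination (-(r * y 2)) * hc

/-- `Psi (M(n,r)) ⊆ n ℤ⁴` -/
theorem Psi_dvd {A B C n r : ℤ} (hA : IsCoprime A n) (hr : n ∣ r ^ 2 - B * r + A * C)
    {z : Fin 4 → ℤ} (hz : InM A n r z) (i : Fin 4) : n ∣ Psi A B C z i := by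
  obtain ⟨⟨c, hc⟩, ⟨d, hd⟩⟩ := hz
  obtain ⟨e, he⟩ := hr
  have hc' : z 0 = n * c - r * z 1 := by linarith
  fin_cases i
  · refine ⟨n * c ^ 2 - 2 * r * c * z 1 + B * c * z 1 + e * z 1 ^ 2, ?_⟩
    simp [Psi, Nq]
    rw [hc']
    linear_combination (z 1 ^ 2) * he
  · apply hA.symm.dvd_of_dvd_mul_left
    refine ⟨-(n * d ^ 2 - 2 * r * d * z 3 + B * d * z 3 + e * z 3 ^ 2), ?_⟩
    simp [Psi, Tq]
    linear_combination (-(z 3 ^ 2)) * he -
      (A * z 2 + r * z 3 + n * d - 2 * r * z 3 + B * z 3) * hd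
  · apply hA.symm.dvd_of_dvd_mul_left
    refine ⟨c * (A * z 2) + B * z 1 * d + e * z 1 * z 3 - r * z 1 * d, ?_⟩
    simp [Psi]
    rw [hc']
    linear_combination (z 1 * z 3) * he + (B * z 1 - r * z 1) * hd
  · refine ⟨c * z 3 - z 1 * d, ?_⟩
    simp [Psi]
    rw [hc']
    linear_combination (-(z 1)) * hd

/-! ## positivity -/

theorem Nq_nonneg {A B C : ℝ} (hD : B ^ 2 - 4 * A * C < 0) (s1 s2 : ℝ) : 0 ≤ Nq A B C s1 s2 := by
  have e : 4 * Nq A B C s1 s2 = (2 * s1 + B * s2) ^ 2 + (4 * A * C - B ^ 2) * s2 ^ 2 := by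
    unfold Nq; ring
  have h2 : 0 ≤ (4 * A * C - B ^ 2) * s2 ^ 2 := mul_nonneg (by linarith) (sq_nonneg _)
  have h3 := sq_nonneg (2 * s1 + B * s2)
  linarith

theorem Nq_pos {A B C : ℝ} (hD : B ^ 2 - 4 * A * C < 0) {s1 s2 : ℝ} (h : s1 ≠ 0 ∨ s2 ≠ 0) :
    0 < Nq A B C s1 s2 := by
  have e : 4 * Nq A B C s1 s2 = (2 * s1 + B * s2) ^ 2 + (4 * A * C - B ^ 2) * s2 ^ 2 := by
    unfold Nq; ring
  have hD' : 0 < 4 * A * C - B ^ 2 := by linarith
  by_cases h2 : s2 = 0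
  · have h1 : s1 ≠ 0 := h.resolve_right (fun h => h h2)
    rw [h2] at e ⊢
    have : 0 < s1 ^ 2 := by positivity
    nlinarith
  · have h3 : 0 < (4 * A * C - B ^ 2) * s2 ^ 2 := by positivity
    have h4 := sq_nonneg (2 * s1 + B * s2)
    linarith

theorem Tq_nonneg {A B C : ℝ} (hA : 0 < A) (hD : B ^ 2 - 4 * A * C < 0) (t1 t2 : ℝ) :
    0 ≤ Tq A B C t1 t2 := by
  have e : A * (4 * Tq A B C t1 t2) = (2 * A * t1 + B * t2) ^ 2 + (4 * A * C - B ^ 2) * t2 ^ 2 := by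
    unfold Tq; ring
  have h2 : 0 ≤ (4 * A * C - B ^ 2) * t2 ^ 2 := mul_nonneg (by linarith) (sq_nonneg _)
  have h3 := sq_nonneg (2 * A * t1 + B * t2)
  have h4 : 0 ≤ A * (4 * Tq A B C t1 t2) := by linarith
  have h5 := nonneg_of_mul_nonneg_right h4 hA
  linarith

theorem Tq_pos {A B C : ℝ} (hA : 0 < A) (hD : B ^ 2 - 4 * A * C < 0) {t1 t2 : ℝ}
    (h : t1 ≠ 0 ∨ t2 ≠ 0) : 0 < Tq A B C t1 t2 := by
  have e : A * (4 * Tq A B C t1 t2) = (2 * A * t1 + B * t2) ^ 2 + (4 * A * C - B ^ 2) * t2 ^ 2 := by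
    unfold Tq; ring
  have hD' : 0 < 4 * A * C - B ^ 2 := by linarith
  have h6 : 0 < A * (4 * Tq A B C t1 t2) := by
    by_cases h2 : t2 = 0
    · have h1 : t1 ≠ 0 := h.resolve_right (fun h => h h2)
      rw [e, h2]
      have : 0 < (2 * A * t1) ^ 2 := by positivity
      nlinarith
    · have h3 : 0 < (4 * A * C - B ^ 2) * t2 ^ 2 := by positivity
      have h4 := sq_nonneg (2 * A * t1 + B * t2)
      linarith
  have h5 := (mul_pos_iff_of_pos_left hA).1 h6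
  linarith

/-- `h_τ` is positive definite for `τ` time-like, `τ 1 > 0` -/
theorem bH_Psi_pos {A B C : ℝ} (hA : 0 < A) (hD : B ^ 2 - 4 * A * C < 0) {u : Fin 4 → ℝ}
    (hq : qH A B C u < 0) (hu : 0 < u 1) {z : Fin 4 → ℝ} (hz : z ≠ 0) :
    0 < bH A B C u (Psi A B C z) := by
  set N := Nq A B C (z 0) (z 1) with hN
  set T := Tq A B C (z 2) (z 3) with hT
  set w1 := Psi A B C z 2 with hw1
  set w2 := Psi A B C z 3 with hw2
  set W := 2 * A * u 2 * w1 + B * (u 2 * w2 + u 3 * w1) + 2 * C * u 3 * w2 with hW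
  set Ta := Tq A B C (u 2) (u 3) with hTa
  have hTw : Tq A B C w1 w2 = N * T := Tq_w A B C z
  have hcs : W ^ 2 ≤ 4 * Ta * (N * T) := by
    rw [← hTw, hTa, hW]
    have e : 4 * Tq A B C (u 2) (u 3) * Tq A B C w1 w2 -
        (2 * A * u 2 * w1 + B * (u 2 * w2 + u 3 * w1) + 2 * C * u 3 * w2) ^ 2 =
        (4 * A * C - B ^ 2) * (u 2 * w2 - u 3 * w1) ^ 2 := by
      unfold Tq; ring
    have h2 : 0 ≤ (4 * A * C - B ^ 2) * (u 2 * w2 - u 3 * w1) ^ 2 :=
      mul_nonneg (by linarith) (sq_nonneg _)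
    linarith
  have hTa0 : 0 ≤ Ta := Tq_nonneg hA hD _ _
  have hqe : qH A B C u = u 0 * u 1 + Ta := rfl
  have hu0 : u 0 < 0 := by
    by_contra h
    push Not at h
    have := mul_nonneg h hu.le
    linarith
  have hN0 : 0 ≤ N := Nq_nonneg hD _ _
  have hT0 : 0 ≤ T := Tq_nonneg hA hD _ _
  have hNT : 0 < N ∨ 0 < T := by
    by_cases h : z 0 ≠ 0 ∨ z 1 ≠ 0
    · exact Or.inl (Nq_pos hD h)
    · push Not at h
      right
      apply Tq_pos hA hD
      by_contra h2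
      push Not at h2
      apply hz
      funext i
      fin_cases i
      · exact h.1
      · exact h.2
      · exact h2.1
      · exact h2.2
  have he : bH A B C u (Psi A B C z) = (u 1 * N + (-(u 0)) * T) + W := by
    have h0 : Psi A B C z 0 = N := rfl
    have h1 : Psi A B C z 1 = -T := rfl
    simp only [bH, h0, h1, ← hw1, ← hw2]
    rw [hW]; ring
  have hpos : 0 < u 1 * N + (-(u 0)) * T := by
    rcases hNT with h | h
    · have h1 := mul_pos hu h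
      have h2 := mul_nonneg (neg_pos.2 hu0).le hT0
      linarith
    · have h1 := mul_nonneg hu.le hN0
      have h2 := mul_pos (neg_pos.2 hu0) h
      linarith
  have hsq : W ^ 2 < (u 1 * N + (-(u 0)) * T) ^ 2 := by
    have e : (u 1 * N + (-(u 0)) * T) ^ 2 - 4 * Ta * (N * T) =
        4 * (N * T) * (-(qH A B C u)) + (u 1 * N - (-(u 0)) * T) ^ 2 := by
      rw [hqe]; ring
    have h3 : 0 < 4 * (N * T) * (-(qH A B C u)) + (u 1 * N - (-(u 0)) * T) ^ 2 := by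
      by_cases h4 : 0 < N * T
      · have := mul_pos (mul_pos (by norm_num : (0 : ℝ) < 4) h4) (neg_pos.2 hq)
        have := sq_nonneg (u 1 * N - (-(u 0)) * T)
        linarith
      · have h5 : N * T = 0 := le_antisymm (not_lt.1 h4) (mul_nonneg hN0 hT0)
        rw [h5, mul_zero, zero_mul, zero_add]
        have h6 : u 1 * N - (-(u 0)) * T ≠ 0 := by
          rcases mul_eq_zero.1 h5 with h | h
          · rw [h] at hNT ⊢
            have hT' := hNT.resolve_left (lt_irrefl _)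
            have := mul_pos (neg_pos.2 hu0) hT'
            rw [mul_zero, zero_sub]
            exact neg_ne_zero.2 this.ne'
          · rw [h] at hNT ⊢
            have hN' := hNT.resolve_right (lt_irrefl _)
            have := mul_pos hu hN'
            rw [mul_zero, sub_zero]
            exact this.ne'
        positivity
    linarith
  have h7 := abs_lt_of_sq_lt_sq hsq hpos.le
  rw [he]
  linarith [(abs_lt.1 h7).1]

end Pool.Agent.PP5LA
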