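import Pool.Agent.PP5LA.MA
import Pool.Agent.PP5LA.MB
import Pool.Agent.PP5LC.TrG

/-!
# PP5LA, (M4): every seed `(n, r)` and every time-like `τ` give a primitive zero
-/

namespace Pool.Agent.PP5LA

open Matrix Pool.Agent.PP5LC

/-- the cast of an integral vector -/
def rc (v : Fin 4 → ℤ) : Fin 4 → ℝ := fun i => (v i : ℝ)

theorem Psi_rc (A B C : ℤ) (z : Fin 4 → ℤ) :
    Psi (A : ℝ) B C (rc z) = rc (Psi A B C z) := by
  funext i
  fin_cases i <;> simp [Psi, Nq, Tq, rc]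

theorem rc_mulVec (M : Matrix (Fin 4) (Fin 4) ℤ) (y : Fin 4 → ℤ) :
    rc (M *ᵥ y) = (M.map (Int.cast : ℤ → ℝ)) *ᵥ rc y := by
  funext i
  simp [rc, mulVec, dotProduct]

/-- a nonzero vector is a positive multiple of a primitive one -/
theorem prim_pos {v : Fin 4 → ℤ} (hv : v ≠ 0) :
    ∃ (k : ℤ) (w : Fin 4 → ℤ), 0 < k ∧ v = k • w ∧ Prim w := by
  obtain ⟨c, w, hc, hcw, hw⟩ := prim_part hv
  rcases lt_or_gt_of_ne hc with h | h
  · refine ⟨-c, -w, by omega, by rw [hcw]; simp, ?_⟩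
    intro p hp
    obtain ⟨j, hj⟩ := hw p hp
    exact ⟨j, by simpa using hj⟩
  · exact ⟨c, w, h, hcw, hw⟩

theorem seed_zero {A B C : ℤ} (hA : 0 < A) (hD : B ^ 2 - 4 * A * C < 0) {n r : ℤ} (hn : 0 < n)
    (hAn : IsCoprime A n) (hr : n ∣ r ^ 2 - B * r + A * C) {u : Fin 4 → ℝ}
    (hq : qH (A : ℝ) B C u < 0) (hu : 0 < u 1) :
    ∃ (z v : Fin 4 → ℤ) (k : ℤ), z ≠ 0 ∧ InM A n r z ∧ 0 < k ∧ Prim v ∧
      Psi A B C z = (n * k) • v ∧ qH A B C v = 0 ∧ 0 < bH (A : ℝ) B C u (rc v) ∧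
      k * bH (A : ℝ) B C u (rc v) ≤
        2 * √(-((B : ℝ) ^ 2 - 4 * A * C)) * √(-(qH (A : ℝ) B C u)) := by
  have hAr : (0 : ℝ) < A := by exact_mod_cast hA
  have hDr : (B : ℝ) ^ 2 - 4 * A * C < 0 := by exact_mod_cast hD
  have hnr : (0 : ℝ) < n := by exact_mod_cast hn
  set D : ℝ := (B : ℝ) ^ 2 - 4 * A * C with hDdef
  set q : ℝ := qH (A : ℝ) B C u with hqdef
  obtain ⟨a, c, hac⟩ := hAn
  have haA : n ∣ a * A - 1 := ⟨-c, by linear_combination hac⟩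
  set H : Matrix (Fin 4) (Fin 4) ℝ := (1 / 2 : ℝ) • Hes (A : ℝ) B C u with hH
  set M : Matrix (Fin 4) (Fin 4) ℤ := Mb n r a with hM
  set Mr : Matrix (Fin 4) (Fin 4) ℝ := M.map (Int.cast : ℤ → ℝ) with hMr
  have hMd : M.det = n ^ 2 := Mb_det n r a
  have hMrd : Mr.det = (n : ℝ) ^ 2 := by
    have e : Mr.det = ((M.det : ℤ) : ℝ) := by
      exact (RingHom.map_det (Int.castRingHom ℝ) M).symm
    rw [e, hMd]; push_cast; ring
  have hquad : ∀ x : Fin 4 → ℝ, x ⬝ᵥ (H *ᵥ x) = bH (A : ℝ) B C u (Psi (A : ℝ) B C x) := by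
    intro x
    rw [hH, Matrix.smul_mulVec, dotProduct_smul, Hes_quad, smul_eq_mul]
    ring
  have hHs : Hᵀ = H := by rw [hH, Matrix.transpose_smul, Hes_symm]
  set H' : Matrix (Fin 4) (Fin 4) ℝ := Mrᵀ * H * Mr with hH'
  have hquad' : ∀ x : Fin 4 → ℝ, x ⬝ᵥ (H' *ᵥ x) = (Mr *ᵥ x) ⬝ᵥ (H *ᵥ (Mr *ᵥ x)) := by
    intro x
    rw [hH', ← Matrix.mulVec_mulVec, ← Matrix.mulVec_mulVec, Matrix.dotProduct_mulVec,
      Matrix.vecMul_transpose]
  have hMrne : Mr.det ≠ 0 := by rw [hMrd]; positivity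
  have hPD : H'.PosDef := by
    refine Matrix.PosDef.of_dotProduct_mulVec_pos ?_ ?_
    · rw [Matrix.IsHermitian, Matrix.conjTranspose_eq_transpose_of_trivial, hH',
        Matrix.transpose_mul, Matrix.transpose_mul, Matrix.transpose_transpose, hHs,
        Matrix.mul_assoc]
    · intro x hx
      have e : star x = x := by funext i; simp
      rw [e, hquad', hquad]
      apply bH_Psi_pos hAr hDr hq hu
      intro h0
      exact hx (Matrix.eq_zero_of_mulVec_eq_zero hMrne h0)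
  obtain ⟨y, hy0, hy⟩ := mink4 H' hPD
  set z : Fin 4 → ℤ := M *ᵥ y with hz
  have hMne : M.det ≠ 0 := by rw [hMd]; positivity
  have hz0 : z ≠ 0 := fun h0 => hy0 (Matrix.eq_zero_of_mulVec_eq_zero hMne h0)
  have hzM : InM A n r z := InM_Mb haA y
  have hyr : (fun j => (y j : ℝ)) = rc y := rfl
  have hMy : Mr *ᵥ rc y = rc z := by rw [hz, rc_mulVec]
  have hval : rc y ⬝ᵥ (H' *ᵥ rc y) = bH (A : ℝ) B C u (rc (Psi A B C z)) := by
    rw [hquad', hquad, hMy, Psi_rc]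
  have hrz0 : rc z ≠ 0 := by
    intro h0
    apply hz0
    funext i
    have := congrFun h0 i
    simpa [rc] using this
  have hpos : 0 < bH (A : ℝ) B C u (rc (Psi A B C z)) := by
    rw [← Psi_rc]
    exact bH_Psi_pos hAr hDr hq hu hrz0
  -- the determinant
  have hdetH' : H'.det = ((n : ℝ) * (√(-D) * √(-q)) / 2) ^ 4 := by
    have h1 : H.det = (1 / 2) ^ 4 * (D ^ 2 * q ^ 2) := by
      rw [hH, Matrix.det_smul, Hes_det]
      simp [hDdef, hqdef]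
    have h2 : √(-D) ^ 2 = -D := Real.sq_sqrt (by linarith)
    have h3 : √(-q) ^ 2 = -q := Real.sq_sqrt (by linarith)
    rw [hH', Matrix.det_mul, Matrix.det_mul, Matrix.det_transpose, hMrd, h1]
    have e : ((n : ℝ) * (√(-D) * √(-q)) / 2) ^ 4 =
        (n : ℝ) ^ 4 * ((√(-D) ^ 2) ^ 2 * (√(-q) ^ 2) ^ 2) / 16 := by ring
    rw [e, h2, h3]; ring
  have hroot : H'.det ^ (1 / 4 : ℝ) = (n : ℝ) * (√(-D) * √(-q)) / 2 := by
    have h0 : 0 ≤ (n : ℝ) * (√(-D) * √(-q)) / 2 := by positivity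
    rw [hdetH', ← Real.rpow_natCast, ← Real.rpow_mul h0]
    norm_num
  rw [hyr, hval, hroot] at hy
  -- divide by n
  choose v' hv' using fun i => Psi_dvd (C := C) (⟨a, c, hac⟩ : IsCoprime A n) hr hzM i
  have hPn : Psi A B C z = n • v' := by
    funext i
    rw [Pi.smul_apply, smul_eq_mul]; exact hv' i
  have hv'0 : v' ≠ 0 := by
    rintro rfl
    rw [hPn] at hpos
    have : rc (n • (0 : Fin 4 → ℤ)) = 0 := by funext i; simp [rc]
    rw [this] at hpos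
    have h0 : bH (A : ℝ) B C u 0 = 0 := by simp [bH]
    rw [h0] at hpos
    exact lt_irrefl _ hpos
  obtain ⟨k, v, hk, hkv, hv⟩ := prim_pos hv'0
  have hkr : (0 : ℝ) < k := by exact_mod_cast hk
  have hPk : Psi A B C z = (n * k) • v := by rw [hPn, hkv, smul_smul]
  have hrcs : rc ((n * k) • v) = ((n : ℝ) * k) • rc v := by
    funext i; simp [rc]
  rw [hPk, hrcs, bH_smul] at hpos hy
  have hbpos : 0 < bH (A : ℝ) B C u (rc v) :=
    (mul_pos_iff_of_pos_left (mul_pos hnr hkr)).1 hpos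
  refine ⟨z, v, k, hz0, hzM, hk, hv, hPk, ?_, hbpos, ?_⟩
  · have h1 := qH_Psi A B C z
    rw [hPk, qH_smul] at h1
    exact (mul_eq_zero.1 h1).resolve_left (pow_ne_zero _ (mul_ne_zero hn.ne' hk.ne'))
  · have h1 : (n : ℝ) * (k * bH (A : ℝ) B C u (rc v)) ≤
        (n : ℝ) * (2 * √(-D) * √(-q)) := by
      calc (n : ℝ) * (k * bH (A : ℝ) B C u (rc v)) = (n : ℝ) * k * bH (A : ℝ) B C u (rc v) := by
            ring
        _ ≤ 4 * ((n : ℝ) * (√(-D) * √(-q)) / 2) := hy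
        _ = _ := by ring
    exact le_of_mul_le_mul_left h1 hnr

end Pool.Agent.PP5LA
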