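import Pool.Agent.PP5LA.MC
import Pool.Agent.PP5B.Uni

/-!
# PP5LA, (M5): the seed `(n, r)` and a time-like `τ` give `n = g n1`, primitive `b ∈ M(n1, r)` and a primitive zero
`v` with `Psi b = n1 k0 v` and `|b(τ, v)| g k0 ≤ 2 √(-q(τ)) √|D|`
-/

namespace Pool.Agent.PP5LA

open Matrix Pool.Agent.PP5LC Pool.Agent.PP5B

theorem pr4_iff {v : Fin 4 → ℤ} : Pr4 v ↔ Prim v := by
  constructor
  · intro h p hp
    by_contra hcon
    push Not at hcon
    exact h p hp hcon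
  · intro h p hp hcon
    obtain ⟨j, hj⟩ := h p hp
    exact hj (hcon j)

theorem dvd_of_prim {v : Fin 4 → ℤ} (hv : Prim v) {a m : ℤ} (h : ∀ i, a ∣ m * v i) : a ∣ m := by
  obtain ⟨w, hw⟩ := bezout4 hv
  have h2 : a ∣ m * (v ⬝ᵥ w) := by
    rw [dotProduct, Finset.mul_sum]
    refine Finset.dvd_sum fun i _ => ?_
    rw [← mul_assoc]
    exact Dvd.dvd.mul_right (h i) _
  rwa [hw, mul_one] at h2

theorem Psi_smul (A B C j : ℤ) (z : Fin 4 → ℤ) : Psi A B C (j • z) = (j ^ 2) • Psi A B C z := by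
  funext i
  fin_cases i <;> simp [Psi, Nq, Tq] <;> ring

theorem bH_neg (A B C : ℝ) (u v : Fin 4 → ℝ) : bH A B C (-u) v = -bH A B C u v := by
  simp [bH]; ring

theorem qH_neg (A B C : ℝ) (u : Fin 4 → ℝ) : qH A B C (-u) = qH A B C u := by
  simp [qH, Tq]

theorem cut_pos {A B C : ℤ} (hA : 0 < A) (hD : B ^ 2 - 4 * A * C < 0) {n : ℕ} {r : ℤ}
    (hn : 0 < n) (hAn : IsCoprime A (n : ℤ)) (hr : (n : ℤ) ∣ r ^ 2 - B * r + A * C)
    {u : Fin 4 → ℝ} (hu : 0 < u 1) (hq : qH (A : ℝ) B C u < 0) :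
    ∃ (g n1 k0 : ℕ) (b v : Fin 4 → ℤ), 0 < g ∧ 0 < n1 ∧ 0 < k0 ∧ Pr4 b ∧ Pr4 v ∧ n = g * n1 ∧
      InM A n1 r b ∧ Psi A B C b = ((n1 : ℤ) * k0) • v ∧ qH A B C v = 0 ∧
      |bH (A : ℝ) B C u (rc v)| * (g * k0) ≤
        2 * √(-(qH (A : ℝ) B C u)) * √(4 * (A : ℝ) * C - (B : ℝ) ^ 2) := by
  have hnZ : (0 : ℤ) < n := by exact_mod_cast hn
  obtain ⟨z, v, k, hz0, hzM, hk, hv, hPk, hqv, hb0, hb1⟩ := seed_zero hA hD hnZ hAn hr hq hu
  obtain ⟨j, b, hj, hzb, hb⟩ := prim_pos hz0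
  -- Psi b = m v
  have hPb0 : (j ^ 2) • Psi A B C b = ((n : ℤ) * k) • v := by rw [← Psi_smul, ← hzb, hPk]
  have hj2 : j ^ 2 ∣ (n : ℤ) * k := by
    apply dvd_of_prim hv
    intro i
    have := congrFun hPb0 i
    simp only [Pi.smul_apply, smul_eq_mul] at this
    rw [← this]
    exact dvd_mul_right _ _
  obtain ⟨m, hm⟩ := hj2
  have hj20 : j ^ 2 ≠ 0 := pow_ne_zero _ hj.ne'
  have hPb : Psi A B C b = m • v := by
    rw [hm, ← smul_smul] at hPb0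
    exact smul_right_injective _ hj20 hPb0
  have hmpos : 0 < m := by
    have h1 : 0 < j ^ 2 * m := by rw [← hm]; exact mul_pos hnZ hk
    exact (mul_pos_iff_of_pos_left (by positivity)).1 h1
  -- the gcd
  set g : ℕ := Int.gcd j n with hg
  have hgpos : 0 < g := Int.gcd_pos_of_ne_zero_right _ hnZ.ne'
  obtain ⟨j', hj'⟩ : (g : ℤ) ∣ j := Int.gcd_dvd_left ..
  obtain ⟨n1, hn1⟩ : (g : ℤ) ∣ n := Int.gcd_dvd_right ..
  have hgZ : (0 : ℤ) < g := by exact_mod_cast hgpos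
  have hn1pos : 0 < n1 := by
    have : 0 < (g : ℤ) * n1 := by rw [← hn1]; exact hnZ
    exact (mul_pos_iff_of_pos_left hgZ).1 this
  have hj'pos : 0 < j' := by
    have : 0 < (g : ℤ) * j' := by rw [← hj']; exact hj
    exact (mul_pos_iff_of_pos_left hgZ).1 this
  have hcop : IsCoprime n1 j' := by
    rw [Int.isCoprime_iff_gcd_eq_one]
    have h1 : Int.gcd j n = g * Int.gcd j' n1 := by
      conv_lhs => rw [hj', hn1]
      rw [Int.gcd_mul_left]; simp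
    rw [← hg] at h1
    have h2 : Int.gcd j' n1 = 1 := by
      have : g * 1 = g * Int.gcd j' n1 := by rw [mul_one]; exact h1
      exact (Nat.eq_of_mul_eq_mul_left hgpos this).symm
    rw [Int.gcd_comm]; exact h2
  -- b ∈ M(n1, r)
  have hMb : InM A n1 r b := by
    obtain ⟨h1, h2⟩ := hzM
    rw [hzb] at h1 h2
    simp only [Pi.smul_apply, smul_eq_mul] at h1 h2
    constructor
    · have h3 : (g : ℤ) * n1 ∣ (g : ℤ) * (j' * (b 0 + r * b 1)) := by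
        rw [← hn1]
        have e : (g : ℤ) * (j' * (b 0 + r * b 1)) = j * b 0 + r * (j * b 1) := by
          rw [hj']; ring
        rw [e]; exact h1
      exact hcop.dvd_of_dvd_mul_left ((mul_dvd_mul_iff_left hgZ.ne').1 h3)
    · have h3 : (g : ℤ) * n1 ∣ (g : ℤ) * (j' * (A * b 2 + r * b 3)) := by
        rw [← hn1]
        have e : (g : ℤ) * (j' * (A * b 2 + r * b 3)) = A * (j * b 2) + r * (j * b 3) := by
          rw [hj']; ring
        rw [e]; exact h2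
      exact hcop.dvd_of_dvd_mul_left ((mul_dvd_mul_iff_left hgZ.ne').1 h3)
  have hAn1 : IsCoprime A n1 := by
    rw [hn1] at hAn
    exact hAn.of_mul_right_right
  have hrn1 : n1 ∣ r ^ 2 - B * r + A * C := dvd_trans ⟨g, by rw [hn1]; ring⟩ hr
  have hn1m : n1 ∣ m := by
    apply dvd_of_prim hv
    intro i
    have h1 := Psi_dvd (B := B) (C := C) hAn1 hrn1 hMb i
    rw [hPb, Pi.smul_apply, smul_eq_mul] at h1
    exact h1
  obtain ⟨k0, hk0⟩ := hn1m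
  have hk0pos : 0 < k0 := by
    rw [hk0] at hmpos
    exact (mul_pos_iff_of_pos_left hn1pos).1 hmpos
  have hkk : k = g * j' ^ 2 * k0 := by
    have h1 : (g : ℤ) * n1 * k = (g : ℤ) * n1 * (g * j' ^ 2 * k0) := by
      rw [← hn1, hm, hk0, hj', hn1]; ring
    exact mul_left_cancel₀ (mul_ne_zero hgZ.ne' hn1pos.ne') h1
  lift n1 to ℕ using hn1pos.le
  lift k0 to ℕ using hk0pos.le
  refine ⟨g, n1, k0, b, v, hgpos, by exact_mod_cast hn1pos, by exact_mod_cast hk0pos,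
    pr4_iff.2 hb, pr4_iff.2 hv, by exact_mod_cast hn1, hMb, ?_, hqv, ?_⟩
  · rw [hPb, hk0]
  · rw [abs_of_pos hb0]
    have h1 : (g : ℝ) * k0 ≤ k := by
      have h2 : (g : ℤ) * k0 ≤ k := by
        rw [hkk]
        have h3 : 1 ≤ j' ^ 2 := by nlinarith
        have h4 : 0 < (g : ℤ) * k0 := mul_pos hgZ hk0pos
        nlinarith
      exact_mod_cast h2
    calc bH (A : ℝ) B C u (rc v) * (g * k0) ≤ bH (A : ℝ) B C u (rc v) * k :=
          mul_le_mul_of_nonneg_left h1 hb0.le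
      _ = k * bH (A : ℝ) B C u (rc v) := by ring
      _ ≤ 2 * √(-((B : ℝ) ^ 2 - 4 * A * C)) * √(-(qH (A : ℝ) B C u)) := hb1
      _ = _ := by
        have e : -((B : ℝ) ^ 2 - 4 * A * C) = 4 * (A : ℝ) * C - (B : ℝ) ^ 2 := by ring
        rw [e]; ring

/-- the form of helper26 (`8` replaced by `2`) -/
theorem cut {A B C : ℤ} (hA : 0 < A) (hD : B ^ 2 - 4 * A * C < 0) {n : ℕ} {r : ℤ}
    (hn : 0 < n) (hAn : IsCoprime A (n : ℤ)) (hr : (n : ℤ) ∣ r ^ 2 - B * r + A * C)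
    {u : Fin 4 → ℝ} (hu : u 1 ≠ 0) (hq : qH (A : ℝ) B C u < 0) :
    ∃ (g n1 k0 : ℕ) (b v : Fin 4 → ℤ), 0 < g ∧ 0 < n1 ∧ 0 < k0 ∧ Pr4 b ∧ Pr4 v ∧ n = g * n1 ∧
      InM A n1 r b ∧ Psi A B C b = ((n1 : ℤ) * k0) • v ∧ qH A B C v = 0 ∧
      |bH (A : ℝ) B C u (rc v)| * (g * k0) ≤
        2 * √(-(qH (A : ℝ) B C u)) * √(4 * (A : ℝ) * C - (B : ℝ) ^ 2) := by
  rcases lt_or_gt_of_ne hu with h | h
  · obtain ⟨g, n1, k0, b, v, h1, h2, h3, h4, h5, h6, h7, h8, h9, h10⟩ :=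
      cut_pos (u := -u) hA hD hn hAn hr (by simpa using h) (by rw [qH_neg]; exact hq)
    refine ⟨g, n1, k0, b, v, h1, h2, h3, h4, h5, h6, h7, h8, h9, ?_⟩
    rw [bH_neg, abs_neg, qH_neg] at h10
    exact h10
  · exact cut_pos hA hD hn hAn hr h hq

end Pool.Agent.PP5LA
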