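import Pool.Agent.PP5LA.MD

/-!
# PP5LA, (P2): two vectors `b, b'` with `Psi b = m v`, `Psi b' = m' v`: the index
-/

namespace Pool.Agent.PP5LA

open Matrix Pool.Agent.PP5LC Pool.Agent.PP5B

section id
variable {R : Type*} [CommRing R]

/-- Plücker coordinate -/
def pl (b b' : Fin 4 → R) (i j : Fin 4) : R := b i * b' j - b j * b' i

theorem id_R1 (A B C : R) (b b' : Fin 4 → R) :
    Nq A B C (b 0) (b 1) * Nq A B C (b' 0) (b' 1) * (pl b b' 0 2 - C * pl b b' 1 3) =
      (b 0 * b' 0 - A * C * b 1 * b' 1) *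
        (Nq A B C (b 0) (b 1) * Psi A B C b' 2 - Nq A B C (b' 0) (b' 1) * Psi A B C b 2) -
      C * (b 0 * b' 1 + b 1 * b' 0 + B * b 1 * b' 1) *
        (Nq A B C (b 0) (b 1) * Psi A B C b' 3 - Nq A B C (b' 0) (b' 1) * Psi A B C b 3) := by
  simp [Nq, pl, Psi]; ring

theorem id_R2 (A B C : R) (b b' : Fin 4 → R) :
    Nq A B C (b 0) (b 1) * Nq A B C (b' 0) (b' 1) *
        (pl b b' 0 3 + A * pl b b' 1 2 + B * pl b b' 1 3) =
      (b 0 * b' 0 - A * C * b 1 * b' 1) *
        (Nq A B C (b 0) (b 1) * Psi A B C b' 3 - Nq A B C (b' 0) (b' 1) * Psi A B C b 3) +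
      A * (b 0 * b' 1 + b 1 * b' 0 + B * b 1 * b' 1) *
        (Nq A B C (b 0) (b 1) * Psi A B C b' 2 - Nq A B C (b' 0) (b' 1) * Psi A B C b 2) +
      B * (b 0 * b' 1 + b 1 * b' 0 + B * b 1 * b' 1) *
        (Nq A B C (b 0) (b 1) * Psi A B C b' 3 - Nq A B C (b' 0) (b' 1) * Psi A B C b 3) := by
  simp [Nq, pl, Psi]; ring

theorem id_P1 (A B C : R) (b b' : Fin 4 → R) :
    A * (Nq A B C (b 0) (b 1) * pl b b' 2 3 - Tq A B C (b 2) (b 3) * pl b b' 0 1) =
      ((b 0 + B * b 1) * (A * b 2 + B * b 3) - A * C * b 1 * b 3) *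
        (pl b b' 0 3 + A * pl b b' 1 2 + B * pl b b' 1 3) -
      A * (b 0 * b 3 + A * b 1 * b 2 + B * b 1 * b 3) * (pl b b' 0 2 - C * pl b b' 1 3) -
      B * (b 0 * b 3 + A * b 1 * b 2 + B * b 1 * b 3) *
        (pl b b' 0 3 + A * pl b b' 1 2 + B * pl b b' 1 3) := by
  simp [Nq, Tq, pl]; ring

theorem id_P2 (A B C : R) (b b' : Fin 4 → R) :
    Nq A B C (b 0) (b 1) * pl b b' 1 2 + pl b b' 0 1 * Psi A B C b 2 =
      b 1 * ((b 0 + B * b 1) * (pl b b' 0 2 - C * pl b b' 1 3) +
        C * b 1 * (pl b b' 0 3 + A * pl b b' 1 2 + B * pl b b' 1 3)) := by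
  simp [Nq, pl, Psi]; ring

theorem id_P3 (A B C : R) (b b' : Fin 4 → R) :
    Nq A B C (b 0) (b 1) * pl b b' 1 3 + pl b b' 0 1 * Psi A B C b 3 =
      b 1 * (b 0 * (pl b b' 0 3 + A * pl b b' 1 2 + B * pl b b' 1 3) -
        b 1 * (A * (pl b b' 0 2 - C * pl b b' 1 3))) := by
  simp [Nq, pl, Psi]; ring

theorem id_N (A B C : R) (b b' : Fin 4 → R) :
    4 * (Nq A B C (b 0) (b 1) * Nq A B C (b' 0) (b' 1)) -
      (2 * b 0 * b' 0 + B * (b 0 * b' 1 + b 1 * b' 0) + 2 * A * C * b 1 * b' 1) ^ 2 =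
      (4 * A * C - B ^ 2) * (pl b b' 0 1) ^ 2 := by
  simp [Nq, pl]; ring

theorem id_T (A B C : R) (b b' : Fin 4 → R) :
    4 * (Tq A B C (b 2) (b 3) * Tq A B C (b' 2) (b' 3)) -
      (2 * A * b 2 * b' 2 + B * (b 2 * b' 3 + b 3 * b' 2) + 2 * C * b 3 * b' 3) ^ 2 =
      (4 * A * C - B ^ 2) * (pl b b' 2 3) ^ 2 := by
  simp [Tq, pl]; ring

end id

theorem Nq_eq_zero {A B C : ℤ} (hD : B ^ 2 - 4 * A * C < 0) {s1 s2 : ℤ}
    (h : Nq A B C s1 s2 = 0) : s1 = 0 ∧ s2 = 0 := by
  have hDr : (B : ℝ) ^ 2 - 4 * A * C < 0 := by exact_mod_cast hD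
  by_contra hcon
  have h2 : (s1 : ℝ) ≠ 0 ∨ (s2 : ℝ) ≠ 0 := by
    by_contra h3
    push Not at h3
    apply hcon
    exact ⟨by exact_mod_cast h3.1, by exact_mod_cast h3.2⟩
  have h4 := Nq_pos hDr h2
  have h5 : Nq (A : ℝ) B C s1 s2 = ((Nq A B C s1 s2 : ℤ) : ℝ) := by simp [Nq]
  rw [h5, h] at h4
  simp at h4

/-- (R1), (R2): the relations among the Plücker coordinates -/
theorem rel {A B C : ℤ} (hD : B ^ 2 - 4 * A * C < 0) {b b' v : Fin 4 → ℤ} {m m' : ℤ}
    (hb : Psi A B C b = m • v) (hb' : Psi A B C b' = m' • v) :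
    pl b b' 0 2 - C * pl b b' 1 3 = 0 ∧ pl b b' 0 3 + A * pl b b' 1 2 + B * pl b b' 1 3 = 0 := by
  have e0 : Nq A B C (b 0) (b 1) = m * v 0 := by
    have := congrFun hb 0; simpa [Psi] using this
  have e0' : Nq A B C (b' 0) (b' 1) = m' * v 0 := by
    have := congrFun hb' 0; simpa [Psi] using this
  have e2 : Psi A B C b 2 = m * v 2 := by rw [hb]; rfl
  have e3 : Psi A B C b 3 = m * v 3 := by rw [hb]; rfl
  have e2' : Psi A B C b' 2 = m' * v 2 := by rw [hb']; rfl
  have e3' : Psi A B C b' 3 = m' * v 3 := by rw [hb']; rfl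
  by_cases hN : Nq A B C (b 0) (b 1) * Nq A B C (b' 0) (b' 1) = 0
  · have hs : ∀ c c' : Fin 4 → ℤ, Nq A B C (c 0) (c 1) = 0 → c 0 = 0 ∧ c 1 = 0 := fun c _ h =>
      Nq_eq_zero hD h
    -- both vanish
    have hboth : Nq A B C (b 0) (b 1) = 0 ∧ Nq A B C (b' 0) (b' 1) = 0 ∨
        (b = 0 ∨ b' = 0) := by
      rcases mul_eq_zero.1 hN with h | h
      · by_cases hv0 : v 0 = 0
        · left; exact ⟨h, by rw [e0', hv0, mul_zero]⟩
        · right; left
          rw [e0] at h
          have hm : m = 0 := (mul_eq_zero.1 h).resolve_right hv0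
          have h1 := Nq_eq_zero hD (by rw [e0, hm, zero_mul] : Nq A B C (b 0) (b 1) = 0)
          have h2 : Tq A B C (b 2) (b 3) = 0 := by
            have := congrFun hb 1
            simp [Psi, hm] at this
            exact this
          have h3 : b 2 = 0 ∧ b 3 = 0 := by
            have h4 : Nq A B C (A * b 2) (b 3) = 0 := by
              have e : Nq A B C (A * b 2) (b 3) = A * Tq A B C (b 2) (b 3) := by
                unfold Nq Tq; ring
              rw [e, h2, mul_zero]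
            have h5 := Nq_eq_zero hD h4
            refine ⟨?_, h5.2⟩
            rcases mul_eq_zero.1 h5.1 with h6 | h6
            · exfalso; rw [h6] at hD; nlinarith [sq_nonneg B]
            · exact h6
          funext i
          fin_cases i
          · exact h1.1
          · exact h1.2
          · exact h3.1
          · exact h3.2
      · by_cases hv0 : v 0 = 0
        · left; exact ⟨by rw [e0, hv0, mul_zero], h⟩
        · right; right
          rw [e0'] at h
          have hm : m' = 0 := (mul_eq_zero.1 h).resolve_right hv0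
          have h1 := Nq_eq_zero hD (by rw [e0', hm, zero_mul] : Nq A B C (b' 0) (b' 1) = 0)
          have h2 : Tq A B C (b' 2) (b' 3) = 0 := by
            have := congrFun hb' 1
            simp [Psi, hm] at this
            exact this
          have h3 : b' 2 = 0 ∧ b' 3 = 0 := by
            have h4 : Nq A B C (A * b' 2) (b' 3) = 0 := by
              have e : Nq A B C (A * b' 2) (b' 3) = A * Tq A B C (b' 2) (b' 3) := by
                unfold Nq Tq; ring
              rw [e, h2, mul_zero]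
            have h5 := Nq_eq_zero hD h4
            refine ⟨?_, h5.2⟩
            rcases mul_eq_zero.1 h5.1 with h6 | h6
            · exfalso; rw [h6] at hD; nlinarith [sq_nonneg B]
            · exact h6
          funext i
          fin_cases i
          · exact h1.1
          · exact h1.2
          · exact h3.1
          · exact h3.2
    rcases hboth with ⟨h1, h2⟩ | h | h
    · obtain ⟨h3, h4⟩ := Nq_eq_zero hD h1
      obtain ⟨h5, h6⟩ := Nq_eq_zero hD h2
      constructor <;> simp [pl, h3, h4, h5, h6]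
    · subst h
      constructor <;> simp [pl]
    · subst h
      constructor <;> simp [pl]
  · have hY2 : Nq A B C (b 0) (b 1) * Psi A B C b' 2 - Nq A B C (b' 0) (b' 1) * Psi A B C b 2 = 0 := by
      rw [e0, e0', e2, e2']; ring
    have hY3 : Nq A B C (b 0) (b 1) * Psi A B C b' 3 - Nq A B C (b' 0) (b' 1) * Psi A B C b 3 = 0 := by
      rw [e0, e0', e3, e3']; ring
    constructor
    · have h := id_R1 A B C b b'
      rw [hY2, hY3, mul_zero, mul_zero, sub_zero] at h
      exact (mul_eq_zero.1 h).resolve_left hN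
    · have h := id_R2 A B C b b'
      rw [hY2, hY3, mul_zero, mul_zero, mul_zero, add_zero, add_zero] at h
      exact (mul_eq_zero.1 h).resolve_left hN

/-- the index: `b ∧ b' = I π(v)` -/
theorem index {A B C : ℤ} (hA : A ≠ 0) (hD : B ^ 2 - 4 * A * C < 0) {b b' v : Fin 4 → ℤ} {m m' : ℤ}
    (hv : Prim v) (hm : m ≠ 0) (hb : Psi A B C b = m • v) (hb' : Psi A B C b' = m' • v) :
    ∃ I : ℤ, pl b b' 0 1 = I * v 0 ∧ pl b b' 2 3 = -(I * v 1) ∧ pl b b' 1 2 = -(I * v 2) ∧
      pl b b' 1 3 = -(I * v 3) := by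
  obtain ⟨hR1, hR2⟩ := rel hD hb hb'
  have e0 : Nq A B C (b 0) (b 1) = m * v 0 := by
    have := congrFun hb 0; simpa [Psi] using this
  have e0' : Nq A B C (b' 0) (b' 1) = m' * v 0 := by
    have := congrFun hb' 0; simpa [Psi] using this
  have e1 : Tq A B C (b 2) (b 3) = -(m * v 1) := by
    have := congrFun hb 1
    simp [Psi] at this
    linarith
  have e2 : Psi A B C b 2 = m * v 2 := by rw [hb]; rfl
  have e3 : Psi A B C b 3 = m * v 3 := by rw [hb]; rfl
  -- the relations with index 0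
  have k1 : pl b b' 0 1 * v 1 = -(pl b b' 2 3) * v 0 := by
    have h := id_P1 A B C b b'
    rw [hR1, hR2, mul_zero, mul_zero, mul_zero, sub_zero, sub_zero, e0, e1] at h
    have h2 := (mul_eq_zero.1 h).resolve_left hA
    apply mul_left_cancel₀ hm
    linear_combination h2
  have k2 : pl b b' 0 1 * v 2 = -(pl b b' 1 2) * v 0 := by
    have h := id_P2 A B C b b'
    rw [hR1, hR2, mul_zero, mul_zero, add_zero, mul_zero, e0, e2] at h
    apply mul_left_cancel₀ hm
    linear_combination h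
  have k3 : pl b b' 0 1 * v 3 = -(pl b b' 1 3) * v 0 := by
    have h := id_P3 A B C b b'
    rw [hR1, hR2, mul_zero, mul_zero, mul_zero, sub_zero, mul_zero, e0, e3] at h
    apply mul_left_cancel₀ hm
    linear_combination h
  set P : Fin 4 → ℤ := ![pl b b' 0 1, -(pl b b' 2 3), -(pl b b' 1 2), -(pl b b' 1 3)] with hP
  have hall : ∀ i j, P i * v j = P j * v i := by
    by_cases hv0 : v 0 = 0
    · -- b 0 = b 1 = 0
      obtain ⟨h3, h4⟩ := Nq_eq_zero hD (by rw [e0, hv0, mul_zero] : Nq A B C (b 0) (b 1) = 0)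
      obtain ⟨h5, h6⟩ := Nq_eq_zero hD (by rw [e0', hv0, mul_zero] : Nq A B C (b' 0) (b' 1) = 0)
      have hv2 : v 2 = 0 := by
        have h : Psi A B C b 2 = 0 := by simp [Psi, h3, h4]
        rw [e2] at h
        exact (mul_eq_zero.1 h).resolve_left hm
      have hv3 : v 3 = 0 := by
        have h : Psi A B C b 3 = 0 := by simp [Psi, h3, h4]
        rw [e3] at h
        exact (mul_eq_zero.1 h).resolve_left hm
      have p0 : P 0 = 0 := by simp [hP, pl, h3, h4]
      have p2 : P 2 = 0 := by simp [hP, pl, h4, h6]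
      have p3 : P 3 = 0 := by simp [hP, pl, h4, h6]
      intro i j
      fin_cases i <;> fin_cases j <;> simp [p0, p2, p3, hv0, hv2, hv3]
    · have hk : ∀ j, P 0 * v j = P j * v 0 := by
        intro j
        fin_cases j
        · rfl
        · exact k1
        · exact k2
        · exact k3
      intro i j
      apply mul_right_cancel₀ hv0
      linear_combination v i * hk j - v j * hk i
  obtain ⟨c, hc⟩ := bezout4 hv
  have hI : ∀ i, P i = (∑ j, c j * P j) * v i := by
    intro i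
    have h1 : P i = ∑ j, v j * c j * P i := by
      rw [← Finset.sum_mul]
      have : (∑ j, v j * c j) = 1 := hc
      rw [this, one_mul]
    rw [h1, Finset.sum_mul]
    refine Finset.sum_congr rfl fun j _ => ?_
    linear_combination c j * hall i j
  refine ⟨∑ j, c j * P j, hI 0, ?_, ?_, ?_⟩
  · rw [← hI 1]; simp [hP]
  · rw [← hI 2]; simp [hP]
  · rw [← hI 3]; simp [hP]

/-- the discriminant inequality -/
theorem disc_le {A B C : ℤ} (hD : B ^ 2 - 4 * A * C < 0) {b b' v : Fin 4 → ℤ}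
    {m m' I : ℤ} (hv : Prim v) (hqv : qH A B C v = 0)
    (hb : Psi A B C b = m • v) (hb' : Psi A B C b' = m' • v)
    (h01 : pl b b' 0 1 = I * v 0) (h23 : pl b b' 2 3 = -(I * v 1)) :
    (4 * A * C - B ^ 2) * I ^ 2 ≤ 4 * (m * m') := by
  have e0 : Nq A B C (b 0) (b 1) = m * v 0 := by
    have := congrFun hb 0; simpa [Psi] using this
  have e0' : Nq A B C (b' 0) (b' 1) = m' * v 0 := by
    have := congrFun hb' 0; simpa [Psi] using this
  have e1 : Tq A B C (b 2) (b 3) = -(m * v 1) := by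
    have := congrFun hb 1
    simp [Psi] at this
    linarith
  have e1' : Tq A B C (b' 2) (b' 3) = -(m' * v 1) := by
    have := congrFun hb' 1
    simp [Psi] at this
    linarith
  have hN := id_N A B C b b'
  have hT := id_T A B C b b'
  rw [e0, e0', h01] at hN
  rw [e1, e1', h23] at hT
  by_cases hv0 : v 0 = 0
  · have hv1 : v 1 ≠ 0 := by
      intro h1
      -- then T(v2, v3) = 0, so v = 0
      have h2 : Tq A B C (v 2) (v 3) = 0 := by
        have : qH A B C v = v 0 * v 1 + Tq A B C (v 2) (v 3) := rfl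
        rw [hqv, hv0, zero_mul, zero_add] at this
        exact this.symm
      have h4 : Nq A B C (A * v 2) (v 3) = 0 := by
        have e : Nq A B C (A * v 2) (v 3) = A * Tq A B C (v 2) (v 3) := by
          unfold Nq Tq; ring
        rw [e, h2, mul_zero]
      have h5 := Nq_eq_zero hD h4
      have h6 : v 2 = 0 := by
        rcases mul_eq_zero.1 h5.1 with h6 | h6
        · exfalso; rw [h6] at hD; nlinarith [sq_nonneg B]
        · exact h6
      obtain ⟨j, hj⟩ := hv 2 Nat.prime_two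
      apply hj
      fin_cases j
      · show (2 : ℤ) ∣ v 0; rw [hv0]; exact dvd_zero _
      · show (2 : ℤ) ∣ v 1; rw [h1]; exact dvd_zero _
      · show (2 : ℤ) ∣ v 2; rw [h6]; exact dvd_zero _
      · show (2 : ℤ) ∣ v 3; rw [h5.2]; exact dvd_zero _
    have hpos : 0 < v 1 ^ 2 := by positivity
    have h7 : (4 * A * C - B ^ 2) * I ^ 2 * v 1 ^ 2 ≤ 4 * (m * m') * v 1 ^ 2 := by
      nlinarith [sq_nonneg (2 * A * b 2 * b' 2 + B * (b 2 * b' 3 + b 3 * b' 2) + 2 * C * b 3 * b' 3)]
    exact le_of_mul_le_mul_right h7 hpos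
  · have hpos : 0 < v 0 ^ 2 := by positivity
    have h7 : (4 * A * C - B ^ 2) * I ^ 2 * v 0 ^ 2 ≤ 4 * (m * m') * v 0 ^ 2 := by
      nlinarith [sq_nonneg (2 * b 0 * b' 0 + B * (b 0 * b' 1 + b 1 * b' 0) + 2 * A * C * b 1 * b' 1)]
    exact le_of_mul_le_mul_right h7 hpos

/-- index zero: `b' = ± b` -/
theorem eq_or_neg {A B C : ℤ} (hD : B ^ 2 - 4 * A * C < 0) {b b' v : Fin 4 → ℤ} {m m' : ℤ}
    (hbp : Prim b) (hbp' : Prim b') (hb : Psi A B C b = m • v) (hb' : Psi A B C b' = m' • v)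
    (h01 : pl b b' 0 1 = 0) (h23 : pl b b' 2 3 = 0) (h12 : pl b b' 1 2 = 0)
    (h13 : pl b b' 1 3 = 0) : b' = b ∨ b' = -b := by
  obtain ⟨hR1, hR2⟩ := rel hD hb hb'
  have h02 : pl b b' 0 2 = 0 := by rw [h13] at hR1; linarith
  have h03 : pl b b' 0 3 = 0 := by rw [h12, h13] at hR2; linarith
  have hall : ∀ i j, b i * b' j = b j * b' i := by
    intro i j
    unfold pl at h01 h23 h12 h13 h02 h03
    fin_cases i <;> fin_cases j <;> simp only [Fin.zero_eta, Fin.mk_one, Fin.reduceFinMk] <;>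
      linarith
  obtain ⟨c, hc⟩ := bezout4 hbp
  have h1 : b' = (∑ j, c j * b' j) • b := by
    funext i
    rw [Pi.smul_apply, smul_eq_mul, Finset.sum_mul]
    have h2 : b' i = ∑ j, b j * c j * b' i := by
      rw [← Finset.sum_mul]
      have : (∑ j, b j * c j) = 1 := hc
      rw [this, one_mul]
    rw [h2]
    refine Finset.sum_congr rfl fun j _ => ?_
    linear_combination c j * hall j i
  set l := ∑ j, c j * b' j with hl
  have hunit : IsUnit l := by
    by_contra hnu
    have hC1 : l.natAbs ≠ 1 := fun h => hnu (Int.isUnit_iff_natAbs_eq.2 h)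
    obtain ⟨p, hp, hpd⟩ := Nat.exists_prime_and_dvd hC1
    obtain ⟨j, hj⟩ := hbp' p hp
    apply hj
    rw [h1, Pi.smul_apply, smul_eq_mul]
    exact Dvd.dvd.mul_right (Int.natCast_dvd.2 hpd) _
  rcases Int.isUnit_iff.1 hunit with h | h
  · left; rw [h1, h, one_smul]
  · right; rw [h1, h]; simp

end Pool.Agent.PP5LA
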