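import Pool.Agent.PP5LA.ME

/-!
# PP5LA, (P4a): the root attached to `b`, and `k0 ∣ I` when the roots agree modulo `k0`
-/

namespace Pool.Agent.PP5LA

open Matrix Pool.Agent.PP5LC Pool.Agent.PP5B

/-- no prime divides `b 1`, `b 3` and `m` -/
theorem bez {A B C m : ℤ} (hAm : IsCoprime A m) {b : Fin 4 → ℤ} (hb : Prim b)
    (h : ∀ i, m ∣ Psi A B C b i) : ∃ x y z : ℤ, x * b 1 + y * b 3 + z * m = 1 := by
  have hg : Int.gcd (Int.gcd (b 1) (b 3)) m = 1 := by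
    by_contra hcon
    obtain ⟨p, hp, hpd⟩ := Nat.exists_prime_and_dvd hcon
    have hpZ : Prime (p : ℤ) := Nat.prime_iff_prime_int.1 hp
    have h1 : (p : ℤ) ∣ (Int.gcd (Int.gcd (b 1) (b 3)) m : ℤ) := by exact_mod_cast hpd
    have hpm : (p : ℤ) ∣ m := dvd_trans h1 (Int.gcd_dvd_right ..)
    have h2 : (p : ℤ) ∣ (Int.gcd (b 1) (b 3) : ℤ) := dvd_trans h1 (Int.gcd_dvd_left ..)
    have hp1 : (p : ℤ) ∣ b 1 := dvd_trans h2 (Int.gcd_dvd_left ..)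
    have hp3 : (p : ℤ) ∣ b 3 := dvd_trans h2 (Int.gcd_dvd_right ..)
    have hpA : ¬ (p : ℤ) ∣ A := by
      intro hA
      obtain ⟨a, c, hac⟩ := hAm
      have h3 : (p : ℤ) ∣ 1 := by
        rw [← hac]; exact dvd_add (Dvd.dvd.mul_left hA _) (Dvd.dvd.mul_left hpm _)
      exact hpZ.not_unit (isUnit_of_dvd_one h3)
    have hp0 : (p : ℤ) ∣ b 0 := by
      have h3 : (p : ℤ) ∣ Nq A B C (b 0) (b 1) := dvd_trans hpm (h 0)
      have h4 : (p : ℤ) ∣ b 0 ^ 2 := by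
        have e : b 0 ^ 2 = Nq A B C (b 0) (b 1) - b 1 * (B * b 0 + A * C * b 1) := by
          unfold Nq; ring
        rw [e]; exact dvd_sub h3 (Dvd.dvd.mul_right hp1 _)
      exact hpZ.dvd_of_dvd_pow h4
    have hp2 : (p : ℤ) ∣ b 2 := by
      have h3 : (p : ℤ) ∣ Tq A B C (b 2) (b 3) := by
        have := dvd_trans hpm (h 1)
        simpa [Psi] using this
      have h4 : (p : ℤ) ∣ A * b 2 ^ 2 := by
        have e : A * b 2 ^ 2 = Tq A B C (b 2) (b 3) - b 3 * (B * b 2 + C * b 3) := by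
          unfold Tq; ring
        rw [e]; exact dvd_sub h3 (Dvd.dvd.mul_right hp3 _)
      exact hpZ.dvd_of_dvd_pow ((hpZ.dvd_or_dvd h4).resolve_left hpA)
    obtain ⟨j, hj⟩ := hb p hp
    apply hj
    fin_cases j
    · exact hp0
    · exact hp1
    · exact hp2
    · exact hp3
  have e1 := Int.gcd_eq_gcd_ab (b 1) (b 3)
  have e2 := Int.gcd_eq_gcd_ab (Int.gcd (b 1) (b 3) : ℤ) m
  rw [hg] at e2
  refine ⟨Int.gcdA (b 1) (b 3) * Int.gcdA (Int.gcd (b 1) (b 3) : ℤ) m,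
    Int.gcdB (b 1) (b 3) * Int.gcdA (Int.gcd (b 1) (b 3) : ℤ) m,
    Int.gcdB (Int.gcd (b 1) (b 3) : ℤ) m, ?_⟩
  push_cast at e2
  rw [e1] at e2 ⊢
  linear_combination -e2

/-- the root -/
theorem exists_root {A B C m : ℤ} (hAm : IsCoprime A m) {b : Fin 4 → ℤ} (hb : Prim b)
    (h : ∀ i, m ∣ Psi A B C b i) :
    ∃ ρ : ℤ, InM A m ρ b ∧ m ∣ ρ ^ 2 - B * ρ + A * C := by
  obtain ⟨x, y, z, hxyz⟩ := bez hAm hb h
  obtain ⟨n0, hn0⟩ : m ∣ Nq A B C (b 0) (b 1) := h 0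
  obtain ⟨n1, hn1⟩ : m ∣ Tq A B C (b 2) (b 3) := by
    have := h 1
    simpa [Psi] using this
  obtain ⟨n2, hn2⟩ : m ∣ b 0 * b 2 + B * b 1 * b 2 + C * b 1 * b 3 := h 2
  obtain ⟨n3, hn3⟩ : m ∣ b 0 * b 3 - A * b 1 * b 2 := h 3
  have e : x * b 1 + y * b 3 = 1 - z * m := by linarith
  refine ⟨-(x * b 0 + y * (A * b 2)), ⟨⟨y * n3 + z * b 0, ?_⟩, ⟨-(x * n3) + z * (A * b 2), ?_⟩⟩, ?_⟩
  · linear_combination y * hn3 - b 0 * e
  · linear_combination (-x) * hn3 - (A * b 2) * e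
  · -- (x b1 + y b3)^2 f(ρ) = x^2 N + 2 x y A w1 + y^2 A T  mod m
    have key : (x * b 1 + y * b 3) ^ 2 *
        ((-(x * b 0 + y * (A * b 2))) ^ 2 - B * (-(x * b 0 + y * (A * b 2))) + A * C) =
        (x * b 1 + y * b 3) ^ 2 * ((-(x * b 0 + y * (A * b 2))) ^ 2 -
          B * (-(x * b 0 + y * (A * b 2))) + A * C) := rfl
    -- work with the two linear congruences
    set ρ : ℤ := -(x * b 0 + y * (A * b 2)) with hρ
    have h1 : b 0 + ρ * b 1 = m * (y * n3 + z * b 0) := by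
      rw [hρ]; linear_combination y * hn3 - b 0 * e
    have h2 : A * b 2 + ρ * b 3 = m * (-(x * n3) + z * (A * b 2)) := by
      rw [hρ]; linear_combination (-x) * hn3 - (A * b 2) * e
    have d1 : m ∣ b 1 ^ 2 * (ρ ^ 2 - B * ρ + A * C) := by
      refine ⟨n0 - (y * n3 + z * b 0) * (b 0 - ρ * b 1 + B * b 1), ?_⟩
      unfold Nq at hn0
      linear_combination hn0 - (b 0 - ρ * b 1 + B * b 1) * h1
    have d3 : m ∣ b 3 ^ 2 * (ρ ^ 2 - B * ρ + A * C) := by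
      refine ⟨A * n1 - (-(x * n3) + z * (A * b 2)) * (A * b 2 - ρ * b 3 + B * b 3), ?_⟩
      unfold Tq at hn1
      linear_combination A * hn1 - (A * b 2 - ρ * b 3 + B * b 3) * h2
    have d13 : m ∣ b 1 * b 3 * (ρ ^ 2 - B * ρ + A * C) := by
      refine ⟨A * n2 - (y * n3 + z * b 0) * (A * b 2) - (B * b 1 - ρ * b 1) *
        (-(x * n3) + z * (A * b 2)), ?_⟩
      linear_combination A * hn2 - (A * b 2) * h1 - (B * b 1 - ρ * b 1) * h2
    have d : m ∣ (x * b 1 + y * b 3) ^ 2 * (ρ ^ 2 - B * ρ + A * C) := by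
      have e3 : (x * b 1 + y * b 3) ^ 2 * (ρ ^ 2 - B * ρ + A * C) =
          x ^ 2 * (b 1 ^ 2 * (ρ ^ 2 - B * ρ + A * C)) +
          2 * x * y * (b 1 * b 3 * (ρ ^ 2 - B * ρ + A * C)) +
          y ^ 2 * (b 3 ^ 2 * (ρ ^ 2 - B * ρ + A * C)) := by ring
      rw [e3]
      exact dvd_add (dvd_add (Dvd.dvd.mul_left d1 _) (Dvd.dvd.mul_left d13 _))
        (Dvd.dvd.mul_left d3 _)
    rw [e] at d
    have e4 : ρ ^ 2 - B * ρ + A * C = (1 - z * m) ^ 2 * (ρ ^ 2 - B * ρ + A * C) +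
        m * ((2 * z - z ^ 2 * m) * (ρ ^ 2 - B * ρ + A * C)) := by ring
    rw [e4]
    exact dvd_add d (dvd_mul_right _ _)

/-- `r` is determined modulo `m` by `b` -/
theorem root_unique {A B C m r r' : ℤ} (hAm : IsCoprime A m) {b : Fin 4 → ℤ} (hb : Prim b)
    (h : ∀ i, m ∣ Psi A B C b i) (h1 : InM A m r b) (h2 : InM A m r' b) : m ∣ r - r' := by
  obtain ⟨x, y, z, hxyz⟩ := bez hAm hb h
  obtain ⟨⟨c, hc⟩, ⟨d, hd⟩⟩ := h1
  obtain ⟨⟨c', hc'⟩, ⟨d', hd'⟩⟩ := h2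
  refine ⟨x * (c - c') + y * (d - d') + z * (r - r'), ?_⟩
  linear_combination x * (hc - hc') + y * (hd - hd') - (r - r') * hxyz

/-- the dichotomy at a prime -/
theorem dich {B E : ℤ} {p : ℕ} (hp : p.Prime) {k : ℕ} (hk : 1 ≤ k)
    (hpD : ¬ (p : ℤ) ∣ B ^ 2 - 4 * E ∨ (p ≠ 2 ∧ ¬ (p : ℤ) ^ 2 ∣ B ^ 2 - 4 * E)) {x y : ℤ}
    (hx : (p : ℤ) ^ k ∣ x ^ 2 - B * x + E) (hy : (p : ℤ) ^ k ∣ y ^ 2 - B * y + E) :
    ((p : ℤ) ∣ x - y → (p : ℤ) ^ k ∣ x - y) ∧ (¬ (p : ℤ) ∣ x - y → (p : ℤ) ^ k ∣ x + y - B) := by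
  have hpZ : Prime (p : ℤ) := Nat.prime_iff_prime_int.1 hp
  have hprod : (p : ℤ) ^ k ∣ (x - y) * (x + y - B) := by
    have e : (x - y) * (x + y - B) = (x ^ 2 - B * x + E) - (y ^ 2 - B * y + E) := by ring
    rw [e]; exact dvd_sub hx hy
  have hpx : (p : ℤ) ∣ x ^ 2 - B * x + E := dvd_trans (dvd_pow_self _ (by omega)) hx
  constructor
  · intro hxy
    by_cases hD : (p : ℤ) ∣ B ^ 2 - 4 * E
    · obtain ⟨h2, hsq⟩ := hpD.resolve_left (fun h => h hD)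
      have h2x : (p : ℤ) ∣ 2 * x - B := by
        apply hpZ.dvd_of_dvd_pow (n := 2)
        have e : (2 * x - B) ^ 2 = (B ^ 2 - 4 * E) + 4 * (x ^ 2 - B * x + E) := by ring
        rw [e]; exact dvd_add hD (Dvd.dvd.mul_left hpx _)
      have hk1 : k = 1 := by
        by_contra hne
        apply hsq
        have h3 : (p : ℤ) ^ 2 ∣ x ^ 2 - B * x + E := dvd_trans (pow_dvd_pow _ (by omega)) hx
        have e : B ^ 2 - 4 * E = (2 * x - B) ^ 2 - 4 * (x ^ 2 - B * x + E) := by ring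
        rw [e]
        exact dvd_sub (pow_dvd_pow_of_dvd h2x 2) (Dvd.dvd.mul_left h3 _)
      rw [hk1, pow_one]; exact hxy
    · have hn : ¬ (p : ℤ) ∣ x + y - B := by
        intro h
        apply hD
        have h2x : (p : ℤ) ∣ 2 * x - B := by
          have e : 2 * x - B = (x + y - B) + (x - y) := by ring
          rw [e]; exact dvd_add h hxy
        have e : B ^ 2 - 4 * E = (2 * x - B) * (2 * x - B) - 4 * (x ^ 2 - B * x + E) := by ring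
        rw [e]
        exact dvd_sub (Dvd.dvd.mul_right h2x _) (Dvd.dvd.mul_left hpx _)
      have hc : IsCoprime ((p : ℤ) ^ k) (x + y - B) :=
        IsCoprime.pow_left ((Prime.coprime_iff_not_dvd hpZ).2 hn)
      exact hc.dvd_of_dvd_mul_right hprod
  · intro hxy
    have hc : IsCoprime ((p : ℤ) ^ k) (x - y) :=
      IsCoprime.pow_left ((Prime.coprime_iff_not_dvd hpZ).2 hxy)
    exact hc.dvd_of_dvd_mul_left hprod

/-- (P4a) the roots agree modulo `k0`: `k0` divides the index -/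
theorem dvd_index {A B C : ℤ} (hA : A ≠ 0) (hD : B ^ 2 - 4 * A * C < 0) {b b' v : Fin 4 → ℤ}
    {m m' I : ℤ} {k0 : ℕ} {ρ : ℤ} (hv : Prim v) (hqv : qH A B C v = 0)
    (hb : Psi A B C b = m • v) (hb' : Psi A B C b' = m' • v)
    (hAk : IsCoprime A (k0 : ℤ)) (hρ : (k0 : ℤ) ∣ ρ ^ 2 - B * ρ + A * C)
    (hsq : ∀ p : ℕ, p.Prime → p ∣ k0 → ¬ (p : ℤ) ∣ B ^ 2 - 4 * (A * C) ∨
      (p ≠ 2 ∧ ¬ (p : ℤ) ^ 2 ∣ B ^ 2 - 4 * (A * C)))
    (h1 : InM A k0 ρ b) (h2 : InM A k0 ρ b')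
    (h01 : pl b b' 0 1 = I * v 0) (h23 : pl b b' 2 3 = -(I * v 1))
    (h12 : pl b b' 1 2 = -(I * v 2)) (h13 : pl b b' 1 3 = -(I * v 3)) : (k0 : ℤ) ∣ I := by
  obtain ⟨hR1, hR2⟩ := rel hD hb hb'
  obtain ⟨⟨c, hc⟩, ⟨d, hd⟩⟩ := h1
  obtain ⟨⟨c', hc'⟩, ⟨d', hd'⟩⟩ := h2
  -- the four congruences
  have i0 : (k0 : ℤ) ∣ I * v 0 := by
    rw [← h01]
    refine ⟨c * b' 1 - c' * b 1, ?_⟩
    unfold pl
    linear_combination b' 1 * hc - b 1 * hc'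
  have i1 : (k0 : ℤ) ∣ I * v 1 := by
    have h3 : (k0 : ℤ) ∣ A * pl b b' 2 3 := by
      refine ⟨d * b' 3 - d' * b 3, ?_⟩
      unfold pl
      linear_combination b' 3 * hd - b 3 * hd'
    have h4 := hAk.symm.dvd_of_dvd_mul_left h3
    rw [h23, dvd_neg] at h4
    exact h4
  have i2 : (k0 : ℤ) ∣ (A * v 2 + ρ * v 3) * I := by
    have h3 : (k0 : ℤ) ∣ A * pl b b' 1 2 + ρ * pl b b' 1 3 := by
      refine ⟨b 1 * d' - b' 1 * d, ?_⟩
      unfold pl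
      linear_combination b 1 * hd' - b' 1 * hd
    rw [h12, h13] at h3
    have e : (A * v 2 + ρ * v 3) * I = -(A * -(I * v 2) + ρ * -(I * v 3)) := by ring
    rw [e, dvd_neg]; exact h3
  have i3 : (k0 : ℤ) ∣ (A * v 2 + (B - ρ) * v 3) * I := by
    have h3 : (k0 : ℤ) ∣ pl b b' 0 3 + ρ * pl b b' 1 3 := by
      refine ⟨c * b' 3 - c' * b 3, ?_⟩
      unfold pl
      linear_combination b' 3 * hc - b 3 * hc'
    have e : (A * v 2 + (B - ρ) * v 3) * I = pl b b' 0 3 + ρ * pl b b' 1 3 := by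
      have e3 : pl b b' 0 3 = -(A * pl b b' 1 2) - B * pl b b' 1 3 := by linarith
      rw [e3, h12, h13]; ring
    rw [e]; exact h3
  by_cases hI0 : I = 0
  · rw [hI0]; exact dvd_zero _
  rw [Int.natCast_dvd]
  rw [Nat.dvd_iff_prime_pow_dvd_dvd]
  intro p k hp hpk
  rw [← Int.natCast_dvd]
  push_cast
  by_cases hk : k = 0
  · rw [hk, pow_zero]; exact one_dvd _
  have hk1 : 1 ≤ k := Nat.one_le_iff_ne_zero.2 hk
  have hpZ : Prime (p : ℤ) := Nat.prime_iff_prime_int.1 hp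
  have hpk' : (p : ℤ) ^ k ∣ (k0 : ℤ) := by exact_mod_cast hpk
  have hpk0 : p ∣ k0 := dvd_trans (dvd_pow_self _ hk) hpk
  have hpA : ¬ (p : ℤ) ∣ A := by
    intro hAp
    obtain ⟨a, e, hae⟩ := hAk
    have h3 : (p : ℤ) ∣ 1 := by
      rw [← hae]
      exact dvd_add (Dvd.dvd.mul_left hAp _) (Dvd.dvd.mul_left (by exact_mod_cast hpk0) _)
    exact hpZ.not_unit (isUnit_of_dvd_one h3)
  have hρk : (p : ℤ) ^ k ∣ ρ ^ 2 - B * ρ + A * C := dvd_trans hpk' hρ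
  have hρp : (p : ℤ) ∣ ρ ^ 2 - B * ρ + A * C := dvd_trans (dvd_pow_self _ hk) hρk
  have j0 : (p : ℤ) ^ k ∣ I * v 0 := dvd_trans hpk' i0
  have j1 : (p : ℤ) ^ k ∣ I * v 1 := dvd_trans hpk' i1
  have j2 : (p : ℤ) ^ k ∣ (A * v 2 + ρ * v 3) * I := dvd_trans hpk' i2
  have j3 : (p : ℤ) ^ k ∣ (A * v 2 + (B - ρ) * v 3) * I := dvd_trans hpk' i3
  by_cases hpD : (p : ℤ) ∣ B ^ 2 - 4 * (A * C)
  · obtain ⟨hp2, hsq'⟩ := (hsq p hp hpk0).resolve_left (fun h => h hpD)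
    have h2ρ : (p : ℤ) ∣ 2 * ρ - B := by
      apply hpZ.dvd_of_dvd_pow (n := 2)
      have e : (2 * ρ - B) ^ 2 = (B ^ 2 - 4 * (A * C)) + 4 * (ρ ^ 2 - B * ρ + A * C) := by ring
      rw [e]; exact dvd_add hpD (Dvd.dvd.mul_left hρp _)
    have hnsq : ¬ (p : ℤ) ^ 2 ∣ ρ ^ 2 - B * ρ + A * C := by
      intro h3
      apply hsq'
      have e : B ^ 2 - 4 * (A * C) = (2 * ρ - B) ^ 2 - 4 * (ρ ^ 2 - B * ρ + A * C) := by ring
      rw [e]
      exact dvd_sub (pow_dvd_pow_of_dvd h2ρ 2) (Dvd.dvd.mul_left h3 _)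
    have hk1' : k = 1 := by
      by_contra hne
      exact hnsq (dvd_trans (pow_dvd_pow _ (by omega)) hρk)
    rw [hk1', pow_one] at j0 j1 j2 j3 ⊢
    by_contra hI
    have g0 : (p : ℤ) ∣ v 0 := (hpZ.dvd_or_dvd j0).resolve_left hI
    have g1 : (p : ℤ) ∣ v 1 := (hpZ.dvd_or_dvd j1).resolve_left hI
    have g2 : (p : ℤ) ∣ A * v 2 + ρ * v 3 := (hpZ.dvd_or_dvd j2).resolve_right hI
    have g3 : (p : ℤ) ∣ A * v 2 + (B - ρ) * v 3 := (hpZ.dvd_or_dvd j3).resolve_right hI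
    have hv3 : ¬ (p : ℤ) ∣ v 3 := by
      intro h3
      have h4 : (p : ℤ) ∣ A * v 2 := by
        have e : A * v 2 = (A * v 2 + ρ * v 3) - ρ * v 3 := by ring
        rw [e]; exact dvd_sub g2 (Dvd.dvd.mul_left h3 _)
      have h5 := (hpZ.dvd_or_dvd h4).resolve_left hpA
      obtain ⟨j, hj⟩ := hv p hp
      apply hj
      fin_cases j
      · exact g0
      · exact g1
      · exact h5
      · exact h3
    apply hnsq
    have h6 : (p : ℤ) ^ 2 ∣ (ρ ^ 2 - B * ρ + A * C) * v 3 ^ 2 := by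
      have hq : v 0 * v 1 + Tq A B C (v 2) (v 3) = 0 := hqv
      have e : (ρ ^ 2 - B * ρ + A * C) * v 3 ^ 2 =
          -(A * (v 0 * v 1)) - (A * v 2 + ρ * v 3) * (A * v 2 + (B - ρ) * v 3) := by
        unfold Tq at hq
        linear_combination A * hq
      rw [e, sq]
      exact dvd_sub (dvd_neg.2 (Dvd.dvd.mul_left (mul_dvd_mul g0 g1) _)) (mul_dvd_mul g2 g3)
    have h7 : IsCoprime ((p : ℤ) ^ 2) (v 3 ^ 2) :=
      IsCoprime.pow ((Prime.coprime_iff_not_dvd hpZ).2 hv3)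
    exact h7.dvd_of_dvd_mul_right h6
  · have h2ρ : ¬ (p : ℤ) ∣ 2 * ρ - B := by
      intro h
      apply hpD
      have e : B ^ 2 - 4 * (A * C) = (2 * ρ - B) * (2 * ρ - B) - 4 * (ρ ^ 2 - B * ρ + A * C) := by
        ring
      rw [e]
      exact dvd_sub (Dvd.dvd.mul_right h _) (Dvd.dvd.mul_left hρp _)
    have h3 : (p : ℤ) ^ k ∣ (2 * ρ - B) * (v 3 * I) := by
      have e : (2 * ρ - B) * (v 3 * I) = (A * v 2 + ρ * v 3) * I - (A * v 2 + (B - ρ) * v 3) * I := by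
        ring
      rw [e]; exact dvd_sub j2 j3
    have hc1 : IsCoprime ((p : ℤ) ^ k) (2 * ρ - B) :=
      IsCoprime.pow_left ((Prime.coprime_iff_not_dvd hpZ).2 h2ρ)
    have h4 := hc1.dvd_of_dvd_mul_left h3
    have h5 : (p : ℤ) ^ k ∣ A * (v 2 * I) := by
      have e : A * (v 2 * I) = (A * v 2 + ρ * v 3) * I - ρ * (v 3 * I) := by ring
      rw [e]; exact dvd_sub j2 (Dvd.dvd.mul_left h4 _)
    have hc2 : IsCoprime ((p : ℤ) ^ k) A :=
      IsCoprime.pow_left ((Prime.coprime_iff_not_dvd hpZ).2 hpA)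
    have h6 := hc2.dvd_of_dvd_mul_left h5
    apply dvd_of_prim hv
    intro i
    fin_cases i
    · exact j0
    · exact j1
    · show (p : ℤ) ^ k ∣ I * v 2
      rw [mul_comm]; exact h6
    · show (p : ℤ) ^ k ∣ I * v 3
      rw [mul_comm]; exact h4

end Pool.Agent.PP5LA
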