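import Pool.Agent.PP5LA.MF

/-!
# PP5LA, (P4b): counting roots
-/

namespace Pool.Agent.PP5LA

open Finset

/-- roots of `x² - B x + E` modulo `n` in a fixed class modulo `n1` -/
theorem root_count {B E : ℤ} {n n1 : ℕ} (P : Finset ℕ)
    (hP : ∀ p : ℕ, p.Prime → p ∣ n → p ∈ P ∨ p ∣ n1)
    (hpD : ∀ p : ℕ, p.Prime → p ∣ n → ¬ (p : ℤ) ∣ B ^ 2 - 4 * E ∨
      (p ≠ 2 ∧ ¬ (p : ℤ) ^ 2 ∣ B ^ 2 - 4 * E))
    (S : Finset ℕ) (hS : ∀ r ∈ S, r < n ∧ (n : ℤ) ∣ (r : ℤ) ^ 2 - B * r + E)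
    (hS1 : ∀ r ∈ S, ∀ r' ∈ S, (n1 : ℤ) ∣ (r : ℤ) - r') : S.card ≤ 2 ^ P.card := by
  classical
  rcases S.eq_empty_or_nonempty with rfl | ⟨r0, hr0⟩
  · simp
  rw [← Finset.card_powerset]
  apply Finset.card_le_card_of_injOn
    (fun r : ℕ => P.filter (fun p : ℕ => (p : ℤ) ∣ (r : ℤ) - r0))
  · intro r _
    exact Finset.mem_coe.2 (Finset.mem_powerset.2 (Finset.filter_subset _ _))
  · intro r hr r' hr' hrr
    have hr := Finset.mem_coe.1 hr
    have hr' := Finset.mem_coe.1 hr'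
    simp only at hrr
    have hdvd : (n : ℤ) ∣ (r : ℤ) - r' := by
      rw [Int.natCast_dvd, Nat.dvd_iff_prime_pow_dvd_dvd]
      intro p k hp hpk
      rw [← Int.natCast_dvd]
      push_cast
      by_cases hk : k = 0
      · rw [hk, pow_zero]; exact one_dvd _
      have hk1 : 1 ≤ k := Nat.one_le_iff_ne_zero.2 hk
      have hpk' : (p : ℤ) ^ k ∣ (n : ℤ) := by exact_mod_cast hpk
      have hpn : p ∣ n := dvd_trans (dvd_pow_self _ hk) hpk
      have f0 : (p : ℤ) ^ k ∣ (r0 : ℤ) ^ 2 - B * r0 + E := dvd_trans hpk' (hS r0 hr0).2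
      have f1 : (p : ℤ) ^ k ∣ (r : ℤ) ^ 2 - B * r + E := dvd_trans hpk' (hS r hr).2
      have f2 : (p : ℤ) ^ k ∣ (r' : ℤ) ^ 2 - B * r' + E := dvd_trans hpk' (hS r' hr').2
      have d12 := dich hp hk1 (hpD p hp hpn) f1 f2
      rcases hP p hp hpn with hpP | hpn1
      · have d10 := dich hp hk1 (hpD p hp hpn) f1 f0
        have d20 := dich hp hk1 (hpD p hp hpn) f2 f0
        by_cases hin : (p : ℤ) ∣ (r : ℤ) - r0
        · have hin' : (p : ℤ) ∣ (r' : ℤ) - r0 := by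
            have h1 : p ∈ P.filter (fun p : ℕ => (p : ℤ) ∣ (r : ℤ) - r0) :=
              Finset.mem_filter.2 ⟨hpP, hin⟩
            rw [hrr] at h1
            exact (Finset.mem_filter.1 h1).2
          have e : (r : ℤ) - r' = ((r : ℤ) - r0) - ((r' : ℤ) - r0) := by ring
          rw [e]
          exact dvd_sub (d10.1 hin) (d20.1 hin')
        · have hin' : ¬ (p : ℤ) ∣ (r' : ℤ) - r0 := by
            intro h2
            have h1 : p ∈ P.filter (fun p : ℕ => (p : ℤ) ∣ (r' : ℤ) - r0) :=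
              Finset.mem_filter.2 ⟨hpP, h2⟩
            rw [← hrr] at h1
            exact hin (Finset.mem_filter.1 h1).2
          have e : (r : ℤ) - r' = ((r : ℤ) + r0 - B) - ((r' : ℤ) + r0 - B) := by ring
          rw [e]
          exact dvd_sub (d10.2 hin) (d20.2 hin')
      · exact d12.1 (dvd_trans (by exact_mod_cast hpn1) (hS1 r hr r' hr'))
    -- r = r'
    have h1 := (hS r hr).1
    have h2 := (hS r' hr').1
    have h3 : ((r : ℤ) - r') = 0 := by
      apply Int.eq_zero_of_abs_lt_dvd hdvd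
      rw [abs_lt]
      constructor <;> omega
    omega

/-- `2 ^ ω(n) ≤ τ(n)` -/
theorem two_pow_omega {n : ℕ} (hn : n ≠ 0) : 2 ^ n.primeFactors.card ≤ n.divisors.card := by
  rw [Nat.card_divisors hn, ← Finset.prod_const]
  apply Finset.prod_le_prod'
  intro p hp
  have : n.factorization p ≠ 0 := by
    have hpp := Nat.prime_of_mem_primeFactors hp
    have := hpp.factorization_pos_of_dvd hn (Nat.dvd_of_mem_primeFactors hp)
    omega
  omega

end Pool.Agent.PP5LA
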