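import Pool.Agent.PP5LA.MG

/-!
# PP5LA, (P4): the number of seeds with data `(v, g, k0)`
-/

namespace Pool.Agent.PP5LA

open Finset Pool.Agent.PP5LC Pool.Agent.PP5B

/-- the seed `s = (n, r)` has the data `(v, g, k0)` -/
def Dat (A B C : ℤ) (v : Fin 4 → ℤ) (g k0 : ℕ) (s : ℕ × ℕ) : Prop :=
  ∃ (n1 : ℕ) (b : Fin 4 → ℤ), 0 < n1 ∧ s.1 = g * n1 ∧ Pr4 b ∧ InM A n1 s.2 b ∧
    Psi A B C b = ((n1 : ℤ) * k0) • v

/-- (P4) multiplicity -/
theorem mult {A B C : ℤ} (hA : A ≠ 0) (hD : B ^ 2 - 4 * A * C < 0) {N : ℕ}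
    (hN : 4 * (N : ℤ) ^ 2 < 4 * A * C - B ^ 2) {v : Fin 4 → ℤ} (hv : Pr4 v)
    (hqv : qH A B C v = 0) {g k0 : ℕ} (hg : 0 < g) (hk0 : 0 < k0) (hAk : IsCoprime A (k0 : ℤ))
    (hsq : ∀ p : ℕ, p.Prime → p ∣ k0 → ¬ (p : ℤ) ∣ B ^ 2 - 4 * A * C ∨
      (p ≠ 2 ∧ ¬ (p : ℤ) ^ 2 ∣ B ^ 2 - 4 * A * C))
    (S : Finset (ℕ × ℕ)) (hS : ∀ s ∈ S, s.1 ≤ N ∧ s.2 < s.1 ∧ IsCoprime A (s.1 : ℤ) ∧
      (∀ p : ℕ, p.Prime → p ∣ s.1 → ¬ (p : ℤ) ∣ B ^ 2 - 4 * A * C) ∧
      (s.1 : ℤ) ∣ (s.2 : ℤ) ^ 2 - B * s.2 + A * C ∧ Dat A B C v g k0 s) :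
    S.card ≤ g.divisors.card * k0.divisors.card := by
  classical
  have hvP := pr4_iff.1 hv
  have hAC : B ^ 2 - 4 * A * C = B ^ 2 - 4 * (A * C) := by ring
  -- the choices
  have hch : ∀ s : ℕ × ℕ, ∃ (n1 : ℕ) (b : Fin 4 → ℤ) (ρ : ℕ), s ∈ S → 0 < n1 ∧ s.1 = g * n1 ∧
      Prim b ∧ InM A n1 s.2 b ∧ Psi A B C b = ((n1 : ℤ) * k0) • v ∧ ρ < k0 ∧
      InM A k0 ρ b ∧ (k0 : ℤ) ∣ (ρ : ℤ) ^ 2 - B * ρ + A * C := by
    intro s
    by_cases hs : s ∈ S
    · obtain ⟨-, -, -, -, -, n1, b, hn1, h1, h2, h3, h4⟩ := hS s hs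
      have hbP := pr4_iff.1 h2
      have hdv : ∀ i, (k0 : ℤ) ∣ Psi A B C b i := by
        intro i
        rw [h4, Pi.smul_apply, smul_eq_mul]
        exact ⟨n1 * v i, by ring⟩
      obtain ⟨ρ, ⟨⟨c, hc⟩, ⟨d, hd⟩⟩, hρ⟩ := exists_root hAk hbP hdv
      have hk0Z : (k0 : ℤ) ≠ 0 := by exact_mod_cast hk0.ne'
      have hmod0 : 0 ≤ ρ % k0 := Int.emod_nonneg _ hk0Z
      have hmod1 : ρ % k0 < k0 := Int.emod_lt_of_pos _ (by exact_mod_cast hk0)
      obtain ⟨ρ', hρ'⟩ : ∃ ρ' : ℕ, (ρ' : ℤ) = ρ % k0 := ⟨(ρ % k0).toNat, Int.toNat_of_nonneg hmod0⟩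
      obtain ⟨q, hq⟩ : ∃ q : ℤ, ρ = ρ' + k0 * q := ⟨ρ / k0, by rw [hρ']; exact (Int.emod_add_mul_ediv _ _).symm⟩
      refine ⟨n1, b, ρ', fun _ => ⟨hn1, h1, hbP, h3, h4, by rw [← Nat.cast_lt (α := ℤ), hρ']; exact hmod1,
        ⟨⟨c - q * b 1, ?_⟩, ⟨d - q * b 3, ?_⟩⟩, ?_⟩⟩
      · rw [hq] at hc; linear_combination hc
      · rw [hq] at hd; linear_combination hd
      · obtain ⟨e, he⟩ := hρ
        refine ⟨e - 2 * ρ' * q - k0 * q ^ 2 + B * q, ?_⟩
        rw [hq] at he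
        linear_combination he
    · exact ⟨0, 0, 0, fun h => absurd h hs⟩
  choose nf bf ρf hf using hch
  -- same root: same `b` up to sign
  have hsame : ∀ s ∈ S, ∀ s' ∈ S, ρf s = ρf s' → bf s' = bf s ∨ bf s' = -bf s := by
    intro s hs s' hs' hρ
    obtain ⟨h1, h2, h3, h4, h5, h6, h7, h8⟩ := hf s hs
    obtain ⟨h1', h2', h3', h4', h5', h6', h7', h8'⟩ := hf s' hs'
    have hm0 : ((nf s : ℤ) * k0) ≠ 0 := by
      have : (0 : ℤ) < (nf s : ℤ) * k0 := by exact_mod_cast Nat.mul_pos h1 hk0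
      exact this.ne'
    obtain ⟨I, i01, i23, i12, i13⟩ := index hA hD hvP hm0 h5 h5'
    have hkI : (k0 : ℤ) ∣ I := by
      rw [← hρ] at h7'
      exact dvd_index hA hD hvP hqv h5 h5' hAk h8 (fun p hp hpk => by
        rw [← hAC]; exact hsq p hp hpk) h7 h7' i01 i23 i12 i13
    have hle := disc_le hD hvP hqv h5 h5' i01 i23
    have hns : (nf s : ℤ) ≤ N := by
      have h9 := (hS s hs).1
      rw [h2] at h9
      have : nf s ≤ g * nf s := Nat.le_mul_of_pos_left _ hg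
      exact_mod_cast this.trans h9
    have hns' : (nf s' : ℤ) ≤ N := by
      have h9 := (hS s' hs').1
      rw [h2'] at h9
      have : nf s' ≤ g * nf s' := Nat.le_mul_of_pos_left _ hg
      exact_mod_cast this.trans h9
    have hk0Z : (0 : ℤ) < k0 := by exact_mod_cast hk0
    have hnsp : (0 : ℤ) < nf s := by exact_mod_cast h1
    have hnsp' : (0 : ℤ) < nf s' := by exact_mod_cast h1'
    have hI0 : I = 0 := by
      by_contra hne
      obtain ⟨t, ht⟩ := hkI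
      have ht0 : t ≠ 0 := by rintro rfl; rw [mul_zero] at ht; exact hne ht
      have ht1 : 1 ≤ t ^ 2 := by
        have : 0 < t ^ 2 := by positivity
        omega
      have hI2 : (k0 : ℤ) ^ 2 ≤ I ^ 2 := by
        rw [ht]; nlinarith [sq_nonneg (k0 : ℤ)]
      have hNN : (nf s : ℤ) * nf s' ≤ N ^ 2 := by nlinarith
      have h10 : 4 * ((nf s : ℤ) * k0 * (nf s' * k0)) ≤ 4 * (N : ℤ) ^ 2 * k0 ^ 2 := by
        have e : 4 * ((nf s : ℤ) * k0 * (nf s' * k0)) = 4 * ((nf s : ℤ) * nf s') * k0 ^ 2 := by ring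
        rw [e]
        exact mul_le_mul_of_nonneg_right (by linarith) (by positivity)
      have h11 : 4 * (N : ℤ) ^ 2 * k0 ^ 2 < (4 * A * C - B ^ 2) * k0 ^ 2 :=
        mul_lt_mul_of_pos_right hN (by positivity)
      have h12 : (4 * A * C - B ^ 2) * (k0 : ℤ) ^ 2 ≤ (4 * A * C - B ^ 2) * I ^ 2 :=
        mul_le_mul_of_nonneg_left hI2 (by linarith)
      linarith
    rw [hI0, zero_mul] at i01
    rw [hI0, zero_mul, neg_zero] at i23 i12 i13
    exact eq_or_neg hD h3 h3' h5 h5' i01 i23 i12 i13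
  -- image of the root map
  have himg : (S.image ρf).card ≤ k0.divisors.card := by
    refine le_trans (root_count (B := B) (E := A * C) (n := k0) (n1 := 1) k0.primeFactors
      (fun p hp hpk => Or.inl (Nat.mem_primeFactors.2 ⟨hp, hpk, hk0.ne'⟩))
      (fun p hp hpk => by rw [← hAC]; exact hsq p hp hpk) (S.image ρf) ?_ ?_)
      (two_pow_omega hk0.ne')
    · intro r hr
      obtain ⟨s, hs, rfl⟩ := Finset.mem_image.1 hr
      obtain ⟨h1, h2, h3, h4, h5, h6, h7, h8⟩ := hf s hs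
      exact ⟨h6, h8⟩
    · intro r _ r' _
      simp
  -- fibres
  have hfib : ∀ a ∈ S.image ρf, (S.filter (fun s => ρf s = a)).card ≤ g.divisors.card := by
    intro a ha
    obtain ⟨s0, hs0, rfl⟩ := Finset.mem_image.1 ha
    obtain ⟨h1, h2, h3, h4, h5, h6, h7, h8⟩ := hf s0 hs0
    -- all elements have the same `n`
    have hn : ∀ s ∈ S.filter (fun s => ρf s = ρf s0), s.1 = s0.1 ∧ nf s = nf s0 ∧
        InM A (nf s0) s.2 (bf s0) := by
      intro s hs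
      obtain ⟨hsS, hsρ⟩ := Finset.mem_filter.1 hs
      obtain ⟨h1', h2', h3', h4', h5', h6', h7', h8'⟩ := hf s hsS
      have hbb := hsame s0 hs0 s hsS hsρ.symm
      have hPsi : Psi A B C (bf s) = Psi A B C (bf s0) := by
        rcases hbb with h | h
        · rw [h]
        · rw [h]
          have := Psi_smul A B C (-1) (bf s0)
          simpa using this
      rw [h5, h5'] at hPsi
      have hnn : (nf s : ℤ) * k0 = (nf s0 : ℤ) * k0 := by
        obtain ⟨w, hw⟩ := bezout4 hvP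
        have h9 := congrArg (fun f => f ⬝ᵥ w) hPsi
        simp only [smul_dotProduct, hw, smul_eq_mul, mul_one] at h9
        exact h9
      have hnn' : nf s = nf s0 := by
        have hk0Z : (k0 : ℤ) ≠ 0 := by exact_mod_cast hk0.ne'
        exact_mod_cast mul_right_cancel₀ hk0Z hnn
      refine ⟨by rw [h2, h2', hnn'], hnn', ?_⟩
      rw [hnn'] at h4'
      rcases hbb with h | h
      · rw [h] at h4'; exact h4'
      · rw [h] at h4'
        obtain ⟨⟨c, hc⟩, ⟨d, hd⟩⟩ := h4'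
        simp only [Pi.neg_apply] at hc hd
        exact ⟨⟨-c, by linear_combination -hc⟩, ⟨-d, by linear_combination -hd⟩⟩
    have hcard : (S.filter (fun s => ρf s = ρf s0)).card =
        ((S.filter (fun s => ρf s = ρf s0)).image Prod.snd).card := by
      rw [Finset.card_image_of_injOn]
      intro s hs s' hs' hss
      have e1 := (hn s (Finset.mem_coe.1 hs)).1
      have e2 := (hn s' (Finset.mem_coe.1 hs')).1
      exact Prod.ext (e1.trans e2.symm) hss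
    rw [hcard]
    have hAs0 := (hS s0 hs0).2.2.1
    have hAn1 : IsCoprime A (nf s0 : ℤ) := by
      rw [h2] at hAs0
      push_cast at hAs0
      exact hAs0.of_mul_right_right
    refine le_trans (root_count (B := B) (E := A * C) (n := s0.1) (n1 := nf s0) g.primeFactors
      ?_ (fun p hp hpk => Or.inl (by rw [← hAC]; exact (hS s0 hs0).2.2.2.1 p hp hpk)) _ ?_ ?_)
      (two_pow_omega hg.ne')
    · intro p hp hpn
      rw [h2] at hpn
      rcases (Nat.Prime.dvd_mul hp).1 hpn with h | h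
      · exact Or.inl (Nat.mem_primeFactors.2 ⟨hp, h, hg.ne'⟩)
      · exact Or.inr h
    · intro r hr
      obtain ⟨s, hs, rfl⟩ := Finset.mem_image.1 hr
      obtain ⟨hsS, -⟩ := Finset.mem_filter.1 hs
      obtain ⟨e1, -, -⟩ := hn s hs
      obtain ⟨-, g2, -, -, g5, -⟩ := hS s hsS
      rw [e1] at g2 g5
      exact ⟨g2, g5⟩
    · intro r hr r' hr'
      obtain ⟨s, hs, rfl⟩ := Finset.mem_image.1 hr
      obtain ⟨s', hs', rfl⟩ := Finset.mem_image.1 hr'
      have m1 := (hn s hs).2.2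
      have m2 := (hn s' hs').2.2
      have hdv : ∀ i, ((nf s0 : ℕ) : ℤ) ∣ Psi A B C (bf s0) i := by
        intro i
        rw [h5, Pi.smul_apply, smul_eq_mul]
        exact ⟨k0 * v i, by ring⟩
      exact root_unique hAn1 h3 hdv m1 m2
  calc S.card ≤ g.divisors.card * (S.image ρf).card :=
        Finset.card_le_mul_card_image S _ hfib
    _ ≤ g.divisors.card * k0.divisors.card := Nat.mul_le_mul_left _ himg

end Pool.Agent.PP5LA
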