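import Pool.Agent.PP5LA.Defs
import Pool.Agent.PP5LA.MD

/-!
# LB5, section A, module Sht (helper20): the short vector of a seed

PROOF.  (1) `τ 1 * bf τ (Ps b) = Nn (τ 1 * b 0 + σ0, τ 1 * b 1 + σ1) - qf τ * Tt b`, `σ0 = A τ2 b2 + B τ3 b2 + C τ3 b3`,
`σ1 = τ2 b3 - τ3 b2` (`ring`).  The Hessian of `b ↦ bf τ (Ps b)` has the determinant `D² q(τ)²`.
(2) `M(n, r)` has the basis `(n,0,0,0), (-r,1,0,0), (0,0,n,0), (0,0,-r A', 1)`, `A A' = 1 mod n`.  Minkowski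
gives `b ≠ 0` in `M(n, r)` with `0 < |bf τ (Ps b)| ≤ 2 n √(-q) √|D|`.
(3) `b = j b0`, `b0` primitive, `g := gcd(n, j)`, `n1 = n / g`: `b0 ∈ M(n1, r)`, so `n1 ∣ Ps b0`, `Ps b0 = n1 k0 v`,
`v` primitive.  The proof is in `MA`, `MB`, `MC`, `MD`.
-/

set_option autoImplicit false

namespace Pool.Agent.PP5LA

open Matrix Finset Pool.Agent.PP5B Pool.Agent.LB

theorem qf_qH {R : Type*} [CommRing R] (A B C : R) (v : Fin 4 → R) : qf A B C v = qH A B C v := by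
  simp only [qf, qH, Tq]; ring

theorem bf_bH {R : Type*} [CommRing R] (A B C : R) (u v : Fin 4 → R) : bf A B C u v = bH A B C u v := by
  simp only [bf, bH]; ring

theorem Ps_Psi {R : Type*} [CommRing R] (A B C : R) (b : Fin 4 → R) : Ps A B C b = Psi A B C b := by
  funext i
  fin_cases i <;> simp [Ps, Psi, Nn, Tt, Nq, Tq]

theorem Mn_InM {A : ℤ} {n : ℕ} {r : ℤ} {b : Fin 4 → ℤ} : Mn A n r b ↔ InM A n r b := Iff.rfl

theorem short {A B C : ℤ} (hA : 0 < A) (hD : B ^ 2 - 4 * A * C < 0) {n : ℕ} (hn : 0 < n) {r : ℤ}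
    (hr : (n : ℤ) ∣ r ^ 2 - B * r + A * C) (hAn : IsCoprime A (n : ℤ)) (τ : Fin 4 → ℝ) (h1 : τ 1 ≠ 0)
    (hq : qf (A : ℝ) B C τ < 0) : ∃ (g n1 k0 : ℕ) (b v : Fin 4 → ℤ), Sh A B C n r g n1 k0 b v ∧
      |bf (A : ℝ) B C τ (rv v)| * (g * k0 : ℝ) ≤
        8 * √(-qf (A : ℝ) B C τ) * √(((4 * A * C - B ^ 2 : ℤ) : ℝ)) := by
  rw [qf_qH] at hq
  obtain ⟨g, n1, k0, b, v, h1, h2, h3, h4, h5, h6, h7, h8, h9, h10⟩ := cut hA hD hn hAn hr h1 hq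
  refine ⟨g, n1, k0, b, v, ⟨h1, h2, h3, h6, h4, h5, h7, ?_⟩, ?_⟩
  · intro i
    rw [Ps_Psi, h8, Pi.smul_apply, smul_eq_mul]
  · rw [bf_bH, qf_qH]
    have e : rv v = rc v := rfl
    rw [e]
    refine h10.trans ?_
    have e2 : (((4 * A * C - B ^ 2 : ℤ)) : ℝ) = 4 * (A : ℝ) * C - (B : ℝ) ^ 2 := by push_cast; ring
    rw [e2]
    have h0 : 0 ≤ √(-(qH (A : ℝ) B C τ)) * √(4 * (A : ℝ) * C - (B : ℝ) ^ 2) := by positivity
    nlinarith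

end Pool.Agent.PP5LA
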