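import Pool.Agent.PP5LA.Two
import Pool.Agent.PP5LA.Sqr
import Pool.Agent.PP5LA.MH
import Pool.Agent.PP5LA.Sht

/-!
# LB5, section A, module Mlt (size 4): multiplicity of the map seed → (v, k)

`mlt_one` (`k = 1`, so `g = k0 = 1`, `n1 = n`) and `mlt`: for fixed `g`, `k0` the seeds `(n, c)` are mapped injectively to `(n, r mod n)`
(`c = 2 r - B mod n`, `c < n`), and `MH.mult` bounds the number by `τ(g) τ(k0)`; the sum over `g ∣ k` is at most `τ(k)^3`.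
-/

set_option autoImplicit false

namespace Pool.Agent.PP5LA

open Matrix Finset Pool.Agent.PP5B Pool.Agent.LB

/-- fixed `g`, `k0` -/
private theorem Mlt_fix {A B C : ℤ} (hD : B ^ 2 - 4 * A * C < 0) {w N : ℕ} (hw : 2 ≤ w)
    (hN : 4 * (N : ℤ) ^ 2 < 4 * A * C - B ^ 2)
    (hA : ∀ n : ℕ, 0 < n → n ≤ N → IsCoprime A (n : ℤ)) {g k0 : ℕ} (hg : 0 < g) (hk0 : 0 < k0)
    (hAk : IsCoprime A (k0 : ℤ)) (hsq : ∀ p : ℕ, p.Prime → p ∣ k0 → ¬ (p : ℤ) ∣ B ^ 2 - 4 * A * C ∨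
      (p ≠ 2 ∧ ¬ (p : ℤ) ^ 2 ∣ B ^ 2 - 4 * A * C)) {v : Fin 4 → ℤ} (S : Finset (ℕ × ℕ))
    (hS : S ⊆ Sd w (B ^ 2 - 4 * A * C) N) (ho : ∀ s ∈ S, ∃ (r : ℤ) (n1 : ℕ) (b : Fin 4 → ℤ),
      Sh A B C s.1 r g n1 k0 b v ∧ (s.1 : ℤ) ∣ 2 * r - B - s.2) :
    S.card ≤ g.divisors.card * k0.divisors.card := by
  classical
  rcases S.eq_empty_or_nonempty with rfl | ⟨s0, hs0⟩
  · simp
  have hA0 : A ≠ 0 := by
    rintro rfl
    nlinarith [sq_nonneg B]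
  have hv : Pr4 v := by
    obtain ⟨r, n1, b, h, -⟩ := ho s0 hs0
    exact h.pv
  have hqv : qH A B C v = 0 := by
    obtain ⟨r, n1, b, h, -⟩ := ho s0 hs0
    have hm : Psi A B C b = ((n1 : ℤ) * k0) • v := by
      funext i
      rw [← Ps_Psi, h.ps i, Pi.smul_apply, smul_eq_mul]
    have h1 := qH_Psi A B C b
    rw [hm, qH_smul] at h1
    have h2 : ((n1 : ℤ) * k0) ^ 2 ≠ 0 := by
      have h3 : (0 : ℤ) < (n1 : ℤ) * k0 := by exact_mod_cast Nat.mul_pos h.n0 hk0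
      positivity
    exact (mul_eq_zero.1 h1).resolve_left h2
  -- the root of a seed
  have hch : ∀ s : ℕ × ℕ, ∃ (ρ : ℕ), s ∈ S → ρ < s.1 ∧ Odd s.1 ∧ (s.1 : ℤ) ∣ 2 * ρ - B - s.2 ∧
      (s.1 : ℤ) ∣ (ρ : ℤ) ^ 2 - B * ρ + A * C ∧ Dat A B C v g k0 (s.1, ρ) := by
    intro s
    by_cases hs : s ∈ S
    · obtain ⟨r, n1, b, h, hr⟩ := ho s hs
      have hm := hS hs
      simp only [Sd, mem_filter, mem_product, mem_Ioc, mem_range] at hm
      obtain ⟨⟨⟨hn1, hn2⟩, hc⟩, hcn, hgcd, hrough, hsq⟩ := hm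
      have hn0 : 0 < s.1 := by omega
      have hnZ : (0 : ℤ) < s.1 := by exact_mod_cast hn0
      have hodd : Odd s.1 := by
        rw [← Nat.not_even_iff_odd]
        intro he
        have := hrough 2 Nat.prime_two he.two_dvd
        omega
      have hmod0 : 0 ≤ r % s.1 := Int.emod_nonneg _ hnZ.ne'
      have hmod1 : r % s.1 < s.1 := Int.emod_lt_of_pos _ hnZ
      obtain ⟨ρ, hρ⟩ : ∃ ρ : ℕ, (ρ : ℤ) = r % s.1 := ⟨(r % s.1).toNat, Int.toNat_of_nonneg hmod0⟩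
      obtain ⟨q, hq⟩ : ∃ q : ℤ, r = ρ + s.1 * q :=
        ⟨r / s.1, by rw [hρ]; exact (Int.emod_add_mul_ediv _ _).symm⟩
      have h1 : (s.1 : ℤ) ∣ 2 * ρ - B - s.2 := by
        obtain ⟨e, he⟩ := hr
        refine ⟨e - 2 * q, ?_⟩
        rw [hq] at he
        linear_combination he
      refine ⟨ρ, fun _ => ⟨by rw [← Nat.cast_lt (α := ℤ), hρ]; exact hmod1, hodd, h1, ?_, ?_⟩⟩
      · -- 4 (ρ² - B ρ + A C) = (2 ρ - B)² - D
        have h2 : (s.1 : ℤ) ∣ 4 * ((ρ : ℤ) ^ 2 - B * ρ + A * C) := by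
          obtain ⟨e, he⟩ := h1
          obtain ⟨f, hf⟩ := hsq
          refine ⟨e * (2 * ρ - B + s.2) + f, ?_⟩
          linear_combination (2 * (ρ : ℤ) - B + s.2) * he + hf
        have h3 : IsCoprime (s.1 : ℤ) 4 := by
          rw [Int.isCoprime_iff_gcd_eq_one]
          have h4 : Nat.Coprime s.1 4 := by
            have h5 : Nat.Coprime s.1 (2 ^ 2) := Nat.Coprime.pow_right 2 (Nat.coprime_two_right.2 hodd)
            simpa using h5
          exact h4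
        exact h3.dvd_of_dvd_mul_left h2
      · obtain ⟨⟨c, hc'⟩, ⟨d, hd'⟩⟩ := h.mn
        have hgn : (s.1 : ℤ) = g * n1 := by exact_mod_cast h.hn
        refine ⟨n1, b, h.n0, h.hn, h.pb, ⟨⟨c - g * q * b 1, ?_⟩, ⟨d - g * q * b 3, ?_⟩⟩, ?_⟩
        · rw [hq, hgn] at hc'
          show b 0 + (ρ : ℤ) * b 1 = _
          linear_combination hc'
        · rw [hq, hgn] at hd'
          show A * b 2 + (ρ : ℤ) * b 3 = _
          linear_combination hd'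
        · funext i
          rw [← Ps_Psi, h.ps i, Pi.smul_apply, smul_eq_mul]
    · exact ⟨0, fun h => absurd h hs⟩
  choose ρ hρ using hch
  have hinj : Set.InjOn (fun s : ℕ × ℕ => (s.1, ρ s)) S := by
    intro s hs s' hs' hss
    have hs := Finset.mem_coe.1 hs
    have hs' := Finset.mem_coe.1 hs'
    have hss' : (s.1, ρ s) = (s'.1, ρ s') := hss
    obtain ⟨e1, e2⟩ := Prod.mk.inj hss'
    obtain ⟨-, -, h1, -, -⟩ := hρ s hs
    obtain ⟨-, -, h2, -, -⟩ := hρ s' hs'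
    have hm := hS hs
    have hm' := hS hs'
    simp only [Sd, mem_filter, mem_product, mem_Ioc, mem_range] at hm hm'
    have hc : s.2 < s.1 := hm.2.1
    have hc' : s'.2 < s'.1 := hm'.2.1
    rw [← e1, ← e2] at h2
    have h3 : (s.1 : ℤ) ∣ (s.2 : ℤ) - s'.2 := by
      obtain ⟨e, he⟩ := h1
      obtain ⟨f, hf⟩ := h2
      exact ⟨f - e, by linear_combination hf - he⟩
    have h4 : (s.2 : ℤ) - s'.2 = 0 := by
      refine Int.eq_zero_of_abs_lt_dvd h3 ?_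
      rw [abs_lt]; constructor <;> omega
    exact Prod.ext e1 (by omega)
  have hcard : (S.image (fun s : ℕ × ℕ => (s.1, ρ s))).card = S.card := Finset.card_image_of_injOn hinj
  rw [← hcard]
  refine mult hA0 hD hN hv hqv hg hk0 hAk hsq _ ?_
  intro s hs
  obtain ⟨t, ht, rfl⟩ := Finset.mem_image.1 hs
  obtain ⟨h1, h2, h3, h4, h5⟩ := hρ t ht
  have hm := hS ht
  simp only [Sd, mem_filter, mem_product, mem_Ioc, mem_range] at hm
  obtain ⟨⟨⟨hn1, hn2⟩, hc⟩, hcn, hgcd, hrough, -⟩ := hm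
  refine ⟨hn2, h1, hA _ (by omega) hn2, ?_, h4, h5⟩
  intro p hp hpn hpD
  have h6 : p ∣ Int.gcd (B ^ 2 - 4 * A * C) t.1 :=
    Int.dvd_gcd hpD (by exact_mod_cast hpn)
  rw [hgcd] at h6
  exact hp.one_lt.ne' (Nat.dvd_one.1 h6)

theorem mlt_one {A B C : ℤ} (hD : B ^ 2 - 4 * A * C < 0) {w N : ℕ} (hw : 2 ≤ w)
    (hN : 4 * (N : ℤ) ^ 2 < 4 * A * C - B ^ 2)
    (hA : ∀ n : ℕ, 0 < n → n ≤ N → IsCoprime A (n : ℤ)) {v : Fin 4 → ℤ} (S : Finset (ℕ × ℕ))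
    (hS : S ⊆ Sd w (B ^ 2 - 4 * A * C) N) (hd : ∀ s ∈ S, Dt A B C s 1 v) : S.card ≤ 1 := by
  have h := Mlt_fix hD hw hN hA (g := 1) (k0 := 1) one_pos one_pos (by simp [isCoprime_one_right])
    (fun p hp hp1 => absurd (Nat.dvd_one.1 hp1) hp.one_lt.ne') (v := v) S hS ?_
  · simpa using h
  · intro s hs
    obtain ⟨r, g, n1, k0, b, h1, h2, h3⟩ := hd s hs
    obtain ⟨rfl, rfl⟩ : g = 1 ∧ k0 = 1 :=
      ⟨Nat.dvd_one.1 ⟨k0, h2.symm⟩, Nat.dvd_one.1 ⟨g, by rw [mul_comm]; exact h2.symm⟩⟩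
    exact ⟨r, n1, b, h1, h3⟩

theorem mlt {A B C : ℤ} (hD : B ^ 2 - 4 * A * C < 0) {w N k : ℕ} (hw : 2 ≤ w) (hk : 0 < k)
    (hN : 4 * (N : ℤ) ^ 2 < 4 * A * C - B ^ 2)
    (hA : ∀ n : ℕ, 0 < n → n ≤ N → IsCoprime A (n : ℤ)) (hAk : ∀ n : ℕ, 0 < n → n ≤ k → IsCoprime A (n : ℤ))
    (hkD : ∀ p : ℕ, p.Prime → p ∣ k → ¬ (p : ℤ) ^ 2 ∣ B ^ 2 - 4 * A * C) {v : Fin 4 → ℤ} (S : Finset (ℕ × ℕ))
    (hS : S ⊆ Sd w (B ^ 2 - 4 * A * C) N) (ho : ∀ s ∈ S, ∃ (r : ℤ) (g n1 k0 : ℕ) (b : Fin 4 → ℤ),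
      Sh A B C s.1 r g n1 k0 b v ∧ g * k0 = k ∧ (s.1 : ℤ) ∣ 2 * r - B - s.2 ∧ Odd k0) :
    S.card ≤ k.divisors.card ^ 3 := by
  classical
  choose! r g n1 k0 b h1 h2 h3 h4 using ho
  have hmaps : ∀ s ∈ S, g s ∈ k.divisors := fun s hs =>
    Nat.mem_divisors.2 ⟨⟨k0 s, (h2 s hs).symm⟩, hk.ne'⟩
  have hfib : ∀ a ∈ k.divisors, (S.filter (fun s => g s = a)).card ≤ k.divisors.card ^ 2 := by
    intro a ha
    obtain ⟨k', hk'⟩ := (Nat.mem_divisors.1 ha).1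
    have ha0 : 0 < a := Nat.pos_of_mem_divisors ha
    have hk'0 : 0 < k' := by
      rcases Nat.eq_zero_or_pos k' with rfl | h
      · simp at hk'; omega
      · exact h
    have hdk : k' ∣ k := ⟨a, by rw [hk']; ring⟩
    have hke : ∀ s ∈ S.filter (fun s => g s = a), k0 s = k' := by
      intro s hs
      obtain ⟨hsS, hsa⟩ := Finset.mem_filter.1 hs
      have h5 := h2 s hsS
      rw [hsa, hk'] at h5
      exact Nat.eq_of_mul_eq_mul_left ha0 h5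
    rcases (S.filter (fun s => g s = a)).eq_empty_or_nonempty with he | ⟨s0, hs0⟩
    · rw [he]; simp
    have hodd : Odd k' := by
      have h5 := h4 s0 (Finset.mem_filter.1 hs0).1
      rwa [hke s0 hs0] at h5
    have h6 := Mlt_fix hD hw hN hA (g := a) (k0 := k') ha0 hk'0
      (hAk k' hk'0 (Nat.le_of_dvd hk hdk)) (fun p hp hpk => Or.inr ⟨?_, hkD p hp (hpk.trans hdk)⟩)
      (v := v) (S.filter (fun s => g s = a)) ((Finset.filter_subset _ _).trans hS) ?_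
    · refine h6.trans ?_
      rw [pow_two]
      exact Nat.mul_le_mul (Finset.card_le_card (Nat.divisors_subset_of_dvd hk.ne' ⟨k', hk'⟩))
        (Finset.card_le_card (Nat.divisors_subset_of_dvd hk.ne' hdk))
    · rintro rfl
      have := hodd
      rw [← Nat.not_even_iff_odd] at this
      exact this (even_iff_two_dvd.2 hpk)
    · intro s hs
      obtain ⟨hsS, hsa⟩ := Finset.mem_filter.1 hs
      have h7 := h1 s hsS
      rw [hsa, hke s hs] at h7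
      exact ⟨r s, n1 s, b s, h7, h3 s hsS⟩
  calc S.card = ∑ a ∈ k.divisors, (S.filter (fun s => g s = a)).card :=
        Finset.card_eq_sum_card_fiberwise hmaps
    _ ≤ ∑ a ∈ k.divisors, k.divisors.card ^ 2 := Finset.sum_le_sum hfib
    _ = k.divisors.card ^ 3 := by
        rw [Finset.sum_const, smul_eq_mul]; ring

end Pool.Agent.PP5LA
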