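import Pool.Agent.PP5LA.Defs

/-!
# LB5, section A, module Rpz (size 3): the projection `PZ`

PROOF.  Tools in `PP5/LId.lean`, `PP5/LId2.lean` (over any commutative ring): `HH_HP x s i : HH x (HP x s) i = FF x * s i`, `SS_eq`
(`dot (HP x (rho i)) (rho j) = SS x i j`), `HH` linear in the second argument.  `pz_LR`: `HH x (PZ x s) = 0` since every term is `HP x _` and
`FF x = 0`; `dot (PZ x s) (rho j) = D m_j - Σ_i (adj m)_i S_ij = D m_j - (S adj m)_j = 0` (`S` symmetric, `Matrix.mul_adjugate`).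
`pz_smul`: `HP (a x) = a HP x`, `SS (a x) = a SS x`, `det`, `adjugate` scale by `a⁴`, `a³`.  `pz_xs`: `decide` / `simp` / `norm_num`
(computation with explicit integers; `adjugate` of an explicit 4 × 4 matrix: `Matrix.adjugate_fin_succ_eq_det_submatrix` or `ext i j; fin_cases`;
or avoid the adjugate: at `xs` the vectors lie in `L_xs`, so `m = dot (HP xs (HH e2 s)) (rho j) = 0` and the sum vanishes, and
`HP xs (HH e2 s) = x0 s = s`, `det (SS xs) = -24`).  `pz_cast`: `map` of a ring homomorphism.  `pz_cont`: polynomial.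
-/

set_option autoImplicit false

namespace Pool.Agent.PP5LA

open Matrix Finset Pool.Agent.PP5B Pool.Agent.LB

private theorem Rpz_eq {R : Type*} [CommRing R] (x : Fin 10 → R) (s : Fin 16 → R) :
    PZ x s = (PP5L.SS x).det • PP5L.HP x (PP5L.HH (Pi.single 2 1) s) -
      ∑ i : Fin 4, ((PP5L.SS x).adjugate *ᵥ
        (fun j => PP5L.dot (PP5L.HP x (PP5L.HH (Pi.single 2 1) s)) (PP5L.rho j))) i • PP5L.HP x (PP5L.rho i) := by
  funext k
  simp [PZ, Finset.sum_apply]

private theorem Rpz_HHHP {R : Type*} [CommRing R] {x : Fin 10 → R} (hF : PP5L.FF x = 0) (t : Fin 16 → R) :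
    PP5L.HH x (PP5L.HP x t) = 0 := by
  funext i
  rw [PP5L.HH_HP, hF]
  simp

theorem pz_HH {R : Type*} [CommRing R] {x : Fin 10 → R} (hF : PP5L.FF x = 0) (s : Fin 16 → R) :
    PP5L.HH x (PZ x s) = 0 := by
  rw [← PP5L.HHl_apply, Rpz_eq, map_sub, map_smul, map_sum]
  simp only [map_smul, PP5L.HHl_apply, Rpz_HHHP hF, smul_zero, Finset.sum_const_zero, sub_zero]

private theorem Rpz_symm {R : Type*} [CommRing R] (x : Fin 10 → R) (i j : Fin 4) :
    PP5L.SS x i j = PP5L.SS x j i := by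
  fin_cases i <;> fin_cases j <;> rfl

theorem pz_dot {R : Type*} [CommRing R] (x : Fin 10 → R) (s : Fin 16 → R) (j : Fin 4) :
    PP5L.dot (PZ x s) (PP5L.rho j) = 0 := by
  have h0 : PP5L.dot (PZ x s) (PP5L.rho j) = PP5L.dotl.flip (PP5L.rho j) (PZ x s) := rfl
  rw [h0, Rpz_eq, map_sub, map_smul, map_sum]
  simp only [map_smul]
  set m : Fin 4 → R := fun j => PP5L.dot (PP5L.HP x (PP5L.HH (Pi.single 2 1) s)) (PP5L.rho j) with hm
  have h1 : ∀ t : Fin 16 → R, PP5L.dotl.flip (PP5L.rho j) t = PP5L.dot t (PP5L.rho j) := fun _ => rfl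
  simp only [h1, PP5L.SS_eq]
  have h2 : PP5L.dot (PP5L.HP x (PP5L.HH (Pi.single 2 1) s)) (PP5L.rho j) = m j := rfl
  rw [h2]
  have h3 : ∑ i : Fin 4, ((PP5L.SS x).adjugate *ᵥ m) i • PP5L.SS x i j =
      (PP5L.SS x *ᵥ ((PP5L.SS x).adjugate *ᵥ m)) j := by
    rw [Matrix.mulVec, dotProduct]
    refine Finset.sum_congr rfl fun i _ => ?_
    rw [smul_eq_mul, mul_comm, Rpz_symm x i j]
  rw [h3, Matrix.mulVec_mulVec, Matrix.mul_adjugate, Matrix.smul_mulVec, Matrix.one_mulVec]
  simp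

theorem pz_HPs {R : Type*} [CommRing R] (a : R) (x : Fin 10 → R) (t : Fin 16 → R) :
    PP5L.HP (fun j => a * x j) t = a • PP5L.HP x t := by
  funext i
  fin_cases i <;>
    (simp only [Fin.zero_eta, Fin.mk_one, Fin.reduceFinMk, PP5L.HP, Matrix.cons_val, Pi.smul_apply, smul_eq_mul]
     ring)

private theorem Rpz_SSs {R : Type*} [CommRing R] (a : R) (x : Fin 10 → R) :
    PP5L.SS (fun j => a * x j) = a • PP5L.SS x := by
  ext i j
  fin_cases i <;> fin_cases j <;>
    simp only [Fin.zero_eta, Fin.mk_one, Fin.reduceFinMk, PP5L.SS, Matrix.of_apply, Matrix.cons_val, Matrix.smul_apply,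
      smul_eq_mul] <;> ring

theorem pz_smul {R : Type*} [CommRing R] (a : R) (x : Fin 10 → R) (s : Fin 16 → R) (i : Fin 16) :
    PZ (fun j => a * x j) s i = a ^ 5 * PZ x s i := by
  have hd : ∀ t : Fin 16 → R, ∀ j : Fin 4, PP5L.dot (a • t) (PP5L.rho j) = a * PP5L.dot t (PP5L.rho j) := by
    intro t j
    have : PP5L.dotl.flip (PP5L.rho j) (a • t) = a • PP5L.dotl.flip (PP5L.rho j) t := map_smul _ _ _
    exact this
  unfold PZ
  simp only [pz_HPs, Rpz_SSs, Matrix.det_smul, Matrix.adjugate_smul, Fintype.card_fin, hd]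
  have hm : (fun j => a * PP5L.dot (PP5L.HP x (PP5L.HH (Pi.single 2 1) s)) (PP5L.rho j)) =
      a • (fun j => PP5L.dot (PP5L.HP x (PP5L.HH (Pi.single 2 1) s)) (PP5L.rho j)) := by
    funext j; simp
  rw [hm]
  simp only [Matrix.mulVec_smul, Matrix.smul_mulVec, Pi.smul_apply, smul_eq_mul]
  rw [mul_sub, Finset.mul_sum]
  congr 1
  · ring
  · refine Finset.sum_congr rfl fun k _ => ?_
    norm_num
    ring

section cast
variable {R S : Type*} [CommRing R] [CommRing S]

theorem pz_HPm (f : R →+* S) (x : Fin 10 → R) (s : Fin 16 → R) (i : Fin 16) :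
    PP5L.HP (fun j => f (x j)) (fun j => f (s j)) i = f (PP5L.HP x s i) := by
  fin_cases i <;> simp only [Fin.zero_eta, Fin.mk_one, Fin.reduceFinMk, PP5L.HP, Matrix.cons_val, map_add, map_sub, map_mul, map_neg]

theorem pz_HHm (f : R →+* S) (x : Fin 10 → R) (s : Fin 16 → R) (i : Fin 16) :
    PP5L.HH (fun j => f (x j)) (fun j => f (s j)) i = f (PP5L.HH x s i) := by
  fin_cases i <;> simp only [Fin.zero_eta, Fin.mk_one, Fin.reduceFinMk, PP5L.HH, Matrix.cons_val, map_add, map_sub, map_mul, map_neg]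

private theorem Rpz_SSm (f : R →+* S) (x : Fin 10 → R) :
    PP5L.SS (fun j => f (x j)) = f.mapMatrix (PP5L.SS x) := by
  ext i j
  fin_cases i <;> fin_cases j <;> simp only [Fin.zero_eta, Fin.mk_one, Fin.reduceFinMk, PP5L.SS, Matrix.of_apply, Matrix.cons_val,
    RingHom.mapMatrix_apply, Matrix.map_apply, map_add, map_sub, map_mul, map_neg, map_ofNat]

private theorem Rpz_rhom (f : R →+* S) (i : Fin 4) :
    (PP5L.rho i : Fin 16 → S) = fun k => f ((PP5L.rho i : Fin 16 → R) k) := by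
  funext k
  fin_cases i <;> fin_cases k <;> simp only [Fin.zero_eta, Fin.mk_one, Fin.reduceFinMk, PP5L.rho, Matrix.cons_val, map_zero, map_one, map_neg]

private theorem Rpz_dotm (f : R →+* S) (s t : Fin 16 → R) :
    PP5L.dot (fun j => f (s j)) (fun j => f (t j)) = f (PP5L.dot s t) := by
  simp [PP5L.dot, map_sum]

private theorem Rpz_map (f : R →+* S) (x : Fin 10 → R) (s : Fin 16 → R) (k : Fin 16) :
    PZ (fun j => f (x j)) (fun j => f (s j)) k = f (PZ x s k) := by
  have h1 : (Pi.single 2 1 : Fin 10 → S) = fun j => f ((Pi.single 2 1 : Fin 10 → R) j) := by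
    funext j
    by_cases h : j = 2
    · subst h; simp
    · simp [h]
  have h2 : PP5L.HH (Pi.single 2 1 : Fin 10 → S) (fun j => f (s j)) =
      fun j => f (PP5L.HH (Pi.single 2 1) s j) := by
    rw [h1]; funext j; exact pz_HHm f _ _ j
  have h3 : PP5L.HP (fun j => f (x j)) (PP5L.HH (Pi.single 2 1 : Fin 10 → S) (fun j => f (s j))) =
      fun j => f (PP5L.HP x (PP5L.HH (Pi.single 2 1) s) j) := by
    rw [h2]; funext j; exact pz_HPm f _ _ j
  have h4 : ∀ i : Fin 4, PP5L.HP (fun j => f (x j)) (PP5L.rho i : Fin 16 → S) =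
      fun j => f (PP5L.HP x (PP5L.rho i) j) := by
    intro i
    rw [Rpz_rhom f i]; funext j; exact pz_HPm f _ _ j
  have h5 : (fun j : Fin 4 => PP5L.dot (fun k => f (PP5L.HP x (PP5L.HH (Pi.single 2 1) s) k)) (PP5L.rho j : Fin 16 → S)) =
      fun j => f (PP5L.dot (PP5L.HP x (PP5L.HH (Pi.single 2 1) s)) (PP5L.rho j)) := by
    funext j
    rw [Rpz_rhom f j]; exact Rpz_dotm f _ _
  unfold PZ
  rw [h3, h5, Rpz_SSm, ← RingHom.map_det, ← RingHom.map_adjugate, map_sub, map_mul, map_sum]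
  congr 1
  refine Finset.sum_congr rfl fun i _ => ?_
  rw [h4 i, map_mul]
  congr 1
  have := RingHom.map_mulVec f (PP5L.SS x).adjugate
    (fun j => PP5L.dot (PP5L.HP x (PP5L.HH (Pi.single 2 1) s)) (PP5L.rho j)) i
  rw [this]
  rfl

end cast

theorem pz_cast (x : Fin 10 → ℤ) (s : Fin 16 → ℤ) : PZ (rv x) (rv s) = rv (PZ x s) := by
  funext k
  exact Rpz_map (Int.castRingHom ℝ) x s k

private theorem Rpz_det : (PP5L.SS xs).det = -24 := by
  rw [Matrix.det_succ_row_zero]
  simp [Fin.sum_univ_succ, Matrix.det_fin_three, Fin.succAbove, Matrix.submatrix, PP5L.SS, xs]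

private theorem Rpz_at (s : Fin 16 → ℤ) (h1 : PP5L.HP xs (PP5L.HH (Pi.single 2 1) s) = s)
    (h2 : ∀ j, PP5L.dot s (PP5L.rho j) = 0) (i : Fin 16) : PZ xs s i = -24 * s i := by
  unfold PZ
  rw [h1, Rpz_det]
  have : (fun j => PP5L.dot s (PP5L.rho j)) = (0 : Fin 4 → ℤ) := by funext j; exact h2 j
  rw [this]
  simp

theorem pz_p (i : Fin 16) : PZ xs p16 i = -24 * p16 i := by
  refine Rpz_at p16 ?_ ?_ i
  · decide
  · decide

theorem pz_t (i : Fin 16) : PZ xs t16 i = -24 * t16 i := by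
  refine Rpz_at t16 ?_ ?_ i
  · decide
  · decide

private theorem Rpz_cHP (t : Fin 16 → ℝ) (k : Fin 16) : Continuous (fun x : Fin 10 → ℝ => PP5L.HP x t k) := by
  fin_cases k <;> simp only [Fin.zero_eta, Fin.mk_one, Fin.reduceFinMk, PP5L.HP, Matrix.cons_val] <;> fun_prop

private theorem Rpz_cSS : Continuous (fun x : Fin 10 → ℝ => PP5L.SS x) := by
  refine continuous_matrix fun i j => ?_
  fin_cases i <;> fin_cases j <;> simp only [Fin.zero_eta, Fin.mk_one, Fin.reduceFinMk, PP5L.SS, Matrix.of_apply, Matrix.cons_val] <;> fun_prop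

theorem pz_cont (s : Fin 16 → ℝ) : Continuous (fun x : Fin 10 → ℝ => PZ x s) := by
  refine continuous_pi fun k => ?_
  unfold PZ
  refine Continuous.sub (Rpz_cSS.matrix_det.mul (Rpz_cHP _ k)) ?_
  refine continuous_finsetSum _ fun i _ => ?_
  refine Continuous.mul ?_ (Rpz_cHP _ k)
  have hv : Continuous (fun x : Fin 10 → ℝ =>
      (fun j => PP5L.dot (PP5L.HP x (PP5L.HH (Pi.single 2 1) s)) (PP5L.rho j) : Fin 4 → ℝ)) := by
    refine continuous_pi fun j => ?_
    unfold PP5L.dot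
    refine continuous_finsetSum _ fun l _ => ?_
    exact (Rpz_cHP _ l).mul continuous_const
  exact (continuous_apply i).comp (Rpz_cSS.matrix_adjugate.matrix_mulVec hv)

end Pool.Agent.PP5LA
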