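import Pool.Agent.PP5LA.Rxs
import Pool.Agent.PP5LA.Rpz

/-!
# LB5, section A, module Rcp (size 4): the quadratic space `L_x` for `x` near `xs`

PROOF.  Suppose not: for every `n ≥ 1` there are `x_n`, `|x_n - xs| ≤ 1/n`, and `s_n ∈ LR x_n`, `s_n ≠ 0`, with
`(1/n) Σ s² > qR x_n s_n + (bR x_n (PZ x_n t16) s_n)²`; both sides are homogeneous of degree 2, so `Σ s_n² = 1`.  The unit sphere of `ℝ^16` is
compact: a subsequence `s_n → s`, `Σ s² = 1`, and by continuity (`HH`, `dot`, `Qd`, `Bd`, `PZ`, division by `x 0 → 1`) `s ∈ LR xs` and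
`qR xs s + (bR xs (PZ xs t16) s)² ≤ 0`.  But `PZ xs t16 = -24 t16`, so this is `Qd s 0 + 576 (Bd t16 s 0)² ≥ Qd s 0 + (Bd t16 s 0)² ≥ 1/20`
(`rxs`), contradiction.  (Or: `IsCompact.exists_isMinOn` on the compact set of pairs is awkward; sequences or the filter
`nhds xs` with `IsCompact.elim_nhds_subcover`; free choice.)
-/

set_option autoImplicit false

namespace Pool.Agent.PP5LA

open Matrix Finset Pool.Agent.PP5B Pool.Agent.LB

private lemma Rcp_HH_smul (x : Fin 10 → ℝ) (a : ℝ) (s : Fin 16 → ℝ) (i : Fin 16) :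
    PP5L.HH x (fun j => a * s j) i = a * PP5L.HH x s i := by
  exact congrFun (PP5L.HH_smul x a s) i

private lemma Rcp_dot_smul (a : ℝ) (s t : Fin 16 → ℝ) :
    PP5L.dot (fun j => a * s j) t = a * PP5L.dot s t := by
  unfold PP5L.dot
  rw [Finset.mul_sum]
  refine Finset.sum_congr rfl fun i _ => by ring

private lemma Rcp_LR_smul (x : Fin 10 → ℝ) (a : ℝ) (s : Fin 16 → ℝ) (h : LR x s) :
    LR x (fun j => a * s j) := by
  refine ⟨?_, fun i => ?_⟩
  · funext i
    rw [Rcp_HH_smul, h.1]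
    simp
  · rw [Rcp_dot_smul, h.2 i, mul_zero]

private lemma Rcp_qR_smul (x : Fin 10 → ℝ) (a : ℝ) (s : Fin 16 → ℝ) :
    qR x (fun j => a * s j) = a ^ 2 * qR x s := by
  unfold qR PP5L.Qd
  simp only [Matrix.cons_val_zero]
  ring

private lemma Rcp_bR_smul (x : Fin 10 → ℝ) (a : ℝ) (u s : Fin 16 → ℝ) :
    bR x u (fun j => a * s j) = a * bR x u s := by
  unfold bR PP5L.Bd
  simp only [Matrix.cons_val_zero]
  ring

private lemma Rcp_HH_cont (i : Fin 16) :
    Continuous (fun p : (Fin 10 → ℝ) × (Fin 16 → ℝ) => PP5L.HH p.1 p.2 i) := by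
  fin_cases i <;> simp only [Fin.zero_eta, Fin.mk_one, Fin.reduceFinMk, PP5L.HH, Matrix.cons_val] <;> fun_prop

private lemma Rcp_dot_cont (t : Fin 16 → ℝ) :
    Continuous (fun p : (Fin 10 → ℝ) × (Fin 16 → ℝ) => PP5L.dot p.2 t) := by
  unfold PP5L.dot
  fun_prop

private lemma Rcp_G_cont :
    Continuous (fun p : (Fin 10 → ℝ) × (Fin 16 → ℝ) =>
      PP5L.Qd p.2 0 * p.1 0 + (PP5L.Bd (PZ p.1 (rv t16)) p.2 0) ^ 2) := by
  have h1 : Continuous (fun p : (Fin 10 → ℝ) × (Fin 16 → ℝ) => PZ p.1 (rv t16)) :=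
    (pz_cont (rv t16)).comp continuous_fst
  have h2 : ∀ i, Continuous (fun p : (Fin 10 → ℝ) × (Fin 16 → ℝ) => PZ p.1 (rv t16) i) :=
    fun i => (continuous_apply i).comp h1
  unfold PP5L.Qd PP5L.Bd
  simp only [Matrix.cons_val_zero]
  have e0 := h2 0
  have e3 := h2 3
  have e4 := h2 4
  have e7 := h2 7
  have e8 := h2 8
  have e10 := h2 10
  have e12 := h2 12
  have e14 := h2 14
  fun_prop

private lemma Rcp_xs0 : (xs 0 : ℝ) = 1 := by
  norm_num [xs]

theorem rcp : ∃ δ c : ℝ, 0 < δ ∧ δ ≤ 1 / 2 ∧ 0 < c ∧ ∀ x : Fin 10 → ℝ, (∀ j, |x j - (xs j : ℝ)| ≤ δ) →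
    ∀ s : Fin 16 → ℝ, LR x s → c * ∑ i, s i ^ 2 ≤ qR x s + (bR x (PZ x (rv t16)) s) ^ 2 := by
  by_contra hcon
  push Not at hcon
  have h1 : ∀ n : ℕ, ∃ (x : Fin 10 → ℝ) (s : Fin 16 → ℝ),
      (∀ j, |x j - (xs j : ℝ)| ≤ 1 / ((n : ℝ) + 2)) ∧ LR x s ∧ ∑ i, s i ^ 2 = 1 ∧
      PP5L.Qd s 0 * x 0 + (PP5L.Bd (PZ x (rv t16)) s 0) ^ 2 ≤ 1 / ((n : ℝ) + 2) * x 0 ^ 2 := by
    intro n
    have hn : (0 : ℝ) < 1 / ((n : ℝ) + 2) := by positivity
    have hn2 : 1 / ((n : ℝ) + 2) ≤ 1 / 2 := by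
      apply one_div_le_one_div_of_le (by norm_num)
      have : (0 : ℝ) ≤ n := Nat.cast_nonneg n
      linarith
    obtain ⟨x, hx, s, hs, hlt⟩ := hcon (1 / ((n : ℝ) + 2)) (1 / ((n : ℝ) + 2)) hn hn2 hn
    have hx0 : 1 / 2 ≤ x 0 := by
      have h := hx 0
      rw [Rcp_xs0] at h
      have h' := (abs_le.1 h).1
      linarith
    have hS0 : 0 ≤ ∑ i, s i ^ 2 := Finset.sum_nonneg fun i _ => sq_nonneg _
    have hS : 0 < ∑ i, s i ^ 2 := by
      rcases hS0.lt_or_eq with h | h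
      · exact h
      · exfalso
        have hz : ∀ i, s i = 0 := by
          intro i
          have := (Finset.sum_eq_zero_iff_of_nonneg (fun i _ => sq_nonneg (s i))).1 h.symm i (Finset.mem_univ i)
          exact pow_eq_zero_iff (two_ne_zero) |>.1 this
        have hq : qR x s = 0 := by
          unfold qR PP5L.Qd
          simp [hz]
        rw [← h, hq] at hlt
        have := sq_nonneg (bR x (PZ x (rv t16)) s)
        linarith
    have hr : 0 < Real.sqrt (∑ i, s i ^ 2) := Real.sqrt_pos.2 hS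
    have hr2 : Real.sqrt (∑ i, s i ^ 2) ^ 2 = ∑ i, s i ^ 2 := Real.sq_sqrt hS0
    obtain ⟨a, ha⟩ : ∃ a : ℝ, a = (Real.sqrt (∑ i, s i ^ 2))⁻¹ := ⟨_, rfl⟩
    have ha2 : a ^ 2 * ∑ i, s i ^ 2 = 1 := by
      rw [ha, inv_pow, hr2, inv_mul_cancel₀ hS.ne']
    have ha0 : 0 < a ^ 2 := by
      rw [ha]; positivity
    refine ⟨x, fun i => a * s i, hx, Rcp_LR_smul x a s hs, ?_, ?_⟩
    · rw [← ha2, Finset.mul_sum]
      refine Finset.sum_congr rfl fun i _ => by ring
    · have hk : qR x (fun i => a * s i) + (bR x (PZ x (rv t16)) (fun i => a * s i)) ^ 2 ≤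
          1 / ((n : ℝ) + 2) := by
        rw [Rcp_qR_smul, Rcp_bR_smul]
        have h := mul_lt_mul_of_pos_left hlt ha0
        have e : a ^ 2 * (1 / ((n : ℝ) + 2) * ∑ i, s i ^ 2) = 1 / ((n : ℝ) + 2) := by
          rw [mul_left_comm, ha2, mul_one]
        rw [e] at h
        nlinarith
      have hx0' : x 0 ≠ 0 := by linarith
      have h := mul_le_mul_of_nonneg_right hk (sq_nonneg (x 0))
      refine le_trans (le_of_eq ?_) h
      unfold qR bR
      field_simp
  choose xx ss hx hL hN hG using h1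
  have hK : IsCompact {s : Fin 16 → ℝ | ∑ i, s i ^ 2 = 1} := by
    apply Metric.isCompact_of_isClosed_isBounded
    · exact isClosed_eq (by fun_prop) continuous_const
    · refine (Metric.isBounded_closedBall (x := (0 : Fin 16 → ℝ)) (r := 1)).subset ?_
      intro s hs
      rw [mem_closedBall_zero_iff, pi_norm_le_iff_of_nonneg zero_le_one]
      intro i
      rw [Real.norm_eq_abs]
      have h2 : s i ^ 2 ≤ ∑ i, s i ^ 2 :=
        Finset.single_le_sum (f := fun i => s i ^ 2) (fun i _ => sq_nonneg _) (Finset.mem_univ i)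
      rw [hs] at h2
      exact (sq_le_one_iff_abs_le_one _).1 h2
  obtain ⟨s, hs1, φ, hφ, hlim⟩ := hK.tendsto_subseq (x := ss) (fun n => hN n)
  have h0 : Filter.Tendsto (fun n : ℕ => 1 / ((n : ℝ) + 2)) Filter.atTop (nhds 0) := by
    have := (tendsto_one_div_add_atTop_nhds_zero_nat (𝕜 := ℝ)).comp (Filter.tendsto_add_atTop_nat 1)
    refine this.congr fun n => ?_
    simp only [Function.comp, Nat.cast_add, Nat.cast_one]
    norm_num [add_assoc]
  have hxl : Filter.Tendsto xx Filter.atTop (nhds (rv xs)) := by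
    rw [tendsto_pi_nhds]
    intro j
    rw [tendsto_iff_dist_tendsto_zero]
    refine squeeze_zero (fun n => dist_nonneg) (fun n => ?_) h0
    rw [Real.dist_eq]
    exact hx n j
  have hxl' : Filter.Tendsto (xx ∘ φ) Filter.atTop (nhds (rv xs)) := hxl.comp hφ.tendsto_atTop
  have hp : Filter.Tendsto (fun n => ((xx ∘ φ) n, (ss ∘ φ) n)) Filter.atTop (nhds (rv xs, s)) :=
    hxl'.prodMk_nhds hlim
  have hLs : LR (rv xs) s := by
    refine ⟨?_, fun i => ?_⟩
    · funext i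
      have h := ((Rcp_HH_cont i).tendsto (rv xs, s)).comp hp
      have h' : Filter.Tendsto (fun _ : ℕ => (0 : ℝ)) Filter.atTop (nhds (PP5L.HH (rv xs) s i)) := by
        refine h.congr fun n => ?_
        simp only [Function.comp]
        rw [(hL (φ n)).1]
        rfl
      have := tendsto_nhds_unique h' tendsto_const_nhds
      simpa using this
    · have h := ((Rcp_dot_cont (PP5L.rho i)).tendsto (rv xs, s)).comp hp
      have h' : Filter.Tendsto (fun _ : ℕ => (0 : ℝ)) Filter.atTop (nhds (PP5L.dot s (PP5L.rho i))) := by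
        refine h.congr fun n => ?_
        simp only [Function.comp]
        exact (hL (φ n)).2 i
      exact tendsto_nhds_unique h' tendsto_const_nhds
  have hGs : PP5L.Qd s 0 * (rv xs) 0 + (PP5L.Bd (PZ (rv xs) (rv t16)) s 0) ^ 2 ≤ 0 := by
    have h := ((Rcp_G_cont).tendsto (rv xs, s)).comp hp
    have h2 : Filter.Tendsto (fun n => 1 / (((φ n : ℕ) : ℝ) + 2) * (xx (φ n) 0) ^ 2) Filter.atTop
        (nhds (0 * (rv xs 0) ^ 2)) := by
      refine (h0.comp hφ.tendsto_atTop).mul ?_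
      exact (((continuous_apply (0 : Fin 10)).tendsto (rv xs)).comp hxl').pow 2
    rw [zero_mul] at h2
    refine le_of_tendsto_of_tendsto' h h2 fun n => ?_
    exact hG (φ n)
  have hPZ : PZ (rv xs) (rv t16) = fun i => (-24 : ℝ) * rv t16 i := by
    rw [pz_cast]
    funext i
    show ((PZ xs t16 i : ℤ) : ℝ) = _
    rw [pz_t]
    push_cast
    rfl
  have hB : PP5L.Bd (fun i => (-24 : ℝ) * rv t16 i) s 0 = -24 * PP5L.Bd (rv t16) s 0 := by
    unfold PP5L.Bd
    simp only [Matrix.cons_val_zero]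
    ring
  have hx0 : (rv xs) 0 = (1 : ℝ) := Rcp_xs0
  rw [hPZ, hB, hx0] at hGs
  have hfin := rxs s hLs
  have hs1' : ∑ i, s i ^ 2 = 1 := hs1
  rw [hs1'] at hfin
  nlinarith [sq_nonneg (PP5L.Bd (rv t16) s 0)]

end Pool.Agent.PP5LA
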