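import Pool.Agent.PP5LA.Rpz

/-!
# LB5, section A, module Rdr0: tools for the direction theorem (`Rdr.lean`)

PROOF.  Let `δ0, c` be from `rcp`, `T = PZ x t16`, `P = PZ x p16` (both in `LR x`), `τ = P + ε T`.  At `xs`: `T = -24 t16`, `P = -24 p16`,
`Qd t16 0 = -1`, `Bd p16 t16 0 = -14`, `Qd p16 0 = 0`: `qR T = -576`, `bR P T = -8064`, `qR P = 0`.  By continuity (`pz_cont`) there is `δ(ε) ≤ δ0`
with: `qR T ∈ [-600, -500]`, `bR P T ∈ [-8100, -8000]`, `|qR P| ≤ ε`, `|P_i + 24 p16_i| ≤ η` (`η` absolute, see below).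
`q(τ) = q(P) + ε b(P,T) + ε² q(T)` is in `[-9000 ε, -ε]` (`ε ≤ 1/100`).
Write `β(s) := bR x T s`.  If `β(s) = 0` then `q(s) ≥ c Σ s_i²`.  Let `s ∈ LR x` with `Qd s 0 = 0`: `β(s)² ≥ c Σ s_i²`.  If `β(s) = 0` then `s = 0`
(trivial case).  Replacing `s` by `-s` we may assume `β(s) < 0` (everything in the conclusion is even).  `ψ := β(P) < 0`.
`w := s / β(s) - P / ψ ∈ LR x`, `β(w) = 0`, so `c Σ w² ≤ q(w) = q(P)/ψ² - b(s,P)/(β(s) ψ)` (`q(s) = 0`).  Multiply by `β(s) ψ > 0`: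
`b(s,P) ≤ β(s) q(P)/ψ - c (Σ w²) β(s) ψ`, so `b(τ,s) = b(P,s) + ε β(s) ≤ |β(s)| |q(P)|/|ψ| - c (Σ w²) |β(s)| |ψ| - ε |β(s)|
≤ -(ε/2) |β(s)| - 8000 c (Σ w²) |β(s)|`.  Hence, if `|b(τ,s)| ≤ M √ε`: (1) `|β(s)| ≤ 2 M / √ε`, so `|s_i| ≤ |β(s)|/√c ≤ C M / √ε`;
(2) either `|β(s)| ≤ K M √ε` (then `|s_i| ≤ (K/√c) M √ε`) or `8000 c Σ w² < 1 / K`, so all `|w_i| ≤ η` if `K` is large in terms of `η, c`.
In the last case `s / β(s) = w + P/ψ` is within `2 η` of `p16 / 336` (`24/8064 = 1/336`; `ψ` near `-8064`), and by continuity of `DfR` and of the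
coordinate `8` at `p16/336` (`DfR p16 = -11`, `p16 8 = 5`): `|s 8 / β(s)| ≥ 1/100`, `-DfR (s/β(s)) ≥ 10 / 336⁴`; `η` is chosen for this, absolute.
`DfR` is homogeneous of degree 4, `|β(s)| ≥ √c |s_i|` for all `i`.  `|β(s)| ≤ C' max |s_i|` is not needed.
-/

set_option autoImplicit false

namespace Pool.Agent.PP5LA

open Matrix Finset Pool.Agent.PP5B Pool.Agent.LB

private theorem rdr_HH_lc (x : Fin 10 → ℝ) (a b : ℝ) (s t : Fin 16 → ℝ) :
    PP5L.HH x (fun i => a * s i + b * t i) = fun i => a * PP5L.HH x s i + b * PP5L.HH x t i := by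
  have h : (fun i => a * s i + b * t i) = a • s + b • t := rfl
  rw [h, PP5L.HH_add, PP5L.HH_smul, PP5L.HH_smul]
  rfl

private theorem rdr_dot_lc (a b : ℝ) (s t r : Fin 16 → ℝ) :
    PP5L.dot (fun i => a * s i + b * t i) r = a * PP5L.dot s r + b * PP5L.dot t r := by
  unfold PP5L.dot
  rw [Finset.mul_sum, Finset.mul_sum, ← Finset.sum_add_distrib]
  exact Finset.sum_congr rfl fun i _ => by ring

private theorem rdr_LR_lc (x : Fin 10 → ℝ) (a b : ℝ) (s t : Fin 16 → ℝ) (hs : LR x s) (ht : LR x t) :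
    LR x (fun i => a * s i + b * t i) := by
  refine ⟨?_, fun i => ?_⟩
  · rw [rdr_HH_lc, hs.1, ht.1]
    funext i
    simp
  · rw [rdr_dot_lc, hs.2 i, ht.2 i]
    simp

private theorem rdr_q_lc (x : Fin 10 → ℝ) (a b : ℝ) (s t : Fin 16 → ℝ) :
    qR x (fun i => a * s i + b * t i) = a ^ 2 * qR x s + a * b * bR x s t + b ^ 2 * qR x t := by
  simp only [qR, bR, PP5L.Qd, PP5L.Bd, Matrix.cons_val_zero]
  ring

private theorem rdr_b_lc (x : Fin 10 → ℝ) (a b : ℝ) (s t u : Fin 16 → ℝ) :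
    bR x u (fun i => a * s i + b * t i) = a * bR x u s + b * bR x u t := by
  simp only [bR, PP5L.Bd, Matrix.cons_val_zero]
  ring

private theorem rdr_b_symm (x : Fin 10 → ℝ) (s t : Fin 16 → ℝ) : bR x s t = bR x t s := by
  simp only [bR, PP5L.Bd, Matrix.cons_val_zero]
  ring

private theorem rdr_b_tau (x : Fin 10 → ℝ) (ε : ℝ) (P T s : Fin 16 → ℝ) :
    bR x (fun i => P i + ε * T i) s = bR x P s + ε * bR x T s := by
  simp only [bR, PP5L.Bd, Matrix.cons_val_zero]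
  ring

theorem rdr_q_tau (x : Fin 10 → ℝ) (ε : ℝ) (P T : Fin 16 → ℝ) :
    qR x (fun i => P i + ε * T i) = qR x P + ε * bR x P T + ε ^ 2 * qR x T := by
  simp only [qR, bR, PP5L.Qd, PP5L.Bd, Matrix.cons_val_zero]
  ring

private theorem rdr_Df_smul (a : ℝ) (s : Fin 16 → ℝ) : DfR (fun i => a * s i) = a ^ 4 * DfR s := by
  simp only [DfR]
  ring

private theorem rdr_pv : p16 0 = 1 ∧ p16 1 = 10 ∧ p16 3 = -4 ∧ p16 4 = -4 ∧ p16 5 = -5 ∧ p16 7 = -3 ∧ p16 8 = 5 ∧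
    p16 10 = 7 ∧ p16 11 = 1 ∧ p16 12 = -4 ∧ p16 14 = 6 := by decide

private theorem rdr_tv : t16 0 = 0 ∧ t16 3 = 0 ∧ t16 4 = -1 ∧ t16 7 = 0 ∧ t16 8 = 2 ∧
    t16 10 = 0 ∧ t16 12 = -1 ∧ t16 14 = 0 := by decide

theorem rdr_eta : ∃ η : ℝ, 0 < η ∧ ∀ u : Fin 16 → ℝ, (∀ i, |u i - (p16 i : ℝ) / 336| ≤ 2 * η) →
    1 / 100 ≤ |u 8| ∧ 10 / 336 ^ 4 ≤ -DfR u := by
  have hc : Continuous (fun u : Fin 16 → ℝ => -DfR u) := by
    unfold DfR
    fun_prop
  have hc8 : Continuous (fun u : Fin 16 → ℝ => |u 8|) := by fun_prop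
  set u0 : Fin 16 → ℝ := fun i => (p16 i : ℝ) / 336 with hu0
  obtain ⟨v0, v1, v3, v4, v5, v7, v8, v10, v11, v12, v14⟩ := rdr_pv
  have h1 : (10 : ℝ) / 336 ^ 4 < -DfR u0 := by
    simp only [hu0, DfR, v0, v1, v4, v5, v10, v11]
    norm_num
  have h2 : (1 : ℝ) / 100 < |u0 8| := by
    have : u0 8 = 5 / 336 := by
      simp only [hu0, v8]
      norm_num
    rw [this, abs_of_pos (by norm_num)]
    norm_num
  have e1 : ∀ᶠ u in nhds u0, (10 : ℝ) / 336 ^ 4 < -DfR u := hc.continuousAt.eventually (lt_mem_nhds h1)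
  have e2 : ∀ᶠ u in nhds u0, (1 : ℝ) / 100 < |u 8| := hc8.continuousAt.eventually (lt_mem_nhds h2)
  obtain ⟨r, hr, h⟩ := Metric.eventually_nhds_iff.1 (e1.and e2)
  refine ⟨r / 4, by positivity, fun u hu => ?_⟩
  have hd : dist u u0 < r := by
    rw [dist_pi_lt_iff hr]
    intro i
    rw [Real.dist_eq]
    have := hu i
    simp only [hu0]
    linarith
  exact ⟨(h hd).2.le, (h hd).1.le⟩

private theorem rdr_Pxs (i : Fin 16) : PZ (rv xs) (rv p16) i = -24 * (p16 i : ℝ) := by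
  rw [pz_cast]
  simp only [rv]
  rw [pz_p]
  push_cast
  ring

private theorem rdr_Txs (i : Fin 16) : PZ (rv xs) (rv t16) i = -24 * (t16 i : ℝ) := by
  rw [pz_cast]
  simp only [rv]
  rw [pz_t]
  push_cast
  ring

private theorem rdr_x0 : (rv xs) 0 = 1 := by
  simp [rv, xs]

private theorem rdr_qT : qR (rv xs) (PZ (rv xs) (rv t16)) = -576 := by
  obtain ⟨v0, v3, v4, v7, v8, v10, v12, v14⟩ := rdr_tv
  simp only [qR, PP5L.Qd, Matrix.cons_val_zero, rdr_Txs, rdr_x0, v0, v3, v4, v7, v8, v10, v12, v14]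
  norm_num

private theorem rdr_qP : qR (rv xs) (PZ (rv xs) (rv p16)) = 0 := by
  obtain ⟨v0, v1, v3, v4, v5, v7, v8, v10, v11, v12, v14⟩ := rdr_pv
  simp only [qR, PP5L.Qd, Matrix.cons_val_zero, rdr_Pxs, rdr_x0, v0, v3, v4, v7, v8, v10, v12, v14]
  norm_num

private theorem rdr_bPT : bR (rv xs) (PZ (rv xs) (rv p16)) (PZ (rv xs) (rv t16)) = -8064 := by
  obtain ⟨v0, v1, v3, v4, v5, v7, v8, v10, v11, v12, v14⟩ := rdr_pv
  obtain ⟨w0, w3, w4, w7, w8, w10, w12, w14⟩ := rdr_tv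
  simp only [bR, PP5L.Bd, Matrix.cons_val_zero, rdr_Pxs, rdr_Txs, rdr_x0, v0, v3, v4, v7, v8, v10, v12, v14,
    w0, w3, w4, w7, w8, w10, w12, w14]
  norm_num

private theorem rdr_cPZ (s : Fin 16 → ℝ) (i : Fin 16) : Continuous (fun x : Fin 10 → ℝ => PZ x s i) :=
  (continuous_apply i).comp (pz_cont s)

private theorem rdr_cq (s : Fin 16 → ℝ) : ContinuousAt (fun x : Fin 10 → ℝ => qR x (PZ x s)) (rv xs) := by
  have h := rdr_cPZ s
  have h1 : Continuous (fun x : Fin 10 → ℝ => PP5L.Qd (PZ x s) 0) := by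
    simp only [PP5L.Qd, Matrix.cons_val_zero]
    exact ((((h 0).mul (h 10)).sub ((h 3).mul (h 14))).sub ((h 4).mul (h 12))).add ((h 7).mul (h 8))
  unfold qR
  exact h1.continuousAt.div (continuous_apply 0).continuousAt (by rw [rdr_x0]; norm_num)

private theorem rdr_cb (s t : Fin 16 → ℝ) : ContinuousAt (fun x : Fin 10 → ℝ => bR x (PZ x s) (PZ x t)) (rv xs) := by
  have h := rdr_cPZ s
  have h' := rdr_cPZ t
  have h1 : Continuous (fun x : Fin 10 → ℝ => PP5L.Bd (PZ x s) (PZ x t) 0) := by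
    simp only [PP5L.Bd, Matrix.cons_val_zero]
    exact ((((((((h 0).mul (h' 10)).sub ((h 3).mul (h' 14))).sub ((h 4).mul (h' 12))).add ((h 7).mul (h' 8))).add
      ((h 8).mul (h' 7))).add ((h 10).mul (h' 0))).sub ((h 12).mul (h' 4))).sub ((h 14).mul (h' 3))
  unfold bR
  exact h1.continuousAt.div (continuous_apply 0).continuousAt (by rw [rdr_x0]; norm_num)

/-- the neighbourhood of `xs` -/
theorem rdr_nbd (η ε : ℝ) (hη : 0 < η) (hε : 0 < ε) : ∃ δ : ℝ, 0 < δ ∧ ∀ x : Fin 10 → ℝ,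
    (∀ j, |x j - (xs j : ℝ)| ≤ δ) →
    -600 < qR x (PZ x (rv t16)) ∧ qR x (PZ x (rv t16)) < -500 ∧
    -8100 < bR x (PZ x (rv p16)) (PZ x (rv t16)) ∧ bR x (PZ x (rv p16)) (PZ x (rv t16)) < -8000 ∧
    |qR x (PZ x (rv p16))| ≤ ε ∧
    ∀ i, |PZ x (rv p16) i / bR x (PZ x (rv p16)) (PZ x (rv t16)) - (p16 i : ℝ) / 336| ≤ η := by
  have a1 : ∀ᶠ x in nhds (rv xs), -600 < qR x (PZ x (rv t16)) :=
    (rdr_cq (rv t16)).eventually (lt_mem_nhds (by simp only [rdr_qT]; norm_num))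
  have a2 : ∀ᶠ x in nhds (rv xs), qR x (PZ x (rv t16)) < -500 :=
    (rdr_cq (rv t16)).eventually (gt_mem_nhds (by simp only [rdr_qT]; norm_num))
  have a3 : ∀ᶠ x in nhds (rv xs), -8100 < bR x (PZ x (rv p16)) (PZ x (rv t16)) :=
    (rdr_cb (rv p16) (rv t16)).eventually (lt_mem_nhds (by simp only [rdr_bPT]; norm_num))
  have a4 : ∀ᶠ x in nhds (rv xs), bR x (PZ x (rv p16)) (PZ x (rv t16)) < -8000 :=
    (rdr_cb (rv p16) (rv t16)).eventually (gt_mem_nhds (by simp only [rdr_bPT]; norm_num))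
  have a5 : ∀ᶠ x in nhds (rv xs), |qR x (PZ x (rv p16))| < ε :=
    (rdr_cq (rv p16)).abs.eventually (gt_mem_nhds (by simp only [rdr_qP]; simpa using hε))
  have a6 : ∀ i : Fin 16, ∀ᶠ x in nhds (rv xs),
      |PZ x (rv p16) i / bR x (PZ x (rv p16)) (PZ x (rv t16)) - (p16 i : ℝ) / 336| < η := by
    intro i
    have hc : ContinuousAt (fun x : Fin 10 → ℝ =>
        |PZ x (rv p16) i / bR x (PZ x (rv p16)) (PZ x (rv t16)) - (p16 i : ℝ) / 336|) (rv xs) := by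
      refine ContinuousAt.abs (ContinuousAt.sub (ContinuousAt.div (rdr_cPZ (rv p16) i).continuousAt
        (rdr_cb (rv p16) (rv t16)) ?_) continuousAt_const)
      rw [rdr_bPT]
      norm_num
    refine hc.eventually (gt_mem_nhds ?_)
    simp only [rdr_bPT, rdr_Pxs]
    have : -24 * (p16 i : ℝ) / -8064 - (p16 i : ℝ) / 336 = 0 := by ring
    rw [this]
    simpa using hη
  have a7 := Filter.eventually_all.2 a6
  obtain ⟨r, hr, h⟩ := Metric.eventually_nhds_iff.1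
    (a1.and (a2.and (a3.and (a4.and (a5.and a7)))))
  refine ⟨r / 2, by positivity, fun x hx => ?_⟩
  have hd : dist x (rv xs) < r := by
    rw [dist_pi_lt_iff hr]
    intro i
    rw [Real.dist_eq]
    have := hx i
    simp only [rv]
    linarith
  obtain ⟨b1, b2, b3, b4, b5, b6⟩ := h hd
  exact ⟨b1, b2, b3, b4, b5.le, fun i => (b6 i).le⟩

private theorem rdr_abs_le_of_sq (k a b : ℝ) (hk : 0 < k) (h : k ^ 2 * a ^ 2 ≤ b ^ 2) : |a| ≤ |b| / k := by
  rw [le_div_iff₀ hk]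
  have h1 : |a * k| ≤ |b| := sq_le_sq.1 (by rw [mul_pow, mul_comm]; exact h)
  rwa [abs_mul, abs_of_pos hk] at h1

/-- the main part -/
theorem rdr_core (k η ε : ℝ) (hk : 0 < k) (hη : 0 < η) (hε : 0 < ε)
    (heta : ∀ u : Fin 16 → ℝ, (∀ i, |u i - (p16 i : ℝ) / 336| ≤ 2 * η) → 1 / 100 ≤ |u 8| ∧ 10 / 336 ^ 4 ≤ -DfR u)
    (x : Fin 10 → ℝ) (T P : Fin 16 → ℝ) (hP : LR x P)
    (hcp : ∀ s : Fin 16 → ℝ, LR x s → k ^ 2 * ∑ i, s i ^ 2 ≤ qR x s + (bR x T s) ^ 2)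
    (hb1 : bR x P T < -8000) (hqP : |qR x P| ≤ ε)
    (hPi : ∀ i, |P i / bR x P T - (p16 i : ℝ) / 336| ≤ η)
    (s : Fin 16 → ℝ) (hs : LR x s) (hq : PP5L.Qd s 0 = 0) (M : ℝ) (hM : 0 ≤ M)
    (hb : |bR x (fun i => P i + ε * T i) s| ≤ M * √ε) :
    (∀ i, |s i| ≤ (2 / k) * M / √ε) ∧ ((∀ i, |s i| ≤ (1 / (8000 * k ^ 3 * η ^ 2)) * M * √ε) ∨
        (∀ i, |s i| ≤ (100 / k) * |s 8| ∧ |s i| ^ 4 ≤ (336 ^ 4 / (10 * k ^ 4)) * -DfR s)) := by
  have hse : 0 < √ε := Real.sqrt_pos.2 hε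
  have hqs : qR x s = 0 := by rw [qR, hq, zero_div]
  set β := bR x T s with hβ
  set ψ := bR x P T with hψ
  have hψT : bR x T P = ψ := by rw [rdr_b_symm]
  -- all coordinates are at most `|β| / k`
  have hsi : ∀ i, |s i| ≤ |β| / k := by
    intro i
    refine rdr_abs_le_of_sq k (s i) β hk ?_
    have h1 := hcp s hs
    rw [hqs, zero_add] at h1
    have h2 : s i ^ 2 ≤ ∑ i, s i ^ 2 := Finset.single_le_sum (f := fun i => s i ^ 2) (fun j _ => sq_nonneg (s j)) (mem_univ i)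
    have h3 : k ^ 2 * s i ^ 2 ≤ k ^ 2 * ∑ i, s i ^ 2 := mul_le_mul_of_nonneg_left h2 (by positivity)
    linarith
  by_cases hβ0 : β = 0
  · have h0 : ∀ i, |s i| ≤ 0 := fun i => by simpa [hβ0] using hsi i
    refine ⟨fun i => (h0 i).trans (by positivity), Or.inl fun i => (h0 i).trans (by positivity)⟩
  have hβp : 0 < |β| := abs_pos.2 hβ0
  -- `u = s / β`
  set u : Fin 16 → ℝ := fun i => β⁻¹ * s i with hu
  set w : Fin 16 → ℝ := fun i => β⁻¹ * s i + (-ψ⁻¹) * P i with hw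
  have hψ0 : ψ ≠ 0 := by linarith
  have hwL : LR x w := rdr_LR_lc x _ _ s P hs hP
  have hwT : bR x T w = 0 := by
    rw [hw, rdr_b_lc, hψT, ← hβ]
    field_simp
    ring
  have hwq : qR x w = ψ⁻¹ ^ 2 * qR x P - β⁻¹ * ψ⁻¹ * bR x s P := by
    rw [hw, rdr_q_lc, hqs]
    ring
  set W := ∑ i, w i ^ 2 with hW
  have hW0 : 0 ≤ W := Finset.sum_nonneg fun i _ => sq_nonneg _
  have h1 := hcp w hwL
  rw [hwT, hwq, ← hW] at h1
  -- lower bound for `b(P, s) / β`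
  have h2 : 8000 * k ^ 2 * W - ε / 2 ≤ β⁻¹ * bR x s P := by
    have h3 : k ^ 2 * W ≤ ψ⁻¹ ^ 2 * qR x P - β⁻¹ * ψ⁻¹ * bR x s P := by linarith
    have h4 : (-ψ) * (k ^ 2 * W) ≤ (-ψ) * (ψ⁻¹ ^ 2 * qR x P - β⁻¹ * ψ⁻¹ * bR x s P) :=
      mul_le_mul_of_nonneg_left h3 (by linarith)
    have h5 : (-ψ) * (ψ⁻¹ ^ 2 * qR x P - β⁻¹ * ψ⁻¹ * bR x s P) = -(ψ⁻¹ * qR x P) + β⁻¹ * bR x s P := by
      field_simp
      ring
    rw [h5] at h4
    have h6 : -(ψ⁻¹ * qR x P) ≤ ε / 2 := by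
      have h7 : |ψ⁻¹ * qR x P| ≤ (1 / 2) * ε := by
        rw [abs_mul]
        refine mul_le_mul ?_ hqP (abs_nonneg _) (by norm_num)
        rw [abs_inv, abs_of_neg (by linarith : ψ < 0), one_div]
        exact inv_anti₀ (by norm_num) (by linarith)
      have := neg_abs_le (ψ⁻¹ * qR x P)
      linarith
    have h8 : 8000 * (k ^ 2 * W) ≤ (-ψ) * (k ^ 2 * W) :=
      mul_le_mul_of_nonneg_right (by linarith) (by positivity)
    linarith
  have h3 : 8000 * k ^ 2 * W + ε / 2 ≤ β⁻¹ * bR x (fun i => P i + ε * T i) s := by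
    rw [rdr_b_tau, rdr_b_symm x P s, ← hβ, mul_add, ← mul_assoc β⁻¹ ε β, mul_comm β⁻¹ ε, mul_assoc ε β⁻¹ β,
      inv_mul_cancel₀ hβ0]
    linarith
  have h4 : |β| * (8000 * k ^ 2 * W + ε / 2) ≤ M * √ε := by
    have h5 : |β| * (8000 * k ^ 2 * W + ε / 2) ≤ |β| * |β⁻¹ * bR x (fun i => P i + ε * T i) s| :=
      mul_le_mul_of_nonneg_left (h3.trans (le_abs_self _)) (abs_nonneg _)
    have h6 : |β| * |β⁻¹ * bR x (fun i => P i + ε * T i) s| = |bR x (fun i => P i + ε * T i) s| := by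
      rw [abs_mul, abs_inv, ← mul_assoc, mul_inv_cancel₀ hβp.ne', one_mul]
    linarith
  refine ⟨fun i => (hsi i).trans ?_, ?_⟩
  · -- (1)
    have h5 : |β| * (ε / 2) ≤ M * √ε := by
      have : 0 ≤ |β| * (8000 * k ^ 2 * W) := by positivity
      have h4' := h4
      rw [mul_add] at h4'
      linarith
    have h6 : |β| ≤ 2 * M / √ε := by
      rw [le_div_iff₀ hse]
      have h7 : ε = √ε * √ε := (Real.mul_self_sqrt hε.le).symm
      have h8 : √ε * (|β| * √ε) ≤ √ε * (2 * M) := by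
        have : √ε * (|β| * √ε) = |β| * ε := by
          rw [mul_left_comm, ← h7]
        rw [this]
        linarith
      exact le_of_mul_le_mul_left h8 hse
    calc |β| / k ≤ (2 * M / √ε) / k := div_le_div_of_nonneg_right h6 hk.le
      _ = (2 / k) * M / √ε := by field_simp
  · by_cases hWη : W ≤ η ^ 2
    · right
      have hui : ∀ i, |u i - (p16 i : ℝ) / 336| ≤ 2 * η := by
        intro i
        have hwi : |w i| ≤ η := by
          refine abs_le_of_sq_le_sq ?_ hη.le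
          have h2 : w i ^ 2 ≤ ∑ i, w i ^ 2 :=
            Finset.single_le_sum (f := fun i => w i ^ 2) (fun j _ => sq_nonneg (w j)) (mem_univ i)
          exact h2.trans hWη
        have h5 : u i - (p16 i : ℝ) / 336 = w i + (P i / ψ - (p16 i : ℝ) / 336) := by
          simp only [hu, hw]
          ring
        rw [h5]
        have := abs_add_le (w i) (P i / ψ - (p16 i : ℝ) / 336)
        have := hPi i
        linarith
      obtain ⟨g1, g2⟩ := heta u hui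
      have hs8 : |β| / 100 ≤ |s 8| := by
        have h5 : |u 8| = |β|⁻¹ * |s 8| := by
          simp only [hu]
          rw [abs_mul, abs_inv]
        rw [h5] at g1
        have h6 : |β| * (1 / 100) ≤ |β| * (|β|⁻¹ * |s 8|) := mul_le_mul_of_nonneg_left g1 hβp.le
        rw [← mul_assoc, mul_inv_cancel₀ hβp.ne', one_mul] at h6
        linarith
      have hD : |β| ^ 4 * (10 / 336 ^ 4) ≤ -DfR s := by
        have h5 : DfR u = β⁻¹ ^ 4 * DfR s := rdr_Df_smul _ _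
        have h7 : |β| ^ 4 = β ^ 4 := by
          rw [← abs_pow]
          exact abs_of_nonneg (by positivity)
        have h6 : β ^ 4 * (10 / 336 ^ 4) ≤ β ^ 4 * (-DfR u) :=
          mul_le_mul_of_nonneg_left g2 (by positivity)
        have h8 : β ^ 4 * (-DfR u) = -DfR s := by
          rw [h5]
          field_simp
        rw [h7, ← h8]
        exact h6
      intro i
      constructor
      · calc |s i| ≤ |β| / k := hsi i
          _ ≤ (100 * |s 8|) / k := div_le_div_of_nonneg_right (by linarith) hk.le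
          _ = (100 / k) * |s 8| := by ring
      · calc |s i| ^ 4 ≤ (|β| / k) ^ 4 := pow_le_pow_left₀ (abs_nonneg _) (hsi i) 4
          _ = (336 ^ 4 / (10 * k ^ 4)) * (|β| ^ 4 * (10 / 336 ^ 4)) := by
            field_simp
          _ ≤ (336 ^ 4 / (10 * k ^ 4)) * -DfR s := mul_le_mul_of_nonneg_left hD (by positivity)
    · left
      intro i
      have hWη' : η ^ 2 ≤ W := (not_le.1 hWη).le
      have h5 : |β| * (8000 * k ^ 2 * η ^ 2) ≤ M * √ε := by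
        have h6 : |β| * (8000 * k ^ 2 * η ^ 2) ≤ |β| * (8000 * k ^ 2 * W) :=
          mul_le_mul_of_nonneg_left (mul_le_mul_of_nonneg_left hWη' (by positivity)) hβp.le
        have : 0 ≤ |β| * (ε / 2) := by positivity
        have h4' := h4
        rw [mul_add] at h4'
        linarith
      have h6 : |β| ≤ M * √ε / (8000 * k ^ 2 * η ^ 2) := by
        rw [le_div_iff₀ (by positivity)]
        exact h5
      calc |s i| ≤ |β| / k := hsi i
        _ ≤ (M * √ε / (8000 * k ^ 2 * η ^ 2)) / k := div_le_div_of_nonneg_right h6 hk.le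
        _ = (1 / (8000 * k ^ 3 * η ^ 2)) * M * √ε := by
          field_simp

end Pool.Agent.PP5LA
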