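import Pool.Agent.PP5LA.Rcp
import Pool.Agent.PP5LA.Rdr0

/-!
# LB5, section A, module Rdr (size 5): the direction theorem

PROOF.  Let `δ0, c` be from `rcp`, `T = PZ x t16`, `P = PZ x p16` (both in `LR x`), `τ = P + ε T`.  At `xs`: `T = -24 t16`, `P = -24 p16`,
`Qd t16 0 = -1`, `Bd p16 t16 0 = -14`, `Qd p16 0 = 0`: `qR T = -576`, `bR P T = -8064`, `qR P = 0`.  By continuity (`pz_cont`) there is `δ(ε) ≤ δ0`
with: `qR T ∈ [-600, -500]`, `bR P T ∈ [-8100, -8000]`, `|qR P| ≤ ε`, `|P_i + 24 p16_i| ≤ η` (`η` absolute, see below).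
`q(τ) = q(P) + ε b(P,T) + ε² q(T)` is in `[-9000 ε, -ε]` (`ε ≤ 1/100`).
Write `β(s) := bR x T s`.  If `β(s) = 0` then `q(s) ≥ c Σ s_i²`.  Let `s ∈ LR x` with `Qd s 0 = 0`: `β(s)² ≥ c Σ s_i²`.  If `β(s) = 0` then `s = 0`
(trivial case).  Replacing `s` by `-s` we may assume `β(s) < 0` (everything in the conclusion is even).  `ψ := β(P) < 0`.
`w := s / β(s) - P / ψ ∈ LR x`, `β(w) = 0`, so `c Σ w² ≤ q(w) = q(P)/ψ² - b(s,P)/(β(s) ψ)` (`q(s) = 0`).  Multiply by `β(s) ψ > 0`: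
`b(s,P) ≤ β(s) q(P)/ψ - c (Σ w²) β(s) ψ`, so `b(τ,s) = b(P,s) + ε β(s) ≤ |β(s)| |q(P)|/|ψ| - c (Σ w²) |β(s)| |ψ| - ε |β(s)|
≤ -(ε/2) |β(s)| - 8000 c (Σ w²) |β(s)|`.  Hence, if `|b(τ,s)| ≤ M √ε`: (1) `|β(s)| ≤ 2 M / √ε`, so `|s_i| ≤ |β(s)|/√c ≤ C M / √ε`;
(2) either `|β(s)| ≤ K M √ε` (then `|s_i| ≤ (K/√c) M √ε`) or `8000 c Σ w² < 1 / K`, so all `|w_i| ≤ η` if `K` is large in terms of `η, c`.
In the last case `s / β(s) = w + P/ψ` is within `2 η` of `p16 / 336` (`24/8064 = 1/336`; `ψ` near `-8064`), and by continuity of `DfR` and of the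
coordinate `8` at `p16/336` (`DfR p16 = -11`, `p16 8 = 5`): `|s 8 / β(s)| ≥ 1/100`, `-DfR (s/β(s)) ≥ 10 / 336⁴`; `η` is chosen for this, absolute.
`DfR` is homogeneous of degree 4, `|β(s)| ≥ √c |s_i|` for all `i`.  `|β(s)| ≤ C' max |s_i|` is not needed.
-/

set_option autoImplicit false

namespace Pool.Agent.PP5LA

open Matrix Finset Pool.Agent.PP5B Pool.Agent.LB

theorem rdr : ∃ C ε0 : ℝ, 1 ≤ C ∧ 0 < ε0 ∧ ε0 ≤ 1 ∧ ∀ ε : ℝ, 0 < ε → ε ≤ ε0 → ∃ δ : ℝ, 0 < δ ∧ δ ≤ 1 / 2 ∧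
    ∀ x : Fin 10 → ℝ, PP5L.FF x = 0 → (∀ j, |x j - (xs j : ℝ)| ≤ δ) →
    qR x (fun i => PZ x (rv p16) i + ε * PZ x (rv t16) i) < 0 ∧
    -qR x (fun i => PZ x (rv p16) i + ε * PZ x (rv t16) i) ≤ C * ε ∧
    (∀ s : Fin 16 → ℝ, LR x s → bR x (PZ x (rv t16)) s = 0 → 0 ≤ qR x s) ∧
    ∀ s : Fin 16 → ℝ, LR x s → PP5L.Qd s 0 = 0 → ∀ M : ℝ, 0 ≤ M →
      |bR x (fun i => PZ x (rv p16) i + ε * PZ x (rv t16) i) s| ≤ M * √ε →
      (∀ i, |s i| ≤ C * M / √ε) ∧ ((∀ i, |s i| ≤ C * M * √ε) ∨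
        (∀ i, |s i| ≤ C * |s 8| ∧ |s i| ^ 4 ≤ C * -DfR s)) := by
  obtain ⟨δ0, c, hδ0, hδ02, hc, hrcp⟩ := rcp
  obtain ⟨η, hη, heta⟩ := rdr_eta
  set k := √c with hk
  have hk0 : 0 < k := Real.sqrt_pos.2 hc
  have hkc : k ^ 2 = c := Real.sq_sqrt hc.le
  set C : ℝ := 9000 + 2 / k + 1 / (8000 * k ^ 3 * η ^ 2) + 100 / k + 336 ^ 4 / (10 * k ^ 4) with hC
  have c1 : 0 < 2 / k := by positivity
  have c2 : 0 < 1 / (8000 * k ^ 3 * η ^ 2) := by positivity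
  have c3 : 0 < 100 / k := by positivity
  have c4 : 0 < 336 ^ 4 / (10 * k ^ 4) := by positivity
  refine ⟨C, 1, by linarith, one_pos, le_refl _, fun ε hε hε1 => ?_⟩
  obtain ⟨δ1, hδ1, hn⟩ := rdr_nbd η ε hη hε
  refine ⟨min δ0 δ1, lt_min hδ0 hδ1, (min_le_left _ _).trans hδ02, fun x hF hx => ?_⟩
  have hx0 : ∀ j, |x j - (xs j : ℝ)| ≤ δ0 := fun j => (hx j).trans (min_le_left _ _)
  have hx1 : ∀ j, |x j - (xs j : ℝ)| ≤ δ1 := fun j => (hx j).trans (min_le_right _ _)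
  obtain ⟨n1, n2, n3, n4, n5, n6⟩ := hn x hx1
  have hcp := hrcp x hx0
  have hP : LR x (PZ x (rv p16)) := ⟨pz_HH hF _, fun i => pz_dot x _ i⟩
  have hse : 0 < √ε := Real.sqrt_pos.2 hε
  have habs := abs_le.1 n5
  have hC0 : 0 < C := by linarith
  refine ⟨?_, ?_, ?_, ?_⟩
  · rw [rdr_q_tau]
    have e1 : ε * bR x (PZ x (rv p16)) (PZ x (rv t16)) ≤ ε * (-8000) := mul_le_mul_of_nonneg_left n4.le hε.le
    have e2 : ε ^ 2 * qR x (PZ x (rv t16)) ≤ 0 :=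
      mul_nonpos_of_nonneg_of_nonpos (by positivity) (by linarith)
    linarith [habs.2]
  · rw [rdr_q_tau]
    have e1 : ε * (-8100) ≤ ε * bR x (PZ x (rv p16)) (PZ x (rv t16)) := mul_le_mul_of_nonneg_left n3.le hε.le
    have e2 : ε ^ 2 * (-600) ≤ ε ^ 2 * qR x (PZ x (rv t16)) := mul_le_mul_of_nonneg_left n1.le (by positivity)
    have e3 : ε ^ 2 ≤ ε := by rw [sq]; exact mul_le_of_le_one_left hε.le hε1
    have e4 : 9000 * ε ≤ C * ε := mul_le_mul_of_nonneg_right (by linarith) hε.le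
    linarith [habs.1]
  · intro s hs hb
    have h1 := hcp s hs
    rw [hb] at h1
    have h2 : 0 ≤ c * ∑ i, s i ^ 2 := mul_nonneg hc.le (Finset.sum_nonneg fun i _ => sq_nonneg _)
    linarith
  · intro s hs hq M hM hb
    obtain ⟨r1, r2⟩ := rdr_core k η ε hk0 hη hε heta x (PZ x (rv t16)) (PZ x (rv p16)) hP
      (fun s hs => by rw [hkc]; exact hcp s hs) n4 n5 n6 s hs hq M hM hb
    refine ⟨fun i => (r1 i).trans ?_, ?_⟩
    · exact div_le_div_of_nonneg_right (mul_le_mul_of_nonneg_right (by linarith) hM) hse.le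
    · rcases r2 with r2 | r2
      · left
        intro i
        refine (r2 i).trans ?_
        exact mul_le_mul_of_nonneg_right (mul_le_mul_of_nonneg_right (by linarith) hM) hse.le
      · right
        intro i
        obtain ⟨g1, g2⟩ := r2 i
        refine ⟨g1.trans (mul_le_mul_of_nonneg_right (by linarith) (abs_nonneg _)), g2.trans ?_⟩
        have hD : 0 ≤ -DfR s := by
          by_contra hneg
          have h1 : 0 ≤ |s i| ^ 4 := by positivity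
          have h2 : 336 ^ 4 / (10 * k ^ 4) * -DfR s < 0 := mul_neg_of_pos_of_neg c4 (not_le.1 hneg)
          linarith
        exact mul_le_mul_of_nonneg_right (by linarith) hD

end Pool.Agent.PP5LA
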