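import Pool.Agent.PP5LA.Defs

/-!
# LB5, section A, module Rot (size 3): the root of a primitive vector with `Ps b = 0` modulo `k`

PROOF of `rot`.  No prime `p ∣ k` divides `b 1` and `b 3`: otherwise `p ∣ Nn b` gives `p ∣ b 0`, and `p ∣ Tt b` gives `p ∣ A b2²`, `p ∤ A`,
`p ∣ b 2`, against `Pr4 b`.  So there are `α β γ` with `α b1 + β b3 + γ k = 1`.  Put `R := -(α b0 + β A b2)`.  From `k ∣ b0 b3 - A b1 b2`:
`R b1 = -b0`, `R b3 = -A b2` modulo `k`.  `R² - B R + A C = (α b1 + β b3)² (..)` and `b1² (..) = Nn b`, `b3² (..) = A Tt b`,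
`b1 b3 (..) = A (b0 b2 + B b1 b2 + C b1 b3)` modulo `k` (use `b0 b3 = A b1 b2`).
`rot_dvd`: `Nn b`, `A Tt b`, `A w1`, `w2` vanish modulo `n` for `b ∈ M(n, r)`, `A` is prime to `n`.
`rot_uni`: `k ∣ (R - R') b1` and `k ∣ (R - R') b3`, Bezout as before.
-/

set_option autoImplicit false

namespace Pool.Agent.PP5LA

open Matrix Finset Pool.Agent.PP5B Pool.Agent.LB

private theorem Rot_bez {A B C : ℤ} {k : ℕ} (hA : IsCoprime A (k : ℤ)) {b : Fin 4 → ℤ} (hb : Pr4 b)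
    (h : ∀ i, (k : ℤ) ∣ Ps A B C b i) : ∃ α β γ : ℤ, α * b 1 + β * b 3 + γ * k = 1 := by
  have h0 : (k : ℤ) ∣ Nn A B C b := by simpa [Ps] using h 0
  have h1 : (k : ℤ) ∣ Tt A B C b := by simpa [Ps] using h 1
  have hco : Nat.Coprime (Int.gcd (b 1) (b 3)) k := by
    by_contra hne
    obtain ⟨p, hp, hpd⟩ := Nat.exists_prime_and_dvd hne
    have hd1 : p ∣ Int.gcd (b 1) (b 3) := hpd.trans (Nat.gcd_dvd_left _ _)
    have hd2 : p ∣ k := hpd.trans (Nat.gcd_dvd_right _ _)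
    have hpk : (p : ℤ) ∣ (k : ℤ) := by exact_mod_cast hd2
    have hpb1 : (p : ℤ) ∣ b 1 := (Int.natCast_dvd_natCast.2 hd1).trans (Int.gcd_dvd_left _ _)
    have hpb3 : (p : ℤ) ∣ b 3 := (Int.natCast_dvd_natCast.2 hd1).trans (Int.gcd_dvd_right _ _)
    have hpp : Prime (p : ℤ) := Nat.prime_iff_prime_int.1 hp
    have hN : (p : ℤ) ∣ Nn A B C b := hpk.trans h0
    have hT : (p : ℤ) ∣ Tt A B C b := hpk.trans h1
    have hb0 : (p : ℤ) ∣ b 0 := by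
      have : (p : ℤ) ∣ b 0 ^ 2 := by
        have e : b 0 ^ 2 = Nn A B C b - b 1 * (B * b 0 + A * C * b 1) := by unfold Nn; ring
        rw [e]
        exact dvd_sub hN (hpb1.mul_right _)
      exact hpp.dvd_of_dvd_pow this
    have hpA : ¬ (p : ℤ) ∣ A := by
      intro hpa
      exact hpp.not_isUnit (hA.isUnit_of_dvd' hpa hpk)
    have hb2 : (p : ℤ) ∣ b 2 := by
      have h3 : (p : ℤ) ∣ A * b 2 ^ 2 := by
        have e : A * b 2 ^ 2 = Tt A B C b - b 3 * (B * b 2 + C * b 3) := by unfold Tt; ring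
        rw [e]
        exact dvd_sub hT (hpb3.mul_right _)
      rcases hpp.dvd_or_dvd h3 with h4 | h4
      · exact absurd h4 hpA
      · exact hpp.dvd_of_dvd_pow h4
    apply hb p hp
    intro i
    fin_cases i
    · exact hb0
    · exact hpb1
    · exact hb2
    · exact hpb3
  have hco' : IsCoprime ((Int.gcd (b 1) (b 3) : ℕ) : ℤ) (k : ℤ) := Nat.isCoprime_iff_coprime.2 hco
  obtain ⟨u, v, huv⟩ := hco'
  refine ⟨u * Int.gcdA (b 1) (b 3), u * Int.gcdB (b 1) (b 3), v, ?_⟩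
  rw [← huv, Int.gcd_eq_gcd_ab]
  ring

private theorem Rot_i0 (A B C r : ℤ) (b : Fin 4 → ℤ) :
    Nn A B C b = (b 0 + r * b 1) * (b 0 - r * b 1 + B * b 1) + (r ^ 2 - B * r + A * C) * b 1 ^ 2 := by
  unfold Nn; ring

private theorem Rot_i1 (A B C r : ℤ) (b : Fin 4 → ℤ) :
    A * Tt A B C b = (A * b 2 + r * b 3) * (A * b 2 - r * b 3 + B * b 3) + (r ^ 2 - B * r + A * C) * b 3 ^ 2 := by
  unfold Tt; ring

private theorem Rot_i2 (A B C r : ℤ) (b : Fin 4 → ℤ) :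
    A * (b 0 * b 2 + B * b 1 * b 2 + C * b 1 * b 3) = (b 0 + r * b 1) * (A * b 2) +
      (A * b 2 + r * b 3) * (-r * b 1 + B * b 1) + (r ^ 2 - B * r + A * C) * (b 1 * b 3) := by
  ring

private theorem Rot_i3 (A r : ℤ) (b : Fin 4 → ℤ) :
    b 0 * b 3 - A * b 1 * b 2 = (b 0 + r * b 1) * b 3 - (A * b 2 + r * b 3) * b 1 := by
  ring

theorem rot_dvd {A B C : ℤ} {n : ℕ} (hA : IsCoprime A (n : ℤ)) {r : ℤ} (hr : (n : ℤ) ∣ r ^ 2 - B * r + A * C)
    {b : Fin 4 → ℤ} (h : Mn A n r b) (i : Fin 4) : (n : ℤ) ∣ Ps A B C b i := by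
  obtain ⟨h0, h1⟩ := h
  have hA' : IsCoprime (n : ℤ) A := hA.symm
  fin_cases i
  · change (n : ℤ) ∣ Nn A B C b
    rw [Rot_i0 A B C r b]
    exact dvd_add (h0.mul_right _) (hr.mul_right _)
  · change (n : ℤ) ∣ -Tt A B C b
    rw [dvd_neg]
    refine hA'.dvd_of_dvd_mul_left ?_
    rw [Rot_i1 A B C r b]
    exact dvd_add (h1.mul_right _) (hr.mul_right _)
  · change (n : ℤ) ∣ b 0 * b 2 + B * b 1 * b 2 + C * b 1 * b 3
    refine hA'.dvd_of_dvd_mul_left ?_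
    rw [Rot_i2 A B C r b]
    exact dvd_add (dvd_add (h0.mul_right _) (h1.mul_right _)) (hr.mul_right _)
  · change (n : ℤ) ∣ b 0 * b 3 - A * b 1 * b 2
    rw [Rot_i3 A r b]
    exact dvd_sub (h0.mul_right _) (h1.mul_right _)

theorem rot {A B C : ℤ} {k : ℕ} (hA : IsCoprime A (k : ℤ)) {b : Fin 4 → ℤ} (hb : Pr4 b)
    (h : ∀ i, (k : ℤ) ∣ Ps A B C b i) : ∃ R : ℤ, Mn A k R b ∧ (k : ℤ) ∣ R ^ 2 - B * R + A * C := by
  obtain ⟨α, β, γ, he⟩ := Rot_bez hA hb h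
  have h0 : (k : ℤ) ∣ Nn A B C b := by simpa [Ps] using h 0
  have h1 : (k : ℤ) ∣ Tt A B C b := by simpa [Ps] using h 1
  have h2 : (k : ℤ) ∣ b 0 * b 2 + B * b 1 * b 2 + C * b 1 * b 3 := h 2
  have h3 : (k : ℤ) ∣ b 0 * b 3 - A * b 1 * b 2 := h 3
  have m0 : (k : ℤ) ∣ b 0 + (-(α * b 0 + β * (A * b 2))) * b 1 := by
    have e : b 0 + (-(α * b 0 + β * (A * b 2))) * b 1 = k * (b 0 * γ) + (b 0 * b 3 - A * b 1 * b 2) * β := by
      linear_combination b 0 * (-he)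
    rw [e]
    exact dvd_add (dvd_mul_right _ _) (h3.mul_right _)
  have m1 : (k : ℤ) ∣ A * b 2 + (-(α * b 0 + β * (A * b 2))) * b 3 := by
    have e : A * b 2 + (-(α * b 0 + β * (A * b 2))) * b 3 = k * (A * b 2 * γ) - (b 0 * b 3 - A * b 1 * b 2) * α := by
      linear_combination A * b 2 * (-he)
    rw [e]
    exact dvd_sub (dvd_mul_right _ _) (h3.mul_right _)
  generalize hR : -(α * b 0 + β * (A * b 2)) = R at m0 m1
  refine ⟨R, ⟨m0, m1⟩, ?_⟩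
  have q0 : (k : ℤ) ∣ (R ^ 2 - B * R + A * C) * b 1 ^ 2 := by
    have e := Rot_i0 A B C R b
    have e' : (R ^ 2 - B * R + A * C) * b 1 ^ 2 = Nn A B C b - (b 0 + R * b 1) * (b 0 - R * b 1 + B * b 1) := by
      linarith
    rw [e']; exact dvd_sub h0 (m0.mul_right _)
  have q1 : (k : ℤ) ∣ (R ^ 2 - B * R + A * C) * b 3 ^ 2 := by
    have e := Rot_i1 A B C R b
    have e' : (R ^ 2 - B * R + A * C) * b 3 ^ 2 = A * Tt A B C b - (A * b 2 + R * b 3) * (A * b 2 - R * b 3 + B * b 3) := by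
      linarith
    rw [e']; exact dvd_sub (h1.mul_left _) (m1.mul_right _)
  have q2 : (k : ℤ) ∣ (R ^ 2 - B * R + A * C) * (b 1 * b 3) := by
    have e := Rot_i2 A B C R b
    have e' : (R ^ 2 - B * R + A * C) * (b 1 * b 3) = A * (b 0 * b 2 + B * b 1 * b 2 + C * b 1 * b 3) -
        (b 0 + R * b 1) * (A * b 2) - (A * b 2 + R * b 3) * (-R * b 1 + B * b 1) := by
      linarith
    rw [e']; exact dvd_sub (dvd_sub (h2.mul_left _) (m0.mul_right _)) (m1.mul_right _)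
  have e : R ^ 2 - B * R + A * C = (R ^ 2 - B * R + A * C) * b 1 ^ 2 * α ^ 2 +
      (R ^ 2 - B * R + A * C) * (b 1 * b 3) * (2 * α * β) + (R ^ 2 - B * R + A * C) * b 3 ^ 2 * β ^ 2 +
      k * ((R ^ 2 - B * R + A * C) * γ * (α * b 1 + β * b 3 + 1)) := by
    linear_combination -(R ^ 2 - B * R + A * C) * (α * b 1 + β * b 3 + 1) * he
  rw [e]
  exact dvd_add (dvd_add (dvd_add (q0.mul_right _) (q2.mul_right _)) (q1.mul_right _)) (dvd_mul_right _ _)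

theorem rot_uni {A B C : ℤ} {k : ℕ} (hA : IsCoprime A (k : ℤ)) {b : Fin 4 → ℤ} (hb : Pr4 b)
    (h : ∀ i, (k : ℤ) ∣ Ps A B C b i) {R R' : ℤ} (h1 : Mn A k R b) (h2 : Mn A k R' b) : (k : ℤ) ∣ R - R' := by
  obtain ⟨α, β, γ, he⟩ := Rot_bez hA hb h
  have e : R - R' = ((b 0 + R * b 1) - (b 0 + R' * b 1)) * α + ((A * b 2 + R * b 3) - (A * b 2 + R' * b 3)) * β +
      k * ((R - R') * γ) := by
    linear_combination -(R - R') * he
  rw [e]
  exact dvd_add (dvd_add ((dvd_sub h1.1 h2.1).mul_right _) ((dvd_sub h1.2 h2.2).mul_right _)) (dvd_mul_right _ _)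

end Pool.Agent.PP5LA
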