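import Pool.Agent.PP5LA.Defs

/-!
# LB5, section A, module Rxs (size 2): the real space `L_xs`

PROOF.  `HH xs s = 0` and the four equations `s 12 = s 4, s 13 = s 5, s 14 = s 6, s 15 = s 7` (write them out: `congrFun _ i`, `simp [PP5L.HH, xs]`)
have the solutions `s = n0 B0 + n1 B1 + n2 B2 + n3 B3`, where (16 coordinates)
`B0 = (0,0,0,-1,0,-1,1,0,0,0,1,0,0,-1,1,0)`, `B1 = (0,-1,-1,0,1,0,0,0,-2,0,0,-1,1,0,0,0)`, `B2 = (1,0,0,2,0,1,0,0,0,-1,1,0,0,1,0,0)`,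
`B3 = (0,-2,-1,0,0,0,0,1,1,0,0,1,0,0,0,1)`; `n2 = s 0, n1 = s 4, n0 = s 6, n3 = s 7`.  `Qd s 0 = n0² - n0 n2 + n2² - n1² - 2 n1 n3 + n3²`,
`Bd t16 s 0 = 2 n1 + 2 n3` up to sign, `Σ s_i² = 6 n0² - 6 n0 n2 + 9 n2² + 9 n1² + 9 n3²`.  So the claim is
`6 n0² - 6 n0 n2 + 9 n2² + 9 n1² + 9 n3² ≤ 20 (n0² - n0 n2 + n2² + 3 n1² + 6 n1 n3 + 5 n3²)`: `nlinarith`.
-/

set_option autoImplicit false

namespace Pool.Agent.PP5LA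

open Matrix Finset Pool.Agent.PP5B Pool.Agent.LB

set_option maxHeartbeats 4000000 in
theorem rxs (s : Fin 16 → ℝ) (h : LR (rv xs) s) :
    ∑ i, s i ^ 2 ≤ 20 * (PP5L.Qd s 0 + (PP5L.Bd (rv t16) s 0) ^ 2) := by
  obtain ⟨h1, h2⟩ := h
  have H : ∀ k, PP5L.HH (rv xs) s k = 0 := fun k => congrFun h1 k
  have e0 := H 0
  have e1 := H 1
  have e2 := H 2
  have e3 := H 3
  have e4 := H 4
  have e5 := H 5
  have e6 := H 6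
  have e7 := H 7
  have e8 := H 8
  have e9 := H 9
  have e10 := H 10
  have e11 := H 11
  have e12 := H 12
  have e13 := H 13
  have e14 := H 14
  have e15 := H 15
  simp [PP5L.HH, rv, xs] at e0 e1 e2 e3 e4 e5 e6 e7 e8 e9 e10 e11 e12 e13 e14 e15
  have d0 := h2 0
  have d1 := h2 1
  have d2 := h2 2
  have d3 := h2 3
  simp [PP5L.dot, PP5L.rho, Fin.sum_univ_succ] at d0 d1 d2 d3
  have k1 : s 1 = -s 4 - 2 * s 7 := by linarith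
  have k2 : s 2 = -s 4 - s 7 := by linarith
  have k3 : s 3 = -s 6 + 2 * s 0 := by linarith
  have k5 : s 5 = -s 6 + s 0 := by linarith
  have k12 : s 12 = s 4 := by linarith
  have k13 : s 13 = -s 6 + s 0 := by linarith
  have k14 : s 14 = s 6 := by linarith
  have k15 : s 15 = s 7 := by linarith
  have k8 : s 8 = -2 * s 4 + s 7 := by linarith
  have k11 : s 11 = -s 4 + s 7 := by linarith
  have k9 : s 9 = -s 0 := by linarith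
  have k10 : s 10 = s 6 + s 0 := by linarith
  have hS : ∑ i, s i ^ 2 = 6 * s 6 ^ 2 - 6 * s 6 * s 0 + 9 * s 0 ^ 2 + 9 * s 4 ^ 2 + 9 * s 7 ^ 2 := by
    have e : ∑ i, s i ^ 2 = s 0 ^ 2 + s 1 ^ 2 + s 2 ^ 2 + s 3 ^ 2 + s 4 ^ 2 + s 5 ^ 2 + s 6 ^ 2 + s 7 ^ 2 + s 8 ^ 2 +
        s 9 ^ 2 + s 10 ^ 2 + s 11 ^ 2 + s 12 ^ 2 + s 13 ^ 2 + s 14 ^ 2 + s 15 ^ 2 := by
      simp [Fin.sum_univ_succ]
      ring
    rw [e, k1, k2, k3, k5, k8, k9, k10, k11, k12, k13, k14, k15]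
    ring
  have hQ : PP5L.Qd s 0 = s 6 ^ 2 - s 6 * s 0 + s 0 ^ 2 - s 4 ^ 2 - 2 * s 4 * s 7 + s 7 ^ 2 := by
    have e : PP5L.Qd s 0 = s 0 * s 10 - s 3 * s 14 - s 4 * s 12 + s 7 * s 8 := by
      simp [PP5L.Qd]
    rw [e, k3, k8, k10, k12, k14]
    ring
  have hB : (PP5L.Bd (rv t16) s 0) ^ 2 = (2 * s 4 + 2 * s 7) ^ 2 := by
    have e : PP5L.Bd (rv t16) s 0 = (rv t16) 0 * s 10 - (rv t16) 3 * s 14 - (rv t16) 4 * s 12 + (rv t16) 7 * s 8 +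
        (rv t16) 8 * s 7 + (rv t16) 10 * s 0 - (rv t16) 12 * s 4 - (rv t16) 14 * s 3 := by
      simp [PP5L.Bd]
    rw [e]
    simp [rv, t16]
    rw [k12]
    ring
  rw [hS, hQ, hB]
  have hk : 20 * (s 6 ^ 2 - s 6 * s 0 + s 0 ^ 2 - s 4 ^ 2 - 2 * s 4 * s 7 + s 7 ^ 2 + (2 * s 4 + 2 * s 7) ^ 2) -
      (6 * s 6 ^ 2 - 6 * s 6 * s 0 + 9 * s 0 ^ 2 + 9 * s 4 ^ 2 + 9 * s 7 ^ 2) =
      14 * (s 6 - s 0 / 2) ^ 2 + 15 / 2 * s 0 ^ 2 + 51 * (s 4 + 20 / 17 * s 7) ^ 2 + 347 / 17 * s 7 ^ 2 := by ring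
  have hp : 0 ≤ 14 * (s 6 - s 0 / 2) ^ 2 + 15 / 2 * s 0 ^ 2 + 51 * (s 4 + 20 / 17 * s 7) ^ 2 + 347 / 17 * s 7 ^ 2 := by
    positivity
  rw [← hk] at hp
  exact sub_nonneg.1 hp

end Pool.Agent.PP5LA
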