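import Pool.Agent.PP5LA.Wed
import Pool.Agent.PP5LA.Rot

/-!
# LB5, section A, module Two (size 4): two vectors over `v` with the same root modulo `k` are equal up to sign

PROOF.  `wed` gives `m, X`.  CLAIM `k ∣ m`.  Then `m = 0`: otherwise `m² ≥ k²`, and `4 F F' = X² + |D| m² ≥ |D| k²`, against `hs`.
`m = 0`: all `wd b b' i j = 0`, both primitive, so `b' = ± b` (`two_pm`).
CLAIM.  Write `u = 2 R - B`.  (i) `X = u m mod k`: with `s1 = -R s2`, `A t1 = -R t2` modulo `k` for `b` (write `b = (s1,s2,t1,t2)`), one has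
`X v_i = u m v_i mod k` for `i = 0..3`; then Bezout for `v`.  Here `X v_i = (polar)_i`, `(polar)_i := Ps (b+b') i - Ps b i - Ps b' i`, and
`m v_0 = p01`, `m v_1 = -p23`, `m v_2 = -p12`, `m v_3 = -p13`.
  i = 0: polar = `2 s1 s1' + B (s1 s2' + s2 s1') + 2 A C s2 s2' = (B - 2R) s2 (s1' + R s2') = u p01` (use `A C = B R - R²` mod `k`).
  i = 3: polar = `s1 t2' + s1' t2 - A (s2 t1' + s2' t1) = t2 (s1' + R s2') - s2 (A t1' + R t2')`, `p03 = -(A p12 + B p13)` (from `wed`) gives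
         that this is `-u (s2 t2' - t2 s2') = -u p13`.
  i = 1, 2: the same computation; ALTERNATIVE for all `i` at once: by symmetry one may instead use that `b'` has the same root `R` and only
         needs (ii).
(ii) SIMPLER ROUTE.  `b'` has the same root: `p01 = s1 s2' - s2 s1' = 0 mod k`; `A p23 = 0`, so `p23 = 0 mod k`; `A p12 = -R p13`,
     `p02 = C p13`, `p03 = -(A p12 + B p13)`, and `p03 = s1 t2' - t2 s1' = R (t2 s2' - s2 t2') = -R p13`.  So `(R - B) p13 = -R p13 .. ` gives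
     `(2R - B) p13 = 0 mod k`; also `(2R - B) A p12 = -R (2R - B) p13 = 0`, so `(2R - B) p12 = 0 mod k`.
     Hence `(2R - B) m v_i = 0 mod k` for all `i`, and `k ∣ (2R - B) m`.
(iii) prime powers (`Nat.dvd_iff_prime_pow_dvd_dvd`, `p ^ a ∣ k`, `a ≥ 1`; `p` odd): `u² = D mod k` (`4 (R² - B R + A C) = u² - D`).
     `p ∤ D`: `p ∤ u`, so `p ^ a ∣ m`.  `p ∣ D`: then `p ∣ u`; if `a ≥ 2` then `p² ∣ u² - D`, `p² ∣ u²`, so `p² ∣ D`, excluded by `hkD`; so
     `a = 1`.  `X² = 4 F F' + D m²` is divisible by `p`, so `p ∣ X`, `p² ∣ X²`, `p² ∣ 4 F F'` (`k² ∣ F F'`), so `p² ∣ D m²`, `p² ∤ D`, so `p ∣ m`.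
-/

set_option autoImplicit false

namespace Pool.Agent.PP5LA

open Matrix Finset Pool.Agent.PP5B Pool.Agent.LB

/-- Bezout for a primitive vector -/
private theorem two_bez (c : Fin 4 → ℤ) (hc : Pr4 c) : ∃ a : Fin 4 → ℤ, ∑ i, c i * a i = 1 := by
  obtain ⟨U, -, h⟩ := ex_U c hc
  refine ⟨fun i => U i 3, ?_⟩
  have h1 := congrFun h 3
  simpa [Matrix.vecMul, dotProduct] using h1

private theorem two_dvd {v : Fin 4 → ℤ} (hv : Pr4 v) {k x : ℤ} (h : ∀ i, k ∣ x * v i) : k ∣ x := by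
  obtain ⟨a, ha⟩ := two_bez v hv
  have h1 : x = ∑ i, (x * v i) * a i := by
    calc x = x * ∑ i, v i * a i := by rw [ha, mul_one]
      _ = ∑ i, (x * v i) * a i := by
        rw [Finset.mul_sum]
        exact Finset.sum_congr rfl fun i _ => by ring
  rw [h1]
  exact Finset.dvd_sum fun i _ => Dvd.dvd.mul_right (h i) _

theorem two_pm {b b' : Fin 4 → ℤ} (hb : Pr4 b) (hb' : Pr4 b') (h : ∀ i j, wd b b' i j = 0) :
    (∀ i, b' i = b i) ∨ (∀ i, b' i = -b i) := by
  obtain ⟨a, ha⟩ := two_bez b hb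
  set c : ℤ := ∑ i, a i * b' i with hc
  have h1 : ∀ j, b' j = c * b j := by
    intro j
    calc b' j = (∑ i, b i * a i) * b' j := by rw [ha, one_mul]
      _ = ∑ i, a i * (b i * b' j) := by
        rw [Finset.sum_mul]
        exact Finset.sum_congr rfl fun i _ => by ring
      _ = ∑ i, (a i * b' i) * b j := by
        refine Finset.sum_congr rfl fun i _ => ?_
        have h2 : b i * b' j - b j * b' i = 0 := h i j
        have h3 : b i * b' j = b j * b' i := by linarith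
        rw [h3]
        ring
      _ = c * b j := by rw [hc, Finset.sum_mul]
  have hu : c = 1 ∨ c = -1 := by
    rw [← Int.isUnit_iff, Int.isUnit_iff_natAbs_eq]
    by_contra hcon
    obtain ⟨p, hp, hpc⟩ := Nat.exists_prime_and_dvd hcon
    refine hb' p hp fun i => ?_
    rw [h1 i]
    exact Dvd.dvd.mul_right (Int.natCast_dvd.mpr hpc) _
  rcases hu with h2 | h2
  · left
    intro i
    rw [h1 i, h2, one_mul]
  · right
    intro i
    rw [h1 i, h2]
    ring

theorem two {A B C : ℤ} (hD : B ^ 2 - 4 * A * C < 0) {k : ℕ} (hk : Odd k) (hAk : IsCoprime A (k : ℤ))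
    (hkD : ∀ p : ℕ, p.Prime → p ∣ k → ¬ (p : ℤ) ^ 2 ∣ B ^ 2 - 4 * A * C) {R : ℤ} {b b' v : Fin 4 → ℤ} {F F' : ℤ}
    (hF : 0 < F) (hF' : 0 < F') (hkF : (k : ℤ) ∣ F) (hkF' : (k : ℤ) ∣ F') (hb : Pr4 b) (hb' : Pr4 b')
    (hv : Pr4 v) (h : ∀ i, Ps A B C b i = F * v i) (h' : ∀ i, Ps A B C b' i = F' * v i) (hm : Mn A k R b)
    (hm' : Mn A k R b') (hs : 4 * F * F' < (4 * A * C - B ^ 2) * (k : ℤ) ^ 2) :
    (∀ i, b' i = b i) ∨ (∀ i, b' i = -b i) := by
  obtain ⟨m, X, w01, w23, w02, w03, w12, w13, hX, -, -⟩ := wed hD hv hF.ne' hF'.ne' h h'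
  simp only [wd] at w01 w23 w02 w03 w12 w13
  -- the root
  have hRk : (k : ℤ) ∣ R ^ 2 - B * R + A * C := by
    have h1 : ∀ i, (k : ℤ) ∣ Ps A B C b i := fun i => by
      rw [h i]
      exact Dvd.dvd.mul_right hkF _
    obtain ⟨R', h2, h3⟩ := rot hAk hb h1
    have h4 := rot_uni hAk hb h1 hm h2
    have h5 : R ^ 2 - B * R + A * C = (R' ^ 2 - B * R' + A * C) + (R - R') * (R + R' - B) := by ring
    rw [h5]
    exact dvd_add h3 (Dvd.dvd.mul_right h4 _)
  -- the claim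
  have hkm : (k : ℤ) ∣ m := by
    obtain ⟨a0, ha0⟩ := hm.1
    obtain ⟨a1, ha1⟩ := hm.2
    obtain ⟨a0', ha0'⟩ := hm'.1
    obtain ⟨a1', ha1'⟩ := hm'.2
    have d0 : (k : ℤ) ∣ m * v 0 := by
      rw [← w01]
      refine ⟨a0 * b' 1 - a0' * b 1, ?_⟩
      linear_combination (b' 1) * ha0 - (b 1) * ha0'
    have d1 : (k : ℤ) ∣ m * v 1 := by
      have h1 : (k : ℤ) ∣ A * (b 2 * b' 3 - b 3 * b' 2) := by
        refine ⟨a1 * b' 3 - a1' * b 3, ?_⟩
        linear_combination (b' 3) * ha1 - (b 3) * ha1'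
      have h2 : (k : ℤ) ∣ b 2 * b' 3 - b 3 * b' 2 := hAk.symm.dvd_of_dvd_mul_left h1
      rw [w23] at h2
      exact (dvd_neg.1 h2)
    -- `(2 R - B) p13 = 0`
    have e1 : (k : ℤ) ∣ A * (b 1 * b' 2 - b 2 * b' 1) + R * (b 1 * b' 3 - b 3 * b' 1) := by
      refine ⟨b 1 * a1' - a1 * b' 1, ?_⟩
      linear_combination (b 1) * ha1' - (b' 1) * ha1
    have e2 : (k : ℤ) ∣ (b 0 * b' 3 - b 3 * b' 0) + R * (b 1 * b' 3 - b 3 * b' 1) := by
      refine ⟨a0 * b' 3 - b 3 * a0', ?_⟩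
      linear_combination (b' 3) * ha0 - (b 3) * ha0'
    have d3' : (k : ℤ) ∣ (2 * R - B) * (b 1 * b' 3 - b 3 * b' 1) := by
      have h1 : (2 * R - B) * (b 1 * b' 3 - b 3 * b' 1) =
          (A * (b 1 * b' 2 - b 2 * b' 1) + R * (b 1 * b' 3 - b 3 * b' 1)) +
          ((b 0 * b' 3 - b 3 * b' 0) + R * (b 1 * b' 3 - b 3 * b' 1)) := by
        linear_combination (-1 : ℤ) * w03 - A * w12 - B * w13
      rw [h1]
      exact dvd_add e1 e2
    have d2' : (k : ℤ) ∣ (2 * R - B) * (b 1 * b' 2 - b 2 * b' 1) := by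
      have h1 : (k : ℤ) ∣ A * ((2 * R - B) * (b 1 * b' 2 - b 2 * b' 1)) := by
        have h2 : A * ((2 * R - B) * (b 1 * b' 2 - b 2 * b' 1)) =
            (A * (b 1 * b' 2 - b 2 * b' 1) + R * (b 1 * b' 3 - b 3 * b' 1)) * (2 * R - B) -
            ((2 * R - B) * (b 1 * b' 3 - b 3 * b' 1)) * R := by ring
        rw [h2]
        exact dvd_sub (Dvd.dvd.mul_right e1 _) (Dvd.dvd.mul_right d3' _)
      exact hAk.symm.dvd_of_dvd_mul_left h1
    have hum : (k : ℤ) ∣ (2 * R - B) * m := by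
      refine two_dvd hv fun i => ?_
      fin_cases i
      · show (k : ℤ) ∣ (2 * R - B) * m * v 0
        rw [mul_assoc]
        exact Dvd.dvd.mul_left d0 _
      · show (k : ℤ) ∣ (2 * R - B) * m * v 1
        rw [mul_assoc]
        exact Dvd.dvd.mul_left d1 _
      · show (k : ℤ) ∣ (2 * R - B) * m * v 2
        rw [w12] at d2'
        have h1 : (2 * R - B) * m * v 2 = -((2 * R - B) * -(m * v 2)) := by ring
        rw [h1]
        exact (dvd_neg.2 d2')
      · show (k : ℤ) ∣ (2 * R - B) * m * v 3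
        rw [w13] at d3'
        have h1 : (2 * R - B) * m * v 3 = -((2 * R - B) * -(m * v 3)) := by ring
        rw [h1]
        exact (dvd_neg.2 d3')
    have huD : (k : ℤ) ∣ (2 * R - B) ^ 2 - (B ^ 2 - 4 * A * C) := by
      have h1 : (2 * R - B) ^ 2 - (B ^ 2 - 4 * A * C) = (R ^ 2 - B * R + A * C) * 4 := by ring
      rw [h1]
      exact Dvd.dvd.mul_right hRk _
    -- prime powers
    rw [Int.natCast_dvd]
    rw [Nat.dvd_iff_prime_pow_dvd_dvd]
    intro p a hp hpa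
    rcases Nat.eq_zero_or_pos a with ha | ha
    · rw [ha, pow_zero]
      exact one_dvd _
    have hpk : p ∣ k := (dvd_pow_self p ha.ne').trans hpa
    have hpaz : ((p : ℤ) ^ a) ∣ (k : ℤ) := by exact_mod_cast hpa
    have hpkz : (p : ℤ) ∣ (k : ℤ) := by exact_mod_cast hpk
    have hpz : Prime (p : ℤ) := Nat.prime_iff_prime_int.1 hp
    have goal : (p : ℤ) ^ a ∣ m := by
      by_cases hpD : (p : ℤ) ∣ B ^ 2 - 4 * A * C
      · have hpu : (p : ℤ) ∣ 2 * R - B := by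
          have h1 : (p : ℤ) ∣ (2 * R - B) ^ 2 := by
            have h2 := dvd_add (hpkz.trans huD) hpD
            simpa using h2
          exact hpz.dvd_of_dvd_pow h1
        have ha1 : a = 1 := by
          by_contra hne
          have ha2 : 2 ≤ a := by omega
          have h1 : (p : ℤ) ^ 2 ∣ (2 * R - B) ^ 2 - (B ^ 2 - 4 * A * C) :=
            ((pow_dvd_pow _ ha2).trans hpaz).trans huD
          have h2 : (p : ℤ) ^ 2 ∣ (2 * R - B) ^ 2 := pow_dvd_pow_of_dvd hpu 2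
          have h3 := dvd_sub h2 h1
          have h4 : (2 * R - B) ^ 2 - ((2 * R - B) ^ 2 - (B ^ 2 - 4 * A * C)) = B ^ 2 - 4 * A * C := by ring
          rw [h4] at h3
          exact hkD p hp hpk h3
        rw [ha1, pow_one]
        have hpF : (p : ℤ) ∣ F := hpkz.trans hkF
        have hpF' : (p : ℤ) ∣ F' := hpkz.trans hkF'
        have h1 : (p : ℤ) ^ 2 ∣ 4 * F * F' := by
          obtain ⟨f, hf⟩ := hpF
          obtain ⟨f', hf'⟩ := hpF'
          exact ⟨4 * f * f', by rw [hf, hf']; ring⟩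
        have h2 : X ^ 2 = 4 * F * F' + (B ^ 2 - 4 * A * C) * m ^ 2 := by linarith
        have h3 : (p : ℤ) ∣ X := by
          refine hpz.dvd_of_dvd_pow (n := 2) ?_
          rw [h2]
          exact dvd_add ((dvd_pow_self _ two_ne_zero).trans h1) (Dvd.dvd.mul_right hpD _)
        have h4 : (p : ℤ) ^ 2 ∣ (B ^ 2 - 4 * A * C) * m ^ 2 := by
          have h5 := dvd_sub (pow_dvd_pow_of_dvd h3 2) h1
          have h6 : X ^ 2 - 4 * F * F' = (B ^ 2 - 4 * A * C) * m ^ 2 := by linarith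
          rwa [h6] at h5
        by_contra hpm
        have h5 : IsCoprime ((p : ℤ) ^ 2) (m ^ 2) :=
          IsCoprime.pow ((Prime.coprime_iff_not_dvd hpz).2 hpm)
        exact hkD p hp hpk (h5.dvd_of_dvd_mul_right h4)
      · have hpu : ¬ (p : ℤ) ∣ 2 * R - B := by
          intro h1
          apply hpD
          have h2 : (p : ℤ) ∣ (2 * R - B) ^ 2 := h1.trans (dvd_pow_self _ two_ne_zero)
          have h3 := dvd_sub h2 (hpkz.trans huD)
          have h4 : (2 * R - B) ^ 2 - ((2 * R - B) ^ 2 - (B ^ 2 - 4 * A * C)) = B ^ 2 - 4 * A * C := by ring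
          rwa [h4] at h3
        have h1 : IsCoprime ((p : ℤ) ^ a) (2 * R - B) :=
          IsCoprime.pow_left ((Prime.coprime_iff_not_dvd hpz).2 hpu)
        exact h1.dvd_of_dvd_mul_left (hpaz.trans hum)
    have h1 : (((p ^ a : ℕ) : ℤ)) ∣ m := by exact_mod_cast goal
    exact Int.natCast_dvd.1 h1
  -- `m = 0`
  have hm0 : m = 0 := by
    by_contra hne
    have h1 : (k : ℤ) ^ 2 ≤ m ^ 2 := by
      rw [sq_le_sq]
      have h2 := Int.le_of_dvd (abs_pos.2 hne) ((dvd_abs _ _).2 hkm)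
      rwa [abs_of_nonneg (Int.natCast_nonneg k)]
    have h2 : (4 * A * C - B ^ 2) * (k : ℤ) ^ 2 ≤ (4 * A * C - B ^ 2) * m ^ 2 :=
      mul_le_mul_of_nonneg_left h1 (by linarith)
    nlinarith [sq_nonneg X]
  rw [hm0] at w01 w23 w02 w03 w12 w13
  refine two_pm hb hb' fun i j => ?_
  show b i * b' j - b j * b' i = 0
  fin_cases i <;> fin_cases j <;> simp only [Fin.zero_eta, Fin.mk_one, Fin.reduceFinMk] <;> linarith

end Pool.Agent.PP5LA
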