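import Pool.Agent.PP5LA.Defs

/-!
# LB5, section A, module Wed (size 3): two vectors over the same null vector

`qf A B C (Ps A B C b) = 0` (ring), so `qf A B C v = 0` (cancel `F ^ 2`).  Let `Ps b = F v`.  Then (cancel `F`) the linear relations
(e1) `v0 b2 = v2 b0 - C v3 b1`, (e2) `v0 b3 = v3 b0 + (A v2 + B v3) b1`, (e3) `-v1 b0 = (A v2 + B v3) b2 + C v3 b3`,
(e4) `-v1 b1 = v2 b3 - v3 b2`; the same for `b'`.  (All `F * (..)` are polynomial identities after inserting `F v_i = Ps b i`.)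
CASE `v0 ≠ 0`.  Wedge (e1), (e2) with `b'`: `v0 p12 = -v2 p01`, `v0 p13 = -v3 p01`, `v0 p02 = -C v3 p01`, `v0 p03 = (A v2 + B v3) p01`,
`v0 p23 = v2 p03 - C v3 p13`, so `v0² p23 = (A v2² + B v2 v3 + C v3²) p01 = -v0 v1 p01` and `v0 p23 = -v1 p01`.
`v` primitive: Bezout `Σ a_i v_i = 1` (from `Pr4 v`), so `p01 = v0 (a0 p01 - a1 p23 - a2 p12 - a3 p13) =: v0 m`; all other relations by
cancelling `v0`.  `X`: `P01 := 2 b0 b0' + B (b0 b1' + b1 b0') + 2 A C b1 b1'` satisfies `P01² - 4 N(b) N(b') = (B² - 4AC) p01²` (ring), so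
`P01² = v0² (4 F F' + D m²)`, hence `v0 ∣ P01` (`Int.pow_dvd_pow_iff`), `P01 = v0 X`.  Polar: `Ps (b + b') i = Ps b i + Ps b' i + (polar)_i`
and `v0 (polar)_i = v_i P01` by (e1), (e2) (`linear_combination`), so `(polar)_i = v_i X`.
CASE `v0 = 0`: `A v2² + B v2 v3 + C v3² = 0`, so `v2 = v3 = 0` (`4A(..) = (2 A v2 + B v3)² - D v3²`; `A ≠ 0` as `D < 0`), `v1 = ±1`;
(e3), (e4): `b0 = b1 = 0`, the same for `b'`; `m := -v1 p23` (`v1² = 1`), everything as before with `T` instead of `N`.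
-/

set_option autoImplicit false

namespace Pool.Agent.PP5LA

open Matrix Finset Pool.Agent.PP5B Pool.Agent.LB

theorem qf_Ps {R : Type*} [CommRing R] (A B C : R) (b : Fin 4 → R) : qf A B C (Ps A B C b) = 0 := by
  simp only [qf, Ps, Nn, Tt, Matrix.cons_val]
  ring

theorem Ps_smul {R : Type*} [CommRing R] (A B C j : R) (b : Fin 4 → R) (i : Fin 4) :
    Ps A B C (fun a => j * b a) i = j ^ 2 * Ps A B C b i := by
  fin_cases i <;> simp only [Ps, Nn, Tt, Matrix.cons_val, Fin.zero_eta, Fin.mk_one, Fin.reduceFinMk] <;> ring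

private theorem Wed_bez {v : Fin 4 → ℤ} (hv : Pr4 v) :
    ∃ a0 a1 a2 a3 : ℤ, a0 * v 0 + a1 * v 1 + a2 * v 2 + a3 * v 3 = 1 := by
  set g1 : ℕ := Int.gcd (v 0) (v 1) with hg1
  set g2 : ℕ := Int.gcd (v 2) (v 3) with hg2
  have hg : Nat.gcd g1 g2 = 1 := by
    by_contra hne
    obtain ⟨p, hp, hpd⟩ := Nat.exists_prime_and_dvd hne
    refine hv p hp ?_
    have h1 : (p : ℤ) ∣ (g1 : ℤ) := Int.natCast_dvd_natCast.2 (hpd.trans (Nat.gcd_dvd_left _ _))
    have h2 : (p : ℤ) ∣ (g2 : ℤ) := Int.natCast_dvd_natCast.2 (hpd.trans (Nat.gcd_dvd_right _ _))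
    intro i
    fin_cases i
    · exact h1.trans (Int.gcd_dvd_left _ _)
    · exact h1.trans (Int.gcd_dvd_right _ _)
    · exact h2.trans (Int.gcd_dvd_left _ _)
    · exact h2.trans (Int.gcd_dvd_right _ _)
  have e1 : (g1 : ℤ) = v 0 * Int.gcdA (v 0) (v 1) + v 1 * Int.gcdB (v 0) (v 1) := Int.gcd_eq_gcd_ab _ _
  have e2 : (g2 : ℤ) = v 2 * Int.gcdA (v 2) (v 3) + v 3 * Int.gcdB (v 2) (v 3) := Int.gcd_eq_gcd_ab _ _
  have e3 : ((Nat.gcd g1 g2 : ℕ) : ℤ) = (g1 : ℤ) * Nat.gcdA g1 g2 + (g2 : ℤ) * Nat.gcdB g1 g2 := Nat.gcd_eq_gcd_ab _ _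
  rw [hg] at e3
  refine ⟨Int.gcdA (v 0) (v 1) * Nat.gcdA g1 g2, Int.gcdB (v 0) (v 1) * Nat.gcdA g1 g2,
    Int.gcdA (v 2) (v 3) * Nat.gcdB g1 g2, Int.gcdB (v 2) (v 3) * Nat.gcdB g1 g2, ?_⟩
  rw [e1, e2] at e3
  push_cast at e3
  linear_combination -e3

/-- the linear relations -/
theorem wed_lin {A B C F : ℤ} (hF : F ≠ 0) {b v : Fin 4 → ℤ} (h : ∀ i, Ps A B C b i = F * v i) :
    v 0 * b 2 = v 2 * b 0 - C * v 3 * b 1 ∧ v 0 * b 3 = v 3 * b 0 + (A * v 2 + B * v 3) * b 1 ∧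
    -v 1 * b 0 = (A * v 2 + B * v 3) * b 2 + C * v 3 * b 3 ∧ -v 1 * b 1 = v 2 * b 3 - v 3 * b 2 := by
  have h0 := h 0
  have h1 := h 1
  have h2 := h 2
  have h3 := h 3
  simp only [Ps, Nn, Tt, Matrix.cons_val] at h0 h1 h2 h3
  refine ⟨mul_left_cancel₀ hF ?_, mul_left_cancel₀ hF ?_, mul_left_cancel₀ hF ?_, mul_left_cancel₀ hF ?_⟩
  · linear_combination (-b 2) * h0 + b 0 * h2 - C * b 1 * h3
  · linear_combination (-b 3) * h0 + b 0 * h3 + (A * h2 + B * h3) * b 1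
  · linear_combination b 0 * h1 + (A * h2 + B * h3) * b 2 + C * b 3 * h3
  · linear_combination b 1 * h1 + b 3 * h2 - b 2 * h3

private theorem Wed_qf {A B C F : ℤ} (hF : F ≠ 0) {b v : Fin 4 → ℤ} (h : ∀ i, Ps A B C b i = F * v i) :
    v 0 * v 1 + A * v 2 ^ 2 + B * v 2 * v 3 + C * v 3 ^ 2 = 0 := by
  have h0 := h 0
  have h1 := h 1
  have h2 := h 2
  have h3 := h 3
  have hq := qf_Ps A B C b
  simp only [qf] at hq
  rw [h0, h1, h2, h3] at hq
  have : F ^ 2 * (v 0 * v 1 + A * v 2 ^ 2 + B * v 2 * v 3 + C * v 3 ^ 2) = 0 := by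
    linear_combination hq
  rcases mul_eq_zero.1 this with h | h
  · exact absurd (pow_eq_zero_iff (two_ne_zero) |>.1 h) hF
  · exact h

theorem wed {A B C : ℤ} (hD : B ^ 2 - 4 * A * C < 0) {b b' v : Fin 4 → ℤ} (hv : Pr4 v) {F F' : ℤ} (hF : F ≠ 0)
    (hF' : F' ≠ 0) (h : ∀ i, Ps A B C b i = F * v i) (h' : ∀ i, Ps A B C b' i = F' * v i) :
    ∃ m X : ℤ, wd b b' 0 1 = m * v 0 ∧ wd b b' 2 3 = -(m * v 1) ∧ wd b b' 0 2 = -(C * (m * v 3)) ∧
      wd b b' 0 3 = m * (A * v 2 + B * v 3) ∧ wd b b' 1 2 = -(m * v 2) ∧ wd b b' 1 3 = -(m * v 3) ∧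
      X ^ 2 - 4 * F * F' = (B ^ 2 - 4 * A * C) * m ^ 2 ∧
      (∀ i, Ps A B C (fun a => b a + b' a) i = (F + F' + X) * v i) ∧
      (∀ i, Ps A B C (fun a => b a - b' a) i = (F + F' - X) * v i) := by
  have hqf := Wed_qf hF h
  obtain ⟨e1, e2, e3, e4⟩ := wed_lin hF h
  obtain ⟨e1', e2', e3', e4'⟩ := wed_lin hF' h'
  have h0 := h 0
  have h1 := h 1
  have h2 := h 2
  have h3 := h 3
  have h0' := h' 0
  have h1' := h' 1
  have h2' := h' 2
  have h3' := h' 3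
  simp only [Ps, Nn, Tt, Matrix.cons_val] at h0 h1 h2 h3 h0' h1' h2' h3'
  by_cases hv0 : v 0 = 0
  · -- the degenerate case
    rw [hv0] at hqf
    have hA : A ≠ 0 := by
      rintro rfl
      linarith [sq_nonneg B]
    have hkey : (2 * A * v 2 + B * v 3) ^ 2 = (B ^ 2 - 4 * A * C) * v 3 ^ 2 := by
      linear_combination 4 * A * hqf
    have hv3 : v 3 = 0 := by
      by_contra hne
      have h9 : 0 < v 3 ^ 2 := by positivity
      have h10 := mul_neg_of_neg_of_pos hD h9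
      have h11 := sq_nonneg (2 * A * v 2 + B * v 3)
      rw [hkey] at h11
      exact absurd h10 (not_lt.2 h11)
    have hv2 : v 2 = 0 := by
      rw [hv3] at hkey
      have : (2 * A * v 2) ^ 2 = 0 := by linear_combination hkey
      have := pow_eq_zero_iff (two_ne_zero) |>.1 this
      rcases mul_eq_zero.1 this with h | h
      · exact absurd h (mul_ne_zero two_ne_zero hA)
      · exact h
    have hv1 : v 1 ^ 2 = 1 := by
      obtain ⟨a0, a1, a2, a3, ha⟩ := Wed_bez hv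
      rw [hv0, hv2, hv3] at ha
      have hu : a1 * v 1 = 1 := by linear_combination ha
      have : v 1 = 1 ∨ v 1 = -1 := Int.isUnit_iff.1 (IsUnit.of_mul_eq_one_right a1 hu)
      rcases this with h | h <;> rw [h] <;> norm_num
    have hv1n : v 1 ≠ 0 := by
      intro h
      rw [h] at hv1
      norm_num at hv1
    rw [hv2, hv3] at e3 e4 e3' e4'
    have hb0 : b 0 = 0 := by
      have : v 1 * b 0 = 0 := by linear_combination -e3
      exact (mul_eq_zero.1 this).resolve_left hv1n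
    have hb1 : b 1 = 0 := by
      have : v 1 * b 1 = 0 := by linear_combination -e4
      exact (mul_eq_zero.1 this).resolve_left hv1n
    have hb0' : b' 0 = 0 := by
      have : v 1 * b' 0 = 0 := by linear_combination -e3'
      exact (mul_eq_zero.1 this).resolve_left hv1n
    have hb1' : b' 1 = 0 := by
      have : v 1 * b' 1 = 0 := by linear_combination -e4'
      exact (mul_eq_zero.1 this).resolve_left hv1n
    refine ⟨-v 1 * (b 2 * b' 3 - b 3 * b' 2),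
      -v 1 * (2 * A * b 2 * b' 2 + B * (b 2 * b' 3 + b 3 * b' 2) + 2 * C * b 3 * b' 3), ?_, ?_, ?_, ?_, ?_, ?_, ?_, ?_, ?_⟩
    · simp only [wd, hb0, hb1, hb0', hb1', hv0]; ring
    · simp only [wd]
      linear_combination -(b 2 * b' 3 - b 3 * b' 2) * hv1
    · simp only [wd, hb0, hb0', hv3]; ring
    · simp only [wd, hb0, hb0', hv3, hv2]; ring
    · simp only [wd, hb1, hb1', hv2]; ring
    · simp only [wd, hb1, hb1', hv3]; ring
    · have hT : (A * b 2 ^ 2 + B * b 2 * b 3 + C * b 3 ^ 2) * (A * b' 2 ^ 2 + B * b' 2 * b' 3 + C * b' 3 ^ 2) = F * F' := by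
        have : (A * b 2 ^ 2 + B * b 2 * b 3 + C * b 3 ^ 2) * (A * b' 2 ^ 2 + B * b' 2 * b' 3 + C * b' 3 ^ 2) =
          (F * v 1) * (F' * v 1) := by rw [← h1, ← h1']; ring
        rw [this]
        linear_combination F * F' * hv1
      linear_combination ((2 * A * b 2 * b' 2 + B * (b 2 * b' 3 + b 3 * b' 2) + 2 * C * b 3 * b' 3) ^ 2 -
        (B ^ 2 - 4 * A * C) * (b 2 * b' 3 - b 3 * b' 2) ^ 2) * hv1 + 4 * hT
    · intro i
      fin_cases i
      · simp only [Ps, Nn, Tt, Matrix.cons_val, Fin.zero_eta, hb0, hb1, hb0', hb1', hv0]; ring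
      · simp only [Ps, Nn, Tt, Matrix.cons_val, Fin.mk_one]
        linear_combination h1 + h1' + (2 * A * b 2 * b' 2 + B * (b 2 * b' 3 + b 3 * b' 2) + 2 * C * b 3 * b' 3) * hv1
      · simp only [Ps, Nn, Tt, Matrix.cons_val, Fin.reduceFinMk, hb0, hb1, hb0', hb1', hv2]; ring
      · simp only [Ps, Nn, Tt, Matrix.cons_val, Fin.reduceFinMk, hb0, hb1, hb0', hb1', hv3]; ring
    · intro i
      fin_cases i
      · simp only [Ps, Nn, Tt, Matrix.cons_val, Fin.zero_eta, hb0, hb1, hb0', hb1', hv0]; ring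
      · simp only [Ps, Nn, Tt, Matrix.cons_val, Fin.mk_one]
        linear_combination h1 + h1' - (2 * A * b 2 * b' 2 + B * (b 2 * b' 3 + b 3 * b' 2) + 2 * C * b 3 * b' 3) * hv1
      · simp only [Ps, Nn, Tt, Matrix.cons_val, Fin.reduceFinMk, hb0, hb1, hb0', hb1', hv2]; ring
      · simp only [Ps, Nn, Tt, Matrix.cons_val, Fin.reduceFinMk, hb0, hb1, hb0', hb1', hv3]; ring
  · -- the main case
    have p12 : v 0 * (b 1 * b' 2 - b 2 * b' 1) = -v 2 * (b 0 * b' 1 - b 1 * b' 0) := by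
      linear_combination b 1 * e1' - b' 1 * e1
    have p13 : v 0 * (b 1 * b' 3 - b 3 * b' 1) = -v 3 * (b 0 * b' 1 - b 1 * b' 0) := by
      linear_combination b 1 * e2' - b' 1 * e2
    have p02 : v 0 * (b 0 * b' 2 - b 2 * b' 0) = -C * v 3 * (b 0 * b' 1 - b 1 * b' 0) := by
      linear_combination b 0 * e1' - b' 0 * e1
    have p03 : v 0 * (b 0 * b' 3 - b 3 * b' 0) = (A * v 2 + B * v 3) * (b 0 * b' 1 - b 1 * b' 0) := by
      linear_combination b 0 * e2' - b' 0 * e2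
    have p23 : v 0 * (b 2 * b' 3 - b 3 * b' 2) = -v 1 * (b 0 * b' 1 - b 1 * b' 0) := by
      apply mul_left_cancel₀ hv0
      have t : v 0 * (b 2 * b' 3 - b 3 * b' 2) = v 2 * (b 0 * b' 3 - b 3 * b' 0) - C * v 3 * (b 1 * b' 3 - b 3 * b' 1) := by
        linear_combination b' 3 * e1 - b 3 * e1'
      rw [t]
      linear_combination v 2 * p03 - C * v 3 * p13 + (b 0 * b' 1 - b 1 * b' 0) * hqf
    obtain ⟨a0, a1, a2, a3, ha⟩ := Wed_bez hv
    set m : ℤ := a0 * (b 0 * b' 1 - b 1 * b' 0) - a1 * (b 2 * b' 3 - b 3 * b' 2) - a2 * (b 1 * b' 2 - b 2 * b' 1) -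
      a3 * (b 1 * b' 3 - b 3 * b' 1) with hm
    have q01 : b 0 * b' 1 - b 1 * b' 0 = m * v 0 := by
      rw [hm]
      linear_combination -(b 0 * b' 1 - b 1 * b' 0) * ha + a1 * p23 + a2 * p12 + a3 * p13
    have q23 : b 2 * b' 3 - b 3 * b' 2 = -(m * v 1) := by
      apply mul_left_cancel₀ hv0
      rw [p23, q01]; ring
    have q02 : b 0 * b' 2 - b 2 * b' 0 = -(C * (m * v 3)) := by
      apply mul_left_cancel₀ hv0
      rw [p02, q01]; ring
    have q03 : b 0 * b' 3 - b 3 * b' 0 = m * (A * v 2 + B * v 3) := by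
      apply mul_left_cancel₀ hv0
      rw [p03, q01]; ring
    have q12 : b 1 * b' 2 - b 2 * b' 1 = -(m * v 2) := by
      apply mul_left_cancel₀ hv0
      rw [p12, q01]; ring
    have q13 : b 1 * b' 3 - b 3 * b' 1 = -(m * v 3) := by
      apply mul_left_cancel₀ hv0
      rw [p13, q01]; ring
    have hP : (2 * b 0 * b' 0 + B * (b 0 * b' 1 + b 1 * b' 0) + 2 * A * C * b 1 * b' 1) ^ 2 =
        v 0 ^ 2 * (4 * F * F' + (B ^ 2 - 4 * A * C) * m ^ 2) := by
      have hN : (b 0 ^ 2 + B * b 0 * b 1 + A * C * b 1 ^ 2) * (b' 0 ^ 2 + B * b' 0 * b' 1 + A * C * b' 1 ^ 2) =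
          (F * v 0) * (F' * v 0) := by rw [← h0, ← h0']
      have hsq : (b 0 * b' 1 - b 1 * b' 0) ^ 2 = (m * v 0) ^ 2 := by rw [q01]
      linear_combination 4 * hN + (B ^ 2 - 4 * A * C) * hsq
    have hdv : v 0 ∣ 2 * b 0 * b' 0 + B * (b 0 * b' 1 + b 1 * b' 0) + 2 * A * C * b 1 * b' 1 :=
      (Int.pow_dvd_pow_iff two_ne_zero).1 ⟨_, hP⟩
    obtain ⟨X, hX⟩ := hdv
    have hX2 : X ^ 2 = 4 * F * F' + (B ^ 2 - 4 * A * C) * m ^ 2 := by
      rw [hX, mul_pow] at hP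
      exact mul_left_cancel₀ (pow_ne_zero 2 hv0) hP
    have r1 : -(2 * A * b 2 * b' 2 + B * (b 2 * b' 3 + b 3 * b' 2) + 2 * C * b 3 * b' 3) = X * v 1 := by
      apply mul_left_cancel₀ (pow_ne_zero 2 hv0)
      have t22 : (v 0 * b 2) * (v 0 * b' 2) = (v 2 * b 0 - C * v 3 * b 1) * (v 2 * b' 0 - C * v 3 * b' 1) := by
        rw [e1, e1']
      have t23 : (v 0 * b 2) * (v 0 * b' 3) = (v 2 * b 0 - C * v 3 * b 1) * (v 3 * b' 0 + (A * v 2 + B * v 3) * b' 1) := by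
        rw [e1, e2']
      have t32 : (v 0 * b 3) * (v 0 * b' 2) = (v 3 * b 0 + (A * v 2 + B * v 3) * b 1) * (v 2 * b' 0 - C * v 3 * b' 1) := by
        rw [e2, e1']
      have t33 : (v 0 * b 3) * (v 0 * b' 3) =
          (v 3 * b 0 + (A * v 2 + B * v 3) * b 1) * (v 3 * b' 0 + (A * v 2 + B * v 3) * b' 1) := by
        rw [e2, e2']
      linear_combination -2 * A * t22 - B * (t23 + t32) - 2 * C * t33 + v 0 * v 1 * hX -
        (2 * b 0 * b' 0 + B * (b 0 * b' 1 + b 1 * b' 0) + 2 * A * C * b 1 * b' 1) * hqf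
    have r2 : b 0 * b' 2 + b' 0 * b 2 + B * (b 1 * b' 2 + b' 1 * b 2) + C * (b 1 * b' 3 + b' 1 * b 3) = X * v 2 := by
      apply mul_left_cancel₀ hv0
      linear_combination b 0 * e1' + b' 0 * e1 + B * (b 1 * e1' + b' 1 * e1) + C * (b 1 * e2' + b' 1 * e2) + v 2 * hX
    have r3 : b 0 * b' 3 + b' 0 * b 3 - A * (b 1 * b' 2 + b' 1 * b 2) = X * v 3 := by
      apply mul_left_cancel₀ hv0
      linear_combination b 0 * e2' + b' 0 * e2 - A * (b 1 * e1' + b' 1 * e1) + v 3 * hX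
    refine ⟨m, X, q01, q23, q02, q03, q12, q13, by rw [hX2]; ring, ?_, ?_⟩
    · intro i
      fin_cases i
      · simp only [Ps, Nn, Tt, Matrix.cons_val, Fin.zero_eta]
        linear_combination h0 + h0' + hX
      · simp only [Ps, Nn, Tt, Matrix.cons_val, Fin.mk_one]
        linear_combination h1 + h1' + r1
      · simp only [Ps, Nn, Tt, Matrix.cons_val, Fin.reduceFinMk]
        linear_combination h2 + h2' + r2
      · simp only [Ps, Nn, Tt, Matrix.cons_val, Fin.reduceFinMk]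
        linear_combination h3 + h3' + r3
    · intro i
      fin_cases i
      · simp only [Ps, Nn, Tt, Matrix.cons_val, Fin.zero_eta]
        linear_combination h0 + h0' - hX
      · simp only [Ps, Nn, Tt, Matrix.cons_val, Fin.mk_one]
        linear_combination h1 + h1' - r1
      · simp only [Ps, Nn, Tt, Matrix.cons_val, Fin.reduceFinMk]
        linear_combination h2 + h2' - r2
      · simp only [Ps, Nn, Tt, Matrix.cons_val, Fin.reduceFinMk]
        linear_combination h3 + h3' - r3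

end Pool.Agent.PP5LA
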